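import Pool.Agent.MP_154433_an.p8.P2
import Pool.Agent.MP_154433_an.p5.T7

/-! Twisted line, part 6 (packed). -/

section PkSec5A

/-! Section 5 follows from its rows. -/

set_option autoImplicit false
set_option linter.unusedVariables false
set_option warn.classDefReducibility false

open MeasureTheory ProbabilityTheory Filter Topology Function Finset ComplexConjugate
open scoped BigOperators
open Fib27 (BM sup pr Oc Orow F23 LInd Mem)
open Pool.Agent.MP_154433_an.SG (Uni ufn)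

noncomputable section

namespace T5h

open T3x T5y

namespace Sec5A

theorem keq_comp {Z Y W : Sys} {r : Z.X → Y.X} (h : Emb Z Y r) (D : MeasurableSpace W.X)
    {p p' : Y.X → W.X} (e : KEq Y.μ D p p') : KEq Z.μ D (p ∘ r) (p' ∘ r) :=
  fun A hA => h.mp.quasiMeasurePreserving.preimage_ae_eq (e A hA)

theorem int_comp {Z Y W : Sys} {r : Z.X → Y.X} (h : Emb Z Y r) {p p' : Y.X → W.X}
    (h1 : Emb Y W p) (h2 : Emb Y W.frz p') {f f' : W.X → ℂ} (hf : BM W.μ W.ms f)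
    (hf' : BM W.μ W.ms f') :
    ∫ x, f ((p ∘ r) x) * f' ((p' ∘ r) x) ∂Z.μ = ∫ x, f (p x) * f' (p' x) ∂Y.μ := by
  have m : AEStronglyMeasurable (fun x => f (p x) * f' (p' x)) (Z.μ.map r) := by
    rw [h.mp.map_eq]
    exact (hf.1.comp_quasiMeasurePreserving h1.mp.quasiMeasurePreserving).mul
      (hf'.1.comp_quasiMeasurePreserving h2.mp.quasiMeasurePreserving)
  have := integral_map h.mp.measurable.aemeasurable m
  rw [h.mp.map_eq] at this
  exact this.symm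

theorem hat (hA : HatA) (hB : HatB) (st : Sat5) (fd : Fd) (g : GC) (c : Cx) :
    Nonempty c.Hat := by
  obtain ⟨Xh, e, Bh, rp, adm, hle⟩ := hA fd g c true
  obtain ⟨X1, p1, p2, B1, e2, com, ind, adm1, le2⟩ := hB fd Xh Bh adm.nice adm.kc
  obtain ⟨X2, B2, r, L1, admr, sat⟩ := st c.ν c.U X1 B1 adm1.nice adm1.kc
  have adm1' := fd.h.trans X2 X1 Xh B2 B1 Bh r p1 adm.kc.1 admr adm1
  have adm2 := fd.h.trans X2 Xh c.X B2 Bh c.B (p1 ∘ r) _ c.kc.1 adm1' adm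
  obtain ⟨Lp, hLp⟩ := fd.la.ex L1 c.L _ adm2.emb
  refine ⟨⟨Xh, e, true, rp, X2, p1 ∘ r, p2 ∘ r, adm1'.emb, fd.t.emb_comp _ _ _ _ _ admr.emb e2,
    keq_comp admr.emb _ com,
    fun f f' hf hf' => (int_comp admr.emb adm1.emb e2 hf hf').trans (ind f f' hf hf'),
    B2, adm2, fun a => ?_, ?_, L1, Lp, hLp, sat⟩⟩
  · refine le_trans ?_ adm1'.le
    refine sup_le_sup_right ?_ _
    rw [← MeasurableSpace.comap_comp]
    exact MeasurableSpace.comap_mono (le_trans le_sup_left (hle a))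
  · refine le_trans ?_ admr.le
    refine sup_le_sup_right ?_ _
    rw [← MeasurableSpace.comap_comp]
    exact MeasurableSpace.comap_mono (le_trans le_sup_left le2)

theorem ty (hA : TyA) (hB : TyB) (fd : Fd) (g : GC) (z : ZC) (c : Cx) (H : c.Hat)
    (𝒱 : Subgroup (Uni c.X.X)) (s : 𝒱 ≃* 𝒱) (cl : c.CL) (ex : c.Exh 𝒱 s) : H.Ty 𝒱 := by
  have hm : ∀ q u, MeasurableSet (c.ZV 𝒱 q u) := fun q u =>
    (g.ctx c).kc2.1.le _ ((z.zv c 𝒱 s ex).meas q u)
  refine ⟨hA fd g z c H 𝒱 s cl ex, fun q u _ u' _ => ?_, fun q u _ => hB fd g z c H q _ (hm q u)⟩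
  filter_upwards [hB fd g z c H q _ ((hm q u').diff (hm q u))] with w hw h1 h2
  by_contra h3
  obtain ⟨i, hi⟩ := hw ⟨h2, h3⟩
  exact hi.2 (h1 i hi.1)

theorem psi (hA : PsiA) (hB : PsiB) (fd : Fd) (rc : Rc) (g : GC) (z : ZC) : PsiS := by
  intro c H 𝒱 s g0 ex
  obtain ⟨h1, h2, h3, h4⟩ := hA fd g z c H 𝒱 s g0 ex
  refine ⟨H.HH 𝒱 g0, Finsupp.domCongr s.toEquiv, H.psi 𝒱 g0, fun _ _ => Iff.rfl, h1,
    ⟨h2, fun v v' => Eventually.of_forall (h3 v v'), h4, hB fd rc g z hA c H 𝒱 s g0 ex⟩,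
    fun u x hx => ?_, fun u x hx => ?_⟩
  · unfold Cx.Hat.psi
    rw [Finsupp.prod_single_index (by simp), if_pos hx, zpow_one]
  · unfold Cx.Hat.psi
    rw [Finsupp.prod_single_index (by simp), if_neg hx, zpow_one]

/-- all rows -/
structure Rows : Prop where
  r2a : R2aR
  cm : CmR
  ctx : CtxR
  psc : PscR
  ff : FfR
  zv : ZvR
  ht : HtR
  exh : ExhR
  hatA : HatA
  hatB : HatB
  tyA : TyA
  tyB : TyB
  mixL : MixL
  dom : DomS
  posB : PosB
  psiA : PsiA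
  psiB : PsiB
  bunB : BunB
  relC : RelC
  stpA : StpA
  flat : FlatR
  stpB : StpB
  algA : AlgA
  algT : AlgT
  algB : AlgB
  algC : AlgC

theorem out (r : Rows) : Sec5 := by
  intro fd rc sa i2 pr pz st flx pass alg c g cl t5
  have r2 : R2 := ⟨r.r2a fd rc, r.cm fd rc (r.r2a fd rc)⟩
  have cx := r.ctx fd i2 pr pz
  have G : GC := ⟨r2, pz, cx, r.psc fd rc, fun c V _ _ sg ψ h =>
    r.ff fd rc r2 c V sg ψ (cx c) (r.psc fd rc _ _ V sg ψ c.kc.1 h) h⟩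
  have Z : ZC := ⟨r.zv fd rc G, r.ht fd sa G⟩
  obtain ⟨𝒱, s, ex, hg⟩ := r.exh fd G c g
  obtain ⟨H⟩ := hat r.hatA r.hatB st fd G c
  have hty := ty r.tyA r.tyB fd G Z c H 𝒱 s cl ex
  have pos := r.posB fd G Z r.mixL r.dom c H 𝒱 s g ex hty hg t5
  obtain ⟨c1, V, i1, i2', sg, ψ, sat, hψ, bun⟩ :=
    r.bunB fd rc G Z (psi r.psiA r.psiB fd rc G Z) c H 𝒱 s g true false ex hty hg pos
  obtain ⟨h1, h2, h3, h4, h5⟩ := r.stpA fd rc G c1 V sg ψ true false (by decide) hψ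
  exact r.algC fd rc i2 G r.algA r.algT r.algB r.relC pass alg c1 V sg ψ hψ
    ⟨h1, h2, h3, h4, h5, r.stpB fd G c1 V sg ψ true false (by decide) hψ
      (r.flat fd G c1 V sg ψ (flx c1 sat) hψ)⟩ bun

end Sec5A

end T5h

end

end PkSec5A

section PkGP1

/-! Section 5: partners, the extension, types, the functions `ψ`. -/

set_option autoImplicit false
set_option linter.unusedVariables false
set_option warn.classDefReducibility false

open MeasureTheory ProbabilityTheory Filter Topology Function Finset ComplexConjugate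
open scoped BigOperators
open Fib27 (BM sup pr Oc Orow F23 LInd Mem)
open Pool.Agent.MP_154433_an.SG (Uni ufn)

noncomputable section

namespace T5h

open T3x T5y

section

open Pool.Agent.MP_154433_an.SG (ucomap)

namespace GExhL

def stg {G : Type} (S0 : Set G) (N : G → G → Set G) : ℕ → Set G
  | 0 => S0
  | n + 1 => stg S0 N n ∪ ⋃ a ∈ stg S0 N n, ⋃ b ∈ stg S0 N n, N a b

lemma clos {G : Type} (S0 : Set G) (h0 : S0.Countable) (N : G → G → Set G)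
    (hN : ∀ a b, (N a b).Countable) :
    ∃ S : Set G, S.Countable ∧ S0 ⊆ S ∧ ∀ a ∈ S, ∀ b ∈ S, N a b ⊆ S := by
  have hc : ∀ n, (stg S0 N n).Countable := fun n => by
    induction n with
    | zero => exact h0
    | succ n ih => exact ih.union (ih.biUnion fun a _ => ih.biUnion fun b _ => hN a b)
  have hm : Monotone (stg S0 N) := monotone_nat_of_le_succ fun n => Set.subset_union_left
  refine ⟨⋃ n, stg S0 N n, Set.countable_iUnion hc, Set.subset_iUnion (stg S0 N) 0, ?_⟩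
  intro a ha b hb x hx
  obtain ⟨n, hn⟩ := Set.mem_iUnion.1 ha
  obtain ⟨m, hm'⟩ := Set.mem_iUnion.1 hb
  refine Set.mem_iUnion.2 ⟨max n m + 1, Or.inr ?_⟩
  exact Set.mem_biUnion (hm (le_max_left n m) hn) (Set.mem_biUnion (hm (le_max_right n m) hm') hx)

end GExhL

open GExhL

theorem xExh : ExhR := by
  intro fd gc c g
  have hB : c.B2 ≤ c.W.ms := (gc.ctx c).kc2.1.le
  have hp : ∀ (q : Bool) (a : Uni c.X.X), ∃ 𝒢 : Set (Bool → Uni c.X.X), 𝒢.Countable ∧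
      (∀ g' ∈ 𝒢, g' q = a) ∧ ∀ g' : Bool → Uni c.X.X, g' q = a →
        c.Θ g' ≤ᵐ[c.W.μ] (⋃ g1 ∈ 𝒢, c.Θ g1 : Set c.W.X) := by
    intro q a
    obtain ⟨𝒜, h1, h2, h3⟩ := fd.d.ess c.W.μ
      ((fun g' => c.Θ g') '' {g' : Bool → Uni c.X.X | g' q = a}) (by
        rintro _ ⟨g', _, rfl⟩
        exact hB _ (gc.r2.meas c.B2 c.AZ c.W.μ _))
    obtain ⟨𝒢0, h4, rfl⟩ := Set.subset_image_iff.1 h1
    obtain ⟨𝒢, h5, h6⟩ := Set.exists_subset_bijOn 𝒢0 fun g' => c.Θ g'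
    refine ⟨𝒢, Set.countable_of_injective_of_countable_image h6.injOn (by rwa [h6.image_eq]),
      fun g' hg' => h4 (h5 hg'), fun g' hg' => ?_⟩
    have h7 := h3 _ ⟨g', hg', rfl⟩
    rw [← h6.image_eq, Set.sUnion_image] at h7
    exact h7
  choose 𝒢 hc hq he using hp
  let σ : Uni c.X.X → Uni c.X.X := ucomap c.X.T c.X.T.measurable
  let τ : Uni c.X.X → Uni c.X.X := ucomap c.X.T.symm c.X.T.symm.measurable
  obtain ⟨S, s1, s2, s3⟩ := clos (insert 1 (Set.range g))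
    ((Set.countable_range g).insert 1)
    (fun a b => {a * b, a⁻¹, σ a, τ a} ∪ ⋃ q, ⋃ g' ∈ 𝒢 q a, Set.range g')
    (fun a b => (Set.to_countable _).union (Set.countable_iUnion fun q =>
      (hc q a).biUnion fun g' _ => Set.countable_range g'))
  let 𝒱 : Subgroup (Uni c.X.X) :=
    { carrier := S
      mul_mem' := fun {a b} ha hb => s3 a ha b hb (Or.inl (Or.inl rfl))
      one_mem' := s2 (Or.inl rfl)
      inv_mem' := fun {a} ha => s3 a ha a ha (Or.inl (Or.inr (Or.inl rfl))) }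
  let s : 𝒱 ≃* 𝒱 :=
    { toFun := fun a => ⟨σ a.1, s3 a.1 a.2 a.1 a.2 (Or.inl (Or.inr (Or.inr (Or.inl rfl))))⟩
      invFun := fun a => ⟨τ a.1, s3 a.1 a.2 a.1 a.2 (Or.inl (Or.inr (Or.inr (Or.inr rfl))))⟩
      left_inv := fun a => Subtype.ext (Subtype.ext (funext fun x =>
        congrArg a.1.1 (c.X.T.apply_symm_apply x)))
      right_inv := fun a => Subtype.ext (Subtype.ext (funext fun x =>
        congrArg a.1.1 (c.X.T.symm_apply_apply x)))
      map_mul' := fun a b => rfl }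
  refine ⟨𝒱, s, ⟨s1.to_subtype, fun a x => rfl, fun q g' hg' => ?_⟩,
    fun k => s2 (Or.inr ⟨k, rfl⟩)⟩
  refine (he q (g' q) g' rfl).trans (LE.le.eventuallyLE ?_)
  refine Set.biUnion_subset_biUnion_left fun g1 h1 => ⟨fun k => ?_, hq q _ g1 h1⟩
  exact s3 _ hg' _ hg' (Or.inr (Set.mem_iUnion.2 ⟨q, Set.mem_biUnion h1 ⟨k, rfl⟩⟩))

end

section

namespace GHatA

lemma fct (a : BasA) {Y X : Sys} (B : MeasurableSpace X.X) (hB : B ≤ X.ms) {p : Y.X → X.X}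
    (hp : Emb Y X p) {f : Y.X → ℂ} (hf : BM Y.μ (pull Y.μ p B) f) :
    ∃ f' : X.X → ℂ, BM X.μ B f' ∧ f =ᵐ[Y.μ] fun x => f' (p x) := by
  obtain ⟨h1, C, hC⟩ := hf
  obtain ⟨f', m, b, e⟩ := a.fact B Y.μ p f (max C 0)
    ((MeasurableSpace.comap_mono hB).trans (@Measurable.comap_le _ _ Y.ms X.ms p
      (@MeasurePreserving.measurable _ _ Y.ms X.ms p _ _ hp.mp))) (le_max_right _ _) h1
    (hC.mono fun x hx => hx.trans (le_max_left _ _))
  exact ⟨f', ⟨m.stronglyMeasurable.aestronglyMeasurable, _, Eventually.of_forall b⟩, e⟩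

lemma pmono {Y X : Sys} {B B' : MeasurableSpace X.X} (h : B ≤ B') (p : Y.X → X.X) :
    pull Y.μ p B ≤ pull Y.μ p B' := sup_le_sup_right (MeasurableSpace.comap_mono h) _

/-- the base of the line and a point are independent over the base of the point -/
lemma cpq (F : Fd) (c : Cx) (cc : CtxC c) (q : Bool) :
    CP c.B2 (pull c.W.μ (c.π q) c.B) (pull c.W.μ (c.π q) c.X.ms) c.W.μ := by
  refine F.c.cp_symm _ _ _ c.W.μ (cc.facP q).le cc.kc2.1.le ((cc.slot q).trans cc.le2)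
    (pmono cc.facB.le _) fun f hf => ?_
  obtain ⟨f0, b0, e0⟩ := fct F.a c.X.ms le_rfl (cc.embπ q) hf
  exact (condExp_congr_ae e0).trans ((cc.ce q f0 b0).trans
    ((F.a.ce_comp c.B c.W.μ c.X.μ (c.π q) f0 (cc.embπ q).mp cc.facB.le b0.integrable).symm.trans
      (condExp_congr_ae e0).symm))

end GHatA

open GHatA in
theorem xHatA : HatA := by
  intro F gc c i0
  have cc := gc.ctx c
  obtain ⟨Z, e, rp⟩ := F.rp (ℕ × Bool) (fun _ => c.W) c.X c.X.ms (fun a => c.π a.2) (0, i0)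
    (fun _ => c.L.nice) (F.t.top c.X) (fun a => (cc.embπ a.2).mp)
    (fun a => F.t.emb_z c.W c.X _ 1 (cc.embπ a.2))
  have embq : ∀ a : ℕ × Bool, Emb Z c.X (c.π a.2 ∘ e a) := fun a =>
    F.t.emb_comp Z c.W c.X _ _ (rp.emb a) (cc.embπ a.2)
  have embp : Emb Z c.X (c.π i0 ∘ e (0, i0)) := embq (0, i0)
  have fD := F.t.fpull Z c.X _ c.B embp cc.facB
  have fY := F.t.fpull Z c.X _ c.X.ms embp (F.t.top c.X)
  have fE : ∀ a : ℕ × Bool, Fac Z (pull Z.μ (e a) c.B2) := fun a =>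
    F.t.fpull Z c.W _ c.B2 (rp.emb a) cc.kc2.1
  have fC := F.t.fisup Z (ℕ × Bool) _ _ fD fE
  refine ⟨Z, e, hull Z (pull Z.μ (c.π i0 ∘ e (0, i0)) c.B ⊔ ⨆ a, pull Z.μ (e a) c.B2), rp,
    F.h.adm Z c.X _ c.B _ rp.nice c.nice embp c.kc fC le_sup_left fun f hf => ?_,
    fun a => (le_sup_of_le_right (le_iSup (fun a => pull Z.μ (e a) c.B2) a)).trans (F.h.le Z _)⟩
  have hf0 := hf.mono fY.le
  have hDY := pmono (Y := Z) cc.facB.le (c.π i0 ∘ e (0, i0))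
  have hg := hf.sub ((hf.ce (pull Z.μ (c.π i0 ∘ e (0, i0)) c.B)).mono hDY)
  have hE : (⨆ a, pull Z.μ (e a) c.B2) ≤ Z.ms := iSup_le fun a => (fE a).le
  refine Fib27.ce_eq_of_perp fC.le hf0 ((hf.ce _).mono le_sup_left)
    (Fib27.perp_sup fD.le hE (hg.mono fY.le) fun a b ha hb => ?_)
  have hga := hg.mul (ha.mono hDY)
  have key := Fib27.perp_of_ce hE (hga.mono fY.le) (F.d.iperp (fun a => pull Z.μ (e a) c.B2) Z.μ
    (fun a => (fE a).le) _ (hga.mono fY.le).integrable fun S φ hφ => ?_) b hb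
  · simpa only [mul_assoc] using key
  have h1 : ∀ i : ℕ × Bool, ∃ φ' : c.W.X → ℂ, i ∈ S →
      BM c.W.μ c.B2 φ' ∧ φ i =ᵐ[Z.μ] fun z => φ' (e i z) := fun i => by
    by_cases hi : i ∈ S
    · obtain ⟨φ', h'⟩ := fct F.a c.B2 cc.kc2.1.le (rp.emb i) (hφ i hi)
      exact ⟨φ', fun _ => h'⟩
    · exact ⟨0, fun h => absurd h hi⟩
  choose φ' hφ' using h1
  have e1 : pr φ S =ᵐ[Z.μ] fun z => ∏ i ∈ S, φ' i (e i z) :=
    Fib27.pr_congr_ae (ρ' := fun i z => φ' i (e i z)) fun i hi => (hφ' i hi).2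
  have b1 : BM Z.μ Z.ms (pr φ S) := BM.pr fun i hi => (hφ i hi).mono (fE i).le
  have e2 := (condExp_congr_ae e1).trans
    (rp.ind S φ' fun i hi => (hφ' i hi).1.mono cc.kc2.1.le)
  have b2 : BM Z.μ (pull Z.μ (c.π i0 ∘ e (0, i0)) c.B)
      (pr (fun i z => (c.W.μ[φ' i | pull c.W.μ (c.π i.2) c.X.ms]) (e i z)) S) := by
    refine BM.pr fun i hi => ?_
    obtain ⟨u, bu, eu⟩ := fct F.a c.B cc.facB.le (cc.embπ i.2)
      ((hφ' i hi).1.ce (pull c.W.μ (c.π i.2) c.B))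
    have e3 := (rp.emb i).mp.quasiMeasurePreserving.ae_eq_comp
      ((cpq F c cc i.2 _ (hφ' i hi).1).trans eu)
    have e4 := F.a.keq_fun c.X.ms Z.μ c.X.μ _ _ u (embq i).mp embp.mp (rp.com i)
      (bu.mono cc.facB.le).1
    exact (F.a.bm_comp c.B Z.μ c.X.μ _ u embp.mp bu).congr (e3.trans e4).symm
  rw [← Fib27.int_mul_ce fY.le hga b1]
  have := Fib27.perp_sub_ce fD.le hf0 _ (ha.mul b2)
  rw [← this]
  refine integral_congr_ae (e2.mono fun z hz => ?_)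
  simp only [hz, pr, mul_assoc]

end

section

namespace GHt

/-- almost invariant sets have the same preimage in all slots -/
theorem slot_inv (F : Fd) {ν : Wt} {U : Ultrafilter ℕ} {X : Sys} (L : Ln ν U X) (s s' : Slot)
    (D : Set X.X) (hD : MeasurableSet D) (h : X.T ⁻¹' D =ᵐ[X.μ] D) :
    L.π s ⁻¹' D =ᵐ[L.W.μ] L.π s' ⁻¹' D := by
  have h1 : AEStronglyMeasurable[T3x.Inv X] (D.indicator fun _ => (1 : ℂ)) X.μ := by
    refine (F.t.inv_iff X _ (aestronglyMeasurable_const.indicator hD)).2 ?_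
    filter_upwards [h] with x hx
    have e : X.T x ∈ D ↔ x ∈ D := Iff.of_eq hx
    by_cases c : x ∈ D
    · rw [Set.indicator_of_mem c, Set.indicator_of_mem (e.2 c)]
    · rw [Set.indicator_of_notMem c, Set.indicator_of_notMem fun c' => c (e.1 c')]
  filter_upwards [F.a.keq_fun (T3x.Inv X) L.W.μ X.μ (L.π s) (L.π s') _ (L.emb s).mp (L.emb s').mp
    (F.lb.inv L s s') h1] with w hw
  change (L.π s w ∈ D) = (L.π s' w ∈ D)
  by_cases a : L.π s w ∈ D <;> by_cases b : L.π s' w ∈ D <;> simp_all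

end GHt

open GHt in
theorem xHt : HtR := by
  intro F S G c H
  have embp : Emb H.X1 c.X H.p := H.adm.emb
  have frzT : KEq H.X1.μ H.Xh.ms (H.p2 ∘ H.X1.T) H.p2 := H.emb2.eqv
  refine ⟨embp, fun a => F.t.emb_comp _ _ _ _ _ H.emb1 (H.rp.emb a), fun a A hA => ?_, H.lift.emb,
    fun k => H.L1.emb _, fun k => F.la.slot H.L1 c.L _ H.Lp (zs k) embp H.lift, H.adm.kc.1,
    (S.ob H.L1 c.L H.B1 c.B H.p H.Lp zs H.i0 c.kc.1 H.adm.kc.1 embp H.adm.le H.lift).2,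
    G.az.lift H.L1 c.L H.p H.Lp c.B H.B1 embp H.lift c.kc.1 H.adm.kc.1 H.adm.le,
    fun f hf => ?_, fun j k A hA => ?_, frzT⟩
  · exact H.emb1.mp.quasiMeasurePreserving.preimage_ae_eq (H.rp.com a A hA)
  · exact (H.adm.cp _ (F.a.bm_comp c.X.ms H.X1.μ c.X.μ H.p f embp.mp hf)).trans
      (F.a.ce_comp c.B H.X1.μ c.X.μ H.p f embp.mp c.kc.1.le hf.integrable)
  · exact T5h.GHt.slot_inv F H.L1 (zs j) (zs k) (H.p2 ⁻¹' A) (H.emb2.mp.measurable hA) (frzT A hA)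

end

section

namespace GTyA

theorem one_way (fd : Fd) (gc : GC) (zc : ZC) (c : Cx) (H : c.Hat) (𝒱 : Subgroup (Uni c.X.X))
    (s : 𝒱 ≃* 𝒱) (cl : c.CL) (ex : c.Exh 𝒱 s) (g : Bool → Uni c.X.X) (j k : Bool)
    (hg : ∀ i, g i ∈ 𝒱) (a : ℕ × Bool) : ∀ᵐ w ∂H.L1.W.μ, H.Lp w ∈ c.Θ g →
      H.τ 𝒱 (g j) (H.p1 (H.π j w)) a → H.τ 𝒱 (g k) (H.p1 (H.π k w)) a := by
  have hc := gc.ctx c
  have ht := zc.ht c H
  have hz := zc.zv c 𝒱 s ex
  have hle : c.B2 ≤ c.W.ms := hc.kc2.1.le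
  obtain ⟨LP, hLP⟩ := fd.la.ex H.L1 c.L2 _ (ht.embe a)
  have hs : ∀ i, KEq H.L1.W.μ c.W.ms (c.A i ∘ LP) ((H.e a ∘ H.p1) ∘ H.π i) := fun i =>
    fd.la.slot H.L1 c.L2 _ LP (zs i) (ht.embe a) hLP
  have hl := fd.la.comp H.L1 c.L2 c.L _ _ LP (c.Bc a.2) (ht.embe a) (hc.embπ a.2) hLP (c.lift a.2)
  have hu : KEq H.L1.W.μ c.W.ms (c.Bc a.2 ∘ LP) H.Lp :=
    fd.la.uniq H.L1 c.L _ _ _ _ (fd.t.emb_comp _ _ _ _ _ (ht.embe a) (hc.embπ a.2)) ht.embp
      (ht.com a) hl H.lift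
  have h1 : ∀ᵐ w ∂H.L1.W.μ, ∀ h ∈ {g' : Bool → Uni c.X.X | ∀ k, g' k ∈ 𝒱}, h a.2 = g j →
      H.Lp w ∈ c.Θ g → H.e a (H.p1 (H.π j w)) ∈ c.Θ h →
      H.e a (H.p1 (H.π k w)) ∈ c.ZV 𝒱 a.2 (g k) := by
    rw [ae_ball_iff hz.cnt]
    intro h hh
    by_cases e : h a.2 = g j
    · have h2 := cl a.2 j k g h (c.ZV 𝒱 a.2 (g k)) e (hz.meas _ _) fun g' e' => by
        have := ex.exh a.2 g' (by rw [e']; exact hg k)
        rwa [e'] at this
      filter_upwards [hLP.emb.mp.quasiMeasurePreserving.ae h2, hu _ (hle _ (hz.tm g)),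
        hs j _ (hle _ (hz.tm h)), hs k _ (hle _ (hz.meas a.2 (g k)))] with w a1 a2 a3 a4 _ b1 b2
      exact a4.mp (a1 ⟨a2.mpr b1, a3.mpr b2⟩)
    · exact Eventually.of_forall fun w e' => absurd e' e
  filter_upwards [h1] with w hw b1 b2
  obtain ⟨h, hh, b3⟩ := Set.mem_iUnion₂.1 b2
  exact hw h hh.1 hh.2 b1 b3

end GTyA

open GTyA in
theorem xTyA : TyA := by
  intro fd gc zc c H 𝒱 s cl ex g j k hg
  filter_upwards [ae_all_iff.2 (one_way fd gc zc c H 𝒱 s cl ex g j k hg),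
    ae_all_iff.2 (one_way fd gc zc c H 𝒱 s cl ex g k j hg)] with w h1 h2 hw
  funext a
  exact propext ⟨h1 a hw, h2 a hw⟩

end

section

namespace GTyB

variable {Ω : Type} {m m0 : MeasurableSpace Ω} {μ : Measure Ω} [IsProbabilityMeasure μ]

theorem int_ind {E : Set Ω} (hE : MeasurableSet E) :
    ∫ x, E.indicator (fun _ => (1 : ℝ)) x ∂μ = μ.real E := by
  rw [integral_indicator hE]
  simp

/-- where the conditional probability of the complement has modulus one, the set is null -/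
theorem full (hm : m ≤ m0) {D E : Set Ω} (hD : MeasurableSet D) (hE : MeasurableSet[m] E)
    {b : Ω → ℂ} (hb : μ[Dᶜ.indicator fun _ => (1 : ℂ) | m] =ᵐ[μ] b)
    (h1 : ∀ x ∈ E, ‖b x‖ = 1) : ∀ᵐ x ∂μ, x ∈ D → x ∉ E := by
  have hE' : MeasurableSet E := hm E hE
  have hI : BM μ m0 (Dᶜ.indicator fun _ => (1 : ℂ)) := BM.indicator hD.compl
  have hg : BM μ m fun x => E.indicator (fun _ => (1 : ℂ)) x * conj (b x) :=
    (BM.indicator hE).mul ((hI.ce m).congr hb).conj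
  have e1 := Fib27.int_ce_mul hm hI hg
  have e2 : ∫ x, (μ[Dᶜ.indicator fun _ => (1 : ℂ) | m]) x *
      (E.indicator (fun _ => (1 : ℂ)) x * conj (b x)) ∂μ = (μ.real E : ℂ) := by
    rw [← int_ind hE', ← integral_complex_ofReal]
    refine integral_congr_ae ?_
    filter_upwards [hb] with x hx
    rw [hx]
    by_cases h : x ∈ E
    · simp only [Set.indicator_of_mem h, one_mul, Complex.ofReal_one]
      exact Fib27.mul_conj_uni (h1 x h)
    · simp [h]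
  have e3 : ‖∫ x, Dᶜ.indicator (fun _ => (1 : ℂ)) x *
      (E.indicator (fun _ => (1 : ℂ)) x * conj (b x)) ∂μ‖ ≤ μ.real (E \ D) := by
    rw [← int_ind (hE'.diff hD)]
    refine norm_integral_le_of_norm_le ((integrable_const _).indicator (hE'.diff hD))
      (Eventually.of_forall fun x => ?_)
    by_cases h : x ∈ E
    · by_cases h' : x ∈ D
      · simp [h, h']
      · simp [h, h', h1 x h]
    · simp [h]
  rw [← e1, e2, Complex.norm_real, Real.norm_of_nonneg measureReal_nonneg] at e3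
  have e4 := measureReal_inter_add_sdiff (μ := μ) (s := E) hD
  have e5 : μ.real (E ∩ D) = 0 := le_antisymm (by linarith) measureReal_nonneg
  rw [measureReal_eq_zero_iff] at e5
  filter_upwards [measure_eq_zero_iff_ae_notMem.1 e5] with x hx h h'
  exact hx ⟨h', h⟩

/-- independent samples miss a set of positive conditional probability with probability zero -/
theorem miss (hm : m ≤ m0) {D : ℕ → Set Ω} (hD : ∀ i, MeasurableSet (D i)) {b : Ω → ℂ}
    (hb : Measurable[m] b)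
    (h : ∀ n, μ[fun x => ∏ i ∈ range n, (D i)ᶜ.indicator (fun _ => (1 : ℂ)) x | m] =ᵐ[μ]
      fun x => b x ^ n) : ∀ᵐ x ∂μ, ‖b x‖ < 1 → ∃ i, x ∈ D i := by
  have key : ∀ r : ℝ, 0 ≤ r → r < 1 → μ ({x | ‖b x‖ ≤ r} ∩ ⋂ i, (D i)ᶜ) = 0 := by
    intro r hr0 hr
    have hA : MeasurableSet[m] {x | ‖b x‖ ≤ r} :=
      hb (measurableSet_le measurable_norm (measurable_const (a := r)))
    have hle : ∀ n : ℕ, μ.real ({x | ‖b x‖ ≤ r} ∩ ⋂ i, (D i)ᶜ) ≤ r ^ n := by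
      intro n
      have hM : MeasurableSet ({x | ‖b x‖ ≤ r} ∩ ⋂ i ∈ range n, (D i)ᶜ) :=
        (hm _ hA).inter (Finset.measurableSet_biInter _ fun i _ => (hD i).compl)
      have hP : BM μ m0 fun x => ∏ i ∈ range n, (D i)ᶜ.indicator (fun _ => (1 : ℂ)) x :=
        BM.pr (ρ := fun i => (D i)ᶜ.indicator fun _ => (1 : ℂ)) fun i _ =>
          BM.indicator (hD i).compl
      have e1 := Fib27.int_ce_mul hm hP (BM.indicator hA)
      have e2 : ∫ x, (∏ i ∈ range n, (D i)ᶜ.indicator (fun _ => (1 : ℂ)) x) *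
          {x | ‖b x‖ ≤ r}.indicator (fun _ => (1 : ℂ)) x ∂μ =
          (μ.real ({x | ‖b x‖ ≤ r} ∩ ⋂ i ∈ range n, (D i)ᶜ) : ℂ) := by
        rw [← int_ind hM, ← integral_complex_ofReal]
        refine integral_congr_ae (Eventually.of_forall fun x => ?_)
        by_cases h1 : x ∈ {x | ‖b x‖ ≤ r} ∩ ⋂ i ∈ range n, (D i)ᶜ
        · simp only [Set.indicator_of_mem h1, Set.indicator_of_mem h1.1, mul_one,
            Complex.ofReal_one]
          exact prod_eq_one fun i hi => Set.indicator_of_mem (Set.mem_iInter₂.1 h1.2 i hi) _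
        · simp only [Set.indicator_of_notMem h1, Complex.ofReal_zero]
          by_cases h2 : x ∈ {x | ‖b x‖ ≤ r}
          · have h3 : ¬ ∀ i ∈ range n, x ∈ (D i)ᶜ := fun h3 => h1 ⟨h2, Set.mem_iInter₂.2 h3⟩
            push Not at h3
            obtain ⟨i, hi, h3⟩ := h3
            rw [prod_eq_zero hi (Set.indicator_of_notMem h3 _), zero_mul]
          · rw [Set.indicator_of_notMem h2, mul_zero]
      have e3 : ‖∫ x, (μ[fun x => ∏ i ∈ range n, (D i)ᶜ.indicator (fun _ => (1 : ℂ)) x | m]) x *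
          {x | ‖b x‖ ≤ r}.indicator (fun _ => (1 : ℂ)) x ∂μ‖ ≤ r ^ n := by
        have := norm_integral_le_of_norm_le_const (μ := μ) (C := r ^ n) (f := fun x =>
          (μ[fun x => ∏ i ∈ range n, (D i)ᶜ.indicator (fun _ => (1 : ℂ)) x | m]) x *
          {x | ‖b x‖ ≤ r}.indicator (fun _ => (1 : ℂ)) x) (by
            filter_upwards [h n] with x hx
            rw [hx]
            by_cases h2 : x ∈ {x | ‖b x‖ ≤ r}
            · rw [Set.indicator_of_mem h2, mul_one, norm_pow]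
              exact pow_le_pow_left₀ (norm_nonneg _) h2 n
            · rw [Set.indicator_of_notMem h2, mul_zero, norm_zero]
              positivity)
        simpa using this
      rw [e1, e2, Complex.norm_real, Real.norm_of_nonneg measureReal_nonneg] at e3
      refine le_trans (measureReal_mono ?_) e3
      exact Set.inter_subset_inter_right _
        fun x hx => Set.mem_iInter₂.2 fun i _ => Set.mem_iInter.1 hx i
    rw [← measureReal_eq_zero_iff]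
    exact le_antisymm (ge_of_tendsto' (tendsto_pow_atTop_nhds_zero_of_lt_one hr0 hr) hle)
      measureReal_nonneg
  have key2 : ∀ k : ℕ, ∀ᵐ x ∂μ, x ∉ {x | ‖b x‖ ≤ 1 - 1 / ((k : ℝ) + 1)} ∩ ⋂ i, (D i)ᶜ := by
    intro k
    have h1 : (0 : ℝ) < 1 / ((k : ℝ) + 1) := Nat.one_div_pos_of_nat
    have h2 : 1 / ((k : ℝ) + 1) ≤ 1 := by
      rw [div_le_one (by positivity)]
      linarith [(Nat.cast_nonneg k : (0 : ℝ) ≤ k)]
    exact measure_eq_zero_iff_ae_notMem.1 (key _ (by linarith) (by linarith))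
  filter_upwards [ae_all_iff.2 key2] with x hx hlt
  obtain ⟨k, hk⟩ := exists_nat_one_div_lt (sub_pos.2 hlt)
  by_contra hno
  push Not at hno
  exact hx k ⟨by show ‖b x‖ ≤ _; linarith, Set.mem_iInter.2 hno⟩

end GTyB

open GTyB in
theorem xTyB : TyB := by
  intro fd gc zc c H q D hD
  have hc := gc.ctx c
  have ht := zc.ht c H
  have hI : BM c.W.μ c.W.ms (Dᶜ.indicator fun _ => (1 : ℂ)) := BM.indicator hD.compl
  have hbd : ∀ᵐ w ∂c.W.μ, ‖(c.W.μ[Dᶜ.indicator fun _ => (1 : ℂ) | c.P q]) w‖ ≤ 1 :=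
    ae_bdd_norm_condExp_of_ae_bdd_norm (Eventually.of_forall fun w => by
      by_cases h : w ∈ D <;> simp [h])
  obtain ⟨b, hb, hb1, eb⟩ := fd.a.fact c.X.ms c.W.μ (c.π q) _ 1
    (hc.embπ q).mp.measurable.comap_le zero_le_one (hI.ce (c.P q)).1 hbd
  have hA : MeasurableSet {x | ‖b x‖ = 1} := measurableSet_eq_fun hb.norm measurable_const
  have h1 : ∀ᵐ w ∂c.W.μ, w ∈ D → w ∉ c.π q ⁻¹' {x | ‖b x‖ = 1} :=
    full (hc.facP q).le hD ((le_sup_left : _ ≤ c.P q) _ ⟨_, hA, rfl⟩) eb fun x hx => hx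
  have he : ∀ a, MeasurePreserving (H.e a) H.Xh.μ c.W.μ := fun a => (H.rp.emb a).mp
  have hp0 : MeasurePreserving (c.π H.i0 ∘ H.e (0, H.i0)) H.Xh.μ c.X.μ :=
    (hc.embπ H.i0).mp.comp (he _)
  have h2 : ∀ᵐ y ∂H.Xh.μ, ‖b (c.π H.i0 (H.e (0, H.i0) y))‖ < 1 → ∃ i, y ∈ H.e (i, q) ⁻¹' D := by
    refine miss (fd.a.pull_le c.X.ms H.Xh.μ c.X.μ _ hp0 le_rfl)
      (fun i => (he _).measurable hD)
      ((hb.comp (comap_measurable (c.π H.i0 ∘ H.e (0, H.i0)))).mono le_sup_left le_rfl) fun n => ?_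
    classical
    have hinj : ∀ i ∈ range n, ∀ j ∈ range n, ((i, q) : ℕ × Bool) = (j, q) → i = j :=
      fun i _ j _ h => congrArg Prod.fst h
    have h3 : ∀ i : ℕ, (fun y => (c.W.μ[Dᶜ.indicator fun _ => (1 : ℂ) | c.P q]) (H.e (i, q) y))
        =ᵐ[H.Xh.μ] fun y => b (c.π H.i0 (H.e (0, H.i0) y)) := fun i =>
      ((he (i, q)).quasiMeasurePreserving.ae_eq_comp eb).trans
        (fd.a.keq_fun c.X.ms H.Xh.μ c.X.μ _ _ b ((hc.embπ q).mp.comp (he (i, q))) hp0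
          (H.rp.com (i, q)) hb.aestronglyMeasurable)
    have h4 := H.rp.ind ((range n).image fun i => (i, q)) (fun _ => Dᶜ.indicator fun _ => (1 : ℂ))
      fun _ _ => hI
    simp only [prod_image hinj] at h4
    refine h4.trans ?_
    filter_upwards [ae_all_iff.2 h3] with y hy
    exact (prod_congr rfl fun i _ => hy i).trans (by rw [prod_const, card_range])
  filter_upwards [ht.embL.mp.quasiMeasurePreserving.ae h1,
    (H.emb1.mp.comp (ht.embπ q).mp).quasiMeasurePreserving.ae h2, ht.sq q _ hA]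
    with w a1 a2 a3 hw
  refine a2 (lt_of_le_of_ne (hb1 _) fun h => a1 hw ?_)
  exact a3.mpr h

end

section

namespace GPosB

theorem meas_eq {Ω Y κ : Type} [MeasurableSpace Ω] [MeasurableSpace Y] [Countable κ]
    {a1 a2 : Ω → Y} {t t' : Y → κ → Prop} (h1 : Measurable a1) (h2 : Measurable a2)
    (ht : ∀ i, MeasurableSet {y | t y i}) (ht' : ∀ i, MeasurableSet {y | t' y i}) :
    MeasurableSet {x | t (a1 x) = t' (a2 x)} := by
  have e : {x | t (a1 x) = t' (a2 x)} = ⋂ i, {x | t (a1 x) i ↔ t' (a2 x) i} := by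
    ext x
    simp only [Set.mem_setOf_eq, Set.mem_iInter, funext_iff, eq_iff_iff]
  rw [e]
  exact MeasurableSet.iInter fun i => MeasurableSet.iff (h1 (ht i)) (h2 (ht' i))

section

variable {Ω : Type} {m m0 : MeasurableSpace Ω} {μ : Measure Ω} [IsProbabilityMeasure μ]
  {A E : Set Ω}

theorem ind_mul (A E : Set Ω) (x : Ω) :
    A.indicator (fun _ => (1 : ℂ)) x * E.indicator (fun _ => (1 : ℂ)) x =
      (A ∩ E).indicator (fun _ => (1 : ℂ)) x := by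
  by_cases h : x ∈ A <;> by_cases h' : x ∈ E <;> simp [h, h']

theorem int_ind (hA : MeasurableSet[m0] A) :
    ∫ x, A.indicator (fun _ => (1 : ℂ)) x ∂μ = (μ.real A : ℂ) := by
  rw [integral_indicator hA]
  simp

theorem null_of_ce (hm : m ≤ m0) (hA : MeasurableSet[m] A) (hE : MeasurableSet[m0] E)
    (h : ∀ᵐ x ∂μ, x ∈ A → (μ[E.indicator fun _ => (1 : ℂ) | m]) x = 0) : μ (A ∩ E) = 0 := by
  have h1 := Fib27.int_mul_ce (κ := μ) hm (BM.indicator hA) (BM.indicator hE)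
  have h2 : ∫ x, A.indicator (fun _ => (1 : ℂ)) x * (μ[E.indicator fun _ => (1 : ℂ) | m]) x ∂μ =
      0 := by
    refine integral_eq_zero_of_ae ?_
    filter_upwards [h] with x hx
    by_cases hxA : x ∈ A
    · simp [hx hxA]
    · simp [hxA]
  rw [h2] at h1
  simp only [ind_mul] at h1
  rw [int_ind ((hm A hA).inter hE)] at h1
  exact (measureReal_eq_zero_iff (measure_ne_top _ _)).1 (by exact_mod_cast h1.symm)

theorem ce_of_null (hm : m ≤ m0) (hA : MeasurableSet[m] A) (hE : MeasurableSet[m0] E)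
    (h : ∀ᵐ x ∂μ, x ∈ A → x ∉ E) :
    ∀ᵐ x ∂μ, x ∈ A → (μ[E.indicator fun _ => (1 : ℂ) | m]) x = 0 := by
  have h1 := Fib27.ce_mul (κ := μ) hm (BM.indicator hA) (BM.indicator hE)
  have h2 : (fun x => A.indicator (fun _ => (1 : ℂ)) x * E.indicator (fun _ => (1 : ℂ)) x) =ᵐ[μ]
      0 := by
    filter_upwards [h] with x hx
    by_cases hxA : x ∈ A
    · simp [hx hxA]
    · simp [hxA]
  have h3 := condExp_congr_ae (m := m) h2
  rw [condExp_zero] at h3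
  filter_upwards [h1, h3] with x a b hx
  rw [a] at b
  simpa [hx] using b

end

end GPosB

open GPosB

theorem xPosB : PosB := by
  intro F gc zc mx dm c H 𝒱 s g exh ty hg t5
  have cx := gc.ctx c
  have zv := zc.zv c 𝒱 s exh
  have ht := zc.ht c H
  intro hnull
  obtain ⟨j0, hj0⟩ := t5
  apply hj0
  have hGm : MeasurableSet (c.Θ g ∩ c.Nt true (ufn (g true))) :=
    (cx.kc2.1.le _ (zv.tm g)).inter (cx.facS.le _ (cx.nt true _))
  suffices h : c.W.μ (c.Θ g ∩ c.Nt true (ufn (g true))) = 0 by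
    refine measure_mono_null_ae ?_ h
    filter_upwards [zv.nt g j0 true] with w hw h'
    exact ⟨h'.1, (hw h'.1).1 h'.2⟩
  have mt : ∀ (g' : Uni c.X.X) (a : ℕ × Bool), MeasurableSet {y | H.τ 𝒱 g' y a} := fun g' a =>
    (H.rp.emb a).mp.measurable (cx.kc2.1.le _ (zv.meas a.2 g'))
  have m1 : Measurable H.p1 := H.emb1.mp.measurable
  have m2 : Measurable H.p2 := H.emb2.mp.measurable
  obtain ⟨E, hEd⟩ : ∃ E : Set H.X1.X,
      E = {x | H.τ 𝒱 (g true) (H.p1 x) = H.τ 𝒱 (g false) (H.p2 x)} := ⟨_, rfl⟩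
  have hE : MeasurableSet E := hEd ▸ meas_eq m1 m2 (mt _) (mt _)
  have hEb : BM H.X1.μ H.X1.ms (E.indicator fun _ => (1 : ℂ)) := BM.indicator hE
  have l1 : pull H.X1.μ H.p1 H.Xh.ms ≤ H.X1.ms := F.a.pull_le _ _ _ _ H.emb1.mp le_rfl
  obtain ⟨h1, C, hC⟩ := hEb.ce (pull H.X1.μ H.p1 H.Xh.ms)
  obtain ⟨α, a1, a2, a3⟩ := F.a.fact H.Xh.ms H.X1.μ H.p1 _ (max C 0) m1.comap_le
    (le_max_right _ _) h1 (hC.mono fun x hx => hx.trans (le_max_left _ _))
  have hαb : BM H.Xh.μ H.Xh.ms α :=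
    ⟨a1.stronglyMeasurable.aestronglyMeasurable, _, Eventually.of_forall a2⟩
  have hS : MeasurableSet {y | α y = 0} := a1 (measurableSet_singleton 0)
  have n1 : H.X1.μ {x | H.p1 x ∈ {y | α y = 0} ∧
      H.τ 𝒱 (g true) (H.p1 x) = H.τ 𝒱 (g false) (H.p2 x)} = 0 := by
    have h2 := null_of_ce (μ := H.X1.μ) l1 (A := H.p1 ⁻¹' {y | α y = 0})
      (le_sup_left (α := MeasurableSpace H.X1.X) _ ⟨_, hS, rfl⟩) hE
      (by filter_upwards [a3] with x hx h; rw [hx]; exact h)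
    rw [hEd] at h2
    exact h2
  obtain ⟨Lh⟩ := F.line c.ν c.U H.Xh H.rp.nice
  obtain ⟨Lq, hq⟩ := F.la.ex H.L1 Lh H.p1 H.emb1
  have n2 := dm Lh.W.X H.X1.X H.Xh.X (ℕ × Bool) Lh.W.μ H.X1.μ (Lh.π (zs true)) (Lh.π (zs false))
    H.p1 H.p2 1 (H.τ 𝒱 (g true)) (H.τ 𝒱 (g false)) {y | α y = 0}
    (Lh.emb _).mp.measurable (Lh.emb _).mp.measurable m1 m2 (mt _) (mt _) hS
    (fun A A' hA hA' => by
      have h2 := mx F c.ν c.U H.Xh Lh c.hU c.uw.erg A A' hA hA'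
      rw [← H.ind _ _ (BM.indicator hA) (BM.indicator hA')] at h2
      have e : ∀ x, A.indicator (fun _ => (1 : ℂ)) (H.p1 x) *
          A'.indicator (fun _ => (1 : ℂ)) (H.p2 x) =
          (H.p1 ⁻¹' A ∩ H.p2 ⁻¹' A').indicator (fun _ => (1 : ℂ)) x := fun x =>
        ind_mul (H.p1 ⁻¹' A) (H.p2 ⁻¹' A') x
      simp only [e] at h2
      rw [int_ind ((m1 hA).inter (m2 hA')), Complex.ofReal_re] at h2
      rw [one_mul]
      exact h2) n1
  have n3 : ∀ᵐ w ∂H.L1.W.μ, ¬ (α (H.p1 (H.π true w)) = 0 ∧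
      H.τ 𝒱 (g true) (H.p1 (H.π true w)) = H.τ 𝒱 (g false) (H.p1 (H.π false w))) := by
    have k1 := F.la.slot H.L1 Lh H.p1 Lq (zs true) H.emb1 hq
    have k2 := F.la.slot H.L1 Lh H.p1 Lq (zs false) H.emb1 hq
    filter_upwards [hq.emb.mp.quasiMeasurePreserving.ae (measure_eq_zero_iff_ae_notMem.1 n2),
      k1 _ hS, ae_all_iff.2 fun a => k1 _ (mt (g true) a), ae_all_iff.2 fun a => k2 _ (mt (g false) a)]
      with w b0 b1 b2 b3 h
    refine b0 ⟨b1.mpr h.1, funext fun a => ?_⟩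
    exact (b2 a).trans ((congrFun h.2 a).trans (b3 a).symm)
  have e0 := F.t.emb_comp _ _ _ _ _ (H.rp.emb (0, H.i0)) (cx.embπ H.i0)
  obtain ⟨Lph, hph⟩ := F.la.ex Lh c.L _ e0
  have k3 := F.la.uniq H.L1 c.L _ _ H.Lp (Lph ∘ Lq) ht.embp ht.embp
    (fun _ _ => EventuallyEq.rfl) H.lift (F.la.comp H.L1 Lh c.L _ _ Lq Lph H.emb1 e0 hq hph) _ hGm
  have l2 : pull H.L1.W.μ Lq Lh.W.ms ≤ H.L1.W.ms := F.a.pull_le _ _ _ _ hq.emb.mp le_rfl
  have hcs := F.ld.cs H.L1 Lh H.p1 Lq (zs true) H.emb1 hq _ α hEb hαb a3.symm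
  have n4 := ce_of_null (μ := H.L1.W.μ) l2
    (A := (Lph ∘ Lq) ⁻¹' (c.Θ g ∩ c.Nt true (ufn (g true)))) (E := H.π true ⁻¹' E)
    (le_sup_left (α := MeasurableSpace H.L1.W.X) _ ⟨_, hph.emb.mp.measurable hGm, rfl⟩)
    ((ht.embπ true).mp.measurable hE) (by
      filter_upwards [k3, measure_eq_zero_iff_ae_notMem.1 hnull] with w b0 b1 h h'
      rw [hEd] at h'
      exact b1 ⟨b0.mpr h, h'⟩)
  rw [← ht.embL.mp.measure_preimage hGm.nullMeasurableSet, measure_eq_zero_iff_ae_notMem]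
  filter_upwards [n3, n4, k3, hcs, ty.ta g true false hg] with w b0 b1 b2 b3 b4 h
  exact b0 ⟨b3.symm.trans (b1 (b2.mp h)), b4 h.1⟩

end

section

namespace GPsiA

theorem meas_aux {Ω κ : Type} [MeasurableSpace Ω] [Countable κ] {P Q : κ → Set Ω}
    (hP : ∀ a, MeasurableSet (P a)) (hQ : ∀ a, MeasurableSet (Q a)) :
    MeasurableSet {x | (∃ a, x ∈ P a) ∧ ∀ a, x ∈ P a → x ∈ Q a} := by
  have : {x | (∃ a, x ∈ P a) ∧ ∀ a, x ∈ P a → x ∈ Q a} = (⋃ a, P a) ∩ ⋂ a, ((P a)ᶜ ∪ Q a) := by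
    ext x
    simp only [Set.mem_ofPred_eq, Set.mem_inter_iff, Set.mem_iUnion, Set.mem_iInter, Set.mem_union,
      Set.mem_compl_iff, imp_iff_not_or]
  rw [this]
  exact (MeasurableSet.iUnion hP).inter (MeasurableSet.iInter fun a => (hP a).compl.union (hQ a))

theorem norm_ufn {Ω : Type} {m0 : MeasurableSpace Ω} (g : Uni Ω) (x : Ω) : ‖ufn g x‖ = 1 :=
  Circle.norm_coe _

theorem meas_ufn {Ω : Type} {m0 : MeasurableSpace Ω} (g : Uni Ω) : Measurable (ufn g) := g.2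

end GPsiA

open GPsiA in
theorem xPsiA : PsiA := by
  classical
  intro fd gc zc c H 𝒱 s g0 ex
  have cx := gc.ctx c
  have zv := zc.zv c 𝒱 s ex
  have ht := zc.ht c H
  have mZ : ∀ q g, MeasurableSet (c.ZV 𝒱 q g) := fun q g => cx.kc2.1.le _ (zv.meas q g)
  have mE : ∀ (a : ℕ × Bool) g, MeasurableSet (H.e a ⁻¹' c.ZV 𝒱 a.2 g) := fun a g =>
    (H.rp.emb a).mp.measurable (mZ _ _)
  have m1 : ∀ g, MeasurableSet[H.B1] (H.HH 𝒱 g0 g) := fun g =>
    @meas_aux _ _ H.B1 _ (fun a => H.p2 ⁻¹' (H.e a ⁻¹' c.ZV 𝒱 a.2 g0))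
      (fun a => (H.e a ∘ H.p1) ⁻¹' c.ZV 𝒱 a.2 g.1)
      (fun a => (le_sup_left.trans H.le2 :) _ ⟨_, mE a g0, rfl⟩)
      fun a => (le_sup_left.trans (H.le1 a) :) _ ⟨_, zv.meas a.2 g.1, rfl⟩
  have m2 : ∀ g, MeasurableSet (H.HH 𝒱 g0 g) := fun g => ht.fac1.le _ (m1 g)
  let u : 𝒱 → H.X1.X → ℂ := fun g x => if x ∈ H.HH 𝒱 g0 g then ufn g.1 (H.p x) else 1
  have hu : ∀ v x, H.psi 𝒱 g0 v x = v.prod fun g n => u g x ^ n := fun v x => rfl
  have un : ∀ g x, ‖u g x‖ = 1 := fun g x => by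
    simp only [u]
    split_ifs
    · exact norm_ufn _ _
    · exact norm_one
  have u0 : ∀ g x, u g x ≠ 0 := fun g x h => by
    have := un g x
    rw [h, norm_zero] at this
    exact zero_ne_one this
  have um : ∀ g, Measurable (u g) := fun g =>
    Measurable.ite (m2 g) ((meas_ufn g.1).comp ht.embp.mp.measurable) measurable_const
  refine ⟨m1, fun v => ⟨?_, Eventually.of_forall fun x => ?_⟩, fun v v' x => ?_, fun v => ?_⟩
  · refine Measurable.aestronglyMeasurable ?_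
    have : H.psi 𝒱 g0 v = fun x => ∏ g ∈ v.support, u g x ^ v g := rfl
    rw [this]
    exact Finset.measurable_prod _ fun g _ => (um g).pow_const _
  · rw [hu, Finsupp.prod, norm_prod]
    exact prod_eq_one fun g _ => by rw [norm_zpow, un, one_zpow]
  · rw [hu, hu, hu]
    exact Finsupp.prod_add_index' (fun g => zpow_zero _) fun g n m => zpow_add₀ (u0 g x) n m
  · have key : ∀ g : 𝒱, ∀ᵐ x ∂H.X1.μ, u (s g) x = u g (H.X1.T x) := by
      intro g
      have a1 : ∀ a : ℕ × Bool, ∀ᵐ x ∂H.X1.μ,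
          H.τ 𝒱 g0 (H.p2 (H.X1.T x)) a ↔ H.τ 𝒱 g0 (H.p2 x) a := fun a =>
        (ht.frzT _ (mE a g0)).mono fun x hx => iff_of_eq hx
      have a2 : ∀ a : ℕ × Bool, ∀ᵐ x ∂H.X1.μ,
          H.τ 𝒱 g.1 (H.p1 (H.X1.T x)) a ↔ H.τ 𝒱 (s g).1 (H.p1 x) a := fun a => by
        filter_upwards [(ht.embe a).eqv _ (mZ a.2 g.1),
          (ht.embe a).mp.quasiMeasurePreserving.ae (zv.sh a.2 g)] with x h1 h2
        exact (iff_of_eq h1).trans (iff_of_eq h2).symm
      have a3 := fd.a.keq_fun c.X.ms H.X1.μ c.X.μ (H.p ∘ H.X1.T) (c.X.T ∘ H.p) (ufn g.1)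
        (ht.embp.mp.comp H.X1.mp) (c.X.mp.comp ht.embp.mp) ht.embp.eqv
        (meas_ufn g.1).aestronglyMeasurable
      filter_upwards [ae_all_iff.2 a1, ae_all_iff.2 a2, a3] with x h1 h2 h3
      have h4 : x ∈ H.HH 𝒱 g0 (s g) ↔ H.X1.T x ∈ H.HH 𝒱 g0 g := by
        simp only [Cx.Hat.HH, Set.mem_ofPred_eq, h1, h2]
      simp only [u, h4]
      rw [ex.sh g (H.p x)]
      exact if_congr Iff.rfl h3.symm rfl
    filter_upwards [(Finset.eventually_all v.support).2 fun g _ => key g] with x hx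
    rw [hu, hu, Finsupp.domCongr_apply, Finsupp.prod_equivMapDomain]
    exact prod_congr rfl fun g hg => congrArg (· ^ v g) (hx g hg)

end

section

namespace GPsiB

theorem bm_ufn {X : Sys} (g : Uni X.X) : BM X.μ X.ms (ufn g) :=
  BM.of_uni (Measurable.aestronglyMeasurable g.2)
    (Eventually.of_forall fun x => Circle.norm_coe _)

/-- the value of a product of powers -/
theorem ufn_prod {Ω : Type} [MeasurableSpace Ω] {𝒱 : Subgroup (Uni Ω)} (P : Finset 𝒱)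
    (n : 𝒱 → ℤ) (y : Ω) : ufn (∏ g ∈ P, g ^ n g).1 y = ∏ g ∈ P, ufn g.1 y ^ n g := by
  classical
  induction P using Finset.induction_on with
  | empty => simp [ufn]
  | insert g P hg ih =>
    rw [Finset.prod_insert hg, Finset.prod_insert hg, ← ih]
    simp [ufn]

/-- products of powers of elements with partners are constant or of mean zero -/
theorem line {c : Cx} {𝒱 : Subgroup (Uni c.X.X)} {s : 𝒱 ≃* 𝒱} [Countable 𝒱] (Z : ZvC c 𝒱 s)
    (q : Bool) : ∀ᵐ w ∂c.W.μ, ∀ (P : Finset 𝒱) (n : 𝒱 → ℤ),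
      (∀ g ∈ P, w ∈ c.ZV 𝒱 q g.1) →
      ‖(c.X.μ[ufn (∏ g ∈ P, g ^ n g).1 | c.B]) (c.π q w)‖ = 0 ∨
        ‖(c.X.μ[ufn (∏ g ∈ P, g ^ n g).1 | c.B]) (c.π q w)‖ = 1 := by
  filter_upwards [Z.one q, ae_all_iff.2 fun g : 𝒱 => ae_all_iff.2 fun g' : 𝒱 => Z.mul q g.1 g'.1,
    ae_all_iff.2 fun g : 𝒱 => Z.inv q g.1, ae_all_iff.2 fun g : 𝒱 => Z.onn q g.1]
    with w h1 h2 h3 h4 P n hP
  let K : Subgroup 𝒱 :=
    { carrier := {g | w ∈ c.ZV 𝒱 q g.1}
      mul_mem' := fun {g g'} hg hg' => h2 g g' hg hg'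
      one_mem' := h1
      inv_mem' := fun {g} hg => h3 g hg }
  exact h4 _ (K.prod_mem fun g hg => K.zpow_mem (hP g hg) _)

end GPsiB

open GPsiB in
theorem xPsiB : PsiB := by
  classical
  intro F R G Z A c H 𝒱 s g0 hE v
  have : Countable 𝒱 := hE.cnt
  obtain ⟨hm, hu, -, -⟩ := A F G Z c H 𝒱 s g0 hE
  have C := Z.ht c H
  have hB : H.B1 ≤ H.X1.ms := C.fac1.le
  have e1 : ∀ a : ℕ × Bool, ∀ᵐ x ∂H.X1.μ, ∀ (P : Finset 𝒱) (n : 𝒱 → ℤ),
      (∀ g ∈ P, H.τ 𝒱 g.1 (H.p1 x) a) →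
      ‖(c.X.μ[ufn (∏ g ∈ P, g ^ n g).1 | c.B]) (c.π a.2 (H.e a (H.p1 x)))‖ = 0 ∨
        ‖(c.X.μ[ufn (∏ g ∈ P, g ^ n g).1 | c.B]) (c.π a.2 (H.e a (H.p1 x)))‖ = 1 := fun a =>
    (C.embe a).mp.quasiMeasurePreserving.ae (line (Z.zv c 𝒱 s hE) a.2)
  have e2 : ∀ (a : ℕ × Bool) (γ : 𝒱), ∀ᵐ x ∂H.X1.μ,
      (c.X.μ[ufn γ.1 | c.B]) (c.π a.2 (H.e a (H.p1 x))) = (c.X.μ[ufn γ.1 | c.B]) (H.p x) :=
    fun a γ => F.a.keq_fun c.X.ms H.X1.μ c.X.μ (c.π a.2 ∘ H.e a ∘ H.p1) H.p _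
      (((G.ctx c).embπ a.2).mp.comp (C.embe a).mp) C.embp.mp (C.com a)
      (((bm_ufn γ.1).ce c.B).mono (G.ctx c).facB.le).1
  have e3 : ∀ P : Finset 𝒱, ∀ᵐ x ∂H.X1.μ, v.support.filter (fun g => x ∈ H.HH 𝒱 g0 g) = P →
      (H.X1.μ[H.psi 𝒱 g0 v | H.B1]) x =
        (c.X.μ[ufn (∏ g ∈ P, g ^ v g).1 | c.B]) (H.p x) := fun P => by
    have hP : MeasurableSet[H.B1] {x | v.support.filter (fun g => x ∈ H.HH 𝒱 g0 g) = P} := by
      have : {x | v.support.filter (fun g => x ∈ H.HH 𝒱 g0 g) = P} =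
          ⋂ g : 𝒱, {x | (g ∈ v.support ∧ x ∈ H.HH 𝒱 g0 g) ↔ g ∈ P} := by
        ext x
        simp only [Set.mem_ofPred_eq, Set.mem_iInter, Finset.ext_iff, Finset.mem_filter]
      rw [this]
      refine MeasurableSet.iInter fun g => ?_
      by_cases h1 : g ∈ v.support <;> by_cases h2 : g ∈ P
      · simpa only [h1, h2, true_and, iff_true, Set.ofPred_mem_eq] using hm g
      · simp only [h1, h2, true_and, iff_false]
        exact (hm g).compl
      · simp only [h1, h2, false_and, false_iff, not_true, Set.ofPred_false]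
        exact @MeasurableSet.empty _ H.B1
      · simp only [h1, h2, false_and, Set.ofPred_true]
        exact @MeasurableSet.univ _ H.B1
    have hb := bm_ufn (X := c.X) (∏ g ∈ P, g ^ v g).1
    have hb' : BM H.X1.μ H.X1.ms fun x => ufn (∏ g ∈ P, g ^ v g).1 (H.p x) :=
      (F.a.bm_comp c.X.ms _ _ H.p _ C.embp.mp hb).mono (F.a.pull_le _ _ _ _ C.embp.mp le_rfl)
    have := R.loc H.B1 H.X1.μ _ _ (fun _ => 1) _ hB (BM.of_uni (hu v).1 (hu v).2) hb'
      (BM.const 1) hP (Eventually.of_forall fun x hx => by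
        have hx' : v.support.filter (fun g => x ∈ H.HH 𝒱 g0 g) = P := hx
        rw [one_mul, ufn_prod, ← hx', Finset.prod_filter]
        refine Finset.prod_congr rfl fun g _ => ?_
        by_cases h : x ∈ H.HH 𝒱 g0 g <;> simp [h])
    filter_upwards [this, C.ce _ hb] with x h1 h2 hx
    rw [h1 hx, one_mul, h2]
  filter_upwards [ae_all_iff.2 e1, ae_all_iff.2 fun a => ae_all_iff.2 (e2 a), ae_all_iff.2 e3]
    with x h1 h2 h3
  have ex : ∃ a : ℕ × Bool, ∀ g ∈ v.support.filter (fun g => x ∈ H.HH 𝒱 g0 g),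
      H.τ 𝒱 g.1 (H.p1 x) a := by
    by_cases h : ∃ a, H.τ 𝒱 g0 (H.p2 x) a
    · obtain ⟨a, ha⟩ := h
      exact ⟨a, fun g hg => (Finset.mem_filter.1 hg).2.2 a ha⟩
    · exact ⟨(0, H.i0), fun g hg => absurd (Finset.mem_filter.1 hg).2.1 h⟩
  obtain ⟨a, ha⟩ := ex
  rw [h3 _ rfl, ← h2 a]
  exact h1 a _ _ ha

end

end T5h

end

end PkGP1

section PkGLn

/-! Families of sets that describe an event of the line. -/

set_option autoImplicit false
set_option linter.unusedVariables false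
set_option warn.classDefReducibility false

open MeasureTheory ProbabilityTheory Filter Topology Function Finset ComplexConjugate
open scoped BigOperators
open Fib27 (BM sup pr Oc Orow F23 LInd Mem)
open Pool.Agent.MP_154433_an.SG (Uni ufn)

noncomputable section

namespace T5h

open T3x T5y

namespace GLn

open T3x.GLn (Rp Tz_neg)

theorem rec1_mem (fd : Fd) (c : Cx) {V : Type} (A : V → V → Lab → Set c.X.X) (i1 : Bool)
    (l : Lab) (a a' : V) (x : c.X.X) :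
    c.X.Tz (rho (zs i1) l) x ∈ rec1 c A i1 l a a' ↔ x ∈ A a a' l := by
  unfold rec1
  rw [Set.mem_preimage, Tz_neg fd]

theorem stp_Tz (fd : Fd) (c : Cx) (i1 i2 : Bool) (l : Lab) (x : c.X.X) :
    c.X.Tz (stp i1 i2 l) (c.X.Tz (rho (zs i1) l) x) = c.X.Tz (rho (zs i2) l) x := by
  rw [← fd.t.add, stp, sub_add_cancel]

theorem rec1_meas (fd : Fd) (c : Cx) {V : Type} {ψ : V → c.X.X → ℂ} {i1 i2 : Bool}
    {A : V → V → Lab → Set c.X.X} (h : Desc c ψ i1 i2 A) (l : Lab) (a a' : V) :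
    MeasurableSet (rec1 c A i1 l a a') := (fd.t.mp c.X _).measurable (h.1 a a' l)

theorem desc_rp {c : Cx} {V : Type} {ψ : V → c.X.X → ℂ} {i1 i2 : Bool}
    {A : V → V → Lab → Set c.X.X} (h : Desc c ψ i1 i2 A) (a a' : V) :
    Rp c.L (A a a') (c.SV ψ i1 i2 a a') := T3x.GLn.Rp.of_ae (h.1 a a') (h.2 a a')

theorem th_meas (rc : Rc) (c : Cx) (g : c.X.X → ℂ) : MeasurableSet (Th c.B c.X.μ g) :=
  c.kc.1.le _ (rc.meas c.B c.X.μ g)

theorem nt_iff (c : Cx) (k : Bool) (g : c.X.X → ℂ) (w : c.W.X) :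
    w ∈ c.Nt k g ↔ w ∉ c.L.π (zs k) ⁻¹' Th c.B c.X.μ g := Iff.rfl

end GLn

end T5h

end

end PkGLn

section PkGP2

/-! Section 5: steps in the grid and at the finite level. -/

set_option autoImplicit false
set_option linter.unusedVariables false
set_option warn.classDefReducibility false

open MeasureTheory ProbabilityTheory Filter Topology Function Finset ComplexConjugate
open scoped BigOperators
open Fib27 (BM sup pr Oc Orow F23 LInd Mem)
open Pool.Agent.MP_154433_an.SG (Uni ufn)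

noncomputable section

namespace T5h

open T3x T5y

section

namespace GStpB

variable {ι V : Type} {R C : ι → (ι → V) → Prop}

lemma core (hf : ∀ (m : ι → ι → V) (j0 j : ι), (∀ k, R k (m k)) → C j0 (fun k => m k j0) →
      C j fun k => m k j) (j0 j : ι) (u : ι → V) (hu : C j0 u) (P : ι → (ι → V) → Prop)
    (h : ∀ k, ∃ v, R k v ∧ v j0 = u k ∧ P k v) :
    ∃ m : ι → ι → V, (∀ k, P k (m k)) ∧ C j fun k => m k j := by
  choose m h1 h2 h3 using h
  refine ⟨m, h3, hf m j0 j h1 ?_⟩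
  have : (fun k => m k j0) = u := funext h2
  rw [this]
  exact hu

lemma colU (hf : ∀ (m : ι → ι → V) (j0 j : ι), (∀ k, R k (m k)) → C j0 (fun k => m k j0) →
      C j fun k => m k j) (hR : ∀ k q y, ∃ v, v q = y ∧ R k v) (j0 j : ι)
    (h0 : ∀ q y, ∃ v, v q = y ∧ C j0 v) (q : ι) (y : V) : ∃ v, v q = y ∧ C j v := by
  obtain ⟨r, hr, hRr⟩ := hR q j y
  obtain ⟨u, hu, hCu⟩ := h0 q (r j0)
  obtain ⟨m, h1, h2⟩ := core hf j0 j u hCu (fun k v => k = q → v j = y) fun k => by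
    by_cases hk : k = q
    · subst hk
      exact ⟨r, hRr, hu.symm, fun _ => hr⟩
    · obtain ⟨v, hv, hRv⟩ := hR k j0 (u k)
      exact ⟨v, hRv, hv, fun h => absurd h hk⟩
  exact ⟨fun k => m k j, h1 q rfl, h2⟩

lemma colS (hf : ∀ (m : ι → ι → V) (j0 j : ι), (∀ k, R k (m k)) → C j0 (fun k => m k j0) →
      C j fun k => m k j) (hR : ∀ k q y, ∃ v, v q = y ∧ R k v) {i1 i2 : ι} (h12 : i1 ≠ i2)
    (j0 j : ι) {r1 r2 u : ι → V} (h1 : R i1 r1) (h2 : R i2 r2) (hu : C j0 u)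
    (e1 : u i1 = r1 j0) (e2 : u i2 = r2 j0) : ∃ v, (v i1 = r1 j ∧ v i2 = r2 j) ∧ C j v := by
  obtain ⟨m, g1, g2⟩ := core hf j0 j u hu
    (fun k v => (k = i1 → v j = r1 j) ∧ (k = i2 → v j = r2 j)) fun k => by
    by_cases hk : k = i1
    · subst hk
      exact ⟨r1, h1, e1.symm, fun _ => rfl, fun h => absurd h h12⟩
    · by_cases hk' : k = i2
      · subst hk'
        exact ⟨r2, h2, e2.symm, fun h => absurd h hk, fun _ => rfl⟩
      · obtain ⟨v, hv, hRv⟩ := hR k j0 (u k)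
        exact ⟨v, hRv, hv, fun h => absurd h hk, fun h => absurd h hk'⟩
  exact ⟨fun k => m k j, ⟨(g1 i1).1 rfl, (g1 i2).2 rfl⟩, g2⟩

lemma memU (c : Cx) {V : Type} (ψ : V → c.X.X → ℂ) (w : c.W.X) :
    w ∈ c.UU ψ ↔ ∀ q y, ∃ v : Bool → V, v q = y ∧ w ∈ c.ΘV ψ v := by
  simp only [Cx.UU, Set.mem_iInter, Set.mem_iUnion, Set.mem_ofPred_eq, exists_prop]

lemma memS (c : Cx) {V : Type} (ψ : V → c.X.X → ℂ) (i1 i2 : Bool) (a a' : V) (w : c.W.X) :
    w ∈ c.SV ψ i1 i2 a a' ↔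
      w ∈ c.UU ψ ∧ ∃ v : Bool → V, (v i1 = a ∧ v i2 = a') ∧ w ∈ c.ΘV ψ v := by
  simp only [Cx.SV, Set.mem_inter_iff, Set.mem_iUnion, Set.mem_ofPred_eq, exists_prop]

/-- an almost invariant set is seen in the same way from all rows -/
lemma rows (hF : Fd) (c : Cx) (hc : CtxC c) (S : Set c.W.X) (hS : MeasurableSet S)
    (hT : ∀ᵐ w ∂c.W.μ, w ∈ S ↔ c.W.Tz 1 w ∈ S) (k k' : Bool) :
    ∀ᵐ x ∂c.W2.μ, c.A k x ∈ S ↔ c.A k' x ∈ S := by
  have m1 : AEStronglyMeasurable (S.indicator fun _ => (1 : ℂ)) c.W.μ :=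
    (stronglyMeasurable_const.indicator hS).aestronglyMeasurable
  have m2 := (hF.t.inv_iff c.W _ m1).2 (by
    filter_upwards [hT] with w hw
    rw [hF.t.one] at hw
    by_cases h : w ∈ S
    · rw [Set.indicator_of_mem h, Set.indicator_of_mem (hw.1 h)]
    · rw [Set.indicator_of_notMem h, Set.indicator_of_notMem fun h' => h (hw.2 h')])
  have m3 := hF.a.keq_fun (T3x.Inv c.W) c.W2.μ c.W.μ (c.A k) (c.A k') _ (hc.embA k).mp
    (hc.embA k').mp (hF.lb.inv c.L2 (zs k) (zs k')) m2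
  filter_upwards [m3] with x hx
  by_cases h : c.A k x ∈ S <;> by_cases h' : c.A k' x ∈ S
  · exact iff_of_true h h'
  · rw [Set.indicator_of_mem h, Set.indicator_of_notMem h'] at hx
    exact absurd hx one_ne_zero
  · rw [Set.indicator_of_notMem h, Set.indicator_of_mem h'] at hx
    exact absurd hx zero_ne_one
  · exact iff_of_false h h'

end GStpB

open GStpB in
theorem xStpB : StpB := by
  intro hF hG c V _ _ sg ψ i1 i2 h12 hψ hfl a b a' b'
  have hc := hG.ctx c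
  have hf := hG.ff c V sg ψ hψ
  have hU : ∀ᵐ x ∂c.W2.μ, ∀ k, c.A i1 x ∈ c.UU ψ ↔ c.A k x ∈ c.UU ψ :=
    ae_all_iff.2 fun k => rows hF c hc _ (hc.kc2.1.le _ hf.um') (hf.ush 1) i1 k
  have hA : ∀ᵐ x ∂c.W2.μ, ∀ (m : Bool → Bool → V) (j0 j : Bool), (∀ k, c.A k x ∈ c.ΘV ψ (m k)) →
      c.Bc j0 x ∈ c.ΘV ψ (fun k => m k j0) → c.Bc j x ∈ c.ΘV ψ fun k => m k j :=
    ae_all_iff.2 fun m => ae_all_iff.2 fun j0 => ae_all_iff.2 fun j => hfl m j0 j
  filter_upwards [hU, hA] with x hU hA s1 s2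
  rw [memS] at s1 s2
  obtain ⟨u1, r1, ⟨e1, e2⟩, hr1⟩ := s1
  obtain ⟨-, r2, ⟨e3, e4⟩, hr2⟩ := s2
  have hR : ∀ k q y, ∃ v : Bool → V, v q = y ∧ c.A k x ∈ c.ΘV ψ v :=
    fun k => (memU c ψ _).1 ((hU k).1 u1)
  subst e1 e2 e3 e4
  rw [memS, memS, memU, memU]
  constructor
  · rintro ⟨h0, u, ⟨f1, f2⟩, hu⟩
    exact ⟨colU (R := fun k v => c.A k x ∈ c.ΘV ψ v) (C := fun j v => c.Bc j x ∈ c.ΘV ψ v)
      hA hR i1 i2 h0, colS (R := fun k v => c.A k x ∈ c.ΘV ψ v)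
        (C := fun j v => c.Bc j x ∈ c.ΘV ψ v) hA hR h12 i1 i2 hr1 hr2 hu f1 f2⟩
  · rintro ⟨h0, u, ⟨f1, f2⟩, hu⟩
    exact ⟨colU (R := fun k v => c.A k x ∈ c.ΘV ψ v) (C := fun j v => c.Bc j x ∈ c.ΘV ψ v)
      hA hR i2 i1 h0, colS (R := fun k v => c.A k x ∈ c.ΘV ψ v)
        (C := fun j v => c.Bc j x ∈ c.ΘV ψ v) hA hR h12 i2 i1 hr1 hr2 hu f1 f2⟩

end

section

open T3x.GLn (Rp hs_meas)
open T5h.GLn

theorem xAlgA : AlgA := by
  intro fd rc gc c V _ _ sg ψ i1 i2 A st hd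
  have hr := desc_rp hd
  have hs := fun (k : Bool) (a : V) => Rp.slot fd c.L (zs k) (th_meas rc c (ψ a))
  refine ⟨fun a a' b b' => ?_, fun a a' => ?_, fun a a' => ?_, fun a a' => ?_⟩
  · refine (((hr a a').inter fd (hr b b')).diff fd (hr (a - b) (a' - b'))).nl fd
      (rho (zs i1)) (fun l x => ?_) ?_
    · simp only [Set.mem_sdiff, Set.mem_inter_iff, rec1_mem fd]
    · filter_upwards [st.sub a a' b b'] with w hw h using h.2 (hw h.1)
  · refine ((((hr 0 0).inter fd (hs i1 a)).inter fd (hs i2 a')).diff fd (hr a a')).nl fd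
      (rho (zs i1)) (fun l x => ?_) ?_
    · simp only [Set.mem_sdiff, Set.mem_inter_iff, rec1_mem fd, Set.mem_preimage, stp_Tz fd]
    · filter_upwards [st.triv a a', eventuallyEq_set.1 st.zero] with w hw h0 h
      exact h.2 (hw (h0.1 h.1.1.1) (fun hn => hn h.1.1.2) fun hn => hn h.1.2)
  · refine ((hr a a').inter fd ((hs i1 a).niff fd (hs i2 a'))).nl fd
      (rho (zs i1)) (fun l x => ?_) ?_
    · simp only [Set.mem_inter_iff, rec1_mem fd, Set.mem_preimage, stp_Tz fd, Set.mem_ofPred_eq]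
    · filter_upwards [ae_all_iff.2 fun v : Bool → V => st.ker v i1 i2] with w hw h
      obtain ⟨⟨-, h1⟩, h2⟩ := h
      simp only [Set.mem_iUnion, Set.mem_ofPred_eq] at h1
      obtain ⟨v, ⟨rfl, rfl⟩, hv⟩ := h1
      exact h2 (not_iff_not.1 (hw v hv))
  · refine ((hr (sg a) (sg a')).niff fd ((hr a a').shift fd 1)).nl fd
      (rho (zs i1)) (fun l x => ?_) ?_
    · simp only [Set.mem_ofPred_eq, rec1_mem fd, Set.mem_preimage]
      rw [← fd.t.one, ← fd.t.add, add_comm, fd.t.add, rec1_mem fd]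
    · filter_upwards [eventuallyEq_set.1 (st.sh a a')] with w hw h
      refine h ?_
      rw [Set.mem_preimage, fd.t.one]
      exact hw

namespace GAlgA

theorem small {Ω V : Type} [MeasurableSpace Ω] [Countable V] (μ : Measure Ω)
    [IsProbabilityMeasure μ] (E : Set Ω) (S : V → Set Ω) (hE : NullMeasurableSet E μ)
    (hS : ∀ v, NullMeasurableSet (S v) μ) (h : ∀ᵐ w ∂μ, w ∈ E → ∃ v, w ∈ S v) (ε : ℝ)
    (hε : 0 < ε) : ∃ F : Finset V, ∀ F', F ⊆ F' → μ.real (E \ ⋃ v ∈ F', S v) < ε := by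
  have h1 : Tendsto (fun F : Finset V => μ (E \ ⋃ v ∈ F, S v)) atTop
      (𝓝 (μ (⋂ F : Finset V, E \ ⋃ v ∈ F, S v))) := by
    refine tendsto_measure_iInter_atTop (fun F => hE.diff ?_) (fun F F' hF => ?_)
      ⟨∅, measure_ne_top _ _⟩
    · exact NullMeasurableSet.biUnion (Finset.countable_toSet F) fun v _ => hS v
    · exact Set.sdiff_subset_sdiff_right (Set.biUnion_subset_biUnion_left hF)
  have h2 : μ (⋂ F : Finset V, E \ ⋃ v ∈ F, S v) = 0 := by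
    refine measure_eq_zero_iff_ae_notMem.2 ?_
    filter_upwards [h] with w hw hm
    have hm' := Set.mem_iInter.1 hm
    obtain ⟨v, hv⟩ := hw (hm' ∅).1
    exact (hm' {v}).2 (by simpa using hv)
  rw [h2] at h1
  have h3 := (ENNReal.tendsto_toReal ENNReal.zero_ne_top).comp h1
  obtain ⟨F, hF⟩ := eventually_atTop.1 (h3.eventually (gt_mem_nhds (by simpa using hε)))
  exact ⟨F, fun F' hF' => hF F' hF'⟩

end GAlgA

theorem xAlgT : AlgT := by
  classical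
  intro fd rc gc c V _ _ sg ψ i1 i2 A st hd a ε hε
  have hr := desc_rp hd
  have hm : ∀ a a', NullMeasurableSet (c.SV ψ i1 i2 a a') c.W.μ := fun a a' =>
    (hs_meas fd c.L (hd.1 a a')).nullMeasurableSet.congr (hd.2 a a').symm
  have key : ∀ (w : c.W.X), w ∈ c.SV ψ i1 i2 0 0 → ∀ q, ∃ v : Bool → V, v q = a ∧
      w ∈ c.SV ψ i1 i2 (v i1) (v i2) := fun w hw q => by
    have h1 := Set.mem_iInter.1 (Set.mem_iInter.1 hw.1 q) a
    simp only [Set.mem_iUnion, Set.mem_ofPred_eq] at h1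
    obtain ⟨v, hv, hv'⟩ := h1
    refine ⟨v, hv, hw.1, ?_⟩
    simp only [Set.mem_iUnion, Set.mem_ofPred_eq]
    exact ⟨v, ⟨rfl, rfl⟩, hv'⟩
  obtain ⟨F1, h1⟩ := GAlgA.small c.W.μ _ (fun a' => c.SV ψ i1 i2 a a') (hm 0 0) (hm a)
    (Eventually.of_forall fun w hw => by
      obtain ⟨v, hv, hv'⟩ := key w hw i1
      exact ⟨v i2, hv ▸ hv'⟩) ε hε
  obtain ⟨F2, h2⟩ := GAlgA.small c.W.μ _ (fun a' => c.SV ψ i1 i2 a' a) (hm 0 0) (fun a' => hm a' a)
    (Eventually.of_forall fun w hw => by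
      obtain ⟨v, hv, hv'⟩ := key w hw i2
      exact ⟨v i1, hv ▸ hv'⟩) ε hε
  refine ⟨F1 ∪ F2, Eventually.and ?_ ?_⟩
  · have := ((hr 0 0).diff fd (Rp.biUnion fd (F1 ∪ F2) fun a' => hr a a')).lim' fd
      (B := fun l => rec1 c A i1 l 0 0 \ ⋃ a' ∈ F1 ∪ F2, rec1 c A i1 l a a') (rho (zs i1))
      (fun l x => by simp only [Set.mem_sdiff, Set.mem_iUnion, rec1_mem fd])
    exact (this.eventually (gt_mem_nhds (h1 _ subset_union_left))).mono fun _ h => h.le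
  · have := ((hr 0 0).diff fd (Rp.biUnion fd (F1 ∪ F2) fun a' => hr a' a)).lim' fd
      (B := fun l => rec1 c A i1 l 0 0 \ ⋃ a' ∈ F1 ∪ F2, rec1 c A i1 l a' a) (rho (zs i1))
      (fun l x => by simp only [Set.mem_sdiff, Set.mem_iUnion, rec1_mem fd])
    exact (this.eventually (gt_mem_nhds (h2 _ subset_union_right))).mono fun _ h => h.le

end

section

namespace GAlgB

def cmb {α : Type} (F1 F2 F3 F4 : Set α) : Set α :=
  F1 ∩ (F2 ∩ ((F3 ∩ F4)ᶜ ∩ (F3ᶜ ∩ F4ᶜ)ᶜ))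

theorem mem_cmb {α : Type} (F1 F2 F3 F4 : Set α) (x : α) :
    x ∈ cmb F1 F2 F3 F4 ↔ x ∈ F1 ∧ x ∈ F2 ∧ ¬ (x ∈ F3 ↔ x ∈ F4) := by
  simp only [cmb, Set.mem_inter_iff, Set.mem_compl_iff]
  tauto

theorem meas_cmb {α : Type} [MeasurableSpace α] {F1 F2 F3 F4 : Set α} (h1 : MeasurableSet F1)
    (h2 : MeasurableSet F2) (h3 : MeasurableSet F3) (h4 : MeasurableSet F4) :
    MeasurableSet (cmb F1 F2 F3 F4) :=
  h1.inter (h2.inter ((h3.inter h4).compl.inter (h3.compl.inter h4.compl).compl))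

theorem hs_cmb (fd : Fd) {ν : Wt} {U : Ultrafilter ℕ} {X : Sys} (L : Ln ν U X)
    {F1 F2 F3 F4 : Lab → Set X.X} (h1 : ∀ l, MeasurableSet (F1 l)) (h2 : ∀ l, MeasurableSet (F2 l))
    (h3 : ∀ l, MeasurableSet (F3 l)) (h4 : ∀ l, MeasurableSet (F4 l)) :
    L.hs (fun l => cmb (F1 l) (F2 l) (F3 l) (F4 l)) =
      cmb (L.hs F1) (L.hs F2) (L.hs F3) (L.hs F4) := by
  have a1 : ∀ l, MeasurableSet (F3 l ∩ F4 l) := fun l => (h3 l).inter (h4 l)
  have a2 : ∀ l, MeasurableSet ((F3 l)ᶜ ∩ (F4 l)ᶜ) := fun l => (h3 l).compl.inter (h4 l).compl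
  unfold cmb
  rw [fd.lc.hs_inter L F1 _ h1 fun l => (h2 l).inter ((a1 l).compl.inter (a2 l).compl),
    fd.lc.hs_inter L F2 _ h2 fun l => (a1 l).compl.inter (a2 l).compl,
    fd.lc.hs_inter L (fun l => (F3 l ∩ F4 l)ᶜ) _ (fun l => (a1 l).compl) fun l => (a2 l).compl,
    fd.lc.hs_compl L _ a1, fd.lc.hs_compl L _ a2, fd.lc.hs_inter L F3 F4 h3 h4,
    fd.lc.hs_inter L (fun l => (F3 l)ᶜ) (fun l => (F4 l)ᶜ) (fun l => (h3 l).compl)
      fun l => (h4 l).compl, fd.lc.hs_compl L F3 h3, fd.lc.hs_compl L F4 h4]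

theorem hs_ms (fd : Fd) {ν : Wt} {U : Ultrafilter ℕ} {X : Sys} (L : Ln ν U X)
    {F : Lab → Set X.X} (h : ∀ l, MeasurableSet (F l)) : MeasurableSet (L.hs F) := by
  have := fd.lc.hs_meas L X.ms F (fd.t.top X) h
  rwa [fd.lb.top L] at this

theorem shift (fd : Fd) (Y : Sys) {V : Type} [AddCommGroup V] (sg : AddAut V)
    (S : V → V → Set Y.X) (hS : ∀ a a', S (sg a) (sg a') =ᵐ[Y.μ] Y.T ⁻¹' S a a') (n : ℤ) :
    ∀ a a', ∀ᵐ w ∂Y.μ, w ∈ S ((n • sg) a) ((n • sg) a') ↔ Y.Tz n w ∈ S a a' := by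
  have e : ∀ (n : ℤ) a, ((n + 1) • sg) a = (n • sg) (sg a) := fun n a => by
    rw [add_zsmul, one_zsmul, AddAut.add_apply]
  have eT : ∀ (n : ℤ) w, Y.Tz (n + 1) w = Y.T (Y.Tz n w) := fun n w => by
    rw [add_comm, fd.t.add, fd.t.one]
  have hq : ∀ (n : ℤ) a a', ∀ᵐ w ∂Y.μ,
      Y.Tz n w ∈ S (sg a) (sg a') ↔ Y.Tz (n + 1) w ∈ S a a' := fun n a a' => by
    filter_upwards [(fd.t.mp Y n).quasiMeasurePreserving.ae (hS a a')] with w hw
    rw [eT]
    exact iff_of_eq hw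
  induction n using Int.induction_on with
  | zero =>
    intro a a'
    refine Eventually.of_forall fun w => ?_
    rw [zero_zsmul, AddAut.zero_apply, AddAut.zero_apply, fd.t.zero]
  | succ n ih =>
    intro a a'
    filter_upwards [ih (sg a) (sg a'), hq n a a'] with w h1 h2
    rw [e, e, h1, h2]
  | pred n ih =>
    intro a a'
    have e1 : (-(n : ℤ)) = (-(n : ℤ) - 1) + 1 := by ring
    rw [e1] at ih
    filter_upwards [ih (sg.symm a) (sg.symm a'), hq (-(n : ℤ) - 1) (sg.symm a) (sg.symm a')]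
      with w h1 h2
    rw [e, e] at h1
    simp only [AddEquiv.apply_symm_apply] at h1 h2
    rw [h1, h2]

theorem real_pre (fd : Fd) (Y : Sys) (n : ℤ) {E : Set Y.X} (hE : MeasurableSet E) :
    Y.μ.real (Y.Tz n ⁻¹' E) = Y.μ.real E := by
  unfold Measure.real
  rw [(fd.t.mp Y n).measure_preimage hE.nullMeasurableSet]

end GAlgB

open GAlgB in
theorem xAlgB : AlgB := by
  intro fd rc gc c V _ _ sg ψ i1 i2 A st hD a b a' b'
  obtain ⟨hA, hS⟩ := hD
  have cx := gc.ctx c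
  have mT : ∀ (Y : Sys) (n : ℤ), Measurable (Y.Tz n) := fun Y n => (fd.t.mp Y n).measurable
  have hH : ∀ a a', MeasurableSet (c.L.hs (A a a')) := fun a a' => hs_ms fd c.L (hA a a')
  have mπ : ∀ k, Measurable (c.π k) := fun k => (cx.embπ k).mp.measurable
  let E : Lab → Set c.W.X := fun l =>
    cmb (c.W.Tz (rho (zs i1) l) ⁻¹' c.L.hs (A a b)) (c.W.Tz (rho (zs i2) l) ⁻¹' c.L.hs (A a' b'))
      (c.π i1 ⁻¹' A a a' l) (c.π i2 ⁻¹' A b b' l)
  have hE : ∀ l, MeasurableSet (E l) := fun l =>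
    meas_cmb (mT _ _ (hH _ _)) (mT _ _ (hH _ _)) (mπ _ (hA _ _ _)) (mπ _ (hA _ _ _))
  refine ⟨fun l => c.W.μ.real (E l), ?_, fun l => ?_⟩
  · have h1 := fd.lc.hs_lim c.L2 E hE
    have h2 : c.L2.W.μ.real (c.L2.hs E) = 0 := by
      have h3 : c.L2.hs E = _ := hs_cmb fd c.L2 (fun l => mT _ _ (hH a b))
        (fun l => mT _ _ (hH a' b')) (fun l => mπ i1 (hA a a' l)) fun l => mπ i2 (hA b b' l)
      rw [h3, measureReal_eq_zero_iff, measure_eq_zero_iff_ae_notMem]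
      filter_upwards [st.flat a b a' b', fd.lc.hs_slot c.L2 (zs i1) _ (hH a b),
        fd.lc.hs_slot c.L2 (zs i2) _ (hH a' b'),
        fd.lc.hs_lift c.L2 c.L (c.π i1) (c.Bc i1) (A a a') (cx.embπ i1) (c.lift i1) (hA a a'),
        fd.lc.hs_lift c.L2 c.L (c.π i2) (c.Bc i2) (A b b') (cx.embπ i2) (c.lift i2) (hA b b'),
        (cx.embA i1).mp.quasiMeasurePreserving.ae (hS a b),
        (cx.embA i2).mp.quasiMeasurePreserving.ae (hS a' b'),
        (cx.embB i1).mp.quasiMeasurePreserving.ae (hS a a'),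
        (cx.embB i2).mp.quasiMeasurePreserving.ae (hS b b')] with x h0 h1 h2 h3 h4 h5 h6 h7 h8
      rw [mem_cmb]
      rintro ⟨k1, k2, k3⟩
      refine k3 ?_
      have := h0 ((iff_of_eq h5).2 ((iff_of_eq h1).1 k1)) ((iff_of_eq h6).2 ((iff_of_eq h2).1 k2))
      exact (iff_of_eq h3).trans ((iff_of_eq h7).symm.trans
        (this.trans ((iff_of_eq h8).trans (iff_of_eq h4).symm)))
    rwa [h2] at h1
  · set n := stp i1 i2 l with hn
    have mR : ∀ a a', MeasurableSet (rec1 c A i1 l a a') := fun a a' => mT _ _ (hA a a' l)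
    let F : Lab → Set c.X.X := fun l' =>
      cmb (A a b l') (A ((n • sg) a') ((n • sg) b') l')
        (c.X.Tz (rho (zs i1) l') ⁻¹' rec1 c A i1 l a a')
        (c.X.Tz (rho (zs i2) l') ⁻¹' rec1 c A i1 l b b')
    have hF : ∀ l', MeasurableSet (F l') := fun l' =>
      meas_cmb (hA _ _ _) (hA _ _ _) (mT _ _ (mR _ _)) (mT _ _ (mR _ _))
    have h1 := fd.lc.hs_lim c.L F hF
    have h2 : c.L.W.μ.real (c.L.hs F) = c.W.μ.real (E l) := by
      rw [← real_pre fd c.W (rho (zs i1) l) (hs_ms fd c.L hF)]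
      refine measureReal_congr ?_
      have h3 : c.L.hs F = _ := hs_cmb fd c.L (hA a b) (hA ((n • sg) a') ((n • sg) b'))
        (fun l' => mT _ _ (mR a a')) fun l' => mT _ _ (mR b b')
      have q := (fd.t.mp c.W (rho (zs i1) l)).quasiMeasurePreserving
      have e1 : ∀ w, c.W.Tz n (c.W.Tz (rho (zs i1) l) w) = c.W.Tz (rho (zs i2) l) w :=
        fun w => by rw [← fd.t.add, hn, stp, sub_add_cancel]
      have e2 : ∀ x, c.X.Tz (-rho (zs i1) l) (c.X.Tz (rho (zs i1) l) x) = x :=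
        fun x => by rw [← fd.t.add, neg_add_cancel, fd.t.zero]
      filter_upwards [q.ae (fd.lc.hs_slot c.L (zs i1) _ (mR a a')),
        q.ae (fd.lc.hs_slot c.L (zs i2) _ (mR b b')), q.ae (hS ((n • sg) a') ((n • sg) b')),
        q.ae (shift fd c.W sg _ st.sh n a' b'),
        (fd.t.mp c.W (rho (zs i2) l)).quasiMeasurePreserving.ae (hS a' b'),
        fd.t.emb_z c.W c.X (c.π i1) (rho (zs i1) l) (cx.embπ i1) _ (mR a a'),
        fd.t.emb_z c.W c.X (c.π i2) (rho (zs i1) l) (cx.embπ i2) _ (mR b b')]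
        with w k1 k2 k3 k4 k5 k6 k7
      refine propext ?_
      change c.W.Tz (rho (zs i1) l) w ∈ c.L.hs F ↔ w ∈ E l
      rw [h3, mem_cmb, mem_cmb]
      rw [e1] at k4
      have j2 : c.W.Tz (rho (zs i1) l) w ∈ c.L.hs (A ((n • sg) a') ((n • sg) b')) ↔
          w ∈ c.W.Tz (rho (zs i2) l) ⁻¹' c.L.hs (A a' b') :=
        (iff_of_eq k3).symm.trans (k4.trans (iff_of_eq k5))
      have j3 : c.W.Tz (rho (zs i1) l) w ∈
          (c.L.hs fun l' => c.X.Tz (rho (zs i1) l') ⁻¹' rec1 c A i1 l a a') ↔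
          w ∈ c.π i1 ⁻¹' A a a' l := by
        refine (iff_of_eq k1).trans ((iff_of_eq k6).trans ?_)
        change c.X.Tz (-rho (zs i1) l) (c.X.Tz (rho (zs i1) l) (c.π i1 w)) ∈ A a a' l ↔ _
        rw [e2]; rfl
      have j4 : c.W.Tz (rho (zs i1) l) w ∈
          (c.L.hs fun l' => c.X.Tz (rho (zs i2) l') ⁻¹' rec1 c A i1 l b b') ↔
          w ∈ c.π i2 ⁻¹' A b b' l := by
        refine (iff_of_eq k2).trans ((iff_of_eq k7).trans ?_)
        change c.X.Tz (-rho (zs i1) l) (c.X.Tz (rho (zs i1) l) (c.π i2 w)) ∈ A b b' l ↔ _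
        rw [e2]; rfl
      rw [j2, j3, j4]
      rfl
    rw [h2] at h1
    refine h1.congr fun M => ?_
    congr 1
    funext l'
    rw [← real_pre fd c.X (-rho (zs i1) l') (hF l')]
    congr 1
    ext y
    have e3 : c.X.Tz (rho (zs i1) l') (c.X.Tz (-rho (zs i1) l') y) = y := by
      rw [← fd.t.add, add_neg_cancel, fd.t.zero]
    have e4 : c.X.Tz (rho (zs i2) l') (c.X.Tz (-rho (zs i1) l') y) =
        c.X.Tz (stp i1 i2 l') y := by
      rw [← fd.t.add, stp, sub_eq_add_neg]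
    rw [Set.mem_preimage, mem_cmb, Set.mem_preimage, Set.mem_preimage, e3, e4]
    rfl

end

end T5h

end

end PkGP2
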