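import Pool.Agent.MP_154433_an.p8.P2
import Pool.Agent.MP_154433_an.p5.T7
import Pool.Agent.MP_154433_an.p5.T4

/-! Twisted line, part 7 (packed). -/

section PkGR2

/-! Calculus of the events on which a function is determined by a larger factor. -/

set_option autoImplicit false
set_option linter.unusedVariables false
set_option warn.classDefReducibility false

open MeasureTheory ProbabilityTheory Filter Topology Function Finset ComplexConjugate
open scoped BigOperators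
open Fib27 (BM sup pr Oc Orow F23 LInd Mem)
open Pool.Agent.MP_154433_an.SG (Uni ufn)

noncomputable section

namespace T5h

open T3x T5y

namespace GR2x

variable {Ω : Type} {β Z : MeasurableSpace Ω} {m0 : MeasurableSpace Ω} {μ : Measure Ω}

theorem meas (F : Ω → ℂ) : MeasurableSet[β] (Th2 β Z μ F) :=
  (stronglyMeasurable_condExp (m := β) (μ := μ) (f := fun v => ‖(μ[F | Z]) v‖)).measurable
    (measurableSet_singleton 1)

theorem um_bm {m : MeasurableSpace Ω} {F : Ω → ℂ} (h : Um m μ F) : BM μ m F := BM.of_uni h.1 h.2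

theorem int_norm (F : Ω → ℂ) : Integrable (fun v => ‖(μ[F | Z]) v‖) μ := integrable_condExp.norm

variable [IsProbabilityMeasure μ]

/-- a function bounded by one whose conditional mean is one on an event equals one there -/
theorem one_of_ce {g : Ω → ℝ} (hβ : β ≤ m0) (hg : Integrable g μ) (h1 : ∀ᵐ x ∂μ, g x ≤ 1) :
    ∀ᵐ x ∂μ, (μ[g | β]) x = 1 → g x = 1 := by
  have hE : MeasurableSet[β] {x | (μ[g | β]) x = 1} :=
    (stronglyMeasurable_condExp (m := β) (μ := μ) (f := g)).measurable (measurableSet_singleton 1)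
  have hE0 : MeasurableSet[m0] {x | (μ[g | β]) x = 1} := hβ _ hE
  have e1 : ∫ x in {x | (μ[g | β]) x = 1}, (μ[g | β]) x ∂μ = ∫ x in {x | (μ[g | β]) x = 1}, g x ∂μ :=
    setIntegral_condExp hβ hg hE
  have e2 : ∫ x in {x | (μ[g | β]) x = 1}, (μ[g | β]) x ∂μ =
      ∫ x in {x | (μ[g | β]) x = 1}, (1 : ℝ) ∂μ := setIntegral_congr_fun hE0 fun x hx => hx
  have e3 : ∫ x in {x | (μ[g | β]) x = 1}, (1 - g x) ∂μ = 0 := by
    rw [integral_sub (integrable_const _) hg.integrableOn, ← e1, e2, sub_self]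
  have e4 := (integral_eq_zero_iff_of_nonneg_ae (μ := μ.restrict {x | (μ[g | β]) x = 1})
    (f := fun x => 1 - g x) (ae_restrict_of_ae (h1.mono fun x hx => sub_nonneg.2 hx))
    ((integrable_const _).sub hg.integrableOn)).1 e3
  filter_upwards [(ae_restrict_iff' hE0).1 e4] with x hx hxE
  have h2 : 1 - g x = 0 := hx hxE
  linarith

/-- a function equal to one on an event of the base has conditional mean one there -/
theorem ce_of_one {g : Ω → ℝ} {E : Set Ω} (hβ : β ≤ m0) (hg : Integrable g μ)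
    (hE : MeasurableSet[β] E) (h1 : ∀ᵐ x ∂μ, x ∈ E → g x = 1) :
    ∀ᵐ x ∂μ, x ∈ E → (μ[g | β]) x = 1 := by
  have e1 := condExp_indicator (m := β) hg hE
  have e2 := condExp_indicator (m := β) (μ := μ) (integrable_const (1 : ℝ)) hE
  have e3 : μ[E.indicator g | β] =ᵐ[μ] μ[E.indicator fun _ => (1 : ℝ) | β] := by
    refine condExp_congr_ae ?_
    filter_upwards [h1] with x hx
    by_cases hxE : x ∈ E
    · simp [hxE, hx hxE]
    · simp [hxE]
  rw [condExp_const hβ] at e2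
  filter_upwards [e1, e2, e3] with x a1 a2 a3 hx
  rw [a1, a2] at a3
  simpa [hx] using a3

theorem le (rc : Rc) {F : Ω → ℂ} (h1 : β ≤ Z) (h2 : Z ≤ m0) (hF : Um m0 μ F) :
    ∀ᵐ x ∂μ, x ∈ Th2 β Z μ F → x ∈ Th Z μ F ∧ F x = (μ[F | Z]) x := by
  have hb : ∀ᵐ x ∂μ, ‖(μ[F | Z]) x‖ ≤ 1 :=
    ae_bdd_norm_condExp_of_ae_bdd_norm (hF.2.mono fun _ h => h.le)
  filter_upwards [one_of_ce (h1.trans h2) (int_norm (Z := Z) F) hb, rc.eq Z μ F h2 hF]
    with x a1 a2 hx
  exact ⟨a1 hx, a2 (a1 hx)⟩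

theorem of (rc : Rc) {F k : Ω → ℂ} {E : Set Ω} (h1 : β ≤ Z) (h2 : Z ≤ m0) (hF : Um m0 μ F)
    (hk : BM μ Z k) (hE : MeasurableSet[β] E) (h : ∀ᵐ x ∂μ, x ∈ E → F x = k x) :
    ∀ᵐ x ∂μ, x ∈ E → x ∈ Th2 β Z μ F :=
  ce_of_one (h1.trans h2) (int_norm (Z := Z) F) hE (rc.of Z μ F k E h2 hF hk (h1 _ hE) h)

omit [IsProbabilityMeasure μ] in
theorem ce_real {g : Ω → ℝ} (hg : Integrable g μ) :
    μ[fun x => ((g x : ℝ) : ℂ) | β] =ᵐ[μ] fun x => (((μ[g | β]) x : ℝ) : ℂ) :=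
  (Complex.ofRealCLM.comp_condExp_comm (m := β) hg).symm

theorem mp_int (fd : Fd) (Y : Sys) (n : ℤ) {g : Y.X → ℝ} (hg : Integrable g Y.μ) :
    Integrable (fun v => g (Y.Tz n v)) Y.μ := (fd.t.mp Y n).integrable_comp_of_integrable hg

theorem mp_ae (fd : Fd) (Y : Sys) (n : ℤ) {p : Y.X → Prop} (h : ∀ᵐ x ∂Y.μ, p x) :
    ∀ᵐ x ∂Y.μ, p (Y.Tz n x) := (fd.t.mp Y n).quasiMeasurePreserving.ae h

theorem sh (fd : Fd) (Y : Sys) (β Z : MeasurableSpace Y.X) (F : Y.X → ℂ) (n : ℤ) (hβ : Fac Y β)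
    (hZ : Fac Y Z) (hF : Um Y.ms Y.μ F) :
    ∀ᵐ x ∂Y.μ, x ∈ Th2 β Z Y.μ (fun y => F (Y.Tz n y)) ↔ Y.Tz n x ∈ Th2 β Z Y.μ F := by
  have hg : Integrable (fun v => ‖(Y.μ[F | Z]) v‖) Y.μ := int_norm F
  have e1 := fd.t.ce Y Z n F hZ (um_bm hF).integrable
  have e2 : Y.μ[fun v => ‖(Y.μ[fun y => F (Y.Tz n y) | Z]) v‖ | β] =ᵐ[Y.μ]
      Y.μ[fun v => ‖(Y.μ[F | Z]) (Y.Tz n v)‖ | β] :=
    condExp_congr_ae (e1.mono fun x hx => by simp only [hx])
  have e3 := fd.t.ce Y β n (fun v => ((‖(Y.μ[F | Z]) v‖ : ℝ) : ℂ)) hβ hg.ofReal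
  have e4 := ce_real (β := β) (g := fun v => ‖(Y.μ[F | Z]) (Y.Tz n v)‖)
    (mp_int fd Y n hg)
  have e5 := mp_ae fd Y n (ce_real (β := β) hg)
  filter_upwards [e2, e3, e4, e5] with x a2 a3 a4 a5
  have a6 : (Y.μ[fun v => ‖(Y.μ[F | Z]) (Y.Tz n v)‖ | β]) x =
      (Y.μ[fun v => ‖(Y.μ[F | Z]) v‖ | β]) (Y.Tz n x) :=
    Complex.ofReal_injective (a4.symm.trans (a3.trans a5))
  change (Y.μ[fun v => ‖(Y.μ[fun y => F (Y.Tz n y) | Z]) v‖ | β]) x = 1 ↔
    (Y.μ[fun v => ‖(Y.μ[F | Z]) v‖ | β]) (Y.Tz n x) = 1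
  rw [a2, a6]

end GR2x

open GR2x in
theorem xR2a : R2aR := by
  intro fd rc
  refine ⟨fun β Z _ μ F => meas F, ?_, fun β Z _ μ _ F h1 h2 hF => le rc h1 h2 hF,
    fun β Z _ μ _ F k E h1 h2 hF hk hE h => of rc h1 h2 hF hk hE h, ?_, ?_,
    fun Y β Z F n hβ hZ hF => sh fd Y β Z F n hβ hZ hF⟩
  · intro Ω β Z m0 μ F F' h
    have e1 : μ[F | Z] =ᵐ[μ] μ[F' | Z] := condExp_congr_ae h
    have e2 : μ[fun v => ‖(μ[F | Z]) v‖ | β] =ᵐ[μ] μ[fun v => ‖(μ[F' | Z]) v‖ | β] :=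
      condExp_congr_ae (e1.mono fun x hx => by simp only [hx])
    filter_upwards [e2] with x hx
    change (μ[fun v => ‖(μ[F | Z]) v‖ | β]) x = 1 ↔ (μ[fun v => ‖(μ[F' | Z]) v‖ | β]) x = 1
    rw [hx]
  · intro Ω β Z m0 μ _ F F' h1 h2 hF hF'
    have hm : Um m0 μ fun x => F x * F' x := by
      refine ⟨((um_bm hF).mul (um_bm hF')).1, ?_⟩
      filter_upwards [hF.2, hF'.2] with x a1 a2
      rw [norm_mul, a1, a2, one_mul]
    have h := of rc (E := Th2 β Z μ F ∩ Th2 β Z μ F') h1 h2 hm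
      (((um_bm hF).ce Z).mul ((um_bm hF').ce Z)) ((meas F).inter (meas F')) (by
        filter_upwards [le rc h1 h2 hF, le rc h1 h2 hF'] with x a1 a2 hx
        rw [← (a1 hx.1).2, ← (a2 hx.2).2])
    filter_upwards [h] with x hx a1 a2
    exact hx ⟨a1, a2⟩
  · intro Ω β Z m0 μ _ F h1 h2 hF
    have hm : Um m0 μ fun x => conj (F x) := by
      refine ⟨(um_bm hF).conj.1, ?_⟩
      filter_upwards [hF.2] with x a1
      rw [Complex.norm_conj, a1]
    exact of rc h1 h2 hm ((um_bm hF).ce Z).conj (meas F) (by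
      filter_upwards [le rc h1 h2 hF] with x a1 hx
      rw [← (a1 hx).2])

end T5h

end

end PkGR2

section PkGCm

/-! Section 5, row Cm: two points and the larger factor. -/

set_option autoImplicit false
set_option linter.unusedVariables false
set_option warn.classDefReducibility false

open MeasureTheory ProbabilityTheory Filter Topology Function Finset ComplexConjugate
open scoped BigOperators
open Fib27 (BM sup pr Oc Orow F23 LInd Mem)
open Pool.Agent.MP_154433_an.SG (Uni ufn)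

noncomputable section

namespace T5h

open T3x T5y

namespace GCm

open Classical in
/-- the conjugate phase of a complex number of norm one, and one otherwise -/
def ph (z : ℂ) : ℂ := if ‖z‖ = 1 then conj z else 1

theorem ph_norm (z : ℂ) : ‖ph z‖ = 1 := by
  unfold ph
  split_ifs with h
  · rw [Complex.norm_conj, h]
  · exact norm_one

theorem ph_mul {z : ℂ} (h : ‖z‖ = 1) : ph z * z = 1 := by
  unfold ph
  rw [if_pos h, Complex.conj_mul', h]
  norm_num

theorem ph_meas : Measurable ph := by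
  unfold ph
  exact Measurable.ite (measurableSet_eq_fun measurable_norm measurable_const)
    Complex.continuous_conj.measurable measurable_const

theorem um_mono {Ω : Type} (m m' : MeasurableSpace Ω) {m0 : MeasurableSpace Ω} (μ : Measure Ω)
    {φ : Ω → ℂ} (h : Um m μ φ) (hm : m ≤ m') : Um m' μ φ := ⟨h.1.mono hm, h.2⟩

theorem um_pr {Ω ι : Type} [Fintype ι] {m0 : MeasurableSpace Ω} (μ : Measure Ω) (φ : ι → Ω → ℂ)
    (h : ∀ k, Um m0 μ (φ k)) : Um m0 μ (pr φ univ) := by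
  refine ⟨Finset.aestronglyMeasurable_fun_prod _ fun k _ => (h k).1, ?_⟩
  filter_upwards [ae_all_iff.2 fun k => (h k).2] with x hx
  simp only [pr, norm_prod, hx, Finset.prod_const_one]

end GCm

theorem xCm : CmR := by
  intro _ rc r2 Ω β p m0 μ _ φ hβ hp hl hφ q
  have hβ0 : β ≤ m0 := hβ.trans (hp none)
  have hφ0 : ∀ k, Um m0 μ (φ k) := fun k =>
    GCm.um_mono _ _ μ (hφ k) (sup_le (hp (some k)) hβ0)
  have hF : Um m0 μ (pr φ univ) := GCm.um_pr μ φ hφ0
  let φ' : Option Bool → Ω → ℂ := fun o =>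
    o.elim (fun x => GCm.ph ((μ[pr φ univ | p none]) x)) φ
  have hφ' : ∀ o, Um (p o ⊔ β) μ (φ' o) := by
    rintro (_ | k)
    · refine ⟨?_, Eventually.of_forall fun x => GCm.ph_norm _⟩
      have h1 : Measurable[p none] fun x => GCm.ph ((μ[pr φ univ | p none]) x) :=
        GCm.ph_meas.comp stronglyMeasurable_condExp.measurable
      have h2 : Measurable[p none ⊔ β] (φ' none) := h1.mono le_sup_left le_rfl
      exact h2.stronglyMeasurable.aestronglyMeasurable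
    · exact hφ k
  have hF' : Um m0 μ (pr φ' univ) := GCm.um_pr μ φ' fun o =>
    GCm.um_mono _ _ μ (hφ' o) (sup_le (hp o) hβ0)
  have h1 : ∀ᵐ x ∂μ, x ∈ Th2 β (p none) μ (pr φ univ) → pr φ' univ x = (fun _ => (1 : ℂ)) x := by
    filter_upwards [r2.le β (p none) μ (pr φ univ) hβ (hp none) hF] with x hx hx'
    obtain ⟨h2, h3⟩ := hx hx'
    have h4 : pr φ' univ x = GCm.ph ((μ[pr φ univ | p none]) x) * pr φ univ x := by
      simp only [pr, Fintype.prod_option, φ', Option.elim_none, Option.elim_some]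
    rw [h4, h3]
    exact GCm.ph_mul h2
  have h2 := rc.of β μ (pr φ' univ) (fun _ => (1 : ℂ)) (Th2 β (p none) μ (pr φ univ)) hβ0 hF'
    ⟨aestronglyMeasurable_const, 1, Eventually.of_forall fun _ => norm_one.le⟩
    (r2.meas β (p none) μ _) h1
  filter_upwards [h2, rc.cm β p μ φ' hβ0 hp (by simp) hl hφ' (some q)] with x hx hx' h3 h4 k
  exact hx' (hx h3) h4 (some k)

end T5h

end

end PkGCm

section PkGCtx

/-! Factors of a context for the line with a twist slot. -/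

set_option autoImplicit false
set_option linter.unusedVariables false
set_option warn.classDefReducibility false

open MeasureTheory ProbabilityTheory Filter Topology Function Finset ComplexConjugate
open scoped BigOperators
open Fib27 (BM sup pr Oc Orow F23 LInd Mem)
open Pool.Agent.MP_154433_an.SG (Uni ufn)

noncomputable section

namespace T5h

open T3x T5y

namespace GCtx

theorem pair {Ω ι : Type} [DecidableEq ι] (β : MeasurableSpace Ω) (p : ι → MeasurableSpace Ω)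
    {m0 : MeasurableSpace Ω} (μ : Measure Ω) {a b : ι} (hab : a ≠ b)
    (h : ∀ f g : Ω → ℂ, BM μ (p a) f → BM μ (p b) g →
      μ[fun x => f x * g x | β] =ᵐ[μ] fun x => (μ[f | β]) x * (μ[g | β]) x) :
    CInd β p {a, b} μ := by
  intro f hf
  have e : pr f {a, b} = fun x => f a x * f b x := funext fun x => prod_pair hab
  rw [e]
  filter_upwards [h (f a) (f b) (hf a (by simp)) (hf b (by simp))] with x hx
  rw [hx, prod_pair hab]

theorem zs_inj : Injective zs := fun a b h => (Prod.ext_iff.1 h).2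

theorem pre_slot (F : Fd) (c : Cx) (k : Bool) (A : Set c.X.X) (hA : MeasurableSet[c.B] A) :
    MeasurableSet[c.L.shp c.B] (c.π k ⁻¹' A) :=
  (le_sup_left.trans (F.lb.slot c.L c.B (zs k) c.kc.1) : c.B.comap (c.π k) ≤ c.L.shp c.B) _
    ⟨A, hA, rfl⟩

end GCtx

open GCtx in
theorem xCtx : CtxR := by
  intro F i2 ps az c
  have facS : Fac c.W (c.L.shp c.B) := F.lb.fac c.L c.B c.kc.1
  have kc2 : KC c.W c.B2 := F.h.kc c.W _ c.L.nice facS
  have kcZ : KC c.W c.AZ := az.kc c.L c.B c.kc.1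
  have leZ : c.B2 ≤ c.AZ := az.b2 c.L c.B
  have facP : ∀ k, Fac c.W (c.P k) := fun k => F.t.fpull _ _ _ _ (c.L.emb _) (F.t.top _)
  obtain ⟨hI, hc⟩ := GI.line F (i2 F c.ν c.U c.hU c.uw.erg) (by norm_num) c.L c.nice c.kc zs
    zs_inj (fun _ => one_ne_zero) univ (by simp)
  have hz := fun q => ps c.ν c.U c.hU c.uw c.X c.B c.L q c.nice c.kc
  have pz : ∀ q, CInd c.B2 c.P3 {some q, none} c.W.μ := fun q =>
    pair c.B2 c.P3 c.W.μ (by simp) ((F.c.cp_iff (c.P q) c.B2 c.AZ c.W.μ (facP q).le kcZ.1.le leZ).1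
      fun f hf => (hz q f hf).trans (hc q (mem_univ q) f hf).symm)
  have pp : CInd c.B2 c.P3 {some true, some false} c.W.μ := by
    refine pair c.B2 c.P3 c.W.μ (by simp) fun f g hf hg => ?_
    have h := hI (fun b => bif b then f else g) fun b _ => by cases b; exacts [hg, hf]
    have e : pr (fun b => bif b then f else g) univ = fun x => f x * g x :=
      funext fun x => Fintype.prod_bool _
    rw [e] at h
    filter_upwards [h] with x hx
    exact hx.trans (Fintype.prod_bool _)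
  have le3 : ∀ o, c.P3 o ≤ c.W.ms := by
    rintro (_ | q)
    exacts [kcZ.1.le, (facP q).le]
  refine ⟨c.kc.1, facS, kc2, F.h.le _ _, kcZ, leZ, fun k => c.L.emb _, fun k => c.L2.emb _,
    fun k => (c.lift k).emb, facP, fun k => F.lb.slot c.L c.B _ c.kc.1, pre_slot F c,
    fun k g => pre_slot F c k _ (GHt.meas_nt c.B c.X.μ g),
    fun k f hf => GI.of_cp F.a (c.L.emb _).mp c.kc.1.le (hc k (mem_univ k)) f hf,
    fun k f hf => GI.of_cp F.a (c.L.emb _).mp c.kc.1.le (hz k) f hf, fun S hS => ?_⟩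
  obtain ⟨o, ho⟩ : ∃ o, o ∉ S := by
    by_contra h
    exact hS (eq_univ_iff_forall.2 fun o => by_contra fun ho => h ⟨o, ho⟩)
  rcases o with _ | _ | _
  · refine F.c.sub _ _ _ S _ kc2.1.le le3 (fun x hx => ?_) pp
    rcases x with _ | _ | _ <;> simp_all
  · refine F.c.sub _ _ _ S _ kc2.1.le le3 (fun x hx => ?_) (pz true)
    rcases x with _ | _ | _ <;> simp_all
  · refine F.c.sub _ _ _ S _ kc2.1.le le3 (fun x hx => ?_) (pz false)
    rcases x with _ | _ | _ <;> simp_all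

end T5h

end

end PkGCtx

section PkGMix

/-! Row GMix: the two point slots are dominated by the product over the invariant factor. -/

set_option autoImplicit false
set_option linter.unusedVariables false
set_option warn.classDefReducibility false

open MeasureTheory ProbabilityTheory Filter Topology Function Finset ComplexConjugate
open scoped BigOperators

noncomputable section

namespace T5h

open T3x T5y

namespace GMixx

theorem inv_z (t : BasT) (X : Sys) {g : X.X → ℂ} (h : (fun x => g (X.T x)) =ᵐ[X.μ] g) (n : ℤ) :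
    (fun x => g (X.Tz n x)) =ᵐ[X.μ] g := by
  have k : ∀ m : ℤ, (fun x => g (X.Tz (1 + m) x)) =ᵐ[X.μ] fun x => g (X.Tz m x) := fun m => by
    simp only [t.add, t.one]
    exact (t.mp X m).quasiMeasurePreserving.ae_eq_comp h
  induction n using Int.induction_on with
  | zero => simp only [t.zero]; exact EventuallyEq.rfl
  | succ n ih => rw [add_comm]; exact (k n).trans ih
  | pred n ih =>
    have := k (-(n : ℤ) - 1)
    rw [show 1 + (-(n : ℤ) - 1) = -n by ring] at this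
    exact this.symm.trans ih

theorem pullout {Ω : Type} {m m0 : MeasurableSpace Ω} (μ : Measure Ω) [IsProbabilityMeasure μ]
    (hm : m ≤ m0) {g a : Ω → ℂ} (hg : AEStronglyMeasurable[m] g μ) (ha : Integrable a μ)
    (hga : Integrable (fun x => g x * a x) μ) :
    ∫ x, g x * a x ∂μ = ∫ x, g x * (μ[a | m]) x ∂μ := by
  have h := condExp_bilin_of_aestronglyMeasurable_left (ContinuousLinearMap.mul ℝ ℂ) hg hga ha
  exact (integral_condExp hm (f := fun x => g x * a x)).symm.trans (integral_congr_ae h)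

theorem im {Ω : Type} [MeasurableSpace Ω] {μ : Measure Ω} {g a : Ω → ℂ} (hg : MemLp g 2 μ)
    (ha : MemLp a 2 μ) : Integrable (fun x => g x * a x) μ := hg.integrable_mul ha

theorem one_side (ν : Wt) (M : ℕ) {Ω : Type} [MeasurableSpace Ω] (μ : Measure Ω)
    [IsProbabilityMeasure μ] (F : ℤ → Ω → ℂ) (hF : ∀ d, MemLp (F d) 2 μ) (b : Ω → ℂ)
    (hb : AEStronglyMeasurable b μ) (hb1 : ∀ x, ‖b x‖ ≤ 1) {ε : ℝ} (hε : 0 < ε) :
    ν.av M (fun d => (∫ x, F d x * b x ∂μ).re) ≤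
      ε + ε⁻¹ * ∫ x, ‖ν.av M fun d => F d x‖ ^ 2 ∂μ := by
  have hi : ∀ d, Integrable (fun x => F d x * b x) μ := fun d =>
    ((hF d).integrable one_le_two).mul_bdd hb (ae_of_all _ hb1)
  have hG : MemLp (fun x => ν.av M fun d => F d x) 2 μ :=
    memLp_finsetSum _ fun d _ => (hF d).const_smul (ν.w M d)
  have h2 : Integrable (fun x => ‖ν.av M fun d => F d x‖ ^ 2) μ :=
    (memLp_two_iff_integrable_sq_norm hG.1).1 hG
  have e : ν.av M (fun d => (∫ x, F d x * b x ∂μ).re) =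
      (∫ x, (ν.av M fun d => F d x) * b x ∂μ).re := by
    simp only [Wt.av, sum_mul, smul_mul_assoc]
    rw [integral_finsetSum (f := fun d x => ν.w M d • (F d x * b x)) _
      fun d _ => (hi d).smul (ν.w M d), Complex.re_sum]
    refine sum_congr rfl fun d _ => ?_
    rw [integral_smul, Complex.smul_re]
  rw [e]
  refine (Complex.re_le_norm _).trans ((norm_integral_le_of_norm_le
    ((integrable_const ε).add (h2.const_mul ε⁻¹)) (ae_of_all _ fun x => ?_)).trans (le_of_eq ?_))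
  · rw [norm_mul]
    refine (mul_le_of_le_one_right (norm_nonneg _) (hb1 x)).trans ?_
    set s := ‖ν.av M fun d => F d x‖
    have hs : 0 ≤ s := norm_nonneg _
    show s ≤ ε + ε⁻¹ * s ^ 2
    rw [← sub_nonneg, show ε + ε⁻¹ * s ^ 2 - s = ε⁻¹ * ((s - ε) ^ 2 + ε * s) by field_simp; ring]
    positivity
  · simp only [Pi.add_apply]
    rw [integral_add (integrable_const ε) (h2.const_mul ε⁻¹), integral_const_mul]
    simp

end GMixx

open GMixx in
theorem xMixL : MixL := by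
  intro fd ν U X L hU erg A A' hA hA'
  have hle := (fd.t.finv X).le
  set a : X.X → ℂ := A.indicator fun _ => 1 with ha
  set a' : X.X → ℂ := A'.indicator fun _ => 1 with ha'
  set P := X.μ[a | T3x.Inv X] with hP
  set R := (∫ x, P x * (X.μ[a' | T3x.Inv X]) x ∂X.μ).re with hR
  have a2 : MemLp a 2 X.μ := (memLp_const _).indicator hA
  have a2' : MemLp a' 2 X.μ := (memLp_const _).indicator hA'
  have b1 : ∀ x, ‖a' x‖ ≤ 1 := fun x => by by_cases hx : x ∈ A' <;> simp [ha', hx]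
  have P2 : MemLp P 2 X.μ := a2.condExp one_le_two
  have Pm : AEStronglyMeasurable[T3x.Inv X] P X.μ := stronglyMeasurable_condExp.aestronglyMeasurable
  have Pz := inv_z fd.t X ((fd.t.inv_iff X P P2.1).1 Pm)
  have f2 : MemLp (fun x => a x - P x) 2 X.μ := a2.sub P2
  have hz := (fd.mix ν erg).zero X 1 _ f2 fun g hg hi => by
    have gm := (fd.t.inv_iff X g hg.1).2 (by simpa only [fd.t.one] using hi)
    have := pullout X.μ hle gm (a2.integrable one_le_two) (im hg a2)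
    simp only [mul_comm _ (g _), mul_sub]
    rw [integral_sub (im hg a2) (im hg P2), this, sub_self]
  simp only [one_mul] at hz
  have cz : ∀ {g : X.X → ℂ}, MemLp g 2 X.μ → ∀ d, MemLp (fun x => g (X.Tz d x)) 2 X.μ :=
    fun hg d => hg.comp_measurePreserving (fd.t.mp X d)
  have m1 : ∀ d, MeasurableSet (X.Tz d ⁻¹' A) := fun d => (fd.t.mp X _).measurable hA
  have m2 : ∀ d, MeasurableSet (X.Tz d ⁻¹' A') := fun d => (fd.t.mp X _).measurable hA'
  have e : ∀ d d' : ℤ, X.μ.real (X.Tz d ⁻¹' A ∩ X.Tz d' ⁻¹' A') =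
      (∫ x, (a (X.Tz d x) - P (X.Tz d x)) * a' (X.Tz d' x) ∂X.μ).re + R := fun d d' => by
    have e1 : ∫ x, P (X.Tz d x) * a' (X.Tz d' x) ∂X.μ =
        ∫ x, P x * (X.μ[a' | T3x.Inv X]) x ∂X.μ := by
      have e0 := integral_map (μ := X.μ) (fd.t.mp X d').measurable.aemeasurable
        (f := fun x => P x * a' x) (by rw [(fd.t.mp X d').map_eq]; exact (im P2 a2').1)
      rw [(fd.t.mp X d').map_eq] at e0
      rw [← pullout X.μ hle Pm (a2'.integrable one_le_two) (im P2 a2'), e0]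
      refine integral_congr_ae ?_
      filter_upwards [Pz d, Pz d'] with x h1 h2
      rw [h1, h2]
    have e2 : ∫ x, a (X.Tz d x) * a' (X.Tz d' x) ∂X.μ =
        (X.μ.real (X.Tz d ⁻¹' A ∩ X.Tz d' ⁻¹' A') : ℂ) := by
      have : (fun x => a (X.Tz d x) * a' (X.Tz d' x)) =
          (X.Tz d ⁻¹' A ∩ X.Tz d' ⁻¹' A').indicator fun _ => (1 : ℂ) := by
        funext x
        by_cases h1 : X.Tz d x ∈ A <;> by_cases h2 : X.Tz d' x ∈ A' <;> simp [ha, ha', h1, h2]
      rw [this, integral_indicator_const _ ((m1 d).inter (m2 d'))]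
      simp
    simp only [sub_mul]
    rw [integral_sub (im (cz a2 d) (cz a2' d')) (im (cz P2 d) (cz a2' d')),
      e1, e2, Complex.sub_re, Complex.ofReal_re, hR, sub_add_cancel]
  have hl := fd.lc.hs_lim L _ fun l => (m1 (rho (zs true) l)).inter (m2 (rho (zs false) l))
  rw [fd.lc.hs_inter L _ _ (fun l => m1 _) (fun l => m2 _),
    measureReal_congr ((fd.lc.hs_slot L _ A hA).inter (fd.lc.hs_slot L _ A' hA'))] at hl
  refine le_of_forall_pos_le_add fun ε hε => ?_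
  have hr := ((hz.mono_left hU).const_mul ε⁻¹).const_add (R + ε)
  rw [mul_zero, add_zero] at hr
  refine le_of_tendsto_of_tendsto' hl hr fun M => ?_
  have k : ∀ d' : ℤ, ν.av M (fun d => X.μ.real (X.Tz d ⁻¹' A ∩ X.Tz d' ⁻¹' A')) ≤
      R + ε + ε⁻¹ * ∫ x, ‖ν.av M fun d => a (X.Tz d x) - P (X.Tz d x)‖ ^ 2 ∂X.μ := fun d' => by
    have := one_side ν M X.μ _ (cz f2) _ (cz a2' d').1 (fun x => b1 _) hε
    simp only [e, Wt.av, smul_add, sum_add_distrib, ← sum_smul, ν.one, one_smul] at this ⊢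
    linarith
  have s : (ν.av2 M fun l => X.μ.real (X.Tz (rho (zs true) l) ⁻¹' A ∩
      X.Tz (rho (zs false) l) ⁻¹' A')) = ν.av M fun d' =>
        ν.av M fun d => X.μ.real (X.Tz d ⁻¹' A ∩ X.Tz d' ⁻¹' A') := by
    simp only [Wt.av2, Wt.av, rho, zs, one_mul, if_true, Bool.false_eq_true, if_false, smul_sum]
    rw [sum_comm]
    exact sum_congr rfl fun _ _ => sum_congr rfl fun _ _ => smul_comm _ _ _
  rw [s, Wt.av]
  refine (sum_le_sum fun d' _ => smul_le_smul_of_nonneg_left (k d') (ν.nn M d')).trans ?_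
  rw [← sum_smul, ν.one, one_smul]

end T5h

end

end PkGMix

section PkGFlat

/-! Section 5, row Flat: three sides of a square of tuples give the fourth. -/

set_option autoImplicit false
set_option linter.unusedVariables false
set_option warn.classDefReducibility false

open MeasureTheory ProbabilityTheory Filter Topology Function Finset ComplexConjugate
open scoped BigOperators
open Fib27 (BM sup pr Oc Orow F23 LInd Mem)
open Pool.Agent.MP_154433_an.SG (Uni ufn)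

noncomputable section

namespace T5h

open T3x T5y

namespace GFlat

theorem exists_uni {Ω : Type} {m0 : MeasurableSpace Ω} {μ : Measure Ω} {f : Ω → ℂ}
    (h : Um m0 μ f) : ∃ u : Uni Ω, ufn u =ᵐ[μ] f := by
  classical
  obtain ⟨⟨g, hg, e⟩, hn⟩ := h
  have hm : Measurable g := hg.measurable
  have hS : MeasurableSet {x | ‖g x‖ = 1} := measurableSet_eq_fun hm.norm measurable_const
  let g' : Ω → ℂ := fun x => if ‖g x‖ = 1 then g x else 1
  have hm' : Measurable g' := Measurable.ite hS hm measurable_const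
  have hn' : ∀ x, ‖g' x‖ = 1 := fun x => by
    by_cases c : ‖g x‖ = 1
    · simp only [g', if_pos c]; exact c
    · simp only [g', if_neg c]; exact norm_one
  refine ⟨⟨fun x => ⟨g' x, mem_sphere_zero_iff_norm.2 (hn' x)⟩, hm'⟩, ?_⟩
  filter_upwards [e, hn] with x h1 h2
  show g' x = f x
  have c : ‖g x‖ = 1 := h1 ▸ h2
  simp only [g', if_pos c]
  exact h1.symm

theorem theta_iff (G : GC) (c : Cx) {V : Type} {ψ : V → c.X.X → ℂ} {u : V → Uni c.X.X}
    (hu : ∀ v, ufn (u v) =ᵐ[c.X.μ] ψ v) (v : Bool → V) :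
    ∀ᵐ w ∂c.W.μ, w ∈ c.Θ (fun k => u (v k)) ↔ w ∈ c.ΘV ψ v := by
  have e : c.up (fun k => u (v k)) =ᵐ[c.W.μ] c.FF ψ v := by
    have h := fun k => ((G.ctx c).embπ k).mp.quasiMeasurePreserving.ae (hu (v k))
    filter_upwards [h true, h false] with w h1 h2
    show ufn (u (v true)) (c.π true w) * ufn (u (v false)) (c.π false w) =
      ∏ k, ψ (v k) (c.π k w)
    rw [Fintype.prod_bool, h1, h2]
  exact G.r2.congr c.B2 c.AZ c.W.μ _ _ e

end GFlat

open GFlat in
theorem xFlat : FlatR := by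
  intro fd G c V _ _ sg ψ hF hP m j0 j
  by_cases e : j = j0
  · subst e
    exact Eventually.of_forall fun x _ h => h
  have e' : j = !j0 := by
    cases j <;> cases j0 <;> simp at e ⊢
  subst e'
  choose u hu using fun v => exists_uni (hP.um v)
  have hA := fun k =>
    ((G.ctx c).embA k).mp.quasiMeasurePreserving.ae (theta_iff G c hu (m k))
  have hB := fun i =>
    ((G.ctx c).embB i).mp.quasiMeasurePreserving.ae (theta_iff G c hu fun k => m k i)
  filter_upwards [hA true, hA false, hB j0, hB (!j0), hF (fun q i => u (m q i)) j0]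
    with x h1 h2 h3 h4 h5 ha hb
  exact h4.1 (h5 ⟨⟨h1.2 (ha true), h2.2 (ha false)⟩, h3.2 hb⟩)

end T5h

end

end PkGFlat

section PkGRelC

/-! Decay of the approximate relations (row GRelC of section 5). -/

set_option autoImplicit false
set_option linter.unusedVariables false
set_option warn.classDefReducibility false

open MeasureTheory ProbabilityTheory Filter Topology Function Finset ComplexConjugate
open scoped BigOperators

noncomputable section

namespace T5h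

open T3x T5y

namespace GRelC

/-- three slots, two of them the point slots -/
def sl : Option Bool → Slot := fun o => o.elim (2, true) zs

theorem sl_inj : Injective sl := by decide

theorem sl_ne : ∀ i, (sl i).1 ≠ 0 := by decide

/-- a context of section 4 with the same lines -/
def ctx (F : Fd) (I : Ind2R) (c : Cx) : Ctx where
  ν := c.ν
  U := c.U
  hU := c.hU
  erg := c.uw.erg
  ι := Option Bool
  sl := sl
  inj := sl_inj
  ne := sl_ne
  three := le_of_eq rfl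
  ind := I F c.ν c.U c.hU c.uw.erg
  X := c.X
  B := c.B
  nice := c.nice
  kc := c.kc
  L := c.L
  L2 := c.L2
  Bc j := (F.la.ex c.L2 c.L _ (c.L.emb (sl j))).choose
  lift j := (F.la.ex c.L2 c.L _ (c.L.emb (sl j))).choose_spec

end GRelC

theorem xRelC : RelC := fun F R I c V _ _ sg ψ hψ a a' =>
  T3x.xRelC F R (T3x.Sec4A.gc T3x.xCtx T3x.xPsc T3x.xFf F R) (GRelC.ctx F I c) V sg ψ hψ a a'

end T5h

end

end PkGRelC

section PkGZv

/-! Calculus for partners: the sets `ZV` for the line with a twist slot. -/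

set_option autoImplicit false
set_option linter.unusedVariables false
set_option warn.classDefReducibility false

open MeasureTheory ProbabilityTheory Filter Topology Function Finset ComplexConjugate
open scoped BigOperators
open Fib27 (BM sup pr Oc Orow F23 LInd Mem)
open Pool.Agent.MP_154433_an.SG (Uni ufn)

noncomputable section

namespace T5h

open T3x T5y

namespace GZv

theorem ufn_meas {Ω : Type} {m0 : MeasurableSpace Ω} (φ : Uni Ω) : Measurable (ufn φ) := φ.2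

theorem ufn_norm {Ω : Type} {m0 : MeasurableSpace Ω} (φ : Uni Ω) (x : Ω) : ‖ufn φ x‖ = 1 :=
  Circle.norm_coe _

theorem ufn_mul {Ω : Type} {m0 : MeasurableSpace Ω} (φ ψ : Uni Ω) (x : Ω) :
    ufn (φ * ψ) x = ufn φ x * ufn ψ x := Circle.coe_mul _ _

theorem ufn_one {Ω : Type} {m0 : MeasurableSpace Ω} (x : Ω) : ufn (1 : Uni Ω) x = 1 := rfl

theorem ufn_inv {Ω : Type} {m0 : MeasurableSpace Ω} (φ : Uni Ω) (x : Ω) :
    ufn φ⁻¹ x = conj (ufn φ x) := Circle.coe_inv_eq_conj _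

theorem ufn_bm (X : Sys) (φ : Uni X.X) : BM X.μ X.ms (ufn φ) :=
  ⟨(ufn_meas φ).aestronglyMeasurable, 1, Eventually.of_forall fun x => (ufn_norm φ x).le⟩

variable {c : Cx}

/-- the entries as functions on the line -/
def en (c : Cx) (g : Bool → Uni c.X.X) (k : Bool) (w : c.W.X) : ℂ := ufn (g k) (c.π k w)

theorem um (g : Bool → Uni c.X.X) (k : Bool) : Um (c.P k ⊔ c.B2) c.W.μ (en c g k) := by
  refine ⟨?_, Eventually.of_forall fun w => ufn_norm _ _⟩
  have h1 : Measurable[c.X.ms.comap (c.π k)] (en c g k) :=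
    (ufn_meas (g k)).comp (comap_measurable (c.π k))
  have h2 : c.X.ms.comap (c.π k) ≤ c.P k ⊔ c.B2 := le_sup_of_le_left le_sup_left
  exact (h1.mono h2 le_rfl).stronglyMeasurable.aestronglyMeasurable

theorem pr_en (g : Bool → Uni c.X.X) : pr (en c g) univ = c.up g := by
  funext w
  show ∏ k, en c g k w = _
  rw [Fintype.prod_bool]
  rfl

theorem up_meas (hC : CtxC c) (g : Bool → Uni c.X.X) : Measurable (c.up g) :=
  ((ufn_meas (g true)).comp (hC.embπ true).mp.measurable).mul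
    ((ufn_meas (g false)).comp (hC.embπ false).mp.measurable)

theorem up_norm (g : Bool → Uni c.X.X) (w : c.W.X) : ‖c.up g w‖ = 1 := by
  show ‖ufn (g true) (c.π true w) * ufn (g false) (c.π false w)‖ = 1
  rw [norm_mul, ufn_norm, ufn_norm, one_mul]

theorem umP (hC : CtxC c) (g : Bool → Uni c.X.X) : Um c.W.ms c.W.μ (c.up g) :=
  ⟨(up_meas hC g).aestronglyMeasurable, Eventually.of_forall (up_norm g)⟩

theorem up_mul (g g' : Bool → Uni c.X.X) :
    c.up (g * g') = fun w => c.up g w * c.up g' w := by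
  funext w
  show ufn (g true * g' true) (c.π true w) * ufn (g false * g' false) (c.π false w) =
    (ufn (g true) (c.π true w) * ufn (g false) (c.π false w)) *
      (ufn (g' true) (c.π true w) * ufn (g' false) (c.π false w))
  rw [ufn_mul, ufn_mul]
  ring

theorem up_inv (g : Bool → Uni c.X.X) : c.up g⁻¹ = fun w => conj (c.up g w) := by
  funext w
  show ufn (g true)⁻¹ (c.π true w) * ufn (g false)⁻¹ (c.π false w) =
    conj (ufn (g true) (c.π true w) * ufn (g false) (c.π false w))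
  rw [map_mul, ufn_inv, ufn_inv]

theorem up_one : c.up 1 = fun _ => (1 : ℂ) := by
  funext w
  show ufn (1 : Uni c.X.X) (c.π true w) * ufn (1 : Uni c.X.X) (c.π false w) = 1
  rw [ufn_one, ufn_one, one_mul]

/-- the tuple of values -/
def vl {𝒱 : Subgroup (Uni c.X.X)} (h : Bool → 𝒱) : Bool → Uni c.X.X := fun k => (h k).1

theorem mem_ZV {𝒱 : Subgroup (Uni c.X.X)} {q : Bool} {g : Uni c.X.X} {w : c.W.X} :
    w ∈ c.ZV 𝒱 q g ↔ ∃ h : Bool → 𝒱, (h q).1 = g ∧ w ∈ c.Θ (vl h) := by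
  unfold Cx.ZV
  simp only [Set.mem_iUnion, Set.mem_ofPred_eq, exists_prop]
  constructor
  · rintro ⟨g', ⟨h1, h2⟩, h3⟩
    exact ⟨fun k => ⟨g' k, h1 k⟩, h2, h3⟩
  · rintro ⟨h, h1, h2⟩
    exact ⟨vl h, ⟨fun k => (h k).2, h1⟩, h2⟩

theorem cnt {𝒱 : Subgroup (Uni c.X.X)} (h : Countable 𝒱) :
    {g' : Bool → Uni c.X.X | ∀ k, g' k ∈ 𝒱}.Countable := by
  refine (Set.countable_range (vl (c := c) (𝒱 := 𝒱))).mono fun g' hg => ?_
  exact ⟨fun k => ⟨g' k, hg k⟩, rfl⟩

/-- the shift of a tuple -/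
theorem th_sh (hF : Fd) (hR : R2) (hC : CtxC c) (g g' : Bool → Uni c.X.X)
    (h : ∀ k x, ufn (g' k) x = ufn (g k) (c.X.T x)) :
    ∀ᵐ w ∂c.W.μ, w ∈ c.Θ g' ↔ c.W.T w ∈ c.Θ g := by
  have h1 : ∀ k, (fun w => ufn (g k) ((c.π k ∘ c.W.T) w)) =ᵐ[c.W.μ]
      fun w => ufn (g k) ((c.X.T ∘ c.π k) w) := fun k =>
    hF.a.keq_fun c.X.ms c.W.μ c.X.μ _ _ _ ((hC.embπ k).mp.comp c.W.mp)
      (c.X.mp.comp (hC.embπ k).mp) (hC.embπ k).eqv (ufn_meas (g k)).aestronglyMeasurable
  have h2 : c.up g' =ᵐ[c.W.μ] fun w => c.up g (c.W.Tz 1 w) := by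
    filter_upwards [h1 true, h1 false] with w a b
    rw [hF.t.one]
    show ufn (g' true) (c.π true w) * ufn (g' false) (c.π false w) =
      ufn (g true) (c.π true (c.W.T w)) * ufn (g false) (c.π false (c.W.T w))
    rw [(h true _).trans a.symm, (h false _).trans b.symm]
    rfl
  filter_upwards [hR.congr c.B2 c.AZ c.W.μ _ _ h2,
    hR.sh c.W c.B2 c.AZ (c.up g) 1 hC.kc2.1 hC.kcZ.1 (umP hC g)] with w a b
  rw [hF.t.one] at b
  exact a.trans b

/-- one entry with nonzero mean makes all entries determined -/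
theorem cm (hR : R2) (hC : CtxC c) (g : Bool → Uni c.X.X) :
    ∀ᵐ w ∂c.W.μ, w ∈ c.Θ g → ∀ q, (c.X.μ[ufn (g q) | c.B]) (c.π q w) ≠ 0 →
      ∀ k, ‖(c.X.μ[ufn (g k) | c.B]) (c.π k w)‖ = 1 := by
  have hle : ∀ i, c.P3 i ≤ c.W.ms := fun i => by
    cases i with
    | none => exact hC.kcZ.1.le
    | some k => exact (hC.facP k).le
  have h1 := hR.cm c.B2 c.P3 c.W.μ (en c g) hC.leZ hle hC.cline (um g)
  have h2 : ∀ k, c.W.μ[en c g k | c.B2] =ᵐ[c.W.μ]
      fun w => (c.X.μ[ufn (g k) | c.B]) (c.π k w) := fun k => hC.ce k _ (ufn_bm _ (g k))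
  rw [pr_en] at h1
  filter_upwards [ae_all_iff.2 h1, ae_all_iff.2 h2] with w a1 a2 hw q hq k
  have := a1 q hw (by rw [a2 q]; exact hq) k
  rw [← a2 k]
  exact this

end GZv

open GZv in
theorem xZv : ZvR := by
  intro hF _ hG c 𝒱 s hE
  have hC := hG.ctx c
  have hR := hG.r2
  have := hE.cnt
  have hle : c.AZ ≤ c.W.ms := hC.kcZ.1.le
  refine ⟨umP hC, cnt hE.cnt, fun g => hR.meas _ _ _ _, fun q g => ?_, fun q g => ?_,
    fun q => ?_, fun q g g' => ?_, fun q g => ?_, fun q g => ?_, fun g j k => ?_⟩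
  · exact MeasurableSet.biUnion ((cnt hE.cnt).mono fun g' hg => hg.1) fun g' _ => hR.meas _ _ _ _
  · have h1 : ∀ h : Bool → 𝒱, ∀ᵐ w ∂c.W.μ,
        w ∈ c.Θ (vl fun k => s (h k)) ↔ c.W.T w ∈ c.Θ (vl h) := fun h =>
      th_sh hF hR hC _ _ fun k x => hE.sh (h k) x
    filter_upwards [ae_all_iff.2 h1] with w hw
    refine propext ?_
    show w ∈ c.ZV 𝒱 q (s g).1 ↔ c.W.T w ∈ c.ZV 𝒱 q g.1
    rw [mem_ZV, mem_ZV]
    constructor
    · rintro ⟨h, e, hh⟩
      refine ⟨fun k => s.symm (h k), ?_, (hw _).1 ?_⟩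
      · show (s.symm (h q)).1 = g.1
        rw [Subtype.ext e, MulEquiv.symm_apply_apply]
      · simpa only [MulEquiv.apply_symm_apply] using hh
    · rintro ⟨h, e, hh⟩
      refine ⟨fun k => s (h k), ?_, (hw _).2 hh⟩
      show (s (h q)).1 = (s g).1
      rw [Subtype.ext e]
  · have h1 := hR.of c.B2 c.AZ c.W.μ (c.up 1) (fun _ => 1) Set.univ hC.leZ hle (umP hC 1)
      ⟨aestronglyMeasurable_const, 1, Eventually.of_forall fun _ => by simp⟩ MeasurableSet.univ
      (Eventually.of_forall fun w _ => by rw [up_one])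
    filter_upwards [h1] with w hw
    exact mem_ZV.2 ⟨1, rfl, hw trivial⟩
  · have h1 : ∀ h h' : Bool → 𝒱, ∀ᵐ w ∂c.W.μ, w ∈ c.Θ (vl h) → w ∈ c.Θ (vl h') →
        w ∈ c.Θ (vl (h * h')) := fun h h' => by
      filter_upwards [hR.mul c.B2 c.AZ c.W.μ _ _ hC.leZ hle (umP hC (vl h)) (umP hC (vl h'))]
        with w hw a b
      have := hw a b
      rw [← up_mul] at this
      exact this
    filter_upwards [ae_all_iff.2 fun h => ae_all_iff.2 (h1 h)] with w hw a b
    obtain ⟨h, e, a⟩ := mem_ZV.1 a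
    obtain ⟨h', e', b⟩ := mem_ZV.1 b
    exact mem_ZV.2 ⟨h * h', by rw [← e, ← e']; rfl, hw h h' a b⟩
  · have h1 : ∀ h : Bool → 𝒱, ∀ᵐ w ∂c.W.μ, w ∈ c.Θ (vl h) → w ∈ c.Θ (vl h⁻¹) := fun h => by
      filter_upwards [hR.cj c.B2 c.AZ c.W.μ _ hC.leZ hle (umP hC (vl h))] with w hw a
      have := hw a
      rw [← up_inv] at this
      exact this
    filter_upwards [ae_all_iff.2 h1] with w hw a
    obtain ⟨h, e, a⟩ := mem_ZV.1 a
    exact mem_ZV.2 ⟨h⁻¹, by rw [← e]; rfl, hw h a⟩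
  · filter_upwards [ae_all_iff.2 fun h : Bool → 𝒱 => cm hR hC (vl h)] with w hw a
    obtain ⟨h, e, a'⟩ := mem_ZV.1 a
    rw [← e]
    by_cases h0 : (c.X.μ[ufn (h q).1 | c.B]) (c.π q w) = 0
    · exact Or.inl (norm_eq_zero.2 h0)
    · exact Or.inr (hw h a' q h0 q)
  · filter_upwards [cm hR hC g] with w hw a
    have key : ∀ j k, w ∉ c.Nt j (ufn (g j)) → w ∉ c.Nt k (ufn (g k)) := fun j k hj hk => by
      have h1 : ‖(c.X.μ[ufn (g j) | c.B]) (c.π j w)‖ = 1 := not_not.1 hj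
      refine hk (hw a j (fun h0 => ?_) k)
      rw [h0, norm_zero] at h1
      exact zero_ne_one h1
    exact not_iff_not.1 ⟨key j k, key k j⟩

end T5h

end

end PkGZv

section PkGFf

/-! Tuples of the functions `ψ` in the line with a twist slot. -/

set_option autoImplicit false
set_option linter.unusedVariables false
set_option warn.classDefReducibility false

open MeasureTheory ProbabilityTheory Filter Topology Function Finset ComplexConjugate
open scoped BigOperators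
open Fib27 (BM sup pr Oc Orow F23 LInd Mem)
open Pool.Agent.MP_154433_an.SG (Uni ufn)

noncomputable section

namespace T5h

open T3x T5y

theorem xFf : FfR := by
  intro fd rc r2 c V _ _ sg ψ C P Ψ
  have q := fun k => (C.embπ k).mp.quasiMeasurePreserving
  have le2 : c.B2 ≤ c.W.ms := C.kc2.1.le
  have leA : c.AZ ≤ c.W.ms := C.kcZ.1.le
  have cg : ∀ F F' : c.W.X → ℂ, F =ᵐ[c.W.μ] F' → ∀ᵐ w ∂c.W.μ, w ∈ c.ThZ F ↔ w ∈ c.ThZ F' :=
    fun F F' h => r2.congr c.B2 c.AZ c.W.μ F F' h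
  have um1 : ∀ k a, Um (c.P k) c.W.μ fun w => ψ a (c.π k w) := fun k a =>
    ⟨(fd.a.bm_comp c.X.ms c.W.μ c.X.μ (c.π k) (ψ a) (C.embπ k).mp (P.bm a)).1,
      (q k).ae (Ψ.um a).2⟩
  have um3 : ∀ k a, Um c.W.ms c.W.μ fun w => ψ a (c.π k w) := fun k a =>
    ⟨(um1 k a).1.mono (C.facP k).le, (um1 k a).2⟩
  have um : ∀ v, Um c.W.ms c.W.μ (c.FF ψ v) := fun v =>
    ⟨Finset.aestronglyMeasurable_fun_prod _ fun k _ => (um3 k (v k)).1, by
      filter_upwards [ae_all_iff.2 fun k => (um3 k (v k)).2] with w h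
      simp only [Cx.FF, norm_prod, h, Finset.prod_const_one]⟩
  have z := ae_all_iff.2 fun k => (q k).ae P.zero
  have zero : c.FF ψ 0 =ᵐ[c.W.μ] fun _ => 1 := by
    filter_upwards [z] with w h
    exact Finset.prod_eq_one fun k _ => h k
  have add : ∀ v v', c.FF ψ (v + v') =ᵐ[c.W.μ] fun w => c.FF ψ v w * c.FF ψ v' w := fun v v' => by
    filter_upwards [ae_all_iff.2 fun k => (q k).ae (Ψ.add (v k) (v' k))] with w h
    simp only [Cx.FF, ← Finset.prod_mul_distrib]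
    exact Finset.prod_congr rfl fun k _ => h k
  have sub : ∀ v v', c.FF ψ (v - v') =ᵐ[c.W.μ] fun w => c.FF ψ v w * conj (c.FF ψ v' w) :=
    fun v v' => by
    filter_upwards [ae_all_iff.2 fun k => (q k).ae (P.sub (v k) (v' k))] with w h
    simp only [Cx.FF, map_prod, ← Finset.prod_mul_distrib]
    exact Finset.prod_congr rfl fun k _ => h k
  have single : ∀ k a, c.FF ψ (Pi.single k a) =ᵐ[c.W.μ] fun w => ψ a (c.π k w) := fun k a => by
    filter_upwards [z] with w h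
    rw [Cx.FF, Finset.prod_eq_single k (fun j _ hj => by rw [Pi.single_eq_of_ne hj]; exact h j)
      (by simp), Pi.single_eq_same]
  have shz : ∀ (n : ℤ) v, c.FF ψ (fun k => (n • sg) (v k)) =ᵐ[c.W.μ]
      fun w => c.FF ψ v (c.W.Tz n w) := fun n v => by
    filter_upwards [ae_all_iff.2 fun k => (q k).ae (P.shz n (v k)), ae_all_iff.2 fun k =>
      fd.a.keq_fun c.X.ms c.W.μ c.X.μ _ _ (ψ (v k)) ((C.embπ k).mp.comp (fd.t.mp c.W n))
        ((fd.t.mp c.X n).comp (C.embπ k).mp) (fd.t.emb_z _ _ _ n (C.embπ k)) (Ψ.um _).1]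
      with w h h'
    exact Finset.prod_congr rfl fun k _ => (h k).trans (h' k).symm
  have tm : ∀ v, MeasurableSet[c.B2] (c.ΘV ψ v) := fun v => r2.meas c.B2 c.AZ c.W.μ (c.FF ψ v)
  have tsh : ∀ n : ℤ, ∀ᵐ w ∂c.W.μ, ∀ v,
      w ∈ c.ΘV ψ (fun k => (n • sg) (v k)) ↔ c.W.Tz n w ∈ c.ΘV ψ v := fun n =>
    ae_all_iff.2 fun v => by
      filter_upwards [cg _ _ (shz n v),
        r2.sh c.W c.B2 c.AZ (c.FF ψ v) n C.kc2.1 C.kcZ.1 (um v)] with w h h'
      exact h.trans h'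
  refine ⟨um1, fun k a => ⟨(um1 k a).1.mono le_sup_left, (um1 k a).2⟩, um3, um, zero, add, sub,
    single, shz, tm, ?_, ae_all_iff.2 fun v => ae_all_iff.2 fun v' => ?_,
    ae_all_iff.2 fun v => ae_all_iff.2 fun v' => ?_, tsh, ?_, fun n => ?_,
    ae_all_iff.2 fun k => ae_all_iff.2 fun a => ?_⟩
  · filter_upwards [r2.of c.B2 c.AZ c.W.μ (c.FF ψ 0) (fun _ => 1) Set.univ C.leZ leA (um 0)
      ⟨aestronglyMeasurable_const, 1, Eventually.of_forall fun _ => by simp⟩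
      (@MeasurableSet.univ _ c.B2) (zero.mono fun w h _ => h)] with w h
    exact h trivial
  · filter_upwards [cg _ _ (add v v'), r2.mul c.B2 c.AZ c.W.μ _ _ C.leZ leA (um v) (um v')]
      with w h h' a b
    exact h.2 (h' a b)
  · have u : Um c.W.ms c.W.μ fun w => conj (c.FF ψ v' w) :=
      ⟨Complex.continuous_conj.comp_aestronglyMeasurable (um v').1,
        (um v').2.mono fun w h => by simpa using h⟩
    filter_upwards [cg _ _ (sub v v'), r2.mul c.B2 c.AZ c.W.μ _ _ C.leZ leA (um v) u,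
      r2.cj c.B2 c.AZ c.W.μ _ C.leZ leA (um v')] with w h h' h'' a b
    exact h.2 (h' a (h'' b))
  · exact MeasurableSet.iInter fun q => MeasurableSet.iInter fun x =>
      MeasurableSet.biUnion (Set.to_countable _) fun v _ => tm v
  · filter_upwards [tsh n] with w h
    simp only [Cx.UU, Set.mem_iInter, Set.mem_iUnion, Set.mem_ofPred_eq, exists_prop]
    refine ⟨fun H q x => ?_, fun H q x => ?_⟩
    · obtain ⟨v, e, hv⟩ := H q ((n • sg) x)
      refine ⟨fun k => (n • sg).symm (v k), by simp [e], (h _).1 ?_⟩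
      simpa only [AddEquiv.apply_symm_apply] using hv
    · obtain ⟨v, e, hv⟩ := H q ((n • sg).symm x)
      exact ⟨_, by simp [e], (h v).2 hv⟩
  · refine r2.of c.B2 c.AZ c.W.μ (c.FF ψ (Pi.single k a))
      (c.W.μ[fun w => ψ a (c.π k w) | c.B2]) (c.Nt k (ψ a))ᶜ C.leZ leA (um _)
      ⟨(stronglyMeasurable_condExp.mono C.leZ).aestronglyMeasurable, 1,
        ae_bdd_norm_condExp_of_ae_bdd_norm ((um3 k a).2.mono fun w h => h.le)⟩
      (C.le2 _ (C.nt k _).compl) ?_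
    filter_upwards [single k a, C.ce k (ψ a) (P.bm a), rc.eq c.B2 c.W.μ _ le2 (um3 k a)]
      with w h h' h'' hw
    refine h.trans (h'' ?_)
    simp only [Cx.Nt, Set.mem_compl_iff, Set.mem_ofPred_eq, not_not] at hw
    simp only [Th, Set.mem_ofPred_eq, h', hw]

end T5h

end

end PkGFf

section PkGBun

/-! The bundle of groups over the extension. -/

set_option autoImplicit false
set_option linter.unusedVariables false
set_option warn.classDefReducibility false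

open MeasureTheory ProbabilityTheory Filter Topology Function Finset ComplexConjugate
open scoped BigOperators
open Fib27 (BM sup pr Oc Orow F23 LInd Mem)
open Pool.Agent.MP_154433_an.SG (Uni ufn)

noncomputable section

namespace T5h

open T3x T5y

namespace GBun

/-- the context over the extension -/
abbrev ctx1 (c : Cx) (H : c.Hat) (L2 : Ln c.ν c.U H.L1.W) (Bc : Bool → L2.W.X → H.L1.W.X)
    (lift : ∀ j, IsLift L2 H.L1 (H.L1.π (zs j)) (Bc j)) : Cx :=
  { ν := c.ν, U := c.U, hU := c.hU, uw := c.uw, X := H.X1, B := H.B1, nice := H.adm.nice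
    kc := H.adm.kc, L := H.L1, L2 := L2, Bc := Bc, lift := lift }

variable {c : Cx} {V : Type}

def FF (H : c.Hat) (ψ : V → H.X1.X → ℂ) (v : Bool → V) : H.L1.W.X → ℂ :=
  fun w => ∏ k, ψ (v k) (H.π k w)

def TT (H : c.Hat) (ψ : V → H.X1.X → ℂ) (v : Bool → V) : Set H.L1.W.X :=
  Th2 (H.L1.B2 H.B1) (AZ H.L1 H.B1) H.L1.W.μ (FF H ψ v)

lemma ufn_bm {X : Sys} (g : Uni X.X) : BM X.μ X.ms (ufn g) :=
  ⟨(show Measurable (ufn g) from g.2).aestronglyMeasurable, 1,
    Eventually.of_forall fun x => (Circle.norm_coe (g.1 x)).le⟩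

/-- functions on `X` seen from the line over the extension in two ways -/
lemma sq_fun (hf : Fd) (hx : CtxC c) {H : c.Hat} (ht : HtC H) (k : Bool) {f : c.X.X → ℂ}
    (h : AEStronglyMeasurable f c.X.μ) :
    ∀ᵐ w ∂H.L1.W.μ, f (c.π k (H.Lp w)) = f (H.p (H.π k w)) :=
  hf.a.keq_fun c.X.ms H.L1.W.μ c.X.μ (c.π k ∘ H.Lp) (H.p ∘ H.π k) f
    ((hx.embπ k).mp.comp ht.embL.mp) (ht.embp.mp.comp (ht.embπ k).mp) (ht.sq k) h

/-- a tuple downstairs gives a tuple upstairs where the functions agree -/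
lemma tup (hf : Fd) (r2 : R2) (hx : CtxC c) {H : c.Hat} (ht : HtC H) (ψ : V → H.X1.X → ℂ)
    (hβ : H.L1.B2 H.B1 ≤ AZ H.L1 H.B1) (hZ : AZ H.L1 H.B1 ≤ H.L1.W.ms)
    (pre : ∀ k (A : Set H.X1.X), MeasurableSet[H.B1] A → MeasurableSet[H.L1.B2 H.B1] (H.π k ⁻¹' A))
    (g : Bool → Uni c.X.X) (hg : Um c.W.ms c.W.μ (c.up g)) (v : Bool → V)
    (hv : Um H.L1.W.ms H.L1.W.μ (FF H ψ v)) (A : Bool → Set H.X1.X)
    (hA : ∀ i, MeasurableSet[H.B1] (A i)) (hon : ∀ i x, x ∈ A i → ψ (v i) x = ufn (g i) (H.p x)) :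
    ∀ᵐ w ∂H.L1.W.μ, H.Lp w ∈ c.Θ g → (∀ i, H.π i w ∈ A i) → w ∈ TT H ψ v := by
  have b1 : BM c.W.μ c.AZ (c.W.μ[c.up g | c.AZ]) := (BM.of_uni hg.1 hg.2).ce _
  have b2 := (hf.a.bm_comp c.AZ H.L1.W.μ c.W.μ H.Lp _ ht.embL.mp b1).mono ht.bZ
  have m1 : MeasurableSet[H.L1.B2 H.B1] (H.Lp ⁻¹' c.Θ g) :=
    (le_sup_left.trans ht.b2 :) _ ⟨_, r2.meas c.B2 c.AZ c.W.μ (c.up g), rfl⟩
  have m2 : MeasurableSet[H.L1.B2 H.B1] (⋂ i, H.π i ⁻¹' A i) :=
    MeasurableSet.iInter fun i => pre i _ (hA i)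
  have k1 := ht.embL.mp.quasiMeasurePreserving.ae
    (r2.le c.B2 c.AZ c.W.μ _ hx.leZ hx.kcZ.1.le hg)
  have k2 : ∀ᵐ w ∂H.L1.W.μ, ∀ i, ufn (g i) (c.π i (H.Lp w)) = ufn (g i) (H.p (H.π i w)) :=
    ae_all_iff.2 fun i => sq_fun hf hx ht i (ufn_bm (g i)).1
  have key := r2.of (H.L1.B2 H.B1) (AZ H.L1 H.B1) H.L1.W.μ (FF H ψ v) _ _ hβ hZ hv b2
    (m1.inter m2) (by
    filter_upwards [k1, k2] with w h1 h2 hw
    rw [← (h1 hw.1).2]
    have e : ∀ i, ψ (v i) (H.π i w) = ufn (g i) (c.π i (H.Lp w)) := fun i =>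
      (hon i _ (Set.mem_iInter.1 hw.2 i)).trans (h2 i).symm
    simp only [FF, Cx.up, Fintype.prod_bool, e])
  filter_upwards [key] with w hw h1 h2
  exact hw ⟨h1, Set.mem_iInter.2 h2⟩

/-- nontriviality passes to the extension -/
lemma nt (hf : Fd) (hr : Rc) (hx : CtxC c) {H : c.Hat} (ht : HtC H) (φ : H.X1.X → ℂ)
    (hφ : BM H.X1.μ H.X1.ms φ) (g : Uni c.X.X) (A : Set H.X1.X) (hA : MeasurableSet[H.B1] A)
    (hon : ∀ x, x ∈ A → φ x = ufn g (H.p x)) (j : Bool) :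
    ∀ᵐ w ∂H.L1.W.μ, H.π j w ∈ A → H.Lp w ∈ c.Nt j (ufn g) →
      ‖(H.X1.μ[φ | H.B1]) (H.π j w)‖ ≠ 1 := by
  have b1 : BM H.X1.μ H.X1.ms fun x => ufn g (H.p x) :=
    (hf.a.bm_comp c.X.ms H.X1.μ c.X.μ H.p _ ht.embp.mp (ufn_bm g)).mono
      (hf.a.pull_le c.X.ms H.X1.μ c.X.μ H.p ht.embp.mp le_rfl)
  have k1 := hr.loc H.B1 H.X1.μ φ _ (fun _ => 1) A ht.fac1.le hφ b1 (BM.const 1) hA
    (Eventually.of_forall fun x hx => by rw [one_mul, hon x hx])
  have k2 := ht.ce _ (ufn_bm g)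
  have k3 := sq_fun hf hx ht j (f := c.X.μ[ufn g | c.B])
    (stronglyMeasurable_condExp.mono hx.facB.le).aestronglyMeasurable
  filter_upwards [(ht.embπ j).mp.quasiMeasurePreserving.ae k1,
    (ht.embπ j).mp.quasiMeasurePreserving.ae k2, k3] with w h1 h2 h3 hw hn
  rw [h1 hw, one_mul, h2, ← h3]
  exact hn

lemma mem_zv {𝒱 : Subgroup (Uni c.X.X)} {q : Bool} {g : Uni c.X.X} {w : c.W.X} :
    w ∈ c.ZV 𝒱 q g ↔ ∃ g' : Bool → Uni c.X.X, (∀ k, g' k ∈ 𝒱) ∧ g' q = g ∧ w ∈ c.Θ g' := by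
  simp only [Cx.ZV, Set.mem_iUnion, Set.mem_ofPred_eq, exists_prop, and_assoc]

/-- a subgroup that contains the generators is everything -/
lemma all_of_gen {κ ι : Type} (q : ι) (P : (ι → κ →₀ ℤ) → Prop) (h0 : P 0)
    (hs : ∀ v v', P v → P v' → P (v - v'))
    (hg : ∀ h : κ, ∃ v, v q = Finsupp.single h 1 ∧ P v) (x : κ →₀ ℤ) : ∃ v, v q = x ∧ P v := by
  let S : AddSubgroup (κ →₀ ℤ) := AddSubgroup.ofSub {x | ∃ v, v q = x ∧ P v} ⟨0, 0, rfl, h0⟩ (by
    rintro _ ⟨v, rfl, h1⟩ _ ⟨v', rfl, h2⟩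
    exact ⟨v - v', by simp [sub_eq_add_neg], hs v v' h1 h2⟩)
  have key : x ∈ S := by
    induction x using Finsupp.induction_linear with
    | zero => exact S.zero_mem
    | add a b ha hb => exact S.add_mem ha hb
    | single a n =>
      have e : Finsupp.single a n = n • Finsupp.single a (1 : ℤ) := by simp
      rw [e]
      exact S.zsmul_mem (hg a) n
  exact key

end GBun

open GBun in
theorem xBunB : BunB := by
  intro hf hr gc zc hps c H 𝒱 s g j k hex hty hg hpos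
  have hx := gc.ctx c
  have hz := zc.zv c 𝒱 s hex
  have ht := zc.ht c H
  have hcnt : Countable 𝒱 := hex.cnt
  obtain ⟨L2⟩ := hf.line c.ν c.U H.L1.W H.L1.nice
  choose Bc lift using fun i : Bool => hf.la.ex L2 H.L1 (H.L1.π (zs i)) (H.L1.emb _)
  obtain ⟨HH, sg, ψ, hHH, mHH, hψ, hon, hoff⟩ := hps c H 𝒱 s (g k) hex
  refine ⟨ctx1 c H L2 Bc lift, 𝒱 →₀ ℤ, inferInstance, inferInstance, sg, ψ, H.sat, hψ, ?_⟩
  have hx1 := gc.ctx (ctx1 c H L2 Bc lift)
  have hff := gc.ff (ctx1 c H L2 Bc lift) (𝒱 →₀ ℤ) sg ψ hψ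
  have hβ : H.L1.B2 H.B1 ≤ AZ H.L1 H.B1 := hx1.leZ
  have hZ : AZ H.L1 H.B1 ≤ H.L1.W.ms := hx1.kcZ.1.le
  have pre : ∀ i (A : Set H.X1.X), MeasurableSet[H.B1] A →
      MeasurableSet[H.L1.B2 H.B1] (H.π i ⁻¹' A) := fun i A hA => hx1.le2 _ (hx1.pre i A hA)
  have um : ∀ v, Um H.L1.W.ms H.L1.W.μ (FF H ψ v) := hff.um
  have t0 : ∀ᵐ w ∂H.L1.W.μ, w ∈ TT H ψ 0 := hff.t0
  have tsub : ∀ᵐ w ∂H.L1.W.μ, ∀ v v', w ∈ TT H ψ v → w ∈ TT H ψ v' → w ∈ TT H ψ (v - v') :=
    hff.tsub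
  have sing : ∀ i a, FF H ψ (Pi.single i a) =ᵐ[H.L1.W.μ] fun w => ψ a (H.π i w) := hff.single
  have fA : ∀ᵐ w ∂H.L1.W.μ, ∀ i a, H.τ 𝒱 (g k) (H.p2 (H.π i w)) a ↔
      H.τ 𝒱 (g k) (H.p2 (H.π j w)) a :=
    ae_all_iff.2 fun i => ae_all_iff.2 fun a => eventuallyEq_set.1
      (ht.frz i j _ ((H.rp.emb a).mp.measurable (hx.kc2.1.le _ (hz.meas a.2 (g k)))))
  have fB : ∀ᵐ w ∂H.L1.W.μ, ∀ (g' : Bool → 𝒱) (i i' : Bool), H.Lp w ∈ c.Θ (fun n => (g' n).1) →
      H.τ 𝒱 (g' i).1 (H.p1 (H.π i w)) = H.τ 𝒱 (g' i').1 (H.p1 (H.π i' w)) :=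
    ae_all_iff.2 fun g' => ae_all_iff.2 fun i => ae_all_iff.2 fun i' =>
      hty.ta (fun n => (g' n).1) i i' fun n => (g' n).2
  have fC : ∀ᵐ w ∂H.L1.W.μ, ∀ (q : Bool) (h : 𝒱),
      (∀ i, H.τ 𝒱 (g q) (H.p1 (H.π q w)) (i, q) → H.τ 𝒱 h.1 (H.p1 (H.π q w)) (i, q)) →
        H.Lp w ∈ c.ZV 𝒱 q (g q) → H.Lp w ∈ c.ZV 𝒱 q h.1 :=
    ae_all_iff.2 fun q => ae_all_iff.2 fun h => hty.tb q h.1 h.2 (g q) (hg q)
  have fD := hty.tc j (g j) (hg j)
  have fT : ∀ᵐ w ∂H.L1.W.μ, ∀ g' : Bool → 𝒱, H.Lp w ∈ c.Θ (fun n => (g' n).1) →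
      (∀ i, H.π i w ∈ HH (g' i)) → w ∈ TT H ψ fun i => Finsupp.single (g' i) 1 :=
    ae_all_iff.2 fun g' => tup hf gc.r2 hx ht ψ hβ hZ pre _ (hz.umP _) _ (um _) (fun i => HH (g' i))
      (fun i => mHH _) fun i x h => hon _ x h
  have fO : ∀ᵐ w ∂H.L1.W.μ, ∀ (q : Bool) (h : 𝒱), H.π q w ∉ HH h →
      w ∈ TT H ψ (Pi.single q (Finsupp.single h 1)) :=
    ae_all_iff.2 fun q => ae_all_iff.2 fun h =>
      gc.r2.of (H.L1.B2 H.B1) (AZ H.L1 H.B1) H.L1.W.μ (FF H ψ _) (fun _ => 1)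
        (H.π q ⁻¹' (HH h)ᶜ) hβ hZ (um _) (BM.const 1) (pre q _ (mHH h).compl)
        ((sing q _).mono fun w hw hq => hw.trans (hoff h _ hq))
  have fN := nt hf hr hx ht (ψ (Finsupp.single ⟨g j, hg j⟩ 1))
    (BM.of_uni (hψ.um _).1 (hψ.um _).2) (g j) (HH ⟨g j, hg j⟩) (mHH _) (fun x h => hon _ x h) j
  refine ⟨fun i => Finsupp.single ⟨g i, hg i⟩ 1, j, fun h0 => hpos (measure_mono_null_ae ?_ h0)⟩
  filter_upwards [t0, tsub, fA, fB, fC, fD, fT, fO, fN] with w t0 tsub fA fB fC fD fT fO fN hw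
  obtain ⟨⟨w1, w2⟩, w3⟩ := hw
  have zq : ∀ q, H.Lp w ∈ c.ZV 𝒱 q (g q) := fun q => mem_zv.2 ⟨g, hg, rfl, w1⟩
  have e1 : ∀ i, H.τ 𝒱 (g i) (H.p1 (H.π i w)) = H.τ 𝒱 (g k) (H.p2 (H.π j w)) :=
    fun i => (fB (fun n => ⟨g n, hg n⟩) i j w1).trans w3
  obtain ⟨i0, hi0⟩ := fD (zq j)
  rw [w3] at hi0
  have mem : ∀ i (h : 𝒱), H.π i w ∈ HH h ↔
      ∀ a, H.τ 𝒱 (g k) (H.p2 (H.π j w)) a → H.τ 𝒱 h.1 (H.p1 (H.π i w)) a := by
    intro i h
    rw [hHH]
    simp only [fA i]
    exact and_iff_right ⟨_, hi0⟩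
  have m1 : ∀ i, H.π i w ∈ HH ⟨g i, hg i⟩ := fun i => (mem i _).2 fun a ha => by
    rw [← e1 i] at ha
    exact ha
  refine ⟨⟨?_, fT (fun n => ⟨g n, hg n⟩) w1 m1⟩, fN (m1 j) w2⟩
  refine Set.mem_iInter.2 fun q => Set.mem_iInter.2 fun x => ?_
  obtain ⟨v, hv1, hv2⟩ := all_of_gen q (fun v => w ∈ TT H ψ v) t0 tsub (fun h => by
    by_cases hq : H.π q w ∈ HH h
    · have h1 := (mem q h).1 hq
      obtain ⟨g', hg', e', h2⟩ := mem_zv.1 (fC q h (fun i hi => h1 _ (by rwa [e1 q] at hi)) (zq q))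
      have e2 : (⟨g' q, hg' q⟩ : 𝒱) = h := Subtype.ext e'
      refine ⟨fun i => Finsupp.single ⟨g' i, hg' i⟩ 1, by simp only [e2],
        fT (fun n => ⟨g' n, hg' n⟩) h2 fun i => (mem i _).2 fun a ha => ?_⟩
      rw [fB (fun n => ⟨g' n, hg' n⟩) i q h2, e2]
      exact h1 a ha
    · exact ⟨_, Pi.single_eq_same _ _, fO q h hq⟩) x
  exact Set.mem_biUnion hv1 hv2

end T5h

end

end PkGBun

section PkGStpA

/-! The elementary properties of the steps in the line. -/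

set_option autoImplicit false
set_option linter.unusedVariables false
set_option warn.classDefReducibility false

open MeasureTheory ProbabilityTheory Filter Topology Function Finset ComplexConjugate
open scoped BigOperators
open Fib27 (BM sup pr Oc Orow F23 LInd Mem)
open Pool.Agent.MP_154433_an.SG (Uni ufn)

noncomputable section

namespace T5h

open T3x T5y

namespace GStpA

lemma mem_SV (c : Cx) {V : Type} (ψ : V → c.X.X → ℂ) (i1 i2 : Bool) (a a' : V) (w : c.W.X) :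
    w ∈ c.SV ψ i1 i2 a a' ↔
      w ∈ c.UU ψ ∧ ∃ v : Bool → V, (v i1 = a ∧ v i2 = a') ∧ w ∈ c.ΘV ψ v := by
  simp only [Cx.SV, Set.mem_inter_iff, Set.mem_iUnion, Set.mem_ofPred_eq, exists_prop]

lemma two {ι V : Type} [DecidableEq ι] [AddCommGroup V] (i1 i2 : ι) (h : i1 ≠ i2) (a a' : V) :
    ((Pi.single i1 a : ι → V) + (Pi.single i2 a' : ι → V)) i1 = a ∧
      ((Pi.single i1 a : ι → V) + (Pi.single i2 a' : ι → V)) i2 = a' := by
  constructor
  · simp [h]
  · simp [h.symm]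

end GStpA

theorem xStpA : StpA := by
  intro fd rc gc c V _ _ sg ψ i1 i2 hne hψ
  have cx := gc.ctx c
  have ff := gc.ff c V sg ψ hψ
  have ps := gc.ps c.X c.B V sg ψ cx.facB hψ
  refine ⟨fun a a' b b' => ?_, ?_, fun a a' => ?_, fun v j k => ?_, fun a a' => ?_⟩
  · filter_upwards [ff.tsub] with w hw hm
    have hm' : w ∈ c.SV ψ i1 i2 a a' ∧ w ∈ c.SV ψ i1 i2 b b' := hm
    obtain ⟨h1, h2⟩ := hm'
    rw [GStpA.mem_SV] at h1 h2
    obtain ⟨hu, v, ⟨e1, e2⟩, hv⟩ := h1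
    obtain ⟨-, v', ⟨e1', e2'⟩, hv'⟩ := h2
    exact (GStpA.mem_SV c ψ i1 i2 _ _ w).2 ⟨hu, v - v',
      ⟨by rw [Pi.sub_apply, e1, e1'], by rw [Pi.sub_apply, e2, e2']⟩, hw v v' hv hv'⟩
  · rw [Filter.eventuallyEq_set]
    filter_upwards [ff.t0] with w hw
    rw [GStpA.mem_SV]
    exact ⟨fun h => h.1, fun h => ⟨h, 0, ⟨rfl, rfl⟩, hw⟩⟩
  · filter_upwards [ff.tadd, ff.tsingle] with w hw hs hu h1 h2
    exact (GStpA.mem_SV c ψ i1 i2 _ _ w).2 ⟨hu, _, GStpA.two i1 i2 hne a a',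
      hw _ _ (hs i1 a h1) (hs i2 a' h2)⟩
  · have hcm := gc.r2.cm c.B2 c.P3 c.W.μ (fun k w => ψ (v k) (c.π k w)) cx.leZ
      (fun i => by
        cases i with
        | none => exact cx.kcZ.1.le
        | some i => exact (cx.facP i).le) cx.cline (fun k => ff.um2 k (v k))
    filter_upwards [hcm j, hcm k, cx.ce j _ (ps.bm (v j)), cx.ce k _ (ps.bm (v k))]
      with w h1 h2 e1 e2 hv
    have hv' : w ∈ Th2 c.B2 (c.P3 none) c.W.μ (pr (fun k w => ψ (v k) (c.π k w)) univ) := hv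
    simp only [Cx.Nt, Set.mem_ofPred_eq, ne_eq]
    refine not_congr ⟨fun h => ?_, fun h => ?_⟩
    · have h0 : (c.W.μ[fun w => ψ (v j) (c.π j w) | c.B2]) w ≠ 0 := by
        rw [e1]; intro h0; rw [h0] at h; simp at h
      have := h1 hv' h0 k
      simp only [Th, Set.mem_ofPred_eq] at this
      rwa [e2] at this
    · have h0 : (c.W.μ[fun w => ψ (v k) (c.π k w) | c.B2]) w ≠ 0 := by
        rw [e2]; intro h0; rw [h0] at h; simp at h
      have := h2 hv' h0 j
      simp only [Th, Set.mem_ofPred_eq] at this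
      rwa [e1] at this
  · rw [Filter.eventuallyEq_set]
    filter_upwards [ff.tsh 1, ff.ush 1] with w hw hu
    simp only [one_zsmul, fd.t.one] at hw hu
    rw [Set.mem_preimage, GStpA.mem_SV, GStpA.mem_SV, hu]
    refine and_congr_right fun _ => ⟨?_, ?_⟩
    · rintro ⟨v, ⟨e1, e2⟩, hv⟩
      refine ⟨fun k => sg.symm (v k), ⟨by simp [e1], by simp [e2]⟩, (hw _).1 ?_⟩
      simpa using hv
    · rintro ⟨v, ⟨e1, e2⟩, hv⟩
      exact ⟨fun k => sg (v k), ⟨by simp [e1], by simp [e2]⟩, (hw v).2 hv⟩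

end T5h

end

end PkGStpA

section PkGAlgC

/-! Row GAlgC: assembly of the finite-level data of the algebraic step. -/

set_option autoImplicit false
set_option linter.unusedVariables false
set_option warn.classDefReducibility false

open MeasureTheory ProbabilityTheory Filter Topology Function Finset ComplexConjugate
open scoped BigOperators
open Fib27 (BM sup pr Oc Orow F23 LInd Mem)
open Pool.Agent.MP_154433_an.SG (Uni ufn)

noncomputable section

namespace T5h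

open T3x T5y

namespace GAlgC

theorem sv_meas {c : Cx} {V : Type} [AddCommGroup V] [Countable V] {sg : AddAut V}
    {ψ : V → c.X.X → ℂ} (h : FfC c sg ψ) (i1 i2 : Bool) (a a' : V) :
    MeasurableSet[c.B2] (c.SV ψ i1 i2 a a') :=
  h.um'.inter (MeasurableSet.biUnion (Set.to_countable _) fun v _ => h.tm v)

/-- a family that stays in `I` after recentring gives an event in the pull-back of `I` -/
theorem null_of_nl (f : Fd) {ν : Wt} {U : Ultrafilter ℕ} {X : Sys} (L : Ln ν U X) (s : Slot)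
    {A : Lab → Set X.X} {I : Set X.X} (hA : ∀ l, MeasurableSet (A l)) (hI : MeasurableSet I)
    (h : Nl ν U X fun l => X.Tz (-rho s l) ⁻¹' A l \ I) :
    ∀ᵐ w ∂L.W.μ, w ∈ L.hs A → L.π s w ∈ I := by
  have m2 : ∀ l, MeasurableSet (X.Tz (rho s l) ⁻¹' I) := fun l => (f.t.mp X _).measurable hI
  have hl := f.lc.hs_lim L _ fun l => (hA l).inter (m2 l).compl
  rw [f.lc.hs_inter L _ _ hA fun l => (m2 l).compl, f.lc.hs_compl L _ m2] at hl
  have e : ∀ l, X.μ.real (A l ∩ (X.Tz (rho s l) ⁻¹' I)ᶜ) =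
      X.μ.real (X.Tz (-rho s l) ⁻¹' A l \ I) := fun l => by
    rw [← (f.t.mp X (-rho s l)).measureReal_preimage
      ((hA l).inter (m2 l).compl).nullMeasurableSet]
    refine congrArg X.μ.real (Set.ext fun x => ?_)
    change (X.Tz (-rho s l) x ∈ A l ∧ ¬ X.Tz (rho s l) (X.Tz (-rho s l) x) ∈ I) ↔
      (X.Tz (-rho s l) x ∈ A l ∧ ¬ x ∈ I)
    rw [← f.t.add, add_neg_cancel, f.t.zero]
  simp only [e] at hl
  have h0 := (measureReal_eq_zero_iff (measure_ne_top _ _)).1 (tendsto_nhds_unique hl h)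
  filter_upwards [measure_eq_zero_iff_ae_notMem.1 h0, f.lc.hs_slot L s _ hI] with w e1 e2 hw
  by_contra hn
  exact e1 ⟨hw, fun h => hn (e2.mp h)⟩

end GAlgC

theorem xAlgC : AlgC := by
  intro f r i2 gc hA hT hB hR hP hAlg c V _ _ sg ψ hψ st hbun
  have cc := gc.ctx c
  have ps := gc.ps c.X c.B V sg ψ cc.facB hψ
  have ff := gc.ff c V sg ψ hψ
  choose A hA1 hA2 using fun a a' => f.lc.satu c.L c.X.ms c.hU (f.t.top c.X)
    (c.SV ψ true false a a') (by
      rw [f.lb.top c.L]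
      exact cc.kc2.1.le _ (GAlgC.sv_meas ff true false a a'))
  have hd : Desc c ψ true false A := ⟨hA1, hA2⟩
  obtain ⟨a1, a2, a3, a4⟩ := hA f r gc c V sg ψ true false A st hd
  have mN : ∀ v, MeasurableSet (Th c.B c.X.μ (ψ v)) := fun v =>
    cc.facB.le _ (r.meas c.B c.X.μ (ψ v))
  obtain ⟨v, j, hv⟩ := hbun
  refine hAlg c.ν c.U c.X V sg (fun v => Th c.B c.X.μ (ψ v)) (rec1 c A true) (stp true false)
    { hU := c.hU
      erg := c.uw.erg
      hn := fun l => by simp [stp, rho, zs]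
      mN := mN
      mS := fun l a a' => (f.t.mp c.X _).measurable (hd.1 a a' l)
      n0 := ps.n0
      nsub := ps.nsub
      nsh := fun v => by
        filter_upwards [ps.nsh 1 v] with x hx
        rwa [one_zsmul, f.t.one] at hx
      sub := a1
      triv := a2
      ker := a3
      tot := hT f r gc c V sg ψ true false A st hd
      sh := a4
      flat := hB f r gc c V sg ψ true false A st hd
      dec := hR f r i2 c V sg ψ hψ
      rel2 := fun I hI hTI hN => hP c V sg ψ I true v hψ hI hTI fun h0 => hv ?_ }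
  refine measure_mono_null_ae ?_ h0
  have e : c.FF ψ v = fun w => ψ (v true) (c.π true w) * ψ (v false) (c.π false w) :=
    funext fun w => Fintype.prod_bool _
  filter_upwards [GAlgC.null_of_nl f c.L (zs true) (hd.1 0 0) hI hN, st.zero, hA2 0 0,
    st.ker v j true] with w e1 e2 e3 e4 hw
  exact ⟨⟨e1 (e3.mp (e2.mpr hw.1.1)), e ▸ hw.1.2⟩, (e4 hw.1.2).1 hw.2⟩

end T5h

end

end PkGAlgC
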