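import Pool.Agent.MP_154433_an.p8.P2

/-! Twisted line, part 4 (packed). -/

section PkAz

/-! Row Az: calculus of the twist families and of the third slot. -/

set_option autoImplicit false
set_option linter.unusedVariables false
set_option warn.classDefReducibility false

open MeasureTheory ProbabilityTheory Filter Topology Function Finset ComplexConjugate
open scoped BigOperators
open Fib27 (BM sup pr Oc Orow F23 LInd Mem)

noncomputable section

namespace T5y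

open T3x

namespace Az

theorem ee_add (s t : ℝ) : ee (s + t) = ee s * ee t := by
  rw [ee, ee, ee, ← Complex.exp_add]
  congr 1
  push_cast
  ring

theorem ee_zero : ee 0 = 1 := by simp [ee]

theorem norm_ee (t : ℝ) : ‖ee t‖ = 1 := Complex.norm_exp_ofReal_mul_I _

theorem conj_ee (t : ℝ) : conj (ee t) = ee (-t) := by
  rw [ee, ee, ← Complex.exp_conj, map_mul, Complex.conj_ofReal, Complex.conj_I]
  congr 1
  push_cast
  ring

theorem cont_ee : Continuous ee := by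
  unfold ee
  fun_prop

variable {Ω : Type} [m : MeasurableSpace Ω]

theorem fam {F : Lab × Ω → ℂ} (hF : F ∈ Tw Ω) : F ∈ FamS m := by
  obtain ⟨g, b, hg, hb, ⟨C, hC⟩, rfl⟩ := hF
  refine ⟨fun l => (hg l.1).mul (cont_ee.measurable.comp (hb.const_mul
    ((l.2.1 - l.2.2 : ℤ) : ℝ))), C, fun s => ?_⟩
  rw [norm_mul, norm_ee, mul_one]
  exact hC _ _

theorem one : (fun _ => (1 : ℂ)) ∈ Tw Ω :=
  ⟨fun _ _ => 1, fun _ => 0, fun _ => measurable_const, measurable_const,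
    ⟨1, fun _ _ => by simp⟩, funext fun s => by simp [ee_zero]⟩

theorem mul {F G : Lab × Ω → ℂ} (hF : F ∈ Tw Ω) (hG : G ∈ Tw Ω) :
    (fun s => F s * G s) ∈ Tw Ω := by
  obtain ⟨g, b, hg, hb, ⟨C, hC⟩, rfl⟩ := hF
  obtain ⟨g', b', hg', hb', ⟨C', hC'⟩, rfl⟩ := hG
  refine ⟨fun M x => g M x * g' M x, fun x => b x + b' x, fun M => (hg M).mul (hg' M),
    hb.add hb', ⟨C * C', fun M x => ?_⟩, funext fun s => ?_⟩
  · rw [norm_mul]
    exact mul_le_mul (hC _ _) (hC' _ _) (norm_nonneg _) ((norm_nonneg _).trans (hC M x))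
  · simp only [mul_add, ee_add]
    ring

theorem cj {F : Lab × Ω → ℂ} (hF : F ∈ Tw Ω) : (fun s => conj (F s)) ∈ Tw Ω := by
  obtain ⟨g, b, hg, hb, ⟨C, hC⟩, rfl⟩ := hF
  refine ⟨fun M x => conj (g M x), fun x => -b x,
    fun M => Complex.continuous_conj.measurable.comp (hg M), hb.neg,
    ⟨C, fun M x => by simpa using hC M x⟩, funext fun s => ?_⟩
  simp only [map_mul, conj_ee, mul_neg]

theorem comp {Ω' : Type} [m' : MeasurableSpace Ω'] {p : Ω' → Ω} (hp : Measurable p)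
    {F : Lab × Ω → ℂ} (hF : F ∈ Tw Ω) : (fun z : Lab × Ω' => F (z.1, p z.2)) ∈ Tw Ω' := by
  obtain ⟨g, b, hg, hb, ⟨C, hC⟩, rfl⟩ := hF
  exact ⟨fun M x => g M (p x), fun x => b (p x), fun M => (hg M).comp hp,
    hb.comp hp, ⟨C, fun M x => hC _ _⟩, rfl⟩

variable {ν : Wt} {U : Ultrafilter ℕ} {X : Sys}

theorem gen_le (L : Ln ν U X) : gen (Tw X.X) L.hat ≤ L.W.ms :=
  LfBx.gen_le _ fun F hF => LfBx.hat_meas L (fam hF)

theorem facP (fd : Fd) (L : Ln ν U X) : Fac L.W (PZ L) := by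
  have hb := fd.t.bot L.W
  have key : ∀ n : ℤ, (∀ F ∈ FamS X.ms, ∀ w, L.hat F (L.W.Tz n w) =
      L.hat (fun s => F (s.1, X.Tz n s.2)) w) → (PZ L).comap (L.W.Tz n) ≤ PZ L := by
    intro n hn
    unfold PZ
    rw [MeasurableSpace.comap_sup]
    refine sup_le_sup ?_ (fd.t.inv L.W _ n hb).le
    refine MeasurableSpace.comap_le_iff_le_map.2 (LfBx.gen_le _ fun F hF => ?_)
    have h1 : Measurable[gen (Tw X.X) L.hat] (L.hat fun s => F (s.1, X.Tz n s.2)) :=
      LfBx.gen_meas _ (comp (fd.t.mp X n).measurable hF)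
    have h2 : (L.hat fun s => F (s.1, X.Tz n s.2)) = L.hat F ∘ L.W.Tz n :=
      funext fun w => (hn F (fam hF) w).symm
    rw [h2] at h1
    exact h1
  refine ⟨sup_le (gen_le L) (fd.a.nul_le _), le_sup_right, key 1 fun F hF w => ?_,
    key (-1) fun F hF w => ?_⟩
  · simp only [fd.t.one]
    exact (L.eqv F hF w).symm
  · have h1 := L.eqv _ (LfBx.fam_tz fd.t (fd.t.top X) hF fun _ => -1) (L.W.Tz (-1) w)
    have h2 : ∀ (Y : Sys) (y : Y.X), Y.Tz (-1) (Y.T y) = y := fun Y y => by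
      rw [← fd.t.one, ← fd.t.add, neg_add_cancel, fd.t.zero]
    have h3 : L.W.T (L.W.Tz (-1) w) = w := by
      rw [← fd.t.one, ← fd.t.add, add_neg_cancel, fd.t.zero]
    simp only [h2, h3] at h1
    exact h1

theorem facS (fd : Fd) (L : Ln ν U X) {B : MeasurableSpace X.X} (hB : Fac X B) :
    Fac L.W (AS L B) := fd.t.fsup _ _ _ (facP fd L) (fd.lb.fac L B hB)

theorem liftP (fd : Fd) {X' : Sys} (L' : Ln ν U X') (L : Ln ν U X) (p : X'.X → X.X)
    (Lp : L'.W.X → L.W.X) (hp : Emb X' X p) (h : IsLift L' L p Lp) :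
    pull L'.W.μ Lp (PZ L) ≤ PZ L' := by
  refine sup_le ?_ le_sup_right
  rw [PZ, MeasurableSpace.comap_sup]
  refine sup_le ?_ (le_sup_of_le_right ?_)
  · simp only [gen, MeasurableSpace.comap_iSup, MeasurableSpace.comap_comp]
    refine iSup₂_le fun F hF => ?_
    rintro _ ⟨E, hE, rfl⟩
    have F0 := fam hF
    refine (fd.a.mem _ L'.W.μ (gen_le L') _).2 ⟨((LfBx.hat_meas L F0).comp h.emb.mp.measurable) hE,
      _, LfBx.gen_meas L'.hat (comp hp.mp.measurable hF) hE, ?_⟩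
    refine eventuallyEq_set.2 ((h.hat F F0).mono fun w hw => ?_)
    simp only [Set.mem_preimage, Function.comp_apply] at hw ⊢
    rw [hw]
  · rw [nul, MeasurableSpace.comap_generateFrom]
    refine MeasurableSpace.generateFrom_mono ?_
    rintro _ ⟨A, ⟨h1, h2⟩, rfl⟩
    exact ⟨h.emb.mp.measurable h1, by rw [h.emb.mp.measure_preimage h1.nullMeasurableSet, h2]⟩

theorem perp (fd : Fd) (L : Ln ν U X) {B : MeasurableSpace X.X} (hB : Fac X B) {g : L.W.X → ℂ}
    (hg : BM L.W.μ L.W.ms g)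
    (h : ∀ F ∈ @Tw X.X X.ms, ∀ G ∈ FamS B, ∫ w, g w * (L.hat F w * L.hat G w) ∂L.W.μ = 0) :
    L.W.μ[g | AS L B] =ᵐ[L.W.μ] 0 := by
  let T : Set (L.W.X → ℂ) := {φ | ∃ F ∈ @Tw X.X X.ms, ∃ G ∈ FamS B, φ = fun w => L.hat F w * L.hat G w}
  have fm : ∀ {G}, G ∈ FamS B → G ∈ FamS X.ms := fun hG => LfBx.fam_mono hB.le hG
  have k := fd.d.perp L.W.μ T ?_ ?_ ?_ ?_ g hg.integrable ?_
  · have e : gen T id ⊔ nul L.W.μ = AS L B := by
      refine le_antisymm (sup_le (LfBx.gen_le _ ?_) (le_sup_of_le_left le_sup_right))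
        (sup_le (sup_le_sup_right (LfBx.gen_le _ fun F hF => ?_) _)
          (sup_le_sup_right (LfBx.gen_le _ fun G hG => ?_) _))
      · rintro _ ⟨F, hF, G, hG, rfl⟩
        exact ((LfBx.gen_meas L.hat hF).mono (le_sup_of_le_left le_sup_left) le_rfl).mul
          ((LfBx.hat_shp L hG).mono le_sup_right le_rfl)
      · exact LfBx.gen_meas (A := T) id ⟨F, hF, _, LfBx.fam_const B 1,
          funext fun w => by rw [(L.ch w).const 1, mul_one]⟩
      · exact LfBx.gen_meas (A := T) id ⟨_, one (m := X.ms), G, hG,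
          funext fun w => by rw [(L.ch w).const 1, one_mul]⟩
    rwa [e] at k
  · rintro _ ⟨F, hF, G, hG, rfl⟩
    obtain ⟨h1, C, hC⟩ := LfBx.hat_bdd L (fam (m := X.ms) hF)
    obtain ⟨h2, C', hC'⟩ := LfBx.hat_bdd L (fm hG)
    refine ⟨h1.mul h2, C * C', fun w => ?_⟩
    rw [norm_mul]
    exact mul_le_mul (hC _) (hC' _) (norm_nonneg _) ((norm_nonneg _).trans (hC w))
  · exact ⟨_, ⟨_, one (m := X.ms), _, LfBx.fam_const B 1, rfl⟩,
      Eventually.of_forall fun w => by simp only [(L.ch w).const 1, mul_one]⟩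
  · rintro _ ⟨F, hF, G, hG, rfl⟩ _ ⟨F', hF', G', hG', rfl⟩
    refine ⟨_, ⟨_, mul (m := X.ms) hF hF', _, LfBx.fam_mul hG hG', rfl⟩, Eventually.of_forall fun w => ?_⟩
    simp only [(L.ch w).mul _ (fam (m := X.ms) hF) _ (fam (m := X.ms) hF'), (L.ch w).mul _ (fm hG) _ (fm hG')]
    ring
  · rintro _ ⟨F, hF, G, hG, rfl⟩
    refine ⟨_, ⟨_, cj (m := X.ms) hF, _, LfBx.fam_cj hG, rfl⟩, Eventually.of_forall fun w => ?_⟩
    simp only [(L.ch w).cj _ (fam (m := X.ms) hF), (L.ch w).cj _ (fm hG), map_mul]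
  · rintro _ ⟨F, hF, G, hG, rfl⟩
    exact h F hF G hG

end Az

theorem azR : AzR := fun fd =>
  { fam := fun F hF => Az.fam hF
    one := Az.one
    mul := fun F hF G hG => Az.mul hF hG
    cj := fun F hF => Az.cj hF
    comp := fun p hp F hF => Az.comp hp hF
    facP := fun L => Az.facP fd L
    facS := fun L B hB => Az.facS fd L hB
    kc := fun L B hB => fd.h.kc _ _ L.nice (Az.facS fd L hB)
    leS := fun L B => fd.h.le _ _
    shp := fun L B => le_sup_right.trans (fd.h.le _ (AS L B))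
    b2 := fun L B => fd.h.mono _ _ _ le_sup_right
    mono := fun L B B' h => fd.h.mono _ _ _ (sup_le_sup_left (fd.lb.mono L B B' h) _)
    bm := fun L F hF => (LfBx.hat_bm L (Az.fam hF)).of_aesm
      (Measurable.stronglyMeasurable (mα := PZ L)
        ((LfBx.gen_meas L.hat hF).mono le_sup_left le_rfl)).aestronglyMeasurable
    liftP := fun L' L p Lp hp h => Az.liftP fd L' L p Lp hp h
    lift := fun L' L p Lp B B' hp h hB hB' hle =>
      (fd.h.fn _ _ Lp _ L'.nice L.nice h.emb (Az.facS fd L hB)).trans (fd.h.mono _ _ _ (by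
        rw [AS, fd.a.pull_sup]
        exact sup_le_sup (Az.liftP fd L' L p Lp hp h) (fd.la.shp L' L p Lp B B' hp h hB hB' hle)))
    perp := fun L B hB g hg h => Az.perp fd L hB hg h }

end T5y

end

end PkAz

section PkPair0

/-! Row Pair0: a point of conditional mean zero is orthogonal to the twists. -/

set_option autoImplicit false
set_option linter.unusedVariables false
set_option warn.classDefReducibility false

open MeasureTheory ProbabilityTheory Filter Topology Function Finset ComplexConjugate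
open scoped BigOperators
open Fib27 (BM sup pr Oc Orow F23 LInd Mem)
open Pool.Agent.MP_154433_an.SG (Uni ufn)

noncomputable section

namespace T5y

open T3x

namespace Pair0

open Ind2

theorem ee_add (s t : ℝ) : ee (s + t) = ee s * ee t := by
  rw [ee, ee, ee, ← Complex.exp_add]
  congr 1
  push_cast
  ring

theorem norm_ee (t : ℝ) : ‖ee t‖ = 1 := Complex.norm_exp_ofReal_mul_I _

theorem cj_ee (t : ℝ) : conj (ee t) = ee (-t) := by
  rw [ee, ee, ← Complex.exp_conj, map_mul, Complex.conj_ofReal, Complex.conj_I]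
  congr 1
  push_cast
  ring

theorem meas_ee : Measurable ee := by
  unfold ee
  fun_prop

theorem norm_av_neg (ν : Wt) (M : ℕ) (t : ℝ) :
    ‖ν.av M fun d => ee (-((d : ℝ) * t))‖ = ‖ν.av M fun d => ee ((d : ℝ) * t)‖ := by
  rw [← Complex.norm_conj (ν.av M fun d => ee ((d : ℝ) * t))]
  simp only [Wt.av, map_sum, Complex.real_smul, map_mul, Complex.conj_ofReal, cj_ee]

theorem intg_av {Ω : Type} {m : MeasurableSpace Ω} {μ : Measure Ω} (ν : Wt) (M : ℕ)
    {φ : ℤ → Ω → ℂ} (h : ∀ d, Integrable (φ d) μ) :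
    Integrable (fun z => ν.av M fun d => φ d z) μ :=
  integrable_finsetSum _ fun d _ => (h d).smul (ν.w M d)

theorem int_av {Ω : Type} {m : MeasurableSpace Ω} {μ : Measure Ω} (ν : Wt) (M : ℕ)
    {φ : ℤ → Ω → ℂ} (h : ∀ d, Integrable (φ d) μ) :
    (ν.av M fun d => ∫ z, φ d z ∂μ) = ∫ z, (ν.av M fun d => φ d z) ∂μ := by
  refine Eq.trans ?_ (integral_finsetSum (f := fun d z => ν.w M d • φ d z) _
    fun d _ => (h d).smul (ν.w M d)).symm
  exact sum_congr rfl fun d _ => (integral_smul _ _).symm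

theorem bm_ee {Ω : Type} {m : MeasurableSpace Ω} (μ : Measure Ω) {Δ : Ω → ℝ} (h : Measurable Δ) :
    BM μ m fun z => ee (Δ z) :=
  bdd_bm μ ⟨meas_ee.comp h, 1, fun z => (norm_ee _).le⟩

/-- twisted correlations -/
theorem corr (t : BasT) {ν : Wt} (uw : UW ν) (Z : Sys) {H : Z.X → ℂ} {G : ℕ → Z.X → ℂ}
    {Δ : Z.X → ℝ} {C : ℝ} (hH : BM Z.μ Z.ms H) (h0 : Z.μ[H | T3x.Inv Z] =ᵐ[Z.μ] 0)
    (hG : ∀ M, Measurable (G M)) (hC : ∀ M z, ‖G M z‖ ≤ C) (hΔ : Measurable Δ) :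
    Tendsto (fun M => ν.av M fun d' => ν.av M fun d =>
      ∫ z, H (Z.Tz d z) * (G M z * ee (((d - d' : ℤ) : ℝ) * Δ z)) ∂Z.μ) atTop (𝓝 0) := by
  have l := (uw.tw0 Z H Δ hH h0 hΔ).const_mul C
  rw [mul_zero] at l
  refine squeeze_zero_norm (fun M => ?_) l
  have bT : ∀ d : ℤ, BM Z.μ Z.ms fun z => H (Z.Tz d z) := fun d => bm_comp (t.mp Z d) hH
  have bE : ∀ r : ℝ, BM Z.μ Z.ms fun z => ee (r * Δ z) := fun r =>
    bm_ee Z.μ (hΔ.const_mul r)
  have bG : BM Z.μ Z.ms (G M) := bdd_bm Z.μ ⟨hG M, C, hC M⟩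
  have i1 : ∀ d' d : ℤ, Integrable
      (fun z => H (Z.Tz d z) * (G M z * ee (((d - d' : ℤ) : ℝ) * Δ z))) Z.μ :=
    fun d' d => ((bT d).mul (bG.mul (bE _))).integrable
  simp only [fun d' => int_av ν M (i1 d')]
  rw [int_av ν M fun d' => intg_av ν M (i1 d'), ← integral_const_mul]
  have i2 : Integrable (fun z => ‖ν.av M fun d => H (Z.Tz d z) * ee ((d : ℝ) * Δ z)‖ *
      ‖ν.av M fun d => ee ((d : ℝ) * Δ z)‖) Z.μ :=
    (intg_av ν M fun d => ((bT d).mul (bE d)).integrable).norm.mul_bdd (c := 1)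
      (intg_av ν M fun d => (bE d).integrable).norm.1
      (Eventually.of_forall fun z => by
        rw [norm_norm]
        exact av_le ν M _ _ fun d => (norm_ee _).le)
  refine norm_integral_le_of_norm_le (i2.const_mul C) (Eventually.of_forall fun z => ?_)
  have e : (ν.av M fun d' => ν.av M fun d =>
      H (Z.Tz d z) * (G M z * ee (((d - d' : ℤ) : ℝ) * Δ z))) =
      G M z * ((ν.av M fun d => H (Z.Tz d z) * ee ((d : ℝ) * Δ z)) *
        ν.av M fun d => ee (-((d : ℝ) * Δ z))) := by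
    simp only [Wt.av, Complex.real_smul, mul_sum, sum_mul]
    refine sum_congr rfl fun d' _ => sum_congr rfl fun d _ => ?_
    rw [show ((d - d' : ℤ) : ℝ) * Δ z = (d : ℝ) * Δ z + -((d' : ℝ) * Δ z) by
      push_cast; ring, ee_add]
    ring
  rw [e, norm_mul, norm_mul, norm_av_neg]
  exact mul_le_mul_of_nonneg_right (hC M z) (by positivity)

theorem sq_lim (fd : Fd) {ν : Wt} (uw : UW ν) {X : Sys} (B : MeasurableSpace X.X) (hn : Nice X)
    (hB : KC X B) (q : Bool) {h : X.X → ℂ} (bh : BM X.μ X.ms h) (hz : X.μ[h | B] =ᵐ[X.μ] 0)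
    {F : Lab × X.X → ℂ} (hF : F ∈ @Tw X.X X.ms) (hF' : F ∈ FamS X.ms) (k : Lab × X.X → ℂ)
    (e : ∀ l, (fun x => k (l, x)) =ᵐ[X.μ]
      X.μ[fun x => h (X.Tz (rho (zs q) l) x) * F (l, x) | B]) :
    Tendsto (fun M => ν.av2 M fun l => ∫ x, k (l, x) * conj (k (l, x)) ∂X.μ) atTop (𝓝 0) := by
  obtain ⟨Z, p, hp⟩ : ∃ Z p, Pair X B Z p := fd.rp Bool (fun _ => X) X B (fun _ => id) false
    (fun _ => hn) hB.1 (fun _ => (fd.t.emb_id X).mp) fun _ A _ => by rw [id_comp, comp_id]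
  have hw : WM X B h := (fd.kb.wm X B hn hB.1 h (bh.memLp 2)).2
    (by rwa [le_antisymm hB.2 (fd.kb.le X B hn hB.1)])
  have o := (fd.ka.wm_iff X B Z p hB.1 hp h hw.1).1 hw
  have h0 : Z.μ[fun z => h (p false z) * conj (h (p true z)) | T3x.Inv Z] =ᵐ[Z.μ] 0 :=
    Fib27.Perp.ce (fun c hc => (integral_congr_ae (Eventually.of_forall fun z =>
      mul_right_comm _ _ _)).trans (o c _ hc bh.conj)) (fd.t.finv Z).le (bm_sq hp bh)
  obtain ⟨g, b, mg, mb, ⟨C, hC⟩, eF⟩ := hF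
  have mp : ∀ i, @Measurable _ _ Z.ms X.ms (p i) := fun i =>
    @MeasurePreserving.measurable _ _ Z.ms X.ms _ _ _ (hp.emb i).mp
  have l := corr fd.t uw Z (G := fun M z => g M (p false z) * conj (g M (p true z)))
    (Δ := fun z => b (p (!q) z) - b (p q z)) (C := C * C) (bm_sq hp bh) h0
    (fun M => ((mg M).comp (mp false)).mul
      (Complex.continuous_conj.measurable.comp ((mg M).comp (mp true))))
    (fun M z => by
      rw [norm_mul, Complex.norm_conj]
      exact mul_le_mul (hC _ _) (hC _ _) (norm_nonneg _) ((norm_nonneg _).trans (hC M (p true z))))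
    ((mb.comp (mp _)).sub (mb.comp (mp _)))
  refine l.congr fun M => ?_
  rw [av2_eq ν M q]
  refine congrArg _ (funext fun d' => congrArg _ (funext fun d => ?_))
  obtain ⟨mF, D, hD⟩ := hF'
  have bF : BM X.μ X.ms fun x => F (lab q M d d', x) := bdd_bm X.μ ⟨mF _, D, fun x => hD _⟩
  have r : rho (zs q) (lab q M d d') = d := by cases q <;> simp [rho, zs, lab]
  have e1 := sq_int fd hB.1 hp bh bF d 0 (k := fun x => k (lab q M d d', x)) (by
    simpa only [fd.t.zero, r] using e (lab q M d d'))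
  rw [e1]
  refine integral_congr_ae (Eventually.of_forall fun z => ?_)
  simp only [fd.t.zero, eF, map_mul, cj_ee]
  congr 1
  rw [mul_mul_mul_comm, ← ee_add]
  cases q <;> simp only [lab, Bool.not_true, Bool.not_false] <;> congr 2 <;> push_cast <;> ring

end Pair0

open Ind2 in
theorem pair0 : Pair0R := by
  intro fd az ν U hU uw X B L q hn hB h hh hz F hF
  have bh : BM X.μ X.ms h := bdd_bm X.μ hh
  have F1 := fam_of fd.t X (fd.t.top X) (rho (zs q)) hh
  have F2 := az.fam (m := X.ms) F hF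
  obtain ⟨F', hF', e⟩ := fd.lb.cex X B hB.1 _ (fam_mul F1 F2)
  have e1 : (fun w => h (L.π (zs q) w) * L.hat F w) =ᵐ[L.W.μ]
      L.hat fun z => h (X.Tz (rho (zs q) z.1) z.2) * F z := by
    filter_upwards [L.slot (zs q) h hh] with w h1
    rw [h1, (L.ch w).mul _ F1 _ F2]
  have e2 := (condExp_congr_ae (m := L.shp B) e1).trans
    (fd.lb.ce L B hB.1 _ (fam_mul F1 F2) F' hF' e)
  have hm := fam_mono hB.1.le hF'
  have z0 := tendsto_nhds_unique (L.lim _ (fam_mul hm (fam_cj hm)))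
    ((Pair0.sq_lim fd uw B hn hB q bh hz hF F2 F' e).mono_left hU)
  have bb := ((bm_comp (L.emb (zs q)).mp bh).mul
    ((az.bm L F hF).mono (az.facP L).le)).ce (L.shp B)
  refine Fib27.eq_zero_of_int_conj (bb.mono (fd.lb.fac L B hB.1).le)
    ((integral_congr_ae ?_).trans z0)
  filter_upwards [e2] with w hw
  rw [hw, (L.ch w).mul _ hm _ (fam_cj hm), (L.ch w).cj _ hm]

end T5y

end

end PkPair0

section PkPair

/-! Row Pair: a point and the third slot are independent over the base of the point. -/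

set_option autoImplicit false
set_option linter.unusedVariables false
set_option warn.classDefReducibility false

open MeasureTheory ProbabilityTheory Filter Topology Function Finset ComplexConjugate
open scoped BigOperators
open Fib27 (BM sup pr Oc Orow F23 LInd Mem)

noncomputable section

namespace T5y

open T3x

theorem pairS : PairR := by
  intro fd az p0 ν U hU uw X B L q hn hB
  have em := L.emb (zs q)
  have fD := fd.t.fpull L.W X _ B em hB.1
  have fS := az.facS L B hB.1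
  have fs := fd.lb.fac L B hB.1
  have hD : pull L.W.μ (L.π (zs q)) B ≤ AS L B := (fd.lb.slot L B _ hB.1).trans le_sup_right
  refine fd.h.disj L.W _ _ (AS L B) L.nice (fd.t.fpull L.W X _ X.ms em (fd.t.top X)) fD fS
    (sup_le_sup_right (MeasurableSpace.comap_mono hB.1.le) _) hD
    (fd.h.rwm L.W X _ B L.nice hn em hB) fun f hf => ?_
  obtain ⟨h1, C, hC⟩ := hf
  obtain ⟨f', m', b', e⟩ := fd.a.fact X.ms L.W.μ (L.π (zs q)) f (max C 0)
    (le_sup_left.trans (fd.t.fpull L.W X _ X.ms em (fd.t.top X)).le) (le_max_right _ _) h1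
    (hC.mono fun x hx => hx.trans (le_max_left _ _))
  have bf : BM X.μ X.ms f' := Ind2.bdd_bm X.μ ⟨m', _, b'⟩
  have be := (bf.ce B).mono hB.1.le
  obtain ⟨h, hh, eh⟩ := Ind2.rep fd.a X.ms (bf.sub be)
  have hz : X.μ[h | B] =ᵐ[X.μ] 0 := (condExp_congr_ae eh.symm).trans
    ((Fib27.perp_sub_ce hB.1.le bf).ce hB.1.le (bf.sub be))
  have bh := Ind2.bm_comp em.mp (Ind2.bdd_bm X.μ hh)
  have k0 := az.perp L B hB.1 _ bh fun F hF G hG => by
    have bF := LfBx.hat_bm L (az.fam (m := X.ms) F hF)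
    have bG : BM L.W.μ (L.shp B) (L.hat G) :=
      (LfBx.hat_bm L (Ind2.fam_mono hB.1.le hG)).of_aesm
        (LfBx.hat_shp L hG).stronglyMeasurable.aestronglyMeasurable
    simp only [← mul_assoc]
    exact Fib27.perp_of_ce fs.le (bh.mul bF) (p0 ν U hU uw X B L q hn hB h hh hz F hF) _ bG
  have bk := fd.a.bm_comp B L.W.μ X.μ _ _ em.mp (bf.ce B)
  have e2 : f =ᵐ[L.W.μ] (fun w => (X.μ[f' | B]) (L.π (zs q) w)) + fun w => h (L.π (zs q) w) := by
    filter_upwards [e, Ind2.ae_comp em.mp eh] with w h1 h2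
    rw [Pi.add_apply, ← h2, h1]
    ring
  filter_upwards [condExp_congr_ae (m := AS L B) e2,
    condExp_add (bk.mono fD.le).integrable bh.integrable (AS L B), k0,
    condExp_of_aestronglyMeasurable' fS.le (bk.mono hD).1 (bk.mono fD.le).integrable,
    condExp_congr_ae (m := pull L.W.μ (L.π (zs q)) B) e,
    fd.a.ce_comp B L.W.μ X.μ _ f' em.mp hB.1.le bf.integrable] with w h1 h2 h3 h4 h5 h6
  rw [h1, h2, Pi.add_apply, h3, h4, h5, h6, Pi.zero_apply, add_zero]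

end T5y

end

end PkPair

section PkCoreF

/-! Row CoreF: the core theorem at finite level. -/

set_option autoImplicit false
set_option linter.unusedVariables false
set_option warn.classDefReducibility false

open MeasureTheory ProbabilityTheory Filter Topology Function Finset ComplexConjugate
open scoped BigOperators
open Fib27 (BM sup pr Oc Orow F23 LInd Mem)
open Pool.Agent.MP_154433_an.SG (Uni ufn)

noncomputable section

namespace T5y

open T3x

namespace CoreFx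

theorem ee_sub (d d' : ℤ) (t : ℝ) :
    ee (((d - d' : ℤ) : ℝ) * t) = ee ((d : ℝ) * t) * conj (ee ((d' : ℝ) * t)) := by
  simp only [ee]
  rw [← Complex.exp_conj, ← Complex.exp_add, map_mul, Complex.conj_ofReal, Complex.conj_I]
  congr 1
  push_cast
  ring

theorem sq_av (ν : Wt) (M : ℕ) (a : ℤ → ℂ) :
    ((‖ν.av M a‖ ^ 2 : ℝ) : ℂ) = ν.av2 M fun l => a l.2.1 * conj (a l.2.2) := by
  rw [← Complex.normSq_eq_norm_sq, ← Complex.mul_conj]
  simp only [Wt.av2, Wt.av, map_sum, sum_mul_sum, smul_sum]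
  refine sum_congr rfl fun d _ => sum_congr rfl fun d' _ => ?_
  simp only [Complex.real_smul, map_mul, Complex.conj_ofReal]
  ring

theorem int_av {Ω : Type} {m : MeasurableSpace Ω} (μ : Measure Ω) (ν : Wt) (M : ℕ) (φ : ℤ → Ω → ℂ)
    (h : ∀ d, Integrable (φ d) μ) :
    Integrable (fun x => ν.av M fun d => φ d x) μ ∧
      (ν.av M fun d => ∫ x, φ d x ∂μ) = ∫ x, (ν.av M fun d => φ d x) ∂μ := by
  refine ⟨integrable_finsetSum _ fun d _ => (h d).smul (ν.w M d), ?_⟩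
  simp only [Wt.av]
  refine Eq.trans ?_ (integral_finsetSum (f := fun d z => ν.w M d • φ d z) _
    fun d _ => (h d).smul (ν.w M d)).symm
  exact sum_congr rfl fun d _ => (integral_smul _ _).symm

theorem int_av2 {Ω : Type} {m : MeasurableSpace Ω} (μ : Measure Ω) (ν : Wt) (M : ℕ) (φ : Lab → Ω → ℂ)
    (h : ∀ l, Integrable (φ l) μ) :
    (ν.av2 M fun l => ∫ x, φ l x ∂μ) = ∫ x, (ν.av2 M fun l => φ l x) ∂μ := by
  simp only [Wt.av2]
  rw [← (int_av μ ν M (fun d x => ν.av M fun d' => φ (M, d, d') x)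
    fun d => (int_av μ ν M (fun d' => φ (M, d, d')) fun d' => h _).1).2]
  congr 1
  exact funext fun d => (int_av μ ν M (fun d' => φ (M, d, d')) fun d' => h _).2

open Ind2 in
theorem main (fd : Fd) (ν : Wt) (X : Sys) (B : MeasurableSpace X.X) (f : X.X → ℂ)
    (β : ℕ → ℤ → X.X → ℂ) (b : X.X → ℝ) (hn : Nice X) (hB : KC X B) (hf : BM X.μ X.ms f)
    (hz : X.μ[f | B] =ᵐ[X.μ] 0) (hβ : ∀ M d, Measurable[B] (β M d)) (hβ1 : ∀ M d x, ‖β M d x‖ ≤ 1)
    (F : Lab × X.X → ℂ) (F3 : F ∈ FamS X.ms)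
    (hF : ∀ s, F s = ee (((s.1.2.1 - s.1.2.2 : ℤ) : ℝ) * b s.2))
    (hc : ∀ U : Ultrafilter ℕ, (U : Filter ℕ) ≤ atTop → ∀ (L : Ln ν U X) (f f' : X.X → ℂ),
      BM X.μ X.ms f → BM X.μ X.ms f' → X.μ[f | B] =ᵐ[X.μ] 0 →
      L.W.μ[fun w => f (L.π (zs true) w) * f' (L.π (zs false) w) * L.hat F w | L.shp B]
        =ᵐ[L.W.μ] 0) :
    Tendsto (fun M => ∫ x, ‖ν.av M fun d => β M d x * f (X.Tz d x) * ee ((d : ℝ) * b x)‖ ^ 2
      ∂X.μ) atTop (𝓝 0) := by
  obtain ⟨f', hf', e⟩ := rep fd.a X.ms hf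
  have hg' : (fun x => conj (f' x)) ∈ @Bdd X.X X.ms :=
    ⟨Complex.continuous_conj.measurable.comp hf'.1, hf'.2.imp fun C hC x => by simpa using hC x⟩
  have b1 := bdd_bm X.μ hf'
  have hG0 : ∀ q : Lab → ℤ, (fun z : Lab × X.X => β z.1.1 (q z.1) z.2) ∈ FamS B := fun q =>
    ⟨fun l => hβ l.1 (q l), 1, fun z => hβ1 _ _ _⟩
  have hG := fam_mul (hG0 fun l => l.2.1) (fam_cj (hG0 fun l => l.2.2))
  have hG' := fam_mono hB.1.le hG
  have F1 := fam_of fd.t X (fd.t.top X) (rho (zs true)) hf'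
  have F2 := fam_of fd.t X (fd.t.top X) (rho (zs false)) hg'
  have hΦ := fam_mul hG' (fam_mul (fam_mul F1 F2) F3)
  refine (tendsto_iff_ultrafilter _ _ _).2 fun U hU => ?_
  obtain ⟨L⟩ := fd.line ν U X hn
  have hle := (fd.lb.fac L B hB.1).le
  have k := hc U hU L f' (fun x => conj (f' x)) b1 b1.conj ((condExp_congr_ae e.symm).trans hz)
  have bk := ((bm_comp (L.emb (zs true)).mp b1).mul (bm_comp (L.emb (zs false)).mp b1.conj)).mul
    (LfBx.hat_bm L F3)
  have z0 := Fib27.int_mul_ce hle (bdd_bm L.W.μ (B := L.shp B)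
    ⟨LfBx.hat_shp L hG, (LfBx.hat_bdd L hG').2⟩) bk
  have l := L.lim _ hΦ
  refine (tendsto_congr fun M => ?_).1 (((Complex.continuous_re.tendsto _).comp l).trans
    (le_of_eq (congrArg 𝓝 ?_)))
  · rw [comp_apply, int_av2 X.μ ν M _ fun l =>
      (bdd_bm (B := X.ms) X.μ ⟨hΦ.1 l, hΦ.2.imp fun C hC x => hC _⟩).integrable]
    refine Eq.trans (congrArg Complex.re (Eq.trans (integral_congr_ae ?_)
      (@integral_complex_ofReal _ X.ms _ _))) (Complex.ofReal_re _)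
    filter_upwards [ae_all_iff.2 fun d : ℤ => ae_comp (fd.t.mp X d) e] with x hx
    rw [sq_av, Wt.av2, Wt.av2]
    congr 1
    funext d
    congr 1
    funext d'
    simp only [hx, hF, ee_sub, map_mul, rho, zs, one_mul, if_true, Bool.false_eq_true, if_false]
    ring
  · refine Eq.trans (congrArg Complex.re (Eq.trans (Eq.trans (integral_congr_ae ?_) z0.symm)
      (integral_eq_zero_of_ae ?_))) Complex.zero_re
    · filter_upwards [L.slot (zs true) f' hf', L.slot (zs false) _ hg'] with w h1 h2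
      rw [(L.ch w).mul _ hG' _ (fam_mul (fam_mul F1 F2) F3), (L.ch w).mul _ (fam_mul F1 F2) _ F3,
        (L.ch w).mul _ F1 _ F2, ← h1, ← h2]
    · filter_upwards [k] with w hw
      rw [hw]
      simp

end CoreFx

theorem coreF : CoreFR := by
  intro fd az hc ν uw X B f β b hn hB hf hz hβ hβ1 hb
  refine CoreFx.main fd ν X B f β b hn hB hf hz hβ hβ1
    (fun s => 1 * ee (((s.1.2.1 - s.1.2.2 : ℤ) : ℝ) * b s.2)) ?_ (fun s => one_mul _)
    fun U hU L g g' h1 h2 h3 => hc ν U hU uw X B L hn hB g g' _ h1 h2 h3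
      ⟨fun _ _ => 1, b, fun _ => measurable_const, hb, ⟨1, fun _ _ => by simp⟩, rfl⟩
  exact @az.fam _ X.ms _
    ⟨fun _ _ => 1, b, fun _ => measurable_const, hb, ⟨1, fun _ _ => by simp⟩, rfl⟩

end T5y

end

end PkCoreF

section PkHZ

/-! A family that is stable under differences stays orthogonal to the hull. -/

set_option autoImplicit false
set_option linter.unusedVariables false
set_option warn.classDefReducibility false

open MeasureTheory ProbabilityTheory Filter Topology Function Finset ComplexConjugate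
open scoped BigOperators
open Fib27 (BM sup pr Oc Orow F23 LInd Mem)
open Pool.Agent.MP_154433_an.SG (Uni ufn)

noncomputable section

namespace T5y

open T3x

namespace HZ

theorem bound {Ω : Type} (C C' : MeasurableSpace Ω) {m0 : MeasurableSpace Ω} (μ : Measure Ω)
    [IsProbabilityMeasure μ] (hC : C ≤ C') (hC' : C' ≤ m0) {F g k r : Ω → ℂ} (hg : BM μ m0 g)
    (hk : BM μ C k) (hr : BM μ m0 r) (e : F =ᵐ[μ] fun y => k y * g y + r y)
    (h0 : μ[g | C'] =ᵐ[μ] 0) : ∫ x, ‖(μ[F | C']) x‖ ∂μ ≤ ∫ x, ‖r x‖ ∂μ := by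
  have hk' : BM μ C' k := hk.mono hC
  have e1 : μ[F | C'] =ᵐ[μ] μ[r | C'] := by
    filter_upwards [condExp_congr_ae (m := C') e, Fib27.ce_mul hC' hk' hg, h0,
      condExp_add ((hk'.mono hC').mul hg).integrable hr.integrable C'] with x a1 a2 a3 a4
    rw [a1]
    refine Eq.trans a4 ?_
    rw [Pi.add_apply]
    rw [show (μ[fun y => k y * g y | C']) x = 0 by rw [a2, a3]; simp, zero_add]
  calc ∫ x, ‖(μ[F | C']) x‖ ∂μ = ∫ x, ‖(μ[r | C']) x‖ ∂μ :=
        integral_congr_ae (e1.mono fun x hx => by simp only [hx])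
    _ ≤ ∫ x, (μ[fun y => ‖r y‖ | C']) x ∂μ :=
        integral_mono_ae integrable_condExp.norm integrable_condExp (norm_condExp_le r)
    _ = ∫ x, ‖r x‖ ∂μ := integral_condExp hC'

theorem chain (hd : BasD) {Ω : Type} (𝒞 : Set (MeasurableSpace Ω)) {m0 : MeasurableSpace Ω}
    (μ : Measure Ω) [IsProbabilityMeasure μ] {g : Ω → ℂ} (hg : BM μ m0 g) (h1 : 𝒞.Nonempty)
    (h2 : DirectedOn (· ≤ ·) 𝒞) (h3 : ∀ C ∈ 𝒞, C ≤ m0 ∧ μ[g | C] =ᵐ[μ] 0) :
    μ[g | sSup 𝒞] =ᵐ[μ] 0 := by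
  have hM : sSup 𝒞 ≤ m0 := sSup_le fun C hC => (h3 C hC).1
  have g3 : ∫ x, ‖(μ[g | sSup 𝒞]) x‖ ^ 2 ∂μ = 0 := by
    refine le_antisymm (le_of_forall_pos_le_add fun ε hε => ?_)
      (integral_nonneg fun _ => sq_nonneg _)
    obtain ⟨C, c1, c2⟩ := hd.chain 𝒞 μ h1 h2 (fun C hC => (h3 C hC).1) _ (hg.memLp 2) ε hε
    rw [zero_add]
    refine le_of_eq_of_le (integral_congr_ae ?_) (c2 C c1 le_rfl)
    filter_upwards [(h3 C c1).2] with x e
    rw [e, Pi.zero_apply, sub_zero]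
  rw [integral_eq_zero_iff_of_nonneg (fun _ => sq_nonneg _)
    ((((hg.ce _).mono hM).memLp 2).integrable_norm_pow two_ne_zero)] at g3
  filter_upwards [g3] with x e
  simpa using e

end HZ

theorem hz : HZR := by
  intro fd Y C α G e hN hC hG hd he h0
  refine fd.h.ind Y C (fun C' => ∀ a, Y.μ[G a | C'] =ᵐ[Y.μ] 0) hN hC h0 ?_ ?_
  · intro C' hC' hle hQ a
    refine (fd.kb.wm Y C' hN hC' (G a) ((hG a).memLp 2)).1
      (fd.ka.weak Y C' hN hC' (G a) (hG a) fun ε hε => ?_)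
    refine ((he a).eventually (gt_mem_nhds hε)).frequently.mono fun N hN' => le_trans ?_ hN'.le
    refine mul_le_mul_of_nonneg_left (sum_le_sum fun n _ => ?_) (by positivity)
    obtain ⟨a', k, r, hk, hr, hi, hE⟩ := hd a n
    exact (HZ.bound C C' Y.μ hle hC'.le (hG a') hk hr hE (hQ a')).trans hi
  · intro 𝒞 h1 h2 h3 a
    exact HZ.chain fd.d 𝒞 Y.μ (hG a) h1 h2.directedOn fun C' hC' =>
      ⟨(h3 C' hC').1.le, (h3 C' hC').2.2 a⟩

end T5y

end

end PkHZ

section PkPass1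

/-! A nontrivial pair that is determined by the third slot correlates with the twists. -/

set_option autoImplicit false
set_option linter.unusedVariables false
set_option warn.classDefReducibility false

open MeasureTheory ProbabilityTheory Filter Topology Function Finset ComplexConjugate
open scoped BigOperators
open Fib27 (BM sup pr Oc Orow F23 LInd Mem)
open Pool.Agent.MP_154433_an.SG (Uni ufn)

noncomputable section

namespace T5y

open T3x

namespace Pass1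

variable {V : Type} [AddCommGroup V]

theorem ae_pull {Ω Ω' : Type} {m : MeasurableSpace Ω} {m' : MeasurableSpace Ω'} {μ : Measure Ω}
    {μ' : Measure Ω'} {p : Ω → Ω'} (h : MeasurePreserving p μ μ') {P : Ω' → Prop}
    (e : ∀ᵐ y ∂μ', P y) : ∀ᵐ x ∂μ, P (p x) :=
  h.quasiMeasurePreserving.ae e

theorem int_norm {Ω Ω' : Type} {m : MeasurableSpace Ω} {m' : MeasurableSpace Ω'} {μ : Measure Ω}
    {μ' : Measure Ω'} {p : Ω → Ω'} (h : MeasurePreserving p μ μ') {f : Ω' → ℂ}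
    (hf : BM μ' m' f) : ∫ x, ‖f (p x)‖ ∂μ = ∫ y, ‖f y‖ ∂μ' := by
  rw [← h.map_eq, integral_map h.measurable.aemeasurable (by rw [h.map_eq]; exact hf.1.norm)]

theorem off_bm (rc : Rc) {X : Sys} {B : MeasurableSpace X.X} (hB : Fac X B) {sg : AddAut V}
    {ψ : V → X.X → ℂ} (pc : PsC X B sg ψ) {I : Set X.X} (hI : MeasurableSet[X.ms] I) (a : V) :
    BM X.μ X.ms (off X B ψ I a) := by
  have hm : MeasurableSet[X.ms] (I \ Th B X.μ (ψ a)) := hI.diff (hB.le _ (rc.meas B X.μ _))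
  refine ((BM.indicator hm).mul (pc.bm a)).congr (Eventually.of_forall fun x => ?_)
  by_cases h : x ∈ I \ Th B X.μ (ψ a)
  · simp only [off, Set.indicator_of_mem h, one_mul]
  · simp only [off, Set.indicator_of_notMem h, zero_mul]

theorem psi_diff {X : Sys} {B : MeasurableSpace X.X} {sg : AddAut V}
    {ψ : V → X.X → ℂ} (pc : PsC X B sg ψ) (n : ℤ) (a : V) :
    ∀ᵐ x ∂X.μ, ψ a (X.Tz n x) * conj (ψ a x) = ψ ((n • sg) a - a) x := by
  filter_upwards [pc.shz n a, pc.sub ((n • sg) a) a] with x h1 h2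
  rw [h2, h1]

theorem off_diff (fd : Fd) (rc : Rc) {X : Sys} {B : MeasurableSpace X.X} (hB : Fac X B)
    {sg : AddAut V} {ψ : V → X.X → ℂ} (ps : Psi X B sg ψ) (pc : PsC X B sg ψ) {I : Set X.X}
    (hI : MeasurableSet[X.ms] I) (hT : X.T ⁻¹' I = I) (n : ℤ) (a : V) :
    ∃ k r : X.X → ℂ, BM X.μ B k ∧ BM X.μ X.ms r ∧
      ∫ x, ‖r x‖ ∂X.μ ≤ X.μ.real (Th B X.μ (ψ ((n • sg) a - a)) \ Th B X.μ (ψ a)) ∧
      ∀ x, off X B ψ I a (X.Tz n x) * conj (off X B ψ I a x) =
        k x * off X B ψ I ((n • sg) a - a) x + r x := by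
  have hN : ∀ u, MeasurableSet[B] (Th B X.μ (ψ u)) := fun u => rc.meas B X.μ _
  have hz : Measurable[B, B] (X.Tz n) := measurable_iff_comap_le.2 (fd.t.inv X B n hB).le
  have hS : MeasurableSet[B] ((X.Tz n ⁻¹' Th B X.μ (ψ a))ᶜ ∩ (Th B X.μ (ψ a))ᶜ) :=
    (hz (hN a)).compl.inter (hN a).compl
  have hk : BM X.μ B (((X.Tz n ⁻¹' Th B X.μ (ψ a))ᶜ ∩ (Th B X.μ (ψ a))ᶜ).indicator
    fun _ => (1 : ℂ)) := BM.indicator hS
  have ho := off_bm rc hB pc hI
  have hD : MeasurableSet[X.ms] (Th B X.μ (ψ ((n • sg) a - a)) \ Th B X.μ (ψ a)) :=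
    hB.le _ ((hN _).diff (hN _))
  have hr := ((Ind2.bm_comp (fd.t.mp X n) (ho a)).mul (ho a).conj).sub
    ((hk.mono hB.le).mul (ho ((n • sg) a - a)))
  refine ⟨_, _, hk, hr, ?_, fun x => by ring⟩
  rw [← integral_indicator_one hD]
  refine integral_mono_ae hr.integrable.norm ((integrable_const (1 : ℝ)).indicator hD) ?_
  filter_upwards [psi_diff pc n a, (ps.um ((n • sg) a - a)).2] with x h1 h2
  have hi := LfBx.tz_inv ⟨fd.a, fd.t, fd.d, fd.c⟩ hT n x
  have h0 : (0 : ℝ) ≤ (Th B X.μ (ψ ((n • sg) a - a)) \ Th B X.μ (ψ a)).indicator 1 x :=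
    Set.indicator_nonneg (fun _ _ => zero_le_one) x
  by_cases e0 : x ∈ I
  · by_cases e1 : x ∈ Th B X.μ (ψ a)
    · simp [off, e1]
    · by_cases e2 : X.Tz n x ∈ Th B X.μ (ψ a)
      · simpa [off, e1, e2] using h0
      · by_cases e3 : x ∈ Th B X.μ (ψ ((n • sg) a - a))
        · simp [off, e0, hi.2 e0, e1, e2, e3, h1, h2]
        · simp [off, e0, hi.2 e0, e1, e2, e3, h1]
  · simpa [off, e0] using h0

theorem pair_diff (fd : Fd) (rc : Rc) {X W : Sys} {B : MeasurableSpace X.X} (hB : Fac X B)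
    {sg : AddAut V} {ψ : V → X.X → ℂ} (ps : Psi X B sg ψ) (pc : PsC X B sg ψ) {I : Set X.X}
    (hI : MeasurableSet[X.ms] I) (hT : X.T ⁻¹' I = I) {p q : W.X → X.X} (hp : Emb W X p)
    (hq : Emb W X q) (n : ℤ) (a a' : V) :
    ∃ k r : W.X → ℂ, BM W.μ (pull W.μ p B) k ∧ BM W.μ W.ms r ∧
      ∫ w, ‖r w‖ ∂W.μ ≤ X.μ.real (Th B X.μ (ψ ((n • sg) a - a)) \ Th B X.μ (ψ a)) ∧
      (fun w => off X B ψ I a (p (W.Tz n w)) * ψ a' (q (W.Tz n w)) *
        conj (off X B ψ I a (p w) * ψ a' (q w))) =ᵐ[W.μ] fun w =>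
        k w * (off X B ψ I ((n • sg) a - a) (p w) * ψ ((n • sg) a' - a') (q w)) + r w := by
  obtain ⟨k, r, hk, hr, hi, e⟩ := off_diff fd rc hB ps pc hI hT n a
  refine ⟨fun w => k (p w), fun w => r (p w) * ψ ((n • sg) a' - a') (q w),
    fd.a.bm_comp B W.μ X.μ p k hp.mp hk,
    (Ind2.bm_comp hp.mp hr).mul (Ind2.bm_comp hq.mp (pc.bm _)), ?_, ?_⟩
  · refine le_trans (le_of_eq ?_) hi
    rw [← int_norm hp.mp hr]
    refine integral_congr_ae ?_
    filter_upwards [ae_pull hq.mp (ps.um ((n • sg) a' - a')).2] with w hw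
    rw [norm_mul, hw, mul_one]
  · filter_upwards [Ind2.emb_fun fd hp n (off_bm rc hB pc hI a), Ind2.emb_fun fd hq n (pc.bm a'),
      ae_pull hq.mp (psi_diff pc n a')] with w h1 h2 h3
    rw [h1, h2, map_mul]
    have h4 := e (p w)
    calc off X B ψ I a (X.Tz n (p w)) * ψ a' (X.Tz n (q w)) *
          (conj (off X B ψ I a (p w)) * conj (ψ a' (q w)))
        = (off X B ψ I a (X.Tz n (p w)) * conj (off X B ψ I a (p w))) *
          (ψ a' (X.Tz n (q w)) * conj (ψ a' (q w))) := by ring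
      _ = _ := by rw [h4, h3]; ring

theorem null_of {Ω : Type} (C D : MeasurableSpace Ω) {m0 : MeasurableSpace Ω} (μ : Measure Ω)
    [IsProbabilityMeasure μ] {F : Ω → ℂ} {A : Set Ω} (hF : Integrable F μ)
    (hC : MeasurableSet[C] A) (hD : MeasurableSet[D] A) (h : μ[A.indicator F | C] =ᵐ[μ] 0) :
    μ (A ∩ {w | (μ[fun v => ‖(μ[F | C]) v‖ | D]) w = 1}) = 0 := by
  have h1 : A.indicator (μ[F | C]) =ᵐ[μ] 0 := (condExp_indicator hF hC).symm.trans h
  have h2 : A.indicator (fun v => ‖(μ[F | C]) v‖) =ᵐ[μ] 0 := by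
    filter_upwards [h1] with w hw
    by_cases e : w ∈ A
    · rw [Set.indicator_of_mem e] at hw ⊢
      rw [hw]
      simp
    · rw [Set.indicator_of_notMem e]
      rfl
  have h3 : A.indicator (μ[fun v => ‖(μ[F | C]) v‖ | D]) =ᵐ[μ] 0 := by
    refine (condExp_indicator integrable_condExp.norm hD).symm.trans
      ((condExp_congr_ae h2).trans ?_)
    rw [condExp_zero]
  refine measure_mono_null ?_ (ae_iff.1 h3)
  rintro w ⟨e, hw⟩
  simp only [Set.mem_ofPred_eq] at hw ⊢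
  rw [Set.indicator_of_mem e, hw]
  simp

end Pass1

theorem pass1 : Pass1R := by
  intro fd rc az hz c V _ sg ψ I j v ps pc dec hI hT hne
  by_contra hc
  push Not at hc
  have hB : Fac c.X c.B := c.kc.1
  have hIB : MeasurableSet[c.B] I := by
    refine c.kc.2 _ (fd.kb.inv c.X c.B c.nice hB _ ?_)
    exact (le_sup_left : MeasurableSpace.invariants c.X.T ≤ T3x.Inv c.X) _ ⟨hI, hT⟩
  have emb : ∀ k, Emb c.W c.X (c.π k) := fun k => c.L.emb (zs k)
  have sl : pull c.W.μ (c.π j) c.B ≤ c.L.shp c.B := fd.lb.slot c.L c.B (zs j) hB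
  have bG : ∀ a : V × V, BM c.W.μ c.W.ms
      fun w => off c.X c.B ψ I a.1 (c.π j w) * ψ a.2 (c.π (!j) w) := fun a =>
    (Ind2.bm_comp (emb j).mp (Pass1.off_bm rc hB pc hI a.1)).mul
      (Ind2.bm_comp (emb (!j)).mp (pc.bm a.2))
  have key := hz c.W (AS c.L c.B) (V × V)
    (fun a w => off c.X c.B ψ I a.1 (c.π j w) * ψ a.2 (c.π (!j) w))
    (fun a n => c.X.μ.real (Th c.B c.X.μ (ψ (((n : ℤ) • sg) a.1 - a.1)) \ Th c.B c.X.μ (ψ a.1)))
    c.L.nice (az.facS c.L c.B hB) bG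
    (fun a n => by
      obtain ⟨k, r, hk, hr, hi, e⟩ :=
        Pass1.pair_diff fd rc hB ps pc hI hT (emb j) (emb (!j)) (n : ℤ) a.1 a.2
      exact ⟨(((n : ℤ) • sg) a.1 - a.1, ((n : ℤ) • sg) a.2 - a.2), k, r,
        hk.mono (sl.trans le_sup_right), hr, hi, e⟩)
    (fun a => dec a.1) (fun a => hc a.1 a.2) (v j, v (!j))
  have hA : MeasurableSet[c.L.shp c.B] (c.π j ⁻¹' (I \ Th c.B c.X.μ (ψ (v j)))) :=
    sl _ ((le_sup_left : c.B.comap (c.π j) ≤ pull c.W.μ (c.π j) c.B) _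
      ⟨_, hIB.diff (rc.meas c.B c.X.μ _), rfl⟩)
  have bF : BM c.W.μ c.W.ms fun w => ψ (v true) (c.π true w) * ψ (v false) (c.π false w) :=
    (Ind2.bm_comp (emb true).mp (pc.bm _)).mul (Ind2.bm_comp (emb false).mp (pc.bm _))
  have eG : (fun w => off c.X c.B ψ I (v j) (c.π j w) * ψ (v (!j)) (c.π (!j) w)) =
      (c.π j ⁻¹' (I \ Th c.B c.X.μ (ψ (v j)))).indicator
        fun w => ψ (v true) (c.π true w) * ψ (v false) (c.π false w) := by
    funext w
    by_cases e : c.π j w ∈ I \ Th c.B c.X.μ (ψ (v j))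
    · rw [Set.indicator_of_mem (Set.mem_preimage.2 e), off, Set.indicator_of_mem e]
      cases j
      · exact mul_comm _ _
      · rfl
    · rw [Set.indicator_of_notMem (mt Set.mem_preimage.1 e), off,
        Set.indicator_of_notMem e, zero_mul]
  have h0 := Pass1.null_of c.AZ c.B2 c.W.μ bF.integrable (az.shp c.L c.B _ hA)
    (fd.h.le c.W _ _ hA) (by rw [← eG]; exact key)
  refine hne (measure_mono_null ?_ h0)
  rintro w ⟨⟨h1, h2⟩, h3⟩
  exact ⟨⟨h1, h3⟩, h2⟩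

end T5y

end

end PkPass1

section PkPass2

/-! Row Pass2: a correlation with the twists gives positive twisted averages. -/

set_option autoImplicit false
set_option linter.unusedVariables false
set_option warn.classDefReducibility false

open MeasureTheory ProbabilityTheory Filter Topology Function Finset ComplexConjugate
open scoped BigOperators
open Fib27 (BM sup pr Oc Orow F23 LInd Mem)
open Pool.Agent.MP_154433_an.SG (Uni ufn)

noncomputable section

namespace T5y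

open T3x

namespace Pass2x

theorem ee_add (s t : ℝ) : ee (s + t) = ee s * ee t := by
  rw [ee, ee, ee, ← Complex.exp_add]
  congr 1
  push_cast
  ring

theorem norm_ee (t : ℝ) : ‖ee t‖ = 1 := Complex.norm_exp_ofReal_mul_I _

theorem cont_ee : Continuous ee := by
  unfold ee
  fun_prop

theorem ee_bdd {Ω : Type} [MeasurableSpace Ω] {b : Ω → ℝ} (hb : Measurable b) :
    (fun x => ee (b x)) ∈ Bdd Ω :=
  ⟨cont_ee.measurable.comp hb, 1, fun x => (norm_ee _).le⟩

theorem exch (ν : Wt) (M : ℕ) (X : Sys) (A : ℤ → X.X → ℂ) (K : X.X → ℂ) (C : ℝ)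
    (hA : ∀ d, BM X.μ X.ms (A d)) (hK : BM X.μ X.ms K) (hC : ∀ x, ‖K x‖ ≤ C) :
    ‖ν.av M fun d => ∫ x, A d x * K x ∂X.μ‖ ≤ (∫ x, ‖ν.av M fun d => A d x‖ ∂X.μ) * C := by
  have hI : Integrable (fun x => ν.av M fun d => A d x) X.μ :=
    integrable_finsetSum _ fun d _ => (hA d).integrable.smul (ν.w M d)
  have e2 : (ν.av M fun d => ∫ x, A d x * K x ∂X.μ) =
      ∫ x, (ν.av M fun d => A d x) * K x ∂X.μ := by
    simp only [Wt.av, sum_mul, smul_mul_assoc]
    refine Eq.trans ?_ (integral_finsetSum (f := fun d x => ν.w M d • (A d x * K x)) _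
      fun d _ => ((hA d).mul hK).integrable.smul (ν.w M d)).symm
    exact sum_congr rfl fun d _ => (integral_smul _ _).symm
  rw [e2, ← integral_mul_const]
  refine norm_integral_le_of_norm_le (hI.norm.mul_const C) (Eventually.of_forall fun x => ?_)
  rw [norm_mul]
  exact mul_le_mul_of_nonneg_left (hC x) (norm_nonneg _)

variable {V : Type} [AddCommGroup V]

theorem off_bm (rc : Rc) {X : Sys} {B : MeasurableSpace X.X} (hB : Fac X B) {sg : AddAut V}
    {ψ : V → X.X → ℂ} (hP : PsC X B sg ψ) {I : Set X.X} (hI : MeasurableSet[X.ms] I) (a : V) :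
    BM X.μ X.ms (off X B ψ I a) := by
  obtain ⟨h1, C, hC⟩ := hP.bm a
  refine ⟨h1.indicator (hI.diff (hB.le _ (rc.meas B X.μ (ψ a)))), C, ?_⟩
  filter_upwards [hC] with x hx
  exact (norm_indicator_le_norm_self _ _).trans hx

theorem off_sh (fd : Fd) {X : Sys} {B : MeasurableSpace X.X} {sg : AddAut V}
    {ψ : V → X.X → ℂ} (hP : PsC X B sg ψ) {I : Set X.X} (hI : X.T ⁻¹' I = I) (d : ℤ) (a : V) :
    (fun x => off X B ψ I a (X.Tz d x)) =ᵐ[X.μ] off X B ψ I ((d • sg) a) := by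
  filter_upwards [hP.nsh d a, hP.shz d a] with x h1 h2
  have h3 := LfBx.tz_inv ⟨fd.a, fd.t, fd.d, fd.c⟩ hI d x
  have h4 : X.Tz d x ∈ I \ Th B X.μ (ψ a) ↔ x ∈ I \ Th B X.μ (ψ ((d • sg) a)) := by
    rw [Set.mem_sdiff, Set.mem_sdiff, h3, h1]
  unfold off
  by_cases h : X.Tz d x ∈ I \ Th B X.μ (ψ a)
  · rw [Set.indicator_of_mem h, Set.indicator_of_mem (h4.1 h), h2]
  · rw [Set.indicator_of_notMem h, Set.indicator_of_notMem (mt h4.2 h)]

theorem rho1 (j : Bool) (M : ℕ) (d d' : ℤ) : rho (zs j) (Ind2.lab j M d d') = d := by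
  cases j <;> simp [rho, zs, Ind2.lab]

theorem rho2 (j : Bool) (M : ℕ) (d d' : ℤ) : rho (zs (!j)) (Ind2.lab j M d d') = d' := by
  cases j <;> simp [rho, zs, Ind2.lab]

theorem lab1 (j : Bool) (M : ℕ) (d d' : ℤ) : (Ind2.lab j M d d').1 = M := by
  cases j <;> rfl

def sgn (j : Bool) : ℝ := if j then 1 else -1

theorem lab2 (j : Bool) (M : ℕ) (d d' : ℤ) (t : ℝ) :
    ((((Ind2.lab j M d d').2.1 - (Ind2.lab j M d d').2.2 : ℤ) : ℝ) * t) =
      (d : ℝ) * (sgn j * t) + -((d' : ℝ) * (sgn j * t)) := by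
  cases j <;> simp [Ind2.lab, sgn] <;> ring

end Pass2x

open Pass2x Ind2 in
theorem pass2 : Pass2R := by
  intro fd rc az c V _ sg ψ I j a a' hψ hP hI hT hne
  have hB : Fac c.X c.B := c.kc.1
  have bo := off_bm rc hB hP hI a
  have bg : BM c.W.μ c.W.ms fun w => off c.X c.B ψ I a (c.π j w) * ψ a' (c.π (!j) w) :=
    (bm_comp (c.L.emb (zs j)).mp bo).mul (bm_comp (c.L.emb (zs (!j))).mp (hP.bm a'))
  obtain ⟨F, hF, G, hG, hz⟩ : ∃ F ∈ Tw c.X.X, ∃ G ∈ FamS c.B,
      ∫ w, (off c.X c.B ψ I a (c.π j w) * ψ a' (c.π (!j) w)) * (c.L.hat F w * c.L.hat G w)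
        ∂c.W.μ ≠ 0 := by
    by_contra h
    push Not at h
    exact hne (az.perp c.L c.B hB _ bg h)
  obtain ⟨f1, hf1, e1⟩ := rep fd.a c.X.ms bo
  obtain ⟨f2, m2, b2, e2⟩ := fd.a.rep c.X.ms c.X.μ (ψ a') 1 zero_le_one (hψ.um a').1
    ((hψ.um a').2.mono fun x hx => hx.le)
  have hf2 : f2 ∈ @Bdd c.X.X c.X.ms := ⟨m2, 1, b2⟩
  have F1 := fam_of fd.t c.X (fd.t.top c.X) (rho (zs j)) hf1
  have F2 := fam_of fd.t c.X (fd.t.top c.X) (rho (zs (!j))) hf2
  have F3 := az.fam F hF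
  have F4 := fam_mono hB.le hG
  have l := c.L.lim _ (fam_mul (fam_mul F1 F2) (fam_mul F3 F4))
  have e3 : ∫ w, c.L.hat (fun s => f1 (c.X.Tz (rho (zs j) s.1) s.2) *
      f2 (c.X.Tz (rho (zs (!j)) s.1) s.2) * (F s * G s)) w ∂c.L.W.μ =
      ∫ w, (off c.X c.B ψ I a (c.π j w) * ψ a' (c.π (!j) w)) * (c.L.hat F w * c.L.hat G w)
        ∂c.W.μ := by
    refine integral_congr_ae ?_
    filter_upwards [c.L.slot (zs j) f1 hf1, c.L.slot (zs (!j)) f2 hf2,
      ae_comp (c.L.emb (zs j)).mp e1, ae_comp (c.L.emb (zs (!j))).mp e2] with w h1 h2 h3 h4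
    rw [(c.L.ch w).mul _ (fam_mul F1 F2) _ (fam_mul F3 F4), (c.L.ch w).mul _ F1 _ F2,
      (c.L.ch w).mul _ F3 _ F4, ← h1, ← h2, ← h3, ← h4]
    rfl
  rw [e3] at l
  generalize (∫ w, (off c.X c.B ψ I a (c.π j w) * ψ a' (c.π (!j) w)) *
    (c.L.hat F w * c.L.hat G w) ∂c.W.μ) = z at hz l
  have z0 : 0 < ‖z‖ := norm_pos_iff.2 hz
  obtain ⟨g, b, mg, mb, ⟨Cg, hg⟩, rfl⟩ := hF
  obtain ⟨mG, CG, bG⟩ := hG
  have p1 : (0 : ℝ) < max Cg 1 := lt_max_of_lt_right one_pos
  have p2 : (0 : ℝ) < max CG 1 := lt_max_of_lt_right one_pos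
  have p3 : ((max CG 1 : ℝ) : ℂ) ≠ 0 := by exact_mod_cast p2.ne'
  refine ⟨‖z‖ / 2 / (max CG 1 * max Cg 1), by positivity, ?_⟩
  filter_upwards [l.norm.eventually (lt_mem_nhds (half_lt_self z0))] with M hM
  rw [av2_eq c.ν M j] at hM
  obtain ⟨d', hd⟩ := not_forall.1 (mt (av_le c.ν M _ (‖z‖ / 2)) (not_le.2 hM))
  simp only [rho1, rho2, lab1, lab2, ee_add] at hd
  have mb' : Measurable fun x => sgn j * b x := mb.const_mul _
  have mβ : ∀ d, Measurable[c.B] fun x => G (lab j M d d', x) / ((max CG 1 : ℝ) : ℂ) :=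
    fun d => (mG _).div_const _
  have bβ : ∀ d x, ‖G (lab j M d d', x) / ((max CG 1 : ℝ) : ℂ)‖ ≤ 1 := fun d x => by
    rw [norm_div, Complex.norm_real, Real.norm_of_nonneg p2.le, div_le_one p2]
    exact (bG _).trans (le_max_left _ _)
  refine ⟨fun d x => G (lab j M d d', x) / ((max CG 1 : ℝ) : ℂ), fun x => sgn j * b x,
    mβ, bβ, mb', ?_⟩
  have hA : ∀ d : ℤ, BM c.X.μ c.X.ms fun x => G (lab j M d d', x) / ((max CG 1 : ℝ) : ℂ) *
      f1 (c.X.Tz d x) * ee ((d : ℝ) * (sgn j * b x)) := fun d =>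
    (((bdd_bm c.X.μ ⟨mβ d, 1, bβ d⟩).mono hB.le).mul
      (bm_comp (fd.t.mp c.X d) (bdd_bm c.X.μ hf1))).mul
      (bdd_bm c.X.μ (ee_bdd (mb'.const_mul _)))
  have hK : BM c.X.μ c.X.ms fun x => ((max CG 1 : ℝ) : ℂ) * (f2 (c.X.Tz d' x) * g M x *
      ee (-((d' : ℝ) * (sgn j * b x)))) :=
    (((bm_comp (fd.t.mp c.X d') (bdd_bm c.X.μ hf2)).mul (bdd_bm c.X.μ ⟨mg M, Cg, hg M⟩)).mul
      (bdd_bm c.X.μ (ee_bdd (mb'.const_mul _).neg))).cmul _
  have x1 := exch c.ν M c.X _ _ (max CG 1 * max Cg 1) hA hK fun x => by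
    rw [norm_mul, norm_mul, norm_mul, norm_ee, mul_one, Complex.norm_real,
      Real.norm_of_nonneg p2.le]
    refine mul_le_mul_of_nonneg_left ?_ p2.le
    calc ‖f2 (c.X.Tz d' x)‖ * ‖g M x‖ ≤ 1 * max Cg 1 :=
          mul_le_mul (b2 _) ((hg M x).trans (le_max_left _ _)) (norm_nonneg _) zero_le_one
      _ = _ := one_mul _
  have x2 : ∀ (d : ℤ) x, G (lab j M d d', x) / ((max CG 1 : ℝ) : ℂ) * f1 (c.X.Tz d x) *
      ee ((d : ℝ) * (sgn j * b x)) * (((max CG 1 : ℝ) : ℂ) * (f2 (c.X.Tz d' x) * g M x *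
        ee (-((d' : ℝ) * (sgn j * b x))))) =
      f1 (c.X.Tz d x) * f2 (c.X.Tz d' x) * (g M x * (ee ((d : ℝ) * (sgn j * b x)) *
        ee (-((d' : ℝ) * (sgn j * b x)))) * G (lab j M d d', x)) := fun d x => by
    field_simp
  simp only [x2] at x1
  rw [div_le_iff₀ (mul_pos p2 p1)]
  refine ((not_le.1 hd).le.trans x1).trans (le_of_eq ?_)
  congr 1
  refine integral_congr_ae ?_
  have x3 : ∀ᵐ x ∂c.X.μ, ∀ d : ℤ, f1 (c.X.Tz d x) = off c.X c.B ψ I ((d • sg) a) x :=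
    ae_all_iff.2 fun d => (ae_comp (fd.t.mp c.X d) e1).symm.trans (off_sh fd hP hT d a)
  filter_upwards [x3] with x hx
  simp only [hx]

end T5y

end

end PkPass2
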