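import Pool.Agent.MP_154433_an.p8.P2
import Pool.Agent.MP_154433_an.p5.T7

/-! Twisted line, part 5 (packed). -/

section PkMgf

/-! The exponential moment of a dissociated sum. -/

set_option autoImplicit false
set_option linter.unusedVariables false
set_option warn.classDefReducibility false

open MeasureTheory ProbabilityTheory Filter Topology Function Finset ComplexConjugate
open scoped BigOperators
open Fib27 (BM sup pr Oc Orow F23 LInd Mem)
open Pool.Agent.MP_154433_an.SG (Uni ufn)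

noncomputable section

namespace T5y

open T3x

namespace Mgf

theorem exp_le {t w : ℝ} (h : |t| ≤ w) :
    Real.exp t ≤ Real.cosh w + Real.sinh w / w * t := by
  rcases ((abs_nonneg t).trans h).eq_or_lt with h0 | h0
  · obtain rfl : t = 0 := abs_nonpos_iff.1 (h0 ▸ h)
    simp [Real.one_le_cosh w]
  · have h1 : |t / w| ≤ 1 := by
      rw [abs_div, abs_of_pos h0]
      exact (div_le_one h0).2 h
    have h2 := Real.exp_mul_le_cosh_add_mul_sinh h1 w
    rw [div_mul_cancel₀ _ h0.ne'] at h2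
    refine h2.trans_eq ?_
    ring

variable {Ω V : Type} [AddCommGroup V] {B m0 : MeasurableSpace Ω} {μ : Measure Ω}
  [IsProbabilityMeasure μ] {ψ : V → Ω → ℂ} {E : Set Ω}

/-- `ψ u` is orthogonal to the bounded functions of the base that live on `E` -/
def Zo (B : MeasurableSpace Ω) {m0 : MeasurableSpace Ω} (μ : Measure Ω) (ψ : V → Ω → ℂ)
    (E : Set Ω) (u : V) : Prop :=
  ∀ φ, BM μ B φ → (∀ x ∉ E, φ x = 0) → ∫ x, φ x * ψ u x ∂μ = 0

omit [IsProbabilityMeasure μ] in
theorem bm (h : Chr B μ ψ) (u : V) : BM μ m0 (ψ u) := .of_uni (h.um u).1 (h.um u).2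

theorem zo (h : Chr B μ ψ) {u : V} (hu : ∀ x ∈ E, x ∉ Th B μ (ψ u)) : Zo B μ ψ E u := by
  intro φ hφ h0
  rw [← Fib27.int_mul_ce h.le hφ (bm h u)]
  refine integral_eq_zero_of_ae ?_
  filter_upwards [h.onn u] with x hx
  by_cases hE : x ∈ E
  · simp [norm_eq_zero.1 (hx.resolve_right (hu x hE))]
  · simp [h0 x hE]

theorem key (h : Chr B μ ψ) (v : ℤ → V) (al : ℤ → ℂ) (c c' : ℤ → Ω → ℂ)
    (hc : ∀ d, BM μ B (c d)) (hc' : ∀ d, BM μ B (c' d)) (S : Finset ℤ) :
    ∀ u : V, (∀ P ⊆ S, ∀ Q ⊆ S, Disjoint P Q → (P ∪ Q).Nonempty →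
      Zo B μ ψ E (u + (∑ d ∈ P, v d - ∑ d ∈ Q, v d))) →
    ∀ φ, BM μ B φ → (∀ x ∉ E, φ x = 0) →
      ∫ x, φ x * ψ u x * pr (fun d x => al d + c d x * ψ (v d) x + c' d x * ψ (-v d) x) S x ∂μ =
        (∏ d ∈ S, al d) * ∫ x, φ x * ψ u x ∂μ := by
  induction S using Finset.induction_on with
  | empty => intro u _ φ _ _; simp [pr]
  | insert e S he ih =>
    intro u H φ hφ h0
    set F := pr (fun d x => al d + c d x * ψ (v d) x + c' d x * ψ (-v d) x) S with hF
    have bF : BM μ m0 F := BM.pr fun d _ => ((BM.const _).add (((hc d).mono h.le).mul (bm h _))).add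
      (((hc' d).mono h.le).mul (bm h _))
    have ins : ∀ P ⊆ S, e ∉ P := fun P hP h1 => he (hP h1)
    have i0 := ih u (fun P hP Q hQ => H P (hP.trans (subset_insert _ _)) Q
      (hQ.trans (subset_insert _ _))) φ hφ h0
    have i1 := ih (u + v e) (fun P hP Q hQ hd _ => by
      have := H (insert e P) (insert_subset_insert _ hP) Q (hQ.trans (subset_insert _ _))
        (disjoint_insert_left.2 ⟨ins Q hQ, hd⟩) ⟨e, by simp⟩
      rwa [sum_insert (ins P hP), add_sub_assoc, ← add_assoc] at this)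
      (fun x => φ x * c e x) (hφ.mul (hc e)) fun x hx => by simp [h0 x hx]
    have i2 := ih (u + -v e) (fun P hP Q hQ hd _ => by
      have := H P (hP.trans (subset_insert _ _)) (insert e Q) (insert_subset_insert _ hQ)
        (disjoint_insert_right.2 ⟨ins P hP, hd⟩) ⟨e, by simp⟩
      rw [sum_insert (ins Q hQ)] at this
      convert this using 1
      abel)
      (fun x => φ x * c' e x) (hφ.mul (hc' e)) fun x hx => by simp [h0 x hx]
    have z1 := H {e} (by simp) ∅ (by simp) (by simp) (by simp) (fun x => φ x * c e x)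
      (hφ.mul (hc e)) fun x hx => by simp [h0 x hx]
    have z2 := H ∅ (by simp) {e} (by simp) (by simp) (by simp) (fun x => φ x * c' e x)
      (hφ.mul (hc' e)) fun x hx => by simp [h0 x hx]
    simp only [sum_singleton, sum_empty, sub_zero, zero_sub] at z1 z2
    rw [z1, mul_zero] at i1
    rw [z2, mul_zero] at i2
    have b0 := (((hφ.mono h.le).mul (bm h u)).mul bF).integrable
    have b1 := ((((hφ.mul (hc e)).mono h.le).mul (bm h (u + v e))).mul bF).integrable
    have b2 := ((((hφ.mul (hc' e)).mono h.le).mul (bm h (u + -v e))).mul bF).integrable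
    rw [prod_insert he, mul_assoc, ← i0, ← integral_const_mul, ← add_zero (∫ x, al e * _ ∂μ), ← i1,
      ← integral_add (b0.const_mul _) b1, ← add_zero (∫ x, al e * _ + _ ∂μ), ← i2,
      ← integral_add (f := fun x => al e * (φ x * ψ u x * F x) +
        φ x * c e x * ψ (u + v e) x * F x) ((b0.const_mul _).add b1) b2]
    refine integral_congr_ae ?_
    filter_upwards [h.add u (v e), h.add u (-v e)] with x h1 h2
    rw [Fib27.pr_insert _ he, h1, h2]
    ring

end Mgf

open Mgf in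
theorem mgf : Mgf := by
  intro Ω V _ B m0 μ _ ψ v S E a w h hE hD ha hw
  have ba : ∀ d, BM μ B (a d) := fun d =>
    ⟨(ha d).stronglyMeasurable.aestronglyMeasurable, w d, .of_forall (hw d)⟩
  have K := key (E := E) h v (fun d => (Real.cosh (w d) : ℂ))
    (fun d x => ((Real.sinh (w d) / w d / 2 : ℝ) : ℂ) * a d x)
    (fun d x => ((Real.sinh (w d) / w d / 2 : ℝ) : ℂ) * conj (a d x))
    (fun d => (ba d).cmul _) (fun d => (ba d).conj.cmul _) S 0
    (fun P hP Q hQ hd hn => zo h fun x hx => by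
      rw [zero_add]
      exact hD x hx P hP Q hQ hd hn)
    (E.indicator fun _ => 1) (BM.indicator hE) fun x hx => Set.indicator_of_notMem hx _
  have hE0 : MeasurableSet[m0] E := h.le _ hE
  have e1 : ∫ x, (E.indicator fun _ => (1 : ℂ)) x * ψ 0 x ∂μ = (μ.real E : ℂ) := by
    rw [integral_congr_ae (g := E.indicator fun _ => (1 : ℂ))
      (h.zero.mono fun x hx => by simp [hx]), integral_indicator hE0]
    simp
  rw [e1, ← Complex.ofReal_prod, ← Complex.ofReal_mul] at K
  have bG := ((((BM.indicator hE).mono h.le).mul (bm h 0)).mul (BM.pr (S := S)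
    (ρ := fun d x => (Real.cosh (w d) : ℂ) +
      ((Real.sinh (w d) / w d / 2 : ℝ) : ℂ) * a d x * ψ (v d) x +
      ((Real.sinh (w d) / w d / 2 : ℝ) : ℂ) * conj (a d x) * ψ (-v d) x) fun d _ =>
    ((BM.const _).add ((((ba d).cmul _).mono h.le).mul (bm h _))).add
      ((((ba d).conj.cmul _).mono h.le).mul (bm h _)))).integrable
  have K' := integral_re bG
  rw [K, RCLike.re_to_complex, Complex.ofReal_re] at K'
  rw [← integral_indicator hE0]
  refine (integral_mono_of_nonneg (.of_forall fun x => Set.indicator_nonneg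
    (fun x _ => (Real.exp_pos _).le) x) bG.re ?_).trans (K'.trans_le ?_)
  · filter_upwards [h.zero, ae_all_iff.2 fun d => h.neg (v d), ae_all_iff.2 fun d => (h.um (v d)).2]
      with x h0 h1 h2
    by_cases hx : x ∈ E
    · have e2 : pr (fun d x => (Real.cosh (w d) : ℂ) +
          ((Real.sinh (w d) / w d / 2 : ℝ) : ℂ) * a d x * ψ (v d) x +
          ((Real.sinh (w d) / w d / 2 : ℝ) : ℂ) * conj (a d x) * ψ (-v d) x) S x =
          ((∏ d ∈ S, (Real.cosh (w d) + Real.sinh (w d) / w d * (a d x * ψ (v d) x).re) : ℝ) : ℂ) := by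
        rw [Complex.ofReal_prod]
        refine prod_congr rfl fun d _ => ?_
        beta_reduce
        rw [h1 d, Complex.ofReal_add, Complex.ofReal_mul, Complex.re_eq_add_conj, map_mul,
          Complex.ofReal_div _ 2, Complex.ofReal_ofNat]
        ring
      simp only [Set.indicator_of_mem hx, h0, one_mul, e2, RCLike.re_to_complex, Complex.ofReal_re]
      rw [Complex.re_sum, Real.exp_sum]
      refine prod_le_prod (fun d _ => (Real.exp_pos _).le) fun d _ => exp_le ?_
      refine (Complex.abs_re_le_norm _).trans ?_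
      rw [norm_mul, h2 d, mul_one]
      exact hw d x
    · simp [Set.indicator_of_notMem hx]
  · rw [mul_comm, sum_div, Real.exp_sum]
    exact mul_le_mul_of_nonneg_left (prod_le_prod (fun d _ => (Real.cosh_pos _).le)
      fun d _ => Real.cosh_le_exp_half_sq _) measureReal_nonneg

end T5y

end

end PkMgf

section PkTail

/-! Row Tail: the tail of a dissociated sum from its exponential moment. -/

set_option autoImplicit false
set_option linter.unusedVariables false
set_option warn.classDefReducibility false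

open MeasureTheory ProbabilityTheory Filter Topology Function Finset ComplexConjugate
open scoped BigOperators
open Fib27 (BM sup pr Oc Orow F23 LInd Mem)
open Pool.Agent.MP_154433_an.SG (Uni ufn)

noncomputable section

namespace T5y

open T3x

namespace TailA

theorem four (z : ℂ) (t : ℝ) (h : t ≤ ‖z‖) :
    t / 2 ≤ ((1 : ℂ) * z).re ∨ t / 2 ≤ ((-1 : ℂ) * z).re ∨ t / 2 ≤ (Complex.I * z).re ∨
      t / 2 ≤ ((-Complex.I) * z).re := by
  have h1 := Complex.norm_le_abs_re_add_abs_im z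
  simp only [one_mul, neg_mul, Complex.neg_re, Complex.mul_re, Complex.I_re, Complex.I_im,
    zero_mul, zero_sub, neg_neg]
  by_contra hc
  push Not at hc
  obtain ⟨a1, a2, a3, a4⟩ := hc
  have b1 : |z.re| < t / 2 := abs_lt.2 ⟨by linarith, a1⟩
  have b2 : |z.im| < t / 2 := abs_lt.2 ⟨by linarith, a4⟩
  linarith

theorem half (hM : Mgf) (Ω V : Type) [AddCommGroup V] (B : MeasurableSpace Ω)
    (m0 : MeasurableSpace Ω) (μ : Measure Ω) [IsProbabilityMeasure μ] (ψ : V → Ω → ℂ)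
    (v : ℤ → V) (S : Finset ℤ) (E : Set Ω) (a : ℤ → Ω → ℂ) (w : ℤ → ℝ) (s t : ℝ)
    (hc : Chr B μ ψ) (hE : MeasurableSet[B] E)
    (hD : ∀ x ∈ E, Dis (fun u => x ∈ Th B μ (ψ u)) v S) (ha : ∀ d, Measurable[B] (a d))
    (hw : ∀ d x, ‖a d x‖ ≤ w d) (hs : 0 < s) (hS : ∑ d ∈ S, w d ^ 2 ≤ s) (ht : 0 ≤ t)
    (u : ℂ) (hu : ‖u‖ = 1) :
    μ.real (E ∩ {x | t / 2 ≤ (u * ∑ d ∈ S, a d x * ψ (v d) x).re}) ≤
      μ.real E * Real.exp (-(t ^ 2 / (8 * s))) := by
  set lam : ℝ := t / (2 * s) with hlam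
  have hl0 : 0 ≤ lam := by positivity
  have hE0 : MeasurableSet E := hc.le _ hE
  have ha' : ∀ d, Measurable[B] (fun x => ((lam : ℂ) * u) * a d x) := fun d =>
    (ha d).const_mul _
  have hw' : ∀ d x, ‖((lam : ℂ) * u) * a d x‖ ≤ lam * w d := by
    intro d x
    rw [norm_mul, norm_mul, hu, mul_one, Complex.norm_real, Real.norm_of_nonneg hl0]
    exact mul_le_mul_of_nonneg_left (hw d x) hl0
  have h1 := hM Ω V B m0 μ ψ v S E (fun d x => ((lam : ℂ) * u) * a d x) (fun d => lam * w d)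
    hc hE hD ha' hw'
  set f : Ω → ℝ := fun x => Real.exp (∑ d ∈ S, ((lam : ℂ) * u) * a d x * ψ (v d) x).re with hf
  have hmeas : AEStronglyMeasurable
      (fun x => ∑ d ∈ S, ((lam : ℂ) * u) * a d x * ψ (v d) x) μ := by
    refine Finset.aestronglyMeasurable_fun_sum S fun d _ => ?_
    exact (((ha' d).mono hc.le le_rfl).aestronglyMeasurable).mul (hc.um (v d)).1
  have hfm : AEStronglyMeasurable f μ :=
    (Real.continuous_exp.comp Complex.continuous_re).comp_aestronglyMeasurable hmeas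
  have hae : ∀ᵐ x ∂μ, ∀ d ∈ S, ‖ψ (v d) x‖ = 1 :=
    (Filter.eventually_all_finset S).2 fun d _ => (hc.um (v d)).2
  have hfi : Integrable f μ := by
    refine Integrable.of_bound hfm (Real.exp (∑ d ∈ S, lam * w d)) ?_
    filter_upwards [hae] with x hx
    rw [Real.norm_of_nonneg (Real.exp_pos _).le]
    refine Real.exp_le_exp.2 ((Complex.re_le_norm _).trans ((norm_sum_le _ _).trans ?_))
    refine Finset.sum_le_sum fun d hd => ?_
    rw [norm_mul, hx d hd, mul_one]
    exact hw' d x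
  have h2 := mul_meas_ge_le_integral_of_nonneg (μ := μ.restrict E) (f := f)
    (Eventually.of_forall fun x => (Real.exp_pos _).le) hfi.restrict (Real.exp (lam * (t / 2)))
  rw [measureReal_restrict_apply' hE0] at h2
  have hsub : E ∩ {x | t / 2 ≤ (u * ∑ d ∈ S, a d x * ψ (v d) x).re} ⊆
      {x | Real.exp (lam * (t / 2)) ≤ f x} ∩ E := by
    rintro x ⟨hx, hx'⟩
    refine ⟨?_, hx⟩
    have e1 : ∑ d ∈ S, ((lam : ℂ) * u) * a d x * ψ (v d) x =
        (lam : ℂ) * (u * ∑ d ∈ S, a d x * ψ (v d) x) := by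
      rw [Finset.mul_sum, Finset.mul_sum]
      exact Finset.sum_congr rfl fun d _ => by ring
    show Real.exp (lam * (t / 2)) ≤ Real.exp _
    rw [e1, Complex.re_ofReal_mul]
    exact Real.exp_le_exp.2 (mul_le_mul_of_nonneg_left hx' hl0)
  have h3 := measureReal_mono (μ := μ) hsub
  have h4 : (∑ d ∈ S, (lam * w d) ^ 2) / 2 ≤ lam ^ 2 * s / 2 := by
    have : ∑ d ∈ S, (lam * w d) ^ 2 = lam ^ 2 * ∑ d ∈ S, w d ^ 2 := by
      rw [Finset.mul_sum]
      exact Finset.sum_congr rfl fun d _ => by ring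
    rw [this]
    have := mul_le_mul_of_nonneg_left hS (sq_nonneg lam)
    linarith
  have h5 : Real.exp (lam * (t / 2)) *
      μ.real (E ∩ {x | t / 2 ≤ (u * ∑ d ∈ S, a d x * ψ (v d) x).re}) ≤
      μ.real E * Real.exp (lam ^ 2 * s / 2) :=
    (mul_le_mul_of_nonneg_left h3 (Real.exp_pos _).le).trans (h2.trans (h1.trans
      (mul_le_mul_of_nonneg_left (Real.exp_le_exp.2 h4) measureReal_nonneg)))
  have e2 : Real.exp (lam ^ 2 * s / 2) =
      Real.exp (lam * (t / 2)) * Real.exp (-(t ^ 2 / (8 * s))) := by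
    rw [← Real.exp_add]
    congr 1
    rw [hlam]
    field_simp
    ring
  rw [e2, mul_left_comm] at h5
  exact le_of_mul_le_mul_left h5 (Real.exp_pos _)

end TailA

theorem tail : TailR := by
  intro hM Ω V _ B m0 μ _ ψ v S E a w s t hc hE hD ha hw hs hS ht
  have h := TailA.half hM Ω V B m0 μ ψ v S E a w s t hc hE hD ha hw hs hS ht
  have h1 := h 1 (by simp)
  have h2 := h (-1) (by simp)
  have h3 := h Complex.I (by simp)
  have h4 := h (-Complex.I) (by simp)
  set A : ℂ → Set Ω := fun u => E ∩ {x | t / 2 ≤ (u * ∑ d ∈ S, a d x * ψ (v d) x).re} with hA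
  have hsub : E ∩ {x | t ≤ ‖∑ d ∈ S, a d x * ψ (v d) x‖} ⊆
      (A 1 ∪ A (-1)) ∪ (A Complex.I ∪ A (-Complex.I)) := by
    rintro x ⟨hx, hx'⟩
    rcases TailA.four _ _ hx' with g | g | g | g
    · exact Or.inl (Or.inl ⟨hx, g⟩)
    · exact Or.inl (Or.inr ⟨hx, g⟩)
    · exact Or.inr (Or.inl ⟨hx, g⟩)
    · exact Or.inr (Or.inr ⟨hx, g⟩)
  have b0 := measureReal_mono (μ := μ) hsub
  have b1 := measureReal_union_le (μ := μ) (A 1 ∪ A (-1)) (A Complex.I ∪ A (-Complex.I))
  have b2 := measureReal_union_le (μ := μ) (A 1) (A (-1))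
  have b3 := measureReal_union_le (μ := μ) (A Complex.I) (A (-Complex.I))
  change μ.real (A 1) ≤ _ at h1
  change μ.real (A (-1)) ≤ _ at h2
  change μ.real (A Complex.I) ≤ _ at h3
  change μ.real (A (-Complex.I)) ≤ _ at h4
  linarith

end T5y

end

end PkTail

section PkSup

/-! The tail bound for all frequencies and a union of dissociated sets. -/

set_option autoImplicit false
set_option linter.unusedVariables false
set_option warn.classDefReducibility false

open MeasureTheory ProbabilityTheory Filter Topology Function Finset ComplexConjugate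
open scoped BigOperators
open Fib27 (BM sup pr Oc Orow F23 LInd Mem)
open Pool.Agent.MP_154433_an.SG (Uni ufn)

noncomputable section

namespace T5y

open T3x

namespace Sup

lemma ee_add (s t : ℝ) : ee (s + t) = ee s * ee t := by
  unfold ee
  rw [← Complex.exp_add]
  congr 1
  push_cast
  ring

lemma ee_norm (s : ℝ) : ‖ee s‖ = 1 := by
  unfold ee
  exact Complex.norm_exp_ofReal_mul_I _

lemma ee_int (k : ℤ) : ee (k : ℝ) = 1 := by
  unfold ee
  rw [← Complex.exp_int_mul_two_pi_mul_I k]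
  congr 1
  push_cast
  ring

lemma ee_lip (s t : ℝ) : ‖ee s - ee t‖ ≤ 7 * |s - t| := by
  have h1 : ee s - ee t = ee t * (ee (s - t) - 1) := by
    rw [mul_sub, ← ee_add, mul_one]
    congr 2
    ring
  have h2 : ‖ee (s - t) - 1‖ ≤ ‖2 * Real.pi * (s - t)‖ := by
    unfold ee
    rw [mul_comm _ Complex.I]
    exact Real.norm_exp_I_mul_ofReal_sub_one_le
  rw [h1, norm_mul, ee_norm, one_mul]
  refine h2.trans ?_
  rw [Real.norm_eq_abs, abs_mul, abs_of_pos (by positivity : (0 : ℝ) < 2 * Real.pi)]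
  have := Real.pi_lt_d2
  exact mul_le_mul_of_nonneg_right (by linarith) (abs_nonneg _)

lemma grid (T : Finset ℤ) (c : ℤ → ℂ) (w : ℤ → ℝ) (a0 : ℤ) (n Q : ℕ) (β : ℝ) (hQ : 0 < Q)
    (hc : ∀ d ∈ T, ‖c d‖ ≤ w d) (hw : ∑ d ∈ T, w d ≤ 1)
    (hr : ∀ d ∈ T, a0 ≤ d ∧ d < a0 + n) :
    ∃ j ∈ range Q, ‖∑ d ∈ T, c d * ee ((d : ℝ) * β)‖ ≤
      ‖∑ d ∈ T, c d * ee (((d - a0 : ℤ) : ℝ) * ((j : ℝ) / Q))‖ + 7 * n / Q := by
  have hQ' : (0 : ℝ) < Q := by exact_mod_cast hQ
  have f0 : 0 ≤ Int.fract β := Int.fract_nonneg β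
  have f1 : Int.fract β < 1 := Int.fract_lt_one β
  have g0 : 0 ≤ (Q : ℝ) * Int.fract β := by positivity
  refine ⟨⌊(Q : ℝ) * Int.fract β⌋₊, ?_, ?_⟩
  · rw [mem_range, Nat.floor_lt g0]
    nlinarith
  have j1 := Nat.floor_le g0
  have j2 := Nat.lt_floor_add_one ((Q : ℝ) * Int.fract β)
  generalize ⌊(Q : ℝ) * Int.fract β⌋₊ = j at j1 j2
  have hd : |Int.fract β - (j : ℝ) / Q| ≤ 1 / Q := by
    have e : Int.fract β - (j : ℝ) / Q = ((Q : ℝ) * Int.fract β - j) / Q := by
      field_simp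
    rw [e, abs_div, abs_of_pos hQ']
    refine div_le_div_of_nonneg_right ?_ hQ'.le
    rw [abs_le]
    constructor <;> linarith
  have e1 : ∀ d : ℤ, ee ((d : ℝ) * β) =
      ee ((a0 : ℝ) * β) * ee (((d - a0 : ℤ) : ℝ) * Int.fract β) := by
    intro d
    have : (d : ℝ) * β = (a0 : ℝ) * β + (((d - a0 : ℤ) : ℝ) * Int.fract β +
        (((d - a0) * ⌊β⌋ : ℤ) : ℝ)) := by
      have := Int.fract_add_floor β
      push_cast
      linear_combination (-((d : ℝ) - a0)) * this
    rw [this, ee_add, ee_add, ee_int, mul_one]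
  have e2 : ∑ d ∈ T, c d * ee ((d : ℝ) * β) = ee ((a0 : ℝ) * β) *
      (∑ d ∈ T, c d * ee (((d - a0 : ℤ) : ℝ) * ((j : ℝ) / Q)) +
        ∑ d ∈ T, c d * (ee (((d - a0 : ℤ) : ℝ) * Int.fract β) -
          ee (((d - a0 : ℤ) : ℝ) * ((j : ℝ) / Q)))) := by
    rw [← sum_add_distrib, mul_sum]
    refine sum_congr rfl fun d _ => ?_
    rw [e1]
    ring
  rw [e2, norm_mul, ee_norm, one_mul]
  refine (norm_add_le _ _).trans (add_le_add le_rfl ?_)
  have hn : (0 : ℝ) ≤ 7 * n / Q := by positivity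
  calc ‖∑ d ∈ T, c d * (ee (((d - a0 : ℤ) : ℝ) * Int.fract β) -
          ee (((d - a0 : ℤ) : ℝ) * ((j : ℝ) / Q)))‖
      ≤ ∑ d ∈ T, w d * (7 * n / Q) := by
        refine (norm_sum_le _ _).trans (sum_le_sum fun d hd' => ?_)
        rw [norm_mul]
        refine mul_le_mul (hc d hd') ((ee_lip _ _).trans ?_) (norm_nonneg _)
          ((norm_nonneg _).trans (hc d hd'))
        rw [← mul_sub, abs_mul]
        have h0 : (0 : ℝ) ≤ ((d - a0 : ℤ) : ℝ) := by
          exact_mod_cast sub_nonneg.2 (hr d hd').1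
        have h1 : ((d - a0 : ℤ) : ℝ) ≤ n := by
          have : d - a0 ≤ (n : ℤ) := by have := (hr d hd').2; omega
          exact_mod_cast this
        rw [abs_of_nonneg h0]
        calc 7 * (((d - a0 : ℤ) : ℝ) * |Int.fract β - (j : ℝ) / Q|) ≤ 7 * (n * (1 / Q)) := by
              gcongr
          _ = 7 * n / Q := by ring
    _ = (∑ d ∈ T, w d) * (7 * n / Q) := by rw [sum_mul]
    _ ≤ 1 * (7 * n / Q) := mul_le_mul_of_nonneg_right hw hn
    _ = 7 * n / Q := one_mul _

lemma split {K : ℕ} (T : Finset ℤ) (κ : ℤ → Fin K) (c : ℤ → ℂ) (t : ℝ)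
    (h : K * t < ‖∑ d ∈ T, c d‖) : ∃ i, t ≤ ‖∑ d ∈ T.filter (fun d => κ d = i), c d‖ := by
  by_contra hn
  push Not at hn
  rw [← sum_fiberwise T κ c] at h
  have h1 := (norm_sum_le (univ : Finset (Fin K))
    (fun i => ∑ d ∈ T.filter (fun d => κ d = i), c d)).trans (sum_le_sum fun i _ => (hn i).le)
  rw [sum_const, card_univ, Fintype.card_fin, nsmul_eq_mul] at h1
  linarith

end Sup

theorem supT : SupR := by
  intro tail Ω V _ B m0 μ _ ψ v K S sp E a w b a0 n Q s t chr hE hD ha hw hr h1 hs s0 t0 hQ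
  generalize hT : sp.filter (fun d => ∃ i, d ∈ S i) = T
  have hT1 : T ⊆ sp := by rw [← hT]; exact filter_subset _ _
  have hT2 : ∀ d ∈ T, ∃ i, d ∈ S i := by
    intro d hd
    rw [← hT] at hd
    exact (mem_filter.1 hd).2
  clear hT
  rcases T.eq_empty_or_nonempty with rfl | ⟨d0, hd0⟩
  · have : (E ∩ {x | K * t + 7 * n / Q < ‖∑ d ∈ (∅ : Finset ℤ),
        a d x * ψ (v d) x * ee ((d : ℝ) * b x)‖}) = ∅ := by
      ext x
      have : (0 : ℝ) ≤ K * t + 7 * n / Q := by positivity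
      simp [this]
    rw [this, measureReal_empty]
    positivity
  have : Nonempty (Fin K) := ⟨(hT2 d0 hd0).choose⟩
  choose! κ hκ using hT2
  obtain ⟨x0⟩ : Nonempty Ω := nonempty_of_isProbabilityMeasure μ
  have w0 : ∀ d, 0 ≤ w d := fun d => (norm_nonneg _).trans (hw d x0)
  have hwT : ∑ d ∈ T, w d ≤ 1 :=
    (sum_le_sum_of_subset_of_nonneg hT1 fun d _ _ => w0 d).trans h1
  let A : Fin K × ℕ → Set Ω := fun p => E ∩ {x | t ≤ ‖∑ d ∈ T.filter (fun d => κ d = p.1),
    (a d x * ee (((d - a0 : ℤ) : ℝ) * ((p.2 : ℝ) / Q))) * ψ (v d) x‖}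
  have hA : ∀ p, μ.real (A p) ≤ 4 * μ.real E * Real.exp (-(t ^ 2 / (8 * s))) := by
    intro p
    have sub : T.filter (fun d => κ d = p.1) ⊆ S p.1 := by
      intro d hd
      rw [mem_filter] at hd
      rw [← hd.2]
      exact hκ d hd.1
    refine tail Ω V B m0 μ ψ v _ E
      (fun d x => a d x * ee (((d - a0 : ℤ) : ℝ) * ((p.2 : ℝ) / Q))) w s t chr hE ?_ ?_ ?_ s0 ?_ t0
    · intro x hx P hP R hR
      exact hD x hx p.1 P (hP.trans sub) R (hR.trans sub)
    · intro d
      exact (ha d).mul_const _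
    · intro d x
      rw [norm_mul, Sup.ee_norm, mul_one]
      exact hw d x
    · have s1 : T.filter (fun d => κ d = p.1) ⊆ sp := (filter_subset _ _).trans hT1
      calc ∑ d ∈ T.filter (fun d => κ d = p.1), w d ^ 2 ≤ ∑ d ∈ sp, w d ^ 2 :=
            sum_le_sum_of_subset_of_nonneg s1 fun d _ _ => sq_nonneg _
        _ ≤ ∑ d ∈ sp, w d * s := by
            refine sum_le_sum fun d hd => ?_
            rw [sq]
            exact mul_le_mul_of_nonneg_left (hs d hd) (w0 d)
        _ = (∑ d ∈ sp, w d) * s := by rw [sum_mul]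
        _ ≤ 1 * s := mul_le_mul_of_nonneg_right h1 s0.le
        _ = s := one_mul _
  have hu : ∀ᵐ x ∂μ, ∀ d : ℤ, ‖ψ (v d) x‖ = 1 := ae_all_iff.2 fun d => (chr.um (v d)).2
  have cov : (E ∩ {x | K * t + 7 * n / Q < ‖∑ d ∈ T,
      a d x * ψ (v d) x * ee ((d : ℝ) * b x)‖} : Set Ω) ≤ᵐ[μ]
      (⋃ p ∈ (univ : Finset (Fin K)) ×ˢ range Q, A p : Set Ω) := by
    filter_upwards [hu] with x hx hxE
    obtain ⟨hxE, hb⟩ := hxE
    obtain ⟨j, hj, hle⟩ := Sup.grid T (fun d => a d x * ψ (v d) x) w a0 n Q (b x) hQ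
      (fun d _ => by rw [norm_mul, hx, mul_one]; exact hw d x) hwT (fun d hd => hr d (hT1 hd))
    have hb' : K * t + 7 * n / Q < ‖∑ d ∈ T, a d x * ψ (v d) x * ee ((d : ℝ) * b x)‖ := hb
    obtain ⟨i, hi⟩ := Sup.split T κ
      (fun d => a d x * ψ (v d) x * ee (((d - a0 : ℤ) : ℝ) * ((j : ℝ) / Q))) t (by linarith)
    have : x ∈ ⋃ p ∈ (univ : Finset (Fin K)) ×ˢ range Q, A p := by
      refine Set.mem_biUnion (x := (i, j)) (mem_coe.2 (mem_product.2 ⟨mem_univ _, hj⟩)) ⟨hxE, ?_⟩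
      refine hi.trans (le_of_eq ?_)
      congr 1
      exact sum_congr rfl fun d _ => by ring
    exact this
  calc μ.real (E ∩ {x | K * t + 7 * n / Q < ‖∑ d ∈ T,
        a d x * ψ (v d) x * ee ((d : ℝ) * b x)‖})
      ≤ μ.real (⋃ p ∈ (univ : Finset (Fin K)) ×ˢ range Q, A p) :=
        ENNReal.toReal_mono (measure_ne_top _ _) (measure_mono_ae cov)
    _ ≤ ∑ p ∈ (univ : Finset (Fin K)) ×ˢ range Q, μ.real (A p) :=
        measureReal_biUnion_finset_le _ _
    _ ≤ ∑ p ∈ (univ : Finset (Fin K)) ×ˢ range Q,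
          4 * μ.real E * Real.exp (-(t ^ 2 / (8 * s))) := sum_le_sum fun p _ => hA p
    _ = 4 * K * Q * μ.real E * Real.exp (-(t ^ 2 / (8 * s))) := by
        rw [sum_const, card_product, card_univ, Fintype.card_fin, card_range, nsmul_eq_mul]
        push_cast
        ring

end T5y

end

end PkSup

section PkCovT

/-! Row CovT: the tail bound on the event that the labels are covered. -/

set_option autoImplicit false
set_option linter.unusedVariables false
set_option warn.classDefReducibility false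

open MeasureTheory ProbabilityTheory Filter Topology Function Finset ComplexConjugate
open scoped BigOperators
open Fib27 (BM sup pr Oc Orow F23 LInd Mem)
open Pool.Agent.MP_154433_an.SG (Uni ufn)

noncomputable section

namespace T5y

open T3x

namespace CovT

variable {V : Type} [AddCommGroup V]

open Classical in
/-- covered by the sets `S i` -/
def CovS (n : V → Prop) (v : ℤ → V) (sp : Finset ℤ) (w : ℤ → ℝ) (K : ℕ) (ε : ℝ)
    (S : Fin K → Finset ℤ) : Prop :=
  (∀ i, Dis n v (S i)) ∧ ∑ d ∈ sp.filter (fun d => ¬ n (v d) ∧ ∀ i, d ∉ S i), w d ≤ ε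

theorem meas {Ω : Type} [MeasurableSpace Ω] {N : V → Set Ω} (hN : ∀ u, MeasurableSet (N u))
    (v : ℤ → V) (sp : Finset ℤ) (w : ℤ → ℝ) (K : ℕ) (ε : ℝ) (S : Fin K → Finset ℤ) :
    MeasurableSet {x | CovS (fun u => x ∈ N u) v sp w K ε S} := by
  refine MeasurableSet.inter (measurableSet_setOfPred.2 (Measurable.forall fun i =>
    Measurable.forall fun P => measurable_const.imp (Measurable.forall fun Q =>
      measurable_const.imp (measurable_const.imp (measurable_const.imp (hN _).mem.not))))) ?_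
  simp only [sum_filter]
  refine measurableSet_le (g := fun _ => ε) ?_ measurable_const
  exact Finset.measurable_sum _ fun d _ => Measurable.ite
    ((hN (v d)).compl.inter (MeasurableSet.const _)) measurable_const measurable_const

theorem measTh {Ω : Type} [B : MeasurableSpace Ω] {m0 : MeasurableSpace Ω} (μ : @Measure Ω m0)
    (F : Ω → ℂ) : MeasurableSet[B] (Th B μ F) :=
  (stronglyMeasurable_condExp (m := B)).norm.measurable (measurableSet_singleton 1)

theorem norm_ee (t : ℝ) : ‖ee t‖ = 1 := Complex.norm_exp_ofReal_mul_I _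

/-- the part that is not covered is small -/
theorem rest {n : V → Prop} {v : ℤ → V} {sp : Finset ℤ} {w : ℤ → ℝ} {K : ℕ} {ε : ℝ}
    {S : Fin K → Finset ℤ} (h : CovS n v sp w K ε S) {z : ℤ → ℂ} (hz : ∀ d, ‖z d‖ ≤ w d)
    (h0 : ∀ d, n (v d) → z d = 0) :
    ‖∑ d ∈ sp, z d‖ ≤ ‖∑ d ∈ sp.filter (fun d => ∃ i, d ∈ S i), z d‖ + ε := by
  rw [← sum_filter_add_sum_filter_not sp fun d => ∃ i, d ∈ S i]
  refine (norm_add_le _ _).trans (add_le_add le_rfl (le_trans ?_ h.2))
  rw [sum_filter, sum_filter]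
  refine norm_sum_le_of_le _ fun d _ => ?_
  by_cases h1 : ∃ i, d ∈ S i
  · rw [if_neg (not_not.2 h1), if_neg fun h2 => h1.elim fun i hi => h2.2 i hi, norm_zero]
  · rw [if_pos h1]
    by_cases h2 : n (v d)
    · rw [h0 d h2, if_neg fun h3 => h3.1 h2, norm_zero]
    · rw [if_pos ⟨h2, not_exists.1 h1⟩]
      exact hz d

/-- a bound on the pieces of a partition -/
theorem glue {Ω : Type} [MeasurableSpace Ω] (μ : Measure Ω) [IsProbabilityMeasure μ]
    {E : ℕ → Set Ω} (hE : ∀ i, MeasurableSet (E i)) (hd : Pairwise (Disjoint on E)) {A : Set Ω}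
    {c : ℝ} (hc : 0 ≤ c) (h : ∀ i, μ.real (E i ∩ A) ≤ c * μ.real (E i)) :
    μ.real ((⋃ i, E i) ∩ A) ≤ c := by
  refine ENNReal.toReal_le_of_le_ofReal hc ?_
  rw [Set.iUnion_inter]
  calc μ (⋃ i, E i ∩ A) ≤ ∑' i, μ (E i ∩ A) := measure_iUnion_le _
    _ ≤ ∑' i, ENNReal.ofReal c * μ (E i) := ENNReal.tsum_le_tsum fun i => by
      rw [← ofReal_measureReal (s := E i ∩ A), ← ofReal_measureReal (s := E i),
        ← ENNReal.ofReal_mul hc]
      exact ENNReal.ofReal_le_ofReal (h i)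
    _ = ENNReal.ofReal c * μ (⋃ i, E i) := by rw [ENNReal.tsum_mul_left, measure_iUnion hd hE]
    _ ≤ ENNReal.ofReal c := mul_le_of_le_one_right' prob_le_one

end CovT

open CovT in
theorem covT : CovR := by
  intro hS Ω V _ B m0 μ _ ψ v K sp a w b a0 n Q s t ε hc ha hw h0 h1 h2 h3 h4 h5 h6
  obtain ⟨e, he⟩ := exists_surjective_nat (Fin K → Finset ℤ)
  have hN : ∀ u, MeasurableSet[B] (Th B μ (ψ u)) := fun u => measTh (B := B) μ _
  have hE : ∀ i, MeasurableSet[B]
      (disjointed (fun i => {x | CovS (fun u => x ∈ Th B μ (ψ u)) v sp w K ε (e i)}) i) :=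
    MeasurableSet.disjointed fun i => @meas V _ Ω B _ hN v sp w K ε (e i)
  have eq : {x | Cov (fun u => x ∈ Th B μ (ψ u)) v sp w K ε} =
      ⋃ i, disjointed (fun i => {x | CovS (fun u => x ∈ Th B μ (ψ u)) v sp w K ε (e i)}) i := by
    rw [iUnion_disjointed]
    ext x
    rw [Set.mem_iUnion]
    exact he.exists
  rw [eq]
  refine ⟨MeasurableSet.iUnion hE, glue μ (fun i => hc.le _ (hE i)) (disjoint_disjointed _)
    (by positivity) fun i => ?_⟩
  have h7 := hS Ω V B m0 μ ψ v K (e i) sp _ a w b a0 n Q s t hc (hE i)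
    (fun x hx => (disjointed_subset _ i hx).1) ha hw h1 h2 h3 h4 h5 h6
  rw [mul_right_comm] at h7
  refine le_trans (ENNReal.toReal_mono (measure_ne_top _ _) (measure_mono_ae ?_)) h7
  filter_upwards [ae_all_iff.2 fun d => (hc.um (v d)).2] with x hx hb
  have h8 := rest (z := fun d => a d x * ψ (v d) x * ee ((d : ℝ) * b x))
    (disjointed_subset _ i hb.1) (fun d => by
      rw [norm_mul, norm_mul, norm_ee, hx, mul_one, mul_one]
      exact hw d x) fun d hd => by rw [h0 d x hd, zero_mul, zero_mul]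
  exact ⟨hb.1, lt_of_add_lt_add_right (lt_of_lt_of_le hb.2 h8)⟩

end T5y

end

end PkCovT

section PkRud

/-! Row Rud: positive twisted averages force many relations. -/

set_option autoImplicit false
set_option linter.unusedVariables false
set_option warn.classDefReducibility false

open MeasureTheory ProbabilityTheory Filter Topology Function Finset ComplexConjugate
open scoped BigOperators
open Fib27 (BM sup pr Oc Orow F23 LInd Mem)
open Pool.Agent.MP_154433_an.SG (Uni ufn)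

noncomputable section

namespace T5y

open T3x

namespace RudA

theorem num (K : ℕ) {ε t : ℝ} (hε : 0 < ε) (ht : 0 < t) : ∃ η : ℝ, 0 < η ∧ ∀ n : ℕ, 1 ≤ n →
    ∃ Q : ℕ, 0 < Q ∧ 7 * (n : ℝ) / Q ≤ ε ∧
      4 * (K : ℝ) * Q * Real.exp (-(t ^ 2 / (8 * (η / Real.log ((n : ℝ) + 1))))) ≤ ε := by
  obtain ⟨A, hA⟩ : ∃ A : ℝ, A = 4 * K * (7 / ε + 2) / ε := ⟨_, rfl⟩
  have hA0 : 0 ≤ A := by rw [hA]; positivity
  have l2 : 0 < Real.log 2 := Real.log_pos one_lt_two
  obtain ⟨q, hq⟩ : ∃ q : ℝ, q = A / Real.log 2 := ⟨_, rfl⟩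
  have hq0 : 0 ≤ q := by rw [hq]; positivity
  refine ⟨t ^ 2 / (8 * (1 + q)), by positivity, fun n hn => ⟨⌈7 * (n : ℝ) / ε⌉₊ + 1,
    Nat.succ_pos _, ?_, ?_⟩⟩
  · have h1 := Nat.le_ceil (7 * (n : ℝ) / ε)
    rw [div_le_iff₀ hε] at h1
    rw [div_le_iff₀ (by positivity)]
    push_cast
    nlinarith
  · have hn1 : (1 : ℝ) ≤ n := by exact_mod_cast hn
    have hN : (0 : ℝ) < (n : ℝ) + 1 := by linarith
    have hl : Real.log 2 ≤ Real.log ((n : ℝ) + 1) := Real.log_le_log two_pos (by linarith)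
    have hl0 : 0 < Real.log ((n : ℝ) + 1) := l2.trans_le hl
    have e1 : t ^ 2 / (8 * (t ^ 2 / (8 * (1 + q)) / Real.log ((n : ℝ) + 1))) =
        Real.log ((n : ℝ) + 1) + q * Real.log ((n : ℝ) + 1) := by
      field_simp
    have h2 : ((⌈7 * (n : ℝ) / ε⌉₊ + 1 : ℕ) : ℝ) ≤ (7 / ε + 2) * ((n : ℝ) + 1) := by
      have h3 := (Nat.ceil_lt_add_one (by positivity : (0 : ℝ) ≤ 7 * (n : ℝ) / ε)).le
      have h4 : 0 ≤ 7 / ε := by positivity
      have h5 : 7 * (n : ℝ) / ε = 7 / ε * n := by ring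
      push_cast
      nlinarith
    have h6 : A ≤ Real.exp (q * Real.log ((n : ℝ) + 1)) := by
      have h7 := Real.add_one_le_exp (q * Real.log ((n : ℝ) + 1))
      have h8 : q * Real.log 2 = A := by rw [hq]; field_simp
      have h9 := mul_le_mul_of_nonneg_left hl hq0
      linarith
    rw [e1, Real.exp_neg, Real.exp_add, Real.exp_log hN, ← div_eq_mul_inv,
      div_le_iff₀ (by positivity)]
    have h10 : 4 * (K : ℝ) * (7 / ε + 2) = ε * A := by rw [hA]; field_simp
    calc 4 * (K : ℝ) * ((⌈7 * (n : ℝ) / ε⌉₊ + 1 : ℕ) : ℝ)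
        ≤ 4 * (K : ℝ) * ((7 / ε + 2) * ((n : ℝ) + 1)) :=
          mul_le_mul_of_nonneg_left h2 (by positivity)
      _ = ε * (((n : ℝ) + 1) * A) := by rw [← mul_assoc, h10]; ring
      _ ≤ _ := mul_le_mul_of_nonneg_left (mul_le_mul_of_nonneg_left h6 hN.le) hε.le

theorem norm_ee (t : ℝ) : ‖ee t‖ = 1 := Complex.norm_exp_ofReal_mul_I _

theorem mTh {Ω : Type} (B : MeasurableSpace Ω) {m0 : MeasurableSpace Ω} (μ : Measure Ω)
    (F : Ω → ℂ) : MeasurableSet[B] (Th B μ F) :=
  (stronglyMeasurable_condExp (m := B) (μ := μ) (f := F)).norm.measurable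
    (measurableSet_singleton 1)

theorem intg {Ω : Type} {m : MeasurableSpace Ω} (μ : Measure Ω) [IsProbabilityMeasure μ]
    (f : Ω → ℝ) (A G : Set Ω) {ε : ℝ} (hε : 0 ≤ ε) (hA : MeasurableSet A) (hG : μ.real G ≤ ε)
    (h0 : ∀ x, 0 ≤ f x) (h1 : ∀ᵐ x ∂μ, f x ≤ 1 ∧ (x ∉ A → x ∉ G → f x ≤ 3 * ε)) :
    ∫ x, f x ∂μ ≤ μ.real A + 4 * ε := by
  have hTm : MeasurableSet (toMeasurable μ G) := measurableSet_toMeasurable _ _
  have hT : μ.real (toMeasurable μ G) = μ.real G := by
    simp only [Measure.real, measure_toMeasurable]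
  have i1 : Integrable (A.indicator fun _ => (1 : ℝ)) μ := (integrable_const _).indicator hA
  have i2 : Integrable ((toMeasurable μ G).indicator fun _ => (1 : ℝ)) μ :=
    (integrable_const _).indicator hTm
  have hle : ∫ x, f x ∂μ ≤ ∫ x, (A.indicator (fun _ => (1 : ℝ)) x +
      (toMeasurable μ G).indicator (fun _ => (1 : ℝ)) x + 3 * ε) ∂μ := by
    refine integral_mono_of_nonneg (.of_forall h0) ((i1.add i2).add (integrable_const _)) ?_
    filter_upwards [h1] with x hx
    have p1 : 0 ≤ A.indicator (fun _ => (1 : ℝ)) x :=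
      Set.indicator_nonneg (fun _ _ => zero_le_one) x
    have p2 : 0 ≤ (toMeasurable μ G).indicator (fun _ => (1 : ℝ)) x :=
      Set.indicator_nonneg (fun _ _ => zero_le_one) x
    by_cases hxA : x ∈ A
    · rw [Set.indicator_of_mem hxA]
      linarith [hx.1]
    · by_cases hxG : x ∈ G
      · rw [Set.indicator_of_mem (subset_toMeasurable μ G hxG)]
        linarith [hx.1]
      · linarith [hx.2 hxA hxG]
  have e1 := integral_add (i1.add i2) (integrable_const (μ := μ) (3 * ε))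
  have e2 := integral_add i1 i2
  simp only [Pi.add_apply] at e1
  rw [e1, e2, integral_indicator_const _ hA, integral_indicator_const _ hTm] at hle
  simp only [smul_eq_mul, mul_one, integral_const, probReal_univ, one_mul] at hle
  linarith

end RudA

open RudA in
theorem rud : RudR := by
  intro hc ν U X B V _ sg ψ I c hU uw hB hψ hC hI ⟨δ, hδ, hev⟩
  obtain ⟨a0, n, hsp, hat⟩ := uw.atom
  obtain ⟨ε, hε5⟩ : ∃ ε : ℝ, ε = δ / 5 := ⟨_, rfl⟩
  have hε : 0 < ε := by linarith
  refine ⟨ε, hε, fun K => ?_⟩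
  have ht : 0 < ε / ((K : ℝ) + 1) := by positivity
  have hKt : (K : ℝ) * (ε / ((K : ℝ) + 1)) ≤ ε := by
    rw [mul_div_assoc', div_le_iff₀ (by positivity)]
    nlinarith
  obtain ⟨η, hη, hnum⟩ := num K hε ht
  have chr : Chr B X.μ ψ := ⟨hB.le, hψ.um, hψ.add, hC.neg, hC.zero, hψ.onn⟩
  filter_upwards [hev, hU (hat η hη)] with M hM hw
  obtain ⟨β, b, hβ, hβ1, hb, hδM⟩ := hM
  have hne : (ν.sp M).Nonempty := by
    rw [Finset.nonempty_iff_ne_empty]
    intro h
    have := ν.one M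
    rw [h] at this
    simp at this
  have hn1 : 1 ≤ n M := by
    obtain ⟨d, hd⟩ := hne
    have := hsp M d hd
    omega
  obtain ⟨Q, hQ, hQ1, hQ2⟩ := hnum (n M) hn1
  have hl0 : 0 < Real.log ((n M : ℝ) + 1) := by
    have : (1 : ℝ) ≤ n M := by exact_mod_cast hn1
    exact Real.log_pos (by linarith)
  obtain ⟨a, ha⟩ : ∃ a : ℤ → X.X → ℂ, a = fun d x => (ν.w M d : ℂ) * β d x *
    (I \ Th B X.μ (ψ ((d • sg) c))).indicator (fun _ => (1 : ℂ)) x := ⟨_, rfl⟩
  have ham : ∀ d, Measurable[B] (a d) := fun d => by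
    rw [ha]
    exact (measurable_const.mul (hβ d)).mul
      (measurable_const.indicator (hI.diff (mTh B X.μ _)))
  have ha1 : ∀ d x, ‖a d x‖ ≤ ν.w M d := fun d x => by
    rw [ha]
    have h1 : ‖(I \ Th B X.μ (ψ ((d • sg) c))).indicator (fun _ => (1 : ℂ)) x‖ ≤ 1 :=
      (norm_indicator_le_norm_self _ _).trans (by simp)
    simp only [norm_mul, Complex.norm_real, Real.norm_eq_abs, abs_of_nonneg (ν.nn M d)]
    rw [mul_assoc]
    exact mul_le_of_le_one_right (ν.nn M d) (mul_le_one₀ (hβ1 d x) (norm_nonneg _) h1)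
  have ha0 : ∀ d x, x ∉ I \ Th B X.μ (ψ ((d • sg) c)) → a d x = 0 := fun d x hx => by
    rw [ha]
    simp only [Set.indicator_of_notMem hx, mul_zero]
  have hZ : ∀ x, (ν.av M fun d => β d x * off X B ψ I ((d • sg) c) x * ee ((d : ℝ) * b x)) =
      ∑ d ∈ ν.sp M, a d x * ψ ((d • sg) c) x * ee ((d : ℝ) * b x) := fun x => by
    refine Finset.sum_congr rfl fun d _ => ?_
    by_cases hx : x ∈ I \ Th B X.μ (ψ ((d • sg) c))
    · rw [ha]
      simp only [off, Set.indicator_of_mem hx, Complex.real_smul]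
      ring
    · rw [ha0 d x hx]
      simp only [off, Set.indicator_of_notMem hx, mul_zero, zero_mul, smul_zero]
  obtain ⟨hCm, hCb⟩ := hc X.X V B X.ms X.μ ψ (fun d => (d • sg) c) K (ν.sp M) a (ν.w M) b (a0 M)
    (n M) Q (η / Real.log ((n M : ℝ) + 1)) (ε / ((K : ℝ) + 1)) ε chr ham ha1
    (fun d x hx => ha0 d x fun h => h.2 hx) (hsp M) (ν.one M).le
    (fun d hd => (le_div_iff₀ hl0).2 (hw d hd)) (by positivity) ht.le hQ
  generalize hCs : {x | Cov (fun u => x ∈ Th B X.μ (ψ u)) (fun d => (d • sg) c) (ν.sp M) (ν.w M)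
    K ε} = Cs at hCm hCb
  have hbad : {x | x ∈ I ∧ ¬ Cov (fun u => x ∈ Th B X.μ (ψ u)) (fun d => (d • sg) c) (ν.sp M)
      (ν.w M) K ε} = I \ Cs := by
    rw [← hCs]
    rfl
  show ε ≤ X.μ.real {x | x ∈ I ∧ ¬ Cov (fun u => x ∈ Th B X.μ (ψ u)) (fun d => (d • sg) c)
    (ν.sp M) (ν.w M) K ε}
  rw [hbad]
  have hle := intg X.μ (fun x =>
    ‖ν.av M fun d => β d x * off X B ψ I ((d • sg) c) x * ee ((d : ℝ) * b x)‖) (I \ Cs) _ hε.le
    (hB.le _ (hI.diff hCm)) (hCb.trans hQ2) (fun x => norm_nonneg _) (by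
      filter_upwards [ae_all_iff.2 fun d : ℤ => (hψ.um ((d • sg) c)).2] with x hx
      rw [hZ]
      refine ⟨?_, fun h1 h2 => ?_⟩
      · refine (norm_sum_le _ _).trans ((Finset.sum_le_sum fun d _ => ?_).trans (ν.one M).le)
        rw [norm_mul, norm_mul, hx d, norm_ee, mul_one, mul_one]
        exact ha1 d x
      · by_cases hxI : x ∈ I
        · have hxC : x ∈ Cs := by_contra fun h => h1 ⟨hxI, h⟩
          have p4 : ‖∑ d ∈ ν.sp M, a d x * ψ ((d • sg) c) x * ee ((d : ℝ) * b x)‖ ≤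
              (K : ℝ) * (ε / ((K : ℝ) + 1)) + 7 * (n M : ℝ) / Q + ε :=
            not_lt.1 fun h => h2 ⟨hxC, h⟩
          linarith
        · rw [Finset.sum_eq_zero fun d _ => by
            rw [ha0 d x fun h => hxI h.1, zero_mul, zero_mul], norm_zero]
          linarith)
  linarith

end T5y

end

end PkRud

section PkPassA

/-! Assembly of the items 6 and 7 from the rows. -/

set_option autoImplicit false
set_option linter.unusedVariables false
set_option warn.classDefReducibility false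

open MeasureTheory ProbabilityTheory Filter Topology Function Finset ComplexConjugate
open scoped BigOperators
open Fib27 (BM sup pr Oc Orow F23 LInd Mem)

noncomputable section

namespace T5y

open T3x

theorem decZ (F : Fd) (R : Rc) {X : Sys} {B : MeasurableSpace X.X} {V : Type} [AddCommGroup V]
    {sg : AddAut V} {ψ : V → X.X → ℂ} (hX : Nice X) (hB : KC X B) (P : PsC X B sg ψ) :
    DecZ X B sg ψ := by
  intro a
  have e : KK X B = B := le_antisymm hB.2 (F.kb.le X B hX hB.1)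
  have b := GRelC.off_bm R hB.1 P a
  have w : WM X B (GRelC.off B ψ a) :=
    (F.kb.wm X B hX hB.1 _ (b.memLp 2)).2 (by rw [e]; exact P.off a)
  refine squeeze_zero (fun N => ?_) (fun N => ?_) (w.2 _ (P.bm a).conj)
  · exact mul_nonneg (inv_nonneg.2 (Nat.cast_nonneg N)) (sum_nonneg fun n _ => measureReal_nonneg)
  · exact mul_le_mul_of_nonneg_left (sum_le_sum fun n _ => GRelC.two R hB.1 P n a a)
      (inv_nonneg.2 (Nat.cast_nonneg N))

theorem pass_of (fd : Fd) (rc : Rc) (h1 : Pass1) (h2 : Pass2) (h3 : Rud) : Pass := by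
  intro c V _ sg ψ I j v hψ mI hI h
  have P := xPsc fd rc c.X c.B V sg ψ c.kc.1 hψ
  obtain ⟨a, a', ha⟩ := h1 c V sg ψ I j v hψ P (decZ fd rc c.nice c.kc P) mI hI h
  have hB : MeasurableSet[c.B] I :=
    ((fd.kb.inv c.X c.B c.nice c.kc.1).trans c.kc.2) I
      ((le_sup_left : MeasurableSpace.invariants c.X.T ≤ T3x.Inv c.X) I ⟨mI, hI⟩)
  exact ⟨a, h3 c.ν c.U c.X c.B V sg ψ I a c.hU c.uw c.kc.1 hψ P hB
    (h2 c V sg ψ I j a a' hψ P mI hI ha)⟩

end T5y

end

end PkPassA
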