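import Pool.Agent.MP_154433_an.p8.P3
import Pool.Agent.MP_154433_an.t3.HGX

/-! Twisted line, part 9 (packed). -/

section PkXGsp

/-! Column tuples in the saturated grid: spanning and extension to all columns. -/

set_option autoImplicit false
set_option linter.unusedVariables false
set_option warn.classDefReducibility false

open MeasureTheory ProbabilityTheory Filter Topology Function Finset ComplexConjugate
open scoped BigOperators
open Fib27 (BM sup pr Oc Orow F23 LInd Mem)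
open Pool.Agent.MP_154433_an.SG (Uni ufn)

noncomputable section

namespace T5y

open T3x

namespace XGsp

open T3x.RepL (um_bm um_mono um_mul um_cj um_pr bm_of)
open GxU

variable {g : Gx}

/-- labels of a cell descend to the column -/
theorem lab (F : Fd) (o : g.OK) (z : Lz g) (j k : Option Bool) (u : g.W2.X → ℂ)
    (hu : Lb (g.G k j) g.W2.μ u) :
    ∃ u' : (g.W j).X → ℂ, Lb (g.Pc j k) (g.W j).μ u' ∧ u =ᵐ[g.W2.μ] fun x => u' (g.Bc j x) := by
  have m2 : MeasurableSpace.comap (g.Bc j) (g.Pc j k) ≤ g.W2.ms :=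
    (MeasurableSpace.comap_mono (z j k)).trans (mB o j).measurable.comap_le
  obtain ⟨f, hf1, hf2, hf3⟩ := F.a.fact (g.Pc j k) g.W2.μ (g.Bc j) u 1 m2 zero_le_one hu.1
    (Eventually.of_forall hu.2)
  exact ⟨f, ⟨hf1.stronglyMeasurable.aestronglyMeasurable, hf2⟩, hf3⟩

theorem gsp1 (F : Fd) (rc : Rc) (sel : SelS) (o : g.OK) (z : Lz g) (gi : g.GI)
    (hg : HGz g.β g.G none g.W2.μ) : g.GSp g.Tup1 := by
  intro q j h hV h0
  have hb := dv_bm (top F o z (some q)) hV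
  obtain ⟨C0, hC0⟩ := hb.2
  have hC : ∀ᵐ x ∂g.W2.μ, ‖h x‖ ≤ max C0 0 := hC0.mono fun x hx => hx.trans (le_max_left _ _)
  obtain ⟨v, v0, η, hv, hv0, hη, hη', hpos⟩ := ggz g.β g.G none (some q) j g.W2.μ h (max C0 0) hg
    rfl (Option.some_ne_none q) hV (le_max_right _ _) hC h0
  have hB2 := (facB2 F o j).le
  choose w hw hw' using fun i k => lab F o z j k (v i k) (hv i k)
  choose w0 hw0 hw0' using fun k => lab F o z j k (v0 k) (hv0 k)
  obtain ⟨φ, hφ, hs⟩ := sel (g.B2 j) (g.Pc j) (g.W j).μ w w0 η hB2 (z j) three (gi.li j).cline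
    hw hw0 hη hη'
  refine ⟨fun k y => conj (φ k y), fun k => um_cj (hφ k), fun hz => hpos ?_⟩
  refine measure_mono_null_ae ?_ hz
  exact GSp1P.main rc (mB o j) hg.ble hB2 (gi.colE j) (some q)
    (fun i k => (GSp1P.Lb_bm (hw i k)).mono (z j k)) (fun k => (GSp1P.Lb_bm (hw0 k)).mono (z j k))
    hw' hw0' (fun k => um_mono (hφ k) (sup_le (z j k) hB2))
    (hb.mono (top F o z _ _)) (le_max_right _ _) hη hC
    (hs.mono fun x hx hD => ⟨(hx hD).1, ((hx hD).2 (some q)).2.2⟩)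

theorem oc_bm (F : Fd) (r : Rc) (o : g.OK) (z : Lz g) (gi : g.GI) {j : Option Bool}
    {φ : Option Bool → (g.W j).X → ℂ} (h : g.Tup1 j φ) (q : Option Bool)
    {ψ : g.W2.X → ℂ} (hψ : BM g.W2.μ g.β ψ)
    (hs : ∀ᵐ x ∂g.W2.μ, ψ x ≠ 0 → x ∈ g.Bc j ⁻¹' g.Θ j φ) :
    BM g.W2.μ (Oc g.G q j ⊔ g.β) fun x => ψ x * φ q (g.Bc j x) := by
  obtain ⟨κ, hκ, e⟩ := th_eq F r o z gi h
  have h1 : BM g.W2.μ (Oc g.G q j ⊔ g.β) (pr (fun k x => φ k (g.Bc j x)) (univ.erase q)) :=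
    BM.pr fun k hk => (um_bm (um_col F o gi h k)).mono
      (sup_le_sup_right (Fib27.le_sup' (fun q' => g.G q' j) hk) _)
  have h2 := ((hψ.mul hκ).mono le_sup_right).mul h1.conj
  refine h2.congr ?_
  have h3 := (Finset.eventually_all (univ.erase q)).2 fun k _ => (um_col F o gi h k).2
  filter_upwards [e, hs, h3] with x e hs h3
  by_cases h0 : ψ x = 0
  · simp [h0]
  have h4 : ‖pr (fun k x => φ k (g.Bc j x)) (univ.erase q) x‖ = 1 := by
    rw [pr, norm_prod, Finset.prod_eq_one h3]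
  rw [← e (hs h0), ← Finset.mul_prod_erase _ _ (mem_univ q), mul_assoc, mul_assoc]
  change _ * (_ * (pr (fun k x => φ k (g.Bc j x)) (univ.erase q) x * _)) = _
  rw [Complex.mul_conj, Complex.normSq_eq_norm_sq, h4]
  simp

theorem step (F : Fd) (r : Rc) (o : g.OK) (z : Lz g) (gi : g.GI)
    {C : ∀ j, (Option Bool → (g.W j).X → ℂ) → Prop} (hC : ∀ j φ, C j φ → g.Tup1 j φ)
    (gs : g.GSp C) {q : Bool} {j i : Option Bool}
    (hij : i ≠ j) {φ : Option Bool → (g.W j).X → ℂ} (hφ : g.Tup1 j φ) {E : Set g.W2.X}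
    (hE : MeasurableSet[g.β] E) (hEΘ : E ≤ᵐ[g.W2.μ] g.Bc j ⁻¹' g.Θ j φ)
    {a : Option Bool → g.W2.X → ℂ}
    (ha : ∀ k, BM g.W2.μ (g.G (some q) k ⊔ g.β) (a k)) (haj : a j = fun x => φ (some q) (g.Bc j x))
    (hpos : g.W2.μ (E ∩ {x | (g.W2.μ[pr a univ | g.β]) x ≠ 0}) ≠ 0) :
    ∃ φ', C i φ' ∧ g.W2.μ ((E ∩ g.Bc i ⁻¹' g.Θ i φ') ∩
      {x | (g.W2.μ[pr (update a i fun x => φ' (some q) (g.Bc i x)) univ | g.β]) x ≠ 0}) ≠ 0 := by
  have hβ := leβ F o
  have hle : ∀ k, g.G (some q) k ⊔ g.β ≤ g.W2.ms := top F o z (some q)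
  have hK : BM g.W2.μ g.β (g.W2.μ[pr a univ | g.β]) :=
    (BM.pr fun k _ => (ha k).mono (hle k)).ce g.β
  obtain ⟨ψ, hψ, hψE, hψK⟩ : ∃ ψ : g.W2.X → ℂ, BM g.W2.μ g.β ψ ∧ (∀ x, ψ x ≠ 0 → x ∈ E) ∧
      ∀ x ∈ E, ψ x = conj ((g.W2.μ[pr a univ | g.β]) x) := by
    refine ⟨_, (BM.indicator hE).mul hK.conj, fun x hx => ?_, fun x hx => by simp [hx]⟩
    by_contra h
    simp [h] at hx
  have hb : ∀ k, BM g.W2.μ (g.G (some q) k ⊔ g.β) (update a j (fun x => ψ x * a j x) k) :=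
    fun k => by
    by_cases hk : k = j
    · subst hk
      rw [update_self]
      exact (hψ.mono le_sup_right).mul (ha k)
    · rw [update_of_ne hk]
      exact ha k
  have hbj : BM g.W2.μ (Oc g.G (some q) j ⊔ g.β) (update a j (fun x => ψ x * a j x) j) := by
    rw [update_self, haj]
    refine oc_bm F r o z gi hφ (some q) hψ ?_
    filter_upwards [hEΘ] with x hx h0
    exact hx (hψE x h0)
  have hv : DV g.β g.G (some q) i g.W2.μ
      (g.W2.μ[pr (update a j fun x => ψ x * a j x) (univ.erase i) | g.G (some q) i ⊔ g.β]) :=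
    ⟨j, _, hij.symm, hb, hbj, EventuallyEq.rfl⟩
  have hP : BM g.W2.μ g.W2.ms (pr (update a j fun x => ψ x * a j x) (univ.erase i)) :=
    BM.pr fun k _ => (hb k).mono (hle k)
  have key : ∀ u, BM g.W2.μ (g.G (some q) i ⊔ g.β) u → g.W2.μ[fun y =>
      (g.W2.μ[pr (update a j fun x => ψ x * a j x) (univ.erase i) | g.G (some q) i ⊔ g.β]) y * u y
        | g.β] =ᵐ[g.W2.μ] fun x => ψ x * (g.W2.μ[pr (update a i u) univ | g.β]) x := by
    intro u hu
    have hQ : BM g.W2.μ g.W2.ms (pr (update a i u) univ) := BM.pr fun k _ => by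
      by_cases hk : k = i
      · subst hk
        rw [update_self]
        exact hu.mono (hle k)
      · rw [update_of_ne hk]
        exact (ha k).mono (hle k)
    have e1 := (condExp_congr_ae (m := g.β) (Fib27.ce_mul' (hle i) hP hu).symm).trans
      (condExp_condExp_of_le le_sup_right (hle i))
    have e2 : (fun y => pr (update a j fun x => ψ x * a j x) (univ.erase i) y * u y) =
        fun y => ψ y * pr (update a i u) univ y := by
      funext y
      have hj : j ∈ univ.erase i := mem_erase.2 ⟨hij.symm, mem_univ j⟩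
      rw [Fib27.pr_erase _ (mem_univ i), update_self, Fib27.pr_update _ (notMem_erase i _),
        Fib27.pr_erase a hj, Fib27.pr_erase _ hj, update_self,
        Fib27.pr_update _ (notMem_erase j _)]
      ring
    rw [e2] at e1
    exact e1.trans (Fib27.ce_mul hβ hψ hQ)
  have hne : ¬ (g.W2.μ[pr (update a j fun x => ψ x * a j x) (univ.erase i) |
      g.G (some q) i ⊔ g.β]) =ᵐ[g.W2.μ] 0 := by
    intro h0
    have e1 := key (a i) (ha i)
    rw [update_eq_self] at e1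
    have e2 : (fun y => (g.W2.μ[pr (update a j fun x => ψ x * a j x) (univ.erase i) |
        g.G (some q) i ⊔ g.β]) y * a i y) =ᵐ[g.W2.μ] 0 := by
      filter_upwards [h0] with y hy
      simp [hy]
    have e3 := condExp_congr_ae (m := g.β) e2
    rw [condExp_zero] at e3
    refine hpos (measure_eq_zero_iff_ae_notMem.2 ?_)
    filter_upwards [e1.symm.trans e3] with x hx hm
    rw [hψK x hm.1] at hx
    have hz := hm.2
    simp only [Pi.zero_apply, mul_eq_zero, map_eq_zero, or_self] at hx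
    exact hz hx
  obtain ⟨φ', hφ', hp⟩ := gs q i _ hv hne
  refine ⟨φ', hφ', fun h0 => hp (measure_mono_null_ae ?_ h0)⟩
  filter_upwards [key _ (um_bm (um_col F o gi (hC _ _ hφ') (some q)))] with x hx hm
  have h1 := hm.2
  simp only [Set.mem_ofPred_eq] at h1
  rw [hx] at h1
  exact ⟨⟨hψE x (left_ne_zero_of_mul h1), hm.1⟩, right_ne_zero_of_mul h1⟩

theorem full (F : Fd) (r : Rc) (o : g.OK) (z : Lz g) (gi : g.GI) (hg : HGz g.β g.G none g.W2.μ)
    {C : ∀ j, (Option Bool → (g.W j).X → ℂ) → Prop} (hC : ∀ j φ, C j φ → g.Tup1 j φ)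
    (gs : g.GSp C) : g.Full C := by
  intro q j φ E a hφ hE hEΘ ha hpos
  have main : ∀ S : Finset (Option Bool), ∃ (E' : Set g.W2.X)
      (Φ : ∀ i, Option Bool → (g.W i).X → ℂ)
      (a' : Option Bool → g.W2.X → ℂ), MeasurableSet[g.β] E' ∧ E' ⊆ E ∧ Φ j = φ ∧
      (∀ i, BM g.W2.μ (g.G (some q) i ⊔ g.β) (a' i)) ∧
      (∀ i, i = j ∨ i ∈ S → C i (Φ i) ∧ E' ≤ᵐ[g.W2.μ] g.Bc i ⁻¹' g.Θ i (Φ i) ∧
        a' i = fun x => Φ i (some q) (g.Bc i x)) ∧
      g.W2.μ (E' ∩ {x | (g.W2.μ[pr a' univ | g.β]) x ≠ 0}) ≠ 0 := by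
    intro S
    induction S using Finset.induction_on with
    | empty =>
      refine ⟨E, update (fun _ _ _ => 1) j φ, update a j fun x => φ (some q) (g.Bc j x), hE,
        subset_rfl, update_self _ _ _, fun i => ?_, fun i hi => ?_, ?_⟩
      · by_cases hk : i = j
        · subst hk
          rw [update_self]
          exact um_bm (um_col F o gi (hC _ _ hφ) (some q))
        · rw [update_of_ne hk]
          exact ha i
      · obtain rfl : i = j := by simpa using hi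
        rw [update_self, update_self]
        exact ⟨hφ, hEΘ, rfl⟩
      · have e : pr (update a j fun x => φ (some q) (g.Bc j x)) univ =
            fun y => φ (some q) (g.Bc j y) * pr a (univ.erase j) y := by
          funext y
          rw [Fib27.pr_erase _ (mem_univ j), update_self, Fib27.pr_update _ (notMem_erase j _)]
        rw [e]
        exact hpos
    | insert i S hi ih =>
      obtain ⟨E', Φ, a', h1, h2, h4, h5, h6, h7⟩ := ih
      by_cases hij : i = j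
      · refine ⟨E', Φ, a', h1, h2, h4, h5, fun k hk => h6 k ?_, h7⟩
        rcases hk with hk | hk
        · exact Or.inl hk
        · rcases mem_insert.1 hk with hk | hk
          · exact Or.inl (hk.trans hij)
          · exact Or.inr hk
      obtain ⟨φ', hφ', hp⟩ := step F r o z gi hC gs hij (hC _ _ (h6 j (Or.inl rfl)).1) h1
        (h6 j (Or.inl rfl)).2.1 h5 (h6 j (Or.inl rfl)).2.2 h7
      refine ⟨_, update Φ i φ', _, h1.inter (th_meas r gi i φ'), Set.inter_subset_left.trans h2,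
        ?_, fun k => ?_, fun k hk => ?_, hp⟩
      · rw [update_of_ne (Ne.symm hij), h4]
      · by_cases hk : k = i
        · subst hk
          rw [update_self]
          exact um_bm (um_col F o gi (hC _ _ hφ') (some q))
        · rw [update_of_ne hk]
          exact h5 k
      · by_cases hki : k = i
        · subst hki
          rw [update_self, update_self]
          exact ⟨hφ', Eventually.of_forall fun x hx => hx.2, rfl⟩
        · rw [update_of_ne hki, update_of_ne hki]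
          have hk' : k = j ∨ k ∈ S := hk.imp id fun h => (mem_insert.1 h).resolve_left hki
          exact ⟨(h6 k hk').1, (Set.inter_subset_left.eventuallyLE).trans (h6 k hk').2.1,
            (h6 k hk').2.2⟩
  obtain ⟨E', Φ, a', h1, h2, h4, h5, h6, h7⟩ := main univ
  have h3 : ∀ i, C i (Φ i) := fun i => (h6 i (Or.inr (mem_univ i))).1
  have h8 : ∀ i, E' ≤ᵐ[g.W2.μ] g.Bc i ⁻¹' g.Θ i (Φ i) := fun i => (h6 i (Or.inr (mem_univ i))).2.1
  have h9 : pr a' univ = fun x => ∏ i, Φ i (some q) (g.Bc i x) := by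
    funext x
    exact Finset.prod_congr rfl fun i _ => by rw [(h6 i (Or.inr (mem_univ i))).2.2]
  rw [h9] at h7
  have hm : MeasurableSet[g.β]
      {x | (g.W2.μ[fun x => ∏ i, Φ i (some q) (g.Bc i x) | g.β]) x ≠ 0} :=
    (stronglyMeasurable_condExp.measurable (measurableSet_singleton (0 : ℂ))).compl
  refine ⟨_, Φ, h1.inter hm, Set.inter_subset_left.trans h2, h7, h3, h4,
    fun i => (Set.inter_subset_left.eventuallyLE).trans (h8 i), ?_⟩
  have hrow : ∀ k, sup (g.G k) univ ≤ g.W2.ms := fun k => Fib27.sup_le' fun i _ => hg.le k i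
  have hR : ∀ k, Um (sup (g.G k) univ ⊔ g.β) g.W2.μ fun x => ∏ i, Φ i k (g.Bc i x) := fun k =>
    um_pr (f := fun i x => Φ i k (g.Bc i x)) univ fun i =>
      um_mono (um_col F o gi (hC _ _ (h3 i)) k)
        (sup_le_sup_right (Fib27.le_sup' (g.G k) (mem_univ i)) _)
  have hcm := r.cm g.β (fun k => sup (g.G k) univ) g.W2.μ
    (fun k x => ∏ i, Φ i k (g.Bc i x)) hg.ble hrow three hg.rows hR (some q)
  choose κ hκ hκe using fun i => th_eq F r o z gi (hC _ _ (h3 i))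
  have hof := r.of g.β g.W2.μ (pr (fun k x => ∏ i, Φ i k (g.Bc i x)) univ) (pr κ univ) E' hg.ble
    (um_pr _ fun k => um_mono (hR k) (sup_le (hrow k) hg.ble))
    (BM.pr fun i _ => hκ i) h1 (by
      filter_upwards [ae_all_iff.2 hκe, ae_all_iff.2 h8] with x e1 e2 hx
      rw [pr, pr, Finset.prod_comm]
      exact Finset.prod_congr rfl fun i _ => e1 i (e2 i hx))
  intro k
  filter_upwards [hcm, hof] with x e1 e2 hx
  exact e1 (e2 hx.1) hx.2 k

end XGsp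

end T5y

end

end PkXGsp

section PkXRep

/-! A member of a column tuple and of a row tuple of the saturated grid is a function of the
point. -/

set_option autoImplicit false
set_option linter.unusedVariables false
set_option warn.classDefReducibility false

open MeasureTheory ProbabilityTheory Filter Topology Function Finset ComplexConjugate
open scoped BigOperators
open Fib27 (BM sup pr Oc Orow F23 LInd Mem)
open Pool.Agent.MP_154433_an.SG (Uni ufn)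

noncomputable section

namespace T5y

open T3x

namespace XRep

open T3x.RepL (um_bm um_mono um_mul um_cj um_pr bm_of d2_comp re_ge ce_ne pos_of)
open GxU

variable {g : Gx}

/-- a column member and a row member that correlate agree up to the base -/
theorem mat (F : Fd) (R : Rc) (o : g.OK) (z : Lz g) (hG : g.GI) (hF : g.Full g.Tup1)
    (j : Option Bool) (k : Bool) {φ : Option Bool → (g.W j).X → ℂ}
    {φ' : Option Bool → g.W1.X → ℂ} (h : g.Tup1 j φ)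
    (h' : ∀ i, Um (g.P1 i ⊔ g.B1) g.W1.μ (φ' i)) {M : Set g.W2.X} (mM : MeasurableSet[g.β] M)
    (M1 : ∀ᵐ x ∂g.W2.μ, x ∈ M → g.Bc j x ∈ g.Θ j φ)
    (M2 : ∀ᵐ x ∂g.W2.μ, x ∈ M → g.A k x ∈ Th g.B1 g.W1.μ (pr φ' univ))
    (hne : ∀ᵐ x ∂g.W2.μ, x ∈ M →
      (g.W2.μ[fun y => φ (some k) (g.Bc j y) * conj (φ' j (g.A k y)) | g.β]) x ≠ 0) :
    ∀ᵐ x ∂g.W2.μ, x ∈ M →
      x ∈ Th g.β g.W2.μ fun y => φ (some k) (g.Bc j y) * conj (φ' j (g.A k y)) := by
  have hβ := leβ F o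
  have tp : ∀ i, g.G (some k) i ⊔ g.β ≤ g.W2.ms := top F o z (some k)
  set T := Th g.β g.W2.μ fun y => φ (some k) (g.Bc j y) * conj (φ' j (g.A k y)) with hT
  have mT : MeasurableSet[g.β] T := R.meas _ _ _
  suffices h0 : g.W2.μ (M \ T) = 0 by
    filter_upwards [measure_eq_zero_iff_ae_notMem.1 h0] with x hx h1
    by_contra h2
    exact hx ⟨h1, h2⟩
  by_contra h0
  set a : Option Bool → g.W2.X → ℂ := fun i x => φ' i (g.A k x) with ha
  have ua : ∀ i, Um (g.G (some k) i ⊔ g.β) g.W2.μ (a i) := fun i => um_row F o hG k (h' i)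
  have ua' : ∀ i, Um g.W2.ms g.W2.μ (a i) := fun i => um_mono (ua i) (tp i)
  have uR : Um g.W2.ms g.W2.μ (pr a univ) := um_pr _ ua'
  have uφ : Um g.W2.ms g.W2.μ fun y => φ (some k) (g.Bc j y) :=
    um_mono (um_col F o hG h (some k)) (tp j)
  have MR : ∀ᵐ x ∂g.W2.μ, x ∈ M → x ∈ Th g.β g.W2.μ (pr a univ) := by
    filter_upwards [M2, hG.rowE k _ (um_bm (um_pr univ fun i =>
      um_mono (h' i) (sup_le (leP1 F o i) (b1_le o))))] with x h1 h2 hx
    have h3 : ‖(g.W1.μ[pr φ' univ | g.B1]) (g.A k x)‖ = 1 := h1 hx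
    rw [← h2] at h3
    exact h3
  have loc := R.loc g.β g.W2.μ (fun y => φ (some k) (g.Bc j y) * pr a (univ.erase j) y)
    (fun y => φ (some k) (g.Bc j y) * conj (φ' j (g.A k y))) (g.W2.μ[pr a univ | g.β]) M hβ
    ((um_bm uφ).mul (um_bm (um_pr _ ua'))) ((um_bm uφ).mul (um_bm (ua' j)).conj)
    ((um_bm uR).ce _) mM (by
      filter_upwards [MR, R.eq g.β g.W2.μ _ hβ uR, (ua' j).2] with x h1 h2 h3 hx
      rw [← h2 (h1 hx), Fib27.pr_erase a (mem_univ j)]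
      have h4 : a j x * conj (a j x) = 1 := by
        rw [Complex.mul_conj, Complex.normSq_eq_norm_sq, h3]; simp
      show _ = a j x * pr a (univ.erase j) x * (φ (some k) (g.Bc j x) * conj (a j x))
      linear_combination (-(φ (some k) (g.Bc j x) * pr a (univ.erase j) x)) * h4)
  obtain ⟨E', Φ, mE, sE, pE, tΦ, eΦ, -, hΦ⟩ := hF k j φ (M \ T) a h (mM.diff mT)
    (by filter_upwards [M1] with x h1 hx; exact h1 hx.1) (fun i => um_bm (ua i))
    (pos_of h0 (by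
      filter_upwards [loc, MR, hne] with x h1 h2 h3 hx
      refine ⟨hx, ?_⟩
      show _ ≠ 0
      rw [h1 hx.1]
      refine mul_ne_zero (fun h4 => ?_) (h3 hx.1)
      have h5 : ‖(g.W2.μ[pr a univ | g.β]) x‖ = 1 := h2 hx.1
      rw [h4, norm_zero] at h5
      exact zero_ne_one h5))
  set χ : Option Bool → g.W2.X → ℂ := fun i x => Φ i (some k) (g.Bc i x) * conj (a i x) with hχ
  have uc : ∀ i, Um (g.G (some k) i ⊔ g.β) g.W2.μ fun x => Φ i (some k) (g.Bc i x) :=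
    fun i => um_col F o hG (tΦ i) (some k)
  have eχ : pr χ univ =
      fun x => pr (fun i x => Φ i (some k) (g.Bc i x)) univ x * conj (pr a univ x) := by
    funext x
    simp only [pr, hχ, prod_mul_distrib, map_prod]
  have cm := R.cm g.β (g.G (some k)) g.W2.μ χ hβ (leG F o z (some k)) three (clG o z hG (some k))
    (fun i => um_mul (uc i) (um_cj (ua i))) j
  have mu := R.mul g.β g.W2.μ _ _ hβ (um_pr univ fun i => um_mono (uc i) (tp i)) (um_cj uR)
  have ej : χ j = fun y => φ (some k) (g.Bc j y) * conj (φ' j (g.A k y)) := by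
    funext y
    simp only [hχ, ha, eΦ]
  rw [eχ, ej] at cm
  refine pE (measure_eq_zero_iff_ae_notMem.2 ?_)
  filter_upwards [cm, mu, hΦ (some k), MR, R.cj g.β g.W2.μ _ hβ uR, hne] with
    x h1 h2 h3 h4 h5 h6 hx
  have hx' := sE hx
  have h7 := h1 (h2 ⟨h3 hx, h5.mpr (h4 hx'.1)⟩) (h6 hx'.1) j
  rw [ej] at h7
  exact hx'.2 h7

/-- conditioning on the column -/
theorem col (F : Fd) (o : g.OK) (j : Option Bool) (k : Bool) {f1 : (g.W j).X → ℂ}
    {f2 : g.W1.X → ℂ} (b1 : BM (g.W j).μ (g.W j).ms f1) (b2 : BM g.W1.μ g.W1.ms f2)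
    {D : Set g.W1.X} {D' : Set (g.W j).X} (mD : MeasurableSet D) (mD' : MeasurableSet D')
    (h : ∀ᵐ x ∂g.W2.μ, g.A k x ∈ D → g.Bc j x ∈ D' → f1 (g.Bc j x) = f2 (g.A k x)) :
    ∃ u : (g.X j).X → ℂ, Measurable u ∧
      ∀ᵐ x ∂g.W2.μ, g.A k x ∈ D → g.Bc j x ∈ D' → f1 (g.Bc j x) = u (g.p j (g.A k x)) := by
  have key : ∀ u, BM g.W1.μ g.W1.ms u → ∃ u0 : (g.X j).X → ℂ, Measurable u0 ∧
      g.W1.μ[u | g.P1 j] =ᵐ[g.W1.μ] (fun w => u0 (g.p j w)) ∧
      g.W2.μ[fun x => u (g.A k x) | pull g.W2.μ (g.Bc j) (g.W j).ms] =ᵐ[g.W2.μ]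
        fun x => u0 (g.p j (g.A k x)) := by
    intro u hu
    obtain ⟨h1, C, hC⟩ := hu.ce (g.P1 j)
    obtain ⟨u0, m0, b0, e0⟩ := F.a.fact (g.X j).ms g.W1.μ (g.p j) _ (max C 0)
      (mp o j).measurable.comap_le (le_max_right _ _) h1
      (hC.mono fun x hx => hx.trans (le_max_left _ _))
    exact ⟨u0, m0, e0, F.ld.cs g.L2 (g.L j) (g.p j) (g.Bc j) (zs k) (o.adm j).emb (o.lift j) u u0
      hu (bm_of _ m0 b0) e0.symm⟩
  have i1 : BM g.W1.μ g.W1.ms (D.indicator fun _ => (1 : ℂ)) := BM.indicator mD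
  have i2 : BM (g.W j).μ (g.W j).ms (D'.indicator fun _ => (1 : ℂ)) := BM.indicator mD'
  obtain ⟨α, mα, eα, cα⟩ := key _ i1
  obtain ⟨γ, mγ, -, cγ⟩ := key _ (i1.mul b2)
  refine ⟨fun x => γ x / α x, mγ.div mα, ?_⟩
  have hY : pull g.W2.μ (g.Bc j) (g.W j).ms ≤ g.W2.ms := F.a.pull_le _ _ _ _ (mB o j) le_rfl
  have c1 := Fib27.ce_mul hY (F.a.bm_comp _ _ _ _ _ (mB o j) (i2.mul b1)) (bm_A k i1)
  have c2 := Fib27.ce_mul hY (F.a.bm_comp _ _ _ _ _ (mB o j) i2) (bm_A k (i1.mul b2))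
  have c3 : g.W2.μ[fun x => D'.indicator (fun _ => (1 : ℂ)) (g.Bc j x) * f1 (g.Bc j x) *
      D.indicator (fun _ => (1 : ℂ)) (g.A k x) | pull g.W2.μ (g.Bc j) (g.W j).ms] =ᵐ[g.W2.μ]
      g.W2.μ[fun x => D'.indicator (fun _ => (1 : ℂ)) (g.Bc j x) *
        (D.indicator (fun _ => (1 : ℂ)) (g.A k x) * f2 (g.A k x)) |
          pull g.W2.μ (g.Bc j) (g.W j).ms] := by
    refine condExp_congr_ae ?_
    filter_upwards [h] with x hx
    by_cases h1 : g.A k x ∈ D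
    · by_cases h2 : g.Bc j x ∈ D'
      · simp [h1, h2, hx h1 h2]
      · simp [h2]
    · simp [h1]
  have ne := (mA g k).quasiMeasurePreserving.ae ((ce_ne (leP1 F o j) mD).and eα)
  filter_upwards [c1, c2, c3, cα, cγ, ne] with x c1 c2 c3 cα cγ ne h1 h2
  have n1 : α (g.p j (g.A k x)) ≠ 0 := by
    have := ne.1 h1
    rwa [ne.2] at this
  rw [c1, c2, cα, cγ] at c3
  simp only [Set.indicator_of_mem h2, one_mul] at c3
  rw [eq_div_iff n1]
  exact c3

theorem rep (F : Fd) (R : Rc) (Sel : SelS) (Apx : ApxS) (o : g.OK) (lz : Lz g) (hG : g.GI)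
    (hF : g.Full g.Tup1) : g.Rep := by
  intro j k Φ E tΦ mE pE E1 E2
  have hβ := leβ F o
  have hB := (facB2 F o j).le
  have hB1 := b1_le o
  have tp : ∀ i, g.G (some k) i ⊔ g.β ≤ g.W2.ms := top F o lz (some k)
  have uc : ∀ i, Um (g.G (some k) i ⊔ g.β) g.W2.μ fun x => Φ i (some k) (g.Bc i x) :=
    fun i => um_col F o hG (tΦ i) (some k)
  obtain ⟨v, v0, E', lv, l0, mE', sE, pE', hE'⟩ := Apx g.β (g.G (some k)) g.W2.μ
    (fun i x => Φ i (some k) (g.Bc i x)) E (1 / 100) hβ (leG F o lz (some k)) uc mE pE E2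
    (by norm_num)
  have fa : ∀ i (z : g.W2.X → ℂ), Lb (g.G (some k) i) g.W2.μ z → ∃ u : (g.X i).X → ℂ,
      Measurable u ∧ (∀ x, ‖u x‖ ≤ 1) ∧ z =ᵐ[g.W2.μ] fun x => u (g.p i (g.A k x)) :=
    fun i z hz => F.a.fact (g.X i).ms g.W2.μ (g.p i ∘ g.A k) z 1
      ((mp o i).comp (mA g k)).measurable.comap_le zero_le_one (G_eq F o hG k i ▸ hz.1)
      (Eventually.of_forall hz.2)
  choose u mu bu eu using fun n i => fa i _ (lv n i)
  choose u0 mu0 bu0 eu0 using fun i => fa i _ (l0 i)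
  have lb : ∀ (i : Option Bool) (z : (g.X i).X → ℂ), Measurable z → (∀ x, ‖z x‖ ≤ 1) →
      BM g.W1.μ (g.P1 i) fun w => z (g.p i w) := fun i z mz bz =>
    F.a.bm_comp (g.X i).ms g.W1.μ (g.X i).μ (g.p i) z (mp o i) (bm_of _ mz bz)
  set w : ℕ → Option Bool → g.W1.X → ℂ := fun n i y => u n i (g.p i y) with hw
  set w0 : Option Bool → g.W1.X → ℂ := fun i y => u0 i (g.p i y) with hw0
  have bw : ∀ n i, BM g.W1.μ g.W1.ms (w n i) :=
    fun n i => (lb i _ (mu n i) (bu n i)).mono (leP1 F o i)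
  have bw0 : ∀ i, BM g.W1.μ g.W1.ms (w0 i) := fun i => (lb i _ (mu0 i) (bu0 i)).mono (leP1 F o i)
  obtain ⟨φ, tφ, hφ⟩ := Sel g.B1 g.P1 g.W1.μ w w0 (1 / 100) hB1 (leP1 F o) three o.ind
    (fun n i => ⟨(lb i _ (mu n i) (bu n i)).1, fun y => bu n i _⟩)
    (fun i => ⟨(lb i _ (mu0 i) (bu0 i)).1, fun y => bu0 i _⟩) (by norm_num) le_rfl
  have ds : ∀ᵐ x ∂g.W2.μ, x ∈ DS g.β g.W2.μ v v0 (1 / 100) →
      g.A k x ∈ DS g.B1 g.W1.μ w w0 (1 / 100) := by
    have d1 : ∀ n, g.W2.μ[pr (v n) univ | g.β] =ᵐ[g.W2.μ]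
        fun x => (g.W1.μ[pr (w n) univ | g.B1]) (g.A k x) := fun n =>
      (condExp_congr_ae (Fib27.pr_congr_ae fun i _ => eu n i)).trans
        (hG.rowE k _ (BM.pr fun i _ => bw n i))
    have d2 := fun n i => d2_comp (mA g k) (hG.rowE k) (bw n i) (bw0 i) (eu n i) (eu0 i)
    filter_upwards [ae_all_iff.2 d1, ae_all_iff.2 fun n => ae_all_iff.2 (d2 n)] with x h1 h2 hx
    simp only [DS, Set.mem_iInter, Set.mem_iUnion, Set.mem_ofPred_eq] at hx ⊢
    intro n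
    obtain ⟨i, h3, h4⟩ := hx n
    exact ⟨i, h1 i ▸ h3, fun l => h2 i l ▸ h4 l⟩
  set r := g.W1.μ[fun y => φ j y * conj (w0 j y) | g.B1] with hr
  set s := g.W1.μ[fun y => ‖φ j y - w0 j y‖ ^ 2 | g.B1] with hs
  set z : (g.W j).X → ℂ := fun y => u0 j (g.π j k y) with hz
  have bz : BM (g.W j).μ (g.W j).ms z := GSp1P.bm_up (mP g j k) (bm_of _ (mu0 j) (bu0 j))
  set κ := (g.W j).μ[fun y => Φ j (some k) y * conj (z y) | g.B2 j] with hκ
  set s' := (g.W j).μ[fun y => ‖Φ j (some k) y - z y‖ ^ 2 | g.B2 j] with hs'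
  have mr : Measurable[g.B1] r := stronglyMeasurable_condExp.measurable
  have ms : Measurable[g.B1] s := stronglyMeasurable_condExp.measurable
  have mκ : Measurable[g.B2 j] κ := stronglyMeasurable_condExp.measurable
  have ms' : Measurable[g.B2 j] s' := stronglyMeasurable_condExp.measurable
  set D : Set g.W1.X := Th g.B1 g.W1.μ (pr φ univ) ∩ (r ⁻¹' {t | t.im = 0 ∧ 1 - 1 / 100 ≤ t.re} ∩
    s ⁻¹' Set.Iic ((1 / 100) ^ 2)) with hD
  set D' : Set (g.W j).X := g.Θ j (Φ j) ∩ s' ⁻¹' Set.Iic ((1 / 100) ^ 2) with hD'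
  have mD : MeasurableSet[g.B1] D := (R.meas _ _ _).inter
    ((mr ((measurableSet_eq_fun Complex.measurable_im measurable_const).inter
      (measurableSet_le measurable_const Complex.measurable_re))).inter (ms measurableSet_Iic))
  have mD' : MeasurableSet[g.B2 j] D' := (R.meas _ _ _).inter (ms' measurableSet_Iic)
  have kq : ∀ y : (g.X j).X → ℂ, Measurable y →
      (fun x => y (g.p j (g.A k x))) =ᵐ[g.W2.μ] fun x => y (g.π j k (g.Bc j x)) := fun y my =>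
    swap F o hG k j my
  have ez : v0 j =ᵐ[g.W2.μ] fun x => z (g.Bc j x) := (eu0 j).trans (kq _ (mu0 j))
  have uΦ := tup_um F o lz (tΦ j) (some k)
  have uφ : Um g.W1.ms g.W1.μ (φ j) := um_mono (tφ j) (sup_le (leP1 F o j) hB1)
  have s1 := d2_comp (mB o j) (hG.colE j) (um_bm uΦ) bz (EventuallyEq.refl _ _) ez
  have s2 := d2_comp (mA g k) (hG.rowE k) (um_bm uφ) (bw0 j) (EventuallyEq.refl _ _) (eu0 j)
  set M : Set g.W2.X := g.A k ⁻¹' D ∩ g.Bc j ⁻¹' D' with hM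
  have mM : MeasurableSet[g.β] M := (msA hG k mD).inter (msB hG j mD')
  have EM : ∀ᵐ x ∂g.W2.μ, x ∈ E' → x ∈ M := by
    filter_upwards [hE', ds, (mA g k).quasiMeasurePreserving.ae hφ, E1, s1] with x h1 h2 h3 h4 h5 hx
    obtain ⟨h6, h7⟩ := h3 (h2 (h1 hx).1)
    refine ⟨⟨h6, ⟨(h7 j).1, (h7 j).2.1⟩, (h7 j).2.2⟩, h4 (sE hx), ?_⟩
    exact h5.symm.trans_le ((h1 hx).2 j)
  have u1 : Um g.W2.ms g.W2.μ fun x => Φ j (some k) (g.Bc j x) := um_mono (uc j) (tp j)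
  have u2 : Um g.W2.ms g.W2.μ fun x => φ j (g.A k x) := um_mono (um_row F o hG k (tφ j)) (tp j)
  have b0 : BM g.W2.μ g.W2.ms (v0 j) := (bm_B o j bz).congr ez.symm
  have mt := mat F R o lz hG hF j k (tΦ j) tφ mM (Eventually.of_forall fun x hx => hx.2.1)
    (Eventually.of_forall fun x hx => hx.1.1) (by
      filter_upwards [re_ge hβ u1 u2 b0, s1, s2] with x h1 h2 h3 hx h4
      have h5 : s' (g.Bc j x) ≤ (1 / 100) ^ 2 := hx.2.2
      have h6 : s (g.A k x) ≤ (1 / 100) ^ 2 := hx.1.2.2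
      rw [h2, h3, h4, Complex.zero_re] at h1
      linarith)
  set t := g.W2.μ[fun y => Φ j (some k) (g.Bc j y) * conj (φ j (g.A k y)) | g.β] with ht
  have u3 := um_mul u1 (um_cj u2)
  have e1 : ∀ᵐ x ∂g.W2.μ, x ∈ M → Φ j (some k) (g.Bc j x) = t x * φ j (g.A k x) ∧ ‖t x‖ = 1 := by
    filter_upwards [mt, R.eq g.β g.W2.μ _ hβ u3, u2.2] with x h1 h2 h3 hx
    refine ⟨?_, h1 hx⟩
    have h4 : φ j (g.A k x) * conj (φ j (g.A k x)) = 1 := by
      rw [Complex.mul_conj, Complex.normSq_eq_norm_sq, h3]; simp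
    have h5 : Φ j (some k) (g.Bc j x) * conj (φ j (g.A k x)) = t x := h2 (h1 hx)
    linear_combination φ j (g.A k x) * h5 - Φ j (some k) (g.Bc j x) * h4
  have loc := R.loc g.β g.W2.μ (fun y => Φ j (some k) (g.Bc j y) * conj (z (g.Bc j y)))
    (fun y => φ j (g.A k y) * conj (w0 j (g.A k y))) t M hβ
    (bm_B o j ((um_bm uΦ).mul bz.conj)) (bm_A k ((um_bm uφ).mul (bw0 j).conj))
    ((um_bm u3).ce _) mM (by
      filter_upwards [e1, kq _ (mu0 j)] with x h1 h2 hx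
      have h3 : w0 j (g.A k x) = z (g.Bc j x) := h2
      rw [(h1 hx).1, h3, mul_assoc])
  set ρ : (g.W j).X → ℂ := fun y => κ y / (‖κ y‖ : ℂ) with hρ
  have bρ : BM (g.W j).μ (g.B2 j) ρ := by
    have mq : Measurable fun t : ℂ => t / (‖t‖ : ℂ) :=
      measurable_id.div (Complex.measurable_ofReal.comp measurable_norm)
    refine bm_of (C := 1) _ (mq.comp mκ) fun y => ?_
    simp only [hρ, norm_div, Complex.norm_real, norm_norm]
    exact div_self_le_one _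
  have e2 : ∀ᵐ x ∂g.W2.μ, x ∈ M → ρ (g.Bc j x) = t x := by
    filter_upwards [e1, loc, hG.colE j _ ((um_bm uΦ).mul bz.conj),
      hG.rowE k _ ((um_bm uφ).mul (bw0 j).conj)] with x h1 h2 h3 h4 hx
    have h5 : κ (g.Bc j x) = t x * r (g.A k x) := by
      have := h2 hx
      rw [h3, h4] at this
      exact this
    obtain ⟨h6, h7⟩ : (r (g.A k x)).im = 0 ∧ 1 - 1 / 100 ≤ (r (g.A k x)).re := hx.1.2.1
    have h8 : r (g.A k x) = ((r (g.A k x)).re : ℂ) := Complex.ext (by simp) (by simp [h6])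
    have h9 : 0 < (r (g.A k x)).re := by linarith
    have h10 : ‖κ (g.Bc j x)‖ = (r (g.A k x)).re := by
      rw [h5, norm_mul, (h1 hx).2, one_mul, h8, Complex.norm_real, Complex.ofReal_re,
        Real.norm_of_nonneg h9.le]
    show κ (g.Bc j x) / (‖κ (g.Bc j x)‖ : ℂ) = _
    rw [h10, h5, ← h8, mul_div_assoc, div_self, mul_one]
    intro h0
    rw [h0, Complex.zero_re] at h9
    exact lt_irrefl _ h9
  have e3 : ∀ᵐ x ∂g.W2.μ, x ∈ M →
      Φ j (some k) (g.Bc j x) * conj (ρ (g.Bc j x)) = φ j (g.A k x) := by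
    filter_upwards [e1, e2] with x h1 h2 hx
    have h4 : t x * conj (t x) = 1 := by
      rw [Complex.mul_conj, Complex.normSq_eq_norm_sq, (h1 hx).2]; simp
    rw [h2 hx, (h1 hx).1]
    linear_combination φ j (g.A k x) * h4
  obtain ⟨g0, mg, eg⟩ := col F o j k (f1 := fun y => Φ j (some k) y * conj (ρ y))
    ((um_bm uΦ).mul (bρ.mono hB).conj) (um_bm uφ) (hB1 _ mD) (hB _ mD')
    (e3.mono fun x hx h1 h2 => hx ⟨h1, h2⟩)
  classical
  set g1 : (g.X j).X → ℂ := fun x => if ‖g0 x‖ = 1 then g0 x else 1 with hg1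
  have n1 : ∀ x, ‖g1 x‖ = 1 := fun x => by
    simp only [hg1]
    split_ifs with h
    · exact h
    · exact norm_one
  have m1 : Measurable g1 :=
    Measurable.ite (measurableSet_eq_fun mg.norm measurable_const) mg measurable_const
  let y : Uni (g.X j).X := ⟨fun x => ⟨g1 x, mem_sphere_zero_iff_norm.2 (n1 x)⟩, m1⟩
  refine ⟨E', y, mE', sE, pE', ?_⟩
  have ug : Um g.W2.ms g.W2.μ fun x => g1 (g.π j k (g.Bc j x)) :=
    ⟨(m1.comp ((mP g j k).comp (mB o j)).measurable).aestronglyMeasurable,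
      Eventually.of_forall fun x => n1 _⟩
  refine R.of g.β g.W2.μ _ (fun x => ρ (g.Bc j x)) E' hβ (um_mul u1 (um_cj ug))
    ((F.a.bm_comp _ _ _ _ _ (mB o j) bρ).mono (hG.colB j)) mE' ?_
  filter_upwards [EM, eg, e3, kq _ mg, u1.2, u2.2] with x h1 h2 h3 h4 h5 h6 hx
  have hx' := h1 hx
  have h7 : Φ j (some k) (g.Bc j x) * conj (ρ (g.Bc j x)) = g0 (g.π j k (g.Bc j x)) :=
    (h2 hx'.1 hx'.2).trans h4
  have h8 : g1 (g.π j k (g.Bc j x)) = g0 (g.π j k (g.Bc j x)) := by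
    simp only [hg1]
    rw [if_pos]
    rw [← h7, h3 hx', h6]
  have h9 : Φ j (some k) (g.Bc j x) * conj (Φ j (some k) (g.Bc j x)) = 1 := by
    rw [Complex.mul_conj, Complex.normSq_eq_norm_sq, h5]; simp
  show Φ j (some k) (g.Bc j x) * conj (g1 (g.π j k (g.Bc j x))) = _
  rw [h8, ← h7, map_mul, Complex.conj_conj]
  linear_combination ρ (g.Bc j x) * h9

end XRep

end T5y

end

end PkXRep

section PkXTup

/-! Rows `HX3`, `GSp1`, `Full`, `Rep`, `GSpU` of the saturated grid. -/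

set_option autoImplicit false
set_option linter.unusedVariables false
set_option warn.classDefReducibility false

open MeasureTheory ProbabilityTheory Filter Topology Function Finset ComplexConjugate
open scoped BigOperators
open Fib27 (BM sup pr Oc Orow F23 LInd Mem)
open Pool.Agent.MP_154433_an.SG (Uni ufn)

noncomputable section

namespace T5y

open T3x

namespace XTup

open T3x.RepL (um_bm um_mono um_mul um_cj um_pr bm_of)
open T3x.GSpURow (um_comp um_ufn um_mul_conj meas_ne ne_of_le unim)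
open GxU

variable {g : Gx}

theorem lz (a : AzX) (o : g.OK) : Lz g := fun j k => (a.facZ (g.L j) (g.B j) k (o.kc j).1).le

/-- the representation for both points of a column tuple -/
theorem rep_all (rep : g.Rep) (j : Option Bool) (Φ : ∀ i, Option Bool → (g.W i).X → ℂ)
    (E : Set g.W2.X) (hΦ : ∀ i, g.Tup1 i (Φ i)) (hE : MeasurableSet[g.β] E) (h0 : g.W2.μ E ≠ 0)
    (h1 : E ≤ᵐ[g.W2.μ] g.Bc j ⁻¹' g.Θ j (Φ j))
    (h2 : ∀ k, E ≤ᵐ[g.W2.μ] (Th g.β g.W2.μ fun x => ∏ i, Φ i k (g.Bc i x))) :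
    ∃ (E' : Set g.W2.X) (u : Bool → Uni (g.X j).X), MeasurableSet[g.β] E' ∧ E' ⊆ E ∧
      g.W2.μ E' ≠ 0 ∧ ∀ k, E' ≤ᵐ[g.W2.μ] Th g.β g.W2.μ fun x =>
        Φ j (some k) (g.Bc j x) * conj (ufn (u k) (g.π j k (g.Bc j x))) := by
  obtain ⟨E1, u1, m1, s1, n1, t1⟩ := rep j true Φ E hΦ hE h0 h1 (h2 _)
  obtain ⟨E2, u2, m2, s2, n2, t2⟩ := rep j false Φ E1 hΦ m1 n1 (s1.eventuallyLE.trans h1)
    (s1.eventuallyLE.trans (h2 _))
  refine ⟨E2, fun k => cond k u1 u2, m2, s2.trans s1, n2, fun k => ?_⟩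
  cases k
  · exact t2
  · exact s2.eventuallyLE.trans t1

theorem gspU (F : Fd) (rc : Rc) (o : g.OK) (z : Lz g) (gi : g.GI) (gs : g.GSp g.Tup1)
    (fu : g.Full g.Tup1) (rep : g.Rep) : g.GSp g.TupU := by
  intro q j h hv hne
  have hβ := leβ F o
  have tp := top F o z (some q)
  have hh : BM g.W2.μ g.W2.ms h := (dv_bm tp hv).mono (tp j)
  obtain ⟨φ, hφ, h0⟩ := gs q j h hv hne
  obtain ⟨j1, a, -, ha, -, ea⟩ := hv
  have uφ : ∀ k, Um g.W2.ms g.W2.μ fun x => φ k (g.Bc j x) := fun k =>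
    um_comp (mB o j) (tup_um F o z hφ k)
  have mΘ : MeasurableSet[g.β] (g.Bc j ⁻¹' g.Θ j φ) := th_meas rc gi j φ
  have mE0 := mΘ.inter (meas_ne g.β g.W2.μ fun y => h y * φ (some q) (g.Bc j y))
  have hP : BM g.W2.μ g.W2.ms (pr a (univ.erase j)) := BM.pr fun k _ => (ha k).mono (tp k)
  have e0 : g.W2.μ[fun y => h y * φ (some q) (g.Bc j y) | g.β] =ᵐ[g.W2.μ]
      g.W2.μ[fun y => φ (some q) (g.Bc j y) * pr a (univ.erase j) y | g.β] := by
    have e1 := (condExp_congr_ae (m := g.β) (Fib27.ce_mul' (tp j) hP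
      (um_bm (um_col F o gi hφ (some q)))).symm).trans (condExp_condExp_of_le le_sup_right (tp j))
    refine EventuallyEq.trans (condExp_congr_ae ?_) (e1.trans (condExp_congr_ae
      (Eventually.of_forall fun y => mul_comm _ _)))
    filter_upwards [ea] with y hy
    rw [hy]
  obtain ⟨E1, Φ, m1, s1, n1, hΦ, hj, t1, t2⟩ := fu q j φ _ a hφ mE0
    Set.inter_subset_left.eventuallyLE ha (ne_of_le h0 (by
      filter_upwards [e0] with x hx hm
      refine ⟨hm, ?_⟩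
      show _ ≠ 0
      rw [← hx]
      exact hm.2))
  obtain ⟨E, u, mE, sE, nE, tE⟩ := rep_all rep j Φ E1 hΦ m1 n1 (t1 j) t2
  rw [hj] at tE
  let ψ : Option Bool → (g.W j).X → ℂ := fun k =>
    k.elim (φ none) fun k' w => ufn (u k') (g.π j k' w)
  have hψ : g.TupU j ψ := ⟨⟨u, fun _ => rfl⟩, hφ none⟩
  have ug : ∀ k, Um g.W2.ms g.W2.μ fun x => ψ k (g.Bc j x) := fun k =>
    um_comp (mB o j) (tup_um F o z (tupU1 g j ψ hψ) k)
  have uu := fun k => um_mul_conj (uφ k) (ug k)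
  have tE' : ∀ k, E ≤ᵐ[g.W2.μ] Th g.β g.W2.μ fun x => φ k (g.Bc j x) * conj (ψ k (g.Bc j x)) := by
    rintro (_ | k)
    · refine rc.of g.β g.W2.μ _ (fun _ => 1) E hβ (uu none) (BM.const 1) mE ?_
      filter_upwards [(uφ none).2] with x hx _
      show φ none (g.Bc j x) * conj (φ none (g.Bc j x)) = 1
      rw [Complex.mul_conj, Complex.normSq_eq_norm_sq, hx]; simp
    · exact tE k
  set t : Option Bool → g.W2.X → ℂ := fun k x =>
    conj ((g.W2.μ[fun x => φ k (g.Bc j x) * conj (ψ k (g.Bc j x)) | g.β]) x) with ht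
  have bt : ∀ k, BM g.W2.μ g.β (t k) := fun k => ((um_bm (uu k)).ce g.β).conj
  have key : ∀ k, ∀ᵐ x ∂g.W2.μ, x ∈ E →
      ψ k (g.Bc j x) = t k x * φ k (g.Bc j x) ∧ ‖t k x‖ = 1 := by
    intro k
    filter_upwards [tE' k, rc.eq g.β g.W2.μ _ hβ (uu k), (uφ k).2] with x a1 a2 a3 hx
    have a4 := a1 hx
    refine ⟨unim a3 (a2 a4), ?_⟩
    rw [ht]
    simp only [Complex.norm_conj]
    exact a4
  have l1 := rc.loc g.β g.W2.μ (fun y => h y * ψ (some q) (g.Bc j y))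
    (fun y => h y * φ (some q) (g.Bc j y))
    (t (some q)) E hβ (hh.mul (um_bm (ug _))) (hh.mul (um_bm (uφ _))) (bt _) mE (by
      filter_upwards [key (some q)] with x hx hE
      rw [(hx hE).1]; ring)
  have bφ : BM (g.W j).μ (g.W j).ms (pr φ univ) := BM.pr fun k _ => um_bm (tup_um F o z hφ k)
  have bψ : BM (g.W j).μ (g.W j).ms (pr ψ univ) :=
    BM.pr fun k _ => um_bm (tup_um F o z (tupU1 g j ψ hψ) k)
  have l2 := rc.loc g.β g.W2.μ (fun y => pr ψ univ (g.Bc j y))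
    (fun y => pr φ univ (g.Bc j y)) (pr t univ) E hβ
    (BM.pr (ρ := fun k x => ψ k (g.Bc j x)) fun k _ => um_bm (ug k))
    (BM.pr (ρ := fun k x => φ k (g.Bc j x)) fun k _ => um_bm (uφ k))
    (BM.pr fun k _ => bt k) mE (by
      filter_upwards [ae_all_iff.2 key] with x hx hE
      simp only [pr, ← prod_mul_distrib]
      exact prod_congr rfl fun k _ => (hx k hE).1)
  refine ⟨ψ, hψ, ne_of_le nE ?_⟩
  filter_upwards [l1, l2, ae_all_iff.2 key, gi.colE j _ bφ, gi.colE j _ bψ] with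
    x a1 a2 a3 a4 a5 hE
  have hx := s1 (sE hE)
  refine ⟨?_, ?_⟩
  · have b1 : ‖((g.W j).μ[pr φ univ | g.B2 j]) (g.Bc j x)‖ = 1 := hx.1
    show ‖((g.W j).μ[pr ψ univ | g.B2 j]) (g.Bc j x)‖ = 1
    rw [← a5, a2 hE, a4, norm_mul, b1, mul_one]
    simp only [pr, norm_prod]
    exact prod_eq_one fun k _ => (a3 k hE).2
  · show (g.W2.μ[fun y => h y * ψ (some q) (g.Bc j y) | g.β]) x ≠ 0
    rw [a1 hE]
    refine mul_ne_zero (fun hz => ?_) hx.2
    have := (a3 (some q) hE).2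
    rw [hz, norm_zero] at this
    exact zero_ne_one this

end XTup

theorem gsp1R5 : GSp1R5 := fun F a rc sel _ g o gi hg =>
  XGsp.gsp1 F rc sel o (XTup.lz a o) gi hg

theorem fullR5 : FullR5 := fun F a rc _ g C o gi hg hC gs =>
  XGsp.full F rc o (XTup.lz a o) gi hg hC gs

theorem repR5 : RepR5 := fun F a rc sel apx g o gi fu =>
  XRep.rep F rc sel apx o (XTup.lz a o) gi fu

theorem gspUR5 : GSpUR5 := fun F a rc g o gi _ gs fu rep =>
  XTup.gspU F rc o (XTup.lz a o) gi gs fu rep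

end T5y

end

end PkXTup

section PkXT5

/-! Row `T5`: a failing line carries a nontrivial pair that is determined by the third slot. -/

set_option autoImplicit false
set_option linter.unusedVariables false
set_option warn.classDefReducibility false

open MeasureTheory ProbabilityTheory Filter Topology Function Finset ComplexConjugate
open scoped BigOperators
open Fib27 (BM sup pr Oc Orow F23 LInd Mem)
open Pool.Agent.MP_154433_an.SG (Uni ufn)

noncomputable section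

namespace T5y

open T3x

namespace XT5L

open T3x.GSpURow (um_comp um_bm um_mono um_ufn meas_pull)

theorem mpP (c : Cx) (k : Bool) : MeasurePreserving (c.π k) c.W.μ c.X.μ := (c.L.emb _).mp

theorem um_pt (c : Cx) (u : Bool → Uni c.X.X) (q : Bool) :
    Um c.W.ms c.W.μ fun w => ufn (u q) (c.π q w) := um_comp (mpP c q) (um_ufn _ (u q))

theorem um_up (c : Cx) (u : Bool → Uni c.X.X) : Um c.W.ms c.W.μ (c.up u) := by
  refine ⟨((um_bm (um_pt c u true)).mul (um_bm (um_pt c u false))).1, ?_⟩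
  filter_upwards [(um_pt c u true).2, (um_pt c u false).2] with x h1 h2
  show ‖ufn (u true) (c.π true x) * ufn (u false) (c.π false x)‖ = 1
  rw [norm_mul, h1, h2, mul_one]

/-- a tuple on the line gives a pair that is determined by the third slot -/
theorem th_le (az : AzX) (tz : ThC) (c : Cx) (u : Bool → Uni c.X.X) (φ : I3 → c.W.X → ℂ)
    (hu : ∀ q, φ (some q) = fun w => ufn (u q) (c.π q w)) (h0 : Um (c.AZ ⊔ c.B2) c.W.μ (φ none)) :
    Th c.B2 c.W.μ (pr φ univ) ≤ᵐ[c.W.μ] c.Θ u := by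
  have hB : c.B2 ≤ c.AZ := az.b2 c.L c.B
  have hA : c.AZ ≤ c.W.ms := (az.kc c.L c.B c.kc.1).1.le
  have e : pr φ univ = fun w => c.up u w * φ none w := by
    funext w
    simp only [pr, Fintype.prod_option, Fintype.prod_bool, hu]
    exact mul_comm _ _
  rw [e]
  exact tz.le c.B2 c.AZ c.W.μ (c.up u) (φ none) hB hA (um_up c u)
    (um_mono h0 (sup_le le_rfl hB))

theorem core (fd : Fd) (az : AzX) (rc : Rc) (tz : ThC) (c : Cx) {Ω : Type}
    (β : MeasurableSpace Ω) {m0 : MeasurableSpace Ω} (μ : Measure Ω) [IsProbabilityMeasure μ]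
    (Bc : Ω → c.W.X) (mpB : MeasurePreserving Bc μ c.W.μ)
    (hβ : β ≤ m0) (colB : pull μ Bc c.B2 ≤ β) (j : Bool) (h : Ω → ℂ) (hh : BM μ m0 h)
    (hz : μ[h | β] =ᵐ[μ] 0) (u : Bool → Uni c.X.X) (φ : I3 → c.W.X → ℂ)
    (hu : ∀ q, φ (some q) = fun w => ufn (u q) (c.π q w)) (h1 : Um (c.AZ ⊔ c.B2) c.W.μ (φ none))
    (h0 : μ (Bc ⁻¹' Th c.B2 c.W.μ (pr φ univ) ∩
      {x | (μ[fun y => h y * φ (some j) (Bc y) | β]) x ≠ 0}) ≠ 0) : c.T5 u := by
  refine ⟨j, fun n0 => h0 (measure_eq_zero_iff_ae_notMem.2 ?_)⟩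
  have mp2 := (mpP c j).comp mpB
  have b1 : BM c.W.μ c.B2 fun w => (c.X.μ[ufn (u j) | c.B]) (c.π j w) :=
    (fd.a.bm_comp c.B c.W.μ c.X.μ (c.π j) _ (mpP c j)
      ((um_bm (um_ufn c.X.μ (u j))).ce c.B)).mono
      ((fd.lb.slot c.L c.B (zs j) c.kc.1).trans (fd.h.le _ _))
  have b2 : BM μ β fun x => (c.X.μ[ufn (u j) | c.B]) (c.π j (Bc x)) :=
    (fd.a.bm_comp c.B2 μ c.W.μ Bc _ mpB b1).mono colB
  have e1 := mp2.quasiMeasurePreserving.ae (rc.eq c.B c.X.μ _ c.kc.1.le (um_ufn _ (u j)))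
  have e2 := mpB.quasiMeasurePreserving.ae (measure_eq_zero_iff_ae_notMem.1 n0)
  have e3 := mpB.quasiMeasurePreserving.ae (th_le az tz c u φ hu h1)
  have l1 := rc.loc β μ (fun y => h y * ufn (u j) (c.π j (Bc y))) h _
    (Bc ⁻¹' Th c.B2 c.W.μ (pr φ univ)) hβ (hh.mul (um_bm (um_comp mpB (um_pt c u j)))) hh b2
    (colB _ (meas_pull _ _ (rc.meas _ _ _))) (by
      filter_upwards [e1, e2, e3] with x a1 a2 a5 hx
      have a3 : ‖(c.X.μ[ufn (u j) | c.B]) (c.π j (Bc x))‖ = 1 := by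
        by_contra hn
        exact a2 ⟨a5 hx, hn⟩
      have a4 : ufn (u j) (c.π j (Bc x)) = (c.X.μ[ufn (u j) | c.B]) (c.π j (Bc x)) := a1 a3
      rw [a4, mul_comm])
  rw [hu j]
  filter_upwards [l1, hz] with x a1 a2 hx
  refine hx.2 ?_
  rw [a1 hx.1, a2, Pi.zero_apply, mul_zero]

end XT5L

theorem t5R5 : T5R5 := by
  intro fd az rc tz c E gi ok gxi gs f4
  obtain ⟨j, h, hv, hne, hz⟩ := f4
  obtain ⟨φ, ⟨⟨u, hu⟩, h1⟩, h0⟩ := gs j (some j) h hv hne
  have hβ : E.gx.β ≤ E.gx.W2.ms :=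
    (fd.h.kc _ _ E.L2.nice (fd.lb.fac E.L2 E.B1 E.adm.kc.1)).1.le
  have hG : ∀ k i, E.gx.G k i ≤ E.gx.W2.ms := fun k i =>
    fd.a.pull_le _ _ _ _ (ok.lift i).emb.mp (az.facZ (E.gx.L i) (E.gx.B i) k (ok.kc i).1).le
  have hh : BM E.gx.W2.μ E.gx.W2.ms h := by
    obtain ⟨j1, b, -, hb, -, he⟩ := hv
    have hp : BM E.gx.W2.μ E.gx.W2.ms (pr b (univ.erase (some j))) :=
      BM.pr fun k _ => (hb k).mono (sup_le (hG _ k) hβ)
    exact ((hp.ce _).mono (sup_le (hG _ _) hβ)).congr he.symm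
  exact ⟨u, XT5L.core fd az rc tz c E.gx.β E.gx.W2.μ (E.gx.Bc (some j))
    (ok.lift (some j)).emb.mp hβ
    (gxi.colB (some j)) j h hh hz u φ hu h1 h0⟩

end T5y

end

end PkXT5

section PkXCL

/-! Rows `CL` and `FLX`: from the saturated grid back to the line. -/

set_option autoImplicit false
set_option linter.unusedVariables false
set_option warn.classDefReducibility false

open MeasureTheory ProbabilityTheory Filter Topology Function Finset ComplexConjugate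
open scoped BigOperators
open Fib27 (BM sup pr Oc Orow F23 LInd Mem)
open Pool.Agent.MP_154433_an.SG (Uni ufn)

noncomputable section

namespace T5y

open T3x
open T3x.GSpURow (um_comp um_bm um_mono um_ufn um_mul_conj meas_pull ne_of_le unim)

namespace CLF

theorem um_mul {Ω : Type} {m m0 : MeasurableSpace Ω} {μ : Measure Ω} {f g : Ω → ℂ}
    (hf : Um m μ f) (hg : Um m μ g) : Um m μ fun x => f x * g x := by
  refine ⟨((um_bm hf).mul (um_bm hg)).1, ?_⟩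
  filter_upwards [hf.2, hg.2] with x h1 h2
  simp [h1, h2]

theorem ae_mp {Y X : Sys} {p : Y.X → X.X} (hp : MeasurePreserving p Y.μ X.μ) {P : X.X → Prop}
    (h : ∀ᵐ x ∂X.μ, P x) : ∀ᵐ y ∂Y.μ, P (p y) := hp.quasiMeasurePreserving.ae h

theorem um_pull (fd : Fd) {Y X : Sys} {p : Y.X → X.X} (hp : MeasurePreserving p Y.μ X.μ)
    (D : MeasurableSpace X.X) {f : X.X → ℂ} (hf : Um D X.μ f) :
    Um (pull Y.μ p D) Y.μ fun y => f (p y) :=
  ⟨(fd.a.bm_comp D Y.μ X.μ p f hp (um_bm hf)).1, ae_mp hp hf.2⟩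

theorem um_pr3 {Ω : Type} {m m0 : MeasurableSpace Ω} {μ : Measure Ω} {f : I3 → Ω → ℂ}
    (hf : ∀ i, Um m μ (f i)) : Um m μ (pr f univ) := by
  refine ⟨(BM.pr fun i _ => um_bm (hf i)).1, ?_⟩
  filter_upwards [ae_all_iff.2 fun i => (hf i).2] with x hx
  simp only [pr, norm_prod, hx, prod_const_one]

theorem prod3 (f : I3 → ℂ) : ∏ k, f k = f (some true) * f (some false) * f none := by
  rw [Fintype.prod_option, Fintype.prod_bool, mul_comm]

variable {c : Cx}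

theorem mpP (c : Cx) (k : Bool) : MeasurePreserving (c.π k) c.W.μ c.X.μ := (c.L.emb _).mp

theorem um_up (g : Bool → Uni c.X.X) : Um c.W.ms c.W.μ (c.up g) :=
  um_mul (um_comp (mpP c true) (um_ufn _ _)) (um_comp (mpP c false) (um_ufn _ _))

/-- the maps of the extension, without dependent types -/
structure K (E : Ex c) : Prop where
  kz : KC c.W c.AZ
  lez : c.B2 ≤ c.AZ
  mw : MeasurePreserving E.pw E.W1.μ c.W.μ
  mz : MeasurePreserving E.pz E.W1.μ E.Z.μ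
  mL : MeasurePreserving E.Lw E.L2.W.μ c.W2.μ
  mA : ∀ q, MeasurePreserving (E.gx.A q) E.L2.W.μ E.W1.μ
  mB : ∀ j, MeasurePreserving (c.Bc j ∘ E.Lw) E.L2.W.μ c.W.μ
  ble : E.gx.β ≤ E.L2.W.ms
  sA : ∀ q, KEq E.L2.W.μ c.W.ms (c.A q ∘ E.Lw) (E.pw ∘ E.gx.A q)
  msA : ∀ q (D : Set c.W.X), MeasurableSet[c.B2] D →
    MeasurableSet[E.gx.β] (E.gx.A q ⁻¹' (E.pw ⁻¹' D))
  msB : ∀ j (D : Set c.W.X), MeasurableSet[c.B2] D →
    MeasurableSet[E.gx.β] ((c.Bc j ∘ E.Lw) ⁻¹' D)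
  sw : ∀ q j (u : Uni c.X.X), ∀ᵐ x ∂E.L2.W.μ,
    ufn u (c.π j (E.pw (E.gx.A q x))) = ufn u (c.π q (c.Bc j (E.Lw x)))
  ceA : ∀ q f, BM c.W.μ c.W.ms f → E.L2.W.μ[fun x => f (E.pw (E.gx.A q x)) | E.gx.β]
    =ᵐ[E.L2.W.μ] fun x => (c.W.μ[f | c.B2]) (E.pw (E.gx.A q x))
  ceB : ∀ j f, BM c.W.μ c.W.ms f → E.L2.W.μ[fun x => f (c.Bc j (E.Lw x)) | E.gx.β]
    =ᵐ[E.L2.W.μ] fun x => (c.W.μ[f | c.B2]) (c.Bc j (E.Lw x))
  ce1 : ∀ f, BM c.W.μ c.W.ms f → E.W1.μ[fun x => f (E.pw x) | E.B1]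
    =ᵐ[E.W1.μ] fun x => (c.W.μ[f | c.B2]) (E.pw x)
  cellP : ∀ q j (u : Uni c.X.X), Um (E.gx.G (some q) (some j)) E.L2.W.μ
    fun x => ufn u (c.π j (E.pw (E.gx.A q x)))
  cellZ : ∀ q (η : c.W.X → ℂ), Um c.AZ c.W.μ η → Um (E.gx.G (some q) none) E.L2.W.μ
    fun x => η (E.pw (E.gx.A q x))

theorem kk (fd : Fd) (az : AzX) (E : Ex c) (gi : E.gx.GI) : K E := by
  have mw : MeasurePreserving E.pw E.W1.μ c.W.μ := E.adm.emb.mp
  have mA : ∀ q, MeasurePreserving (E.gx.A q) E.L2.W.μ E.W1.μ := fun q => (E.L2.emb _).mp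
  have mB : ∀ j, MeasurePreserving (c.Bc j ∘ E.Lw) E.L2.W.μ c.W.μ := fun j =>
    (c.lift j).emb.mp.comp E.lift.emb.mp
  have k2 : KC c.W c.B2 := fd.h.kc _ _ c.L.nice (fd.lb.fac c.L c.B c.kc.1)
  have ce1 : ∀ f, BM c.W.μ c.W.ms f → E.W1.μ[fun x => f (E.pw x) | E.B1]
      =ᵐ[E.W1.μ] fun x => (c.W.μ[f | c.B2]) (E.pw x) := fun f hf =>
    (E.adm.cp _ (fd.a.bm_comp c.W.ms E.W1.μ c.W.μ E.pw f mw hf)).trans
      (fd.a.ce_comp c.B2 E.W1.μ c.W.μ E.pw f mw k2.1.le hf.integrable)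
  refine ⟨az.kc c.L c.B c.kc.1, az.b2 c.L c.B, mw, E.admz.emb.mp, E.lift.emb.mp, mA, mB,
    (fd.h.kc _ _ E.L2.nice (fd.lb.fac E.L2 E.B1 E.adm.kc.1)).1.le,
    fun q => fd.la.slot E.L2 c.L2 E.pw E.Lw (zs q) E.adm.emb E.lift,
    fun q D hD => gi.rowB q _ (meas_pull _ _ (E.adm.le _ (meas_pull _ _ hD))),
    fun j D hD => gi.colB (some j) _ (meas_pull _ _ hD), fun q j u => ?_, fun q f hf => ?_,
    fun j f hf => gi.colE (some j) f hf, ce1, fun q j u => ?_, fun q η hη => ?_⟩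
  · exact fd.a.keq_fun c.X.ms E.L2.W.μ c.X.μ ((c.π j ∘ E.pw) ∘ E.gx.A q)
      (c.π q ∘ (c.Bc j ∘ E.Lw)) (ufn u) (((mpP c j).comp mw).comp (mA q)) ((mpP c q).comp (mB j))
      (gi.col q (some j)) (um_ufn _ u).1
  · exact (gi.rowE q (fun x => f (E.pw x))
      ((fd.a.bm_comp c.W.ms E.W1.μ c.W.μ E.pw f mw hf).mono
        (fd.a.pull_le _ _ _ _ mw le_rfl))).trans ((mA q).quasiMeasurePreserving.ae (ce1 f hf))
  · rw [gi.grow q (some j)]
    exact um_pull fd (mA q) _ (um_pull fd ((mpP c j).comp mw) c.X.ms (um_ufn _ u))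
  · rw [gi.grow q none]
    exact um_pull fd (mA q) _ (um_mono (um_pull fd mw c.AZ hη) E.az)

/-- a row tuple of the extension is a tuple of the line -/
theorem down (fd : Fd) (tz : ThC) {E : Ex c} (k : K E) {F : c.W.X → ℂ} (hF : Um c.W.ms c.W.μ F)
    (u : Uni E.Z.X) : ∀ᵐ y ∂E.W1.μ,
      y ∈ (Th E.B1 E.W1.μ fun x => F (E.pw x) * ufn u (E.pz x)) → E.pw y ∈ c.ThZ F := by
  have l1 : pull E.W1.μ E.pz E.Z.ms ⊔ E.B1 ≤ E.W1.ms :=
    sup_le (fd.a.pull_le _ _ _ _ k.mz le_rfl) E.adm.kc.1.le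
  have h1 := tz.le E.B1 (pull E.W1.μ E.pz E.Z.ms ⊔ E.B1) E.W1.μ (fun x => F (E.pw x))
    (fun x => ufn u (E.pz x)) le_sup_right l1 (um_comp k.mw hF)
    (um_mono (um_pull fd k.mz E.Z.ms (um_ufn _ u)) le_sup_left)
  have h2 := tz.comp c.B2 c.AZ E.B1 (pull E.W1.μ E.pz E.Z.ms ⊔ E.B1) c.W.μ E.W1.μ E.pw F k.mw
    (um_bm hF) ((E.cp _ (fd.a.bm_comp c.W.ms E.W1.μ c.W.μ E.pw F k.mw (um_bm hF))).trans
      (fd.a.ce_comp c.AZ E.W1.μ c.W.μ E.pw F k.mw k.kz.1.le (um_bm hF).integrable))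
    k.kz.1.le k.ce1
  filter_upwards [h1, h2] with y a1 a2 hy
  exact a2.mp (a1 hy)

/-- the tuple with entries `g` and `η` -/
def tup (g : Bool → Uni c.X.X) (η : c.W.X → ℂ) : I3 → c.W.X → ℂ
  | some r => fun w => ufn (g r) (c.π r w)
  | none => η

theorem pr_tup (g : Bool → Uni c.X.X) (η : c.W.X → ℂ) :
    pr (tup g η) univ = fun w => c.up g w * η w := funext fun w => prod3 _

theorem tup_U (E : Ex c) (j : Bool) (g : Bool → Uni c.X.X) {η : c.W.X → ℂ}
    (h : Um c.AZ c.W.μ η) : E.gx.TupU (some j) (tup g η) :=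
  ⟨⟨g, fun _ => rfl⟩, um_mono h le_sup_left⟩

/-- the entries of a row -/
def row (E : Ex c) (q : Bool) (h : Bool → Uni c.X.X) (η : c.W.X → ℂ) : I3 → E.L2.W.X → ℂ
  | some i => fun x => ufn (h i) (c.π i (E.pw (E.gx.A q x)))
  | none => fun x => η (E.pw (E.gx.A q x))

theorem row_um {E : Ex c} (k : K E) (q : Bool) (h : Bool → Uni c.X.X) {η : c.W.X → ℂ}
    (hη : Um c.AZ c.W.μ η) : ∀ i, Um (E.gx.G (some q) i) E.L2.W.μ (row E q h η i)
  | some i => k.cellP q i (h i)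
  | none => k.cellZ q η hη

theorem pr_row (E : Ex c) (q : Bool) (h : Bool → Uni c.X.X) (η : c.W.X → ℂ) :
    pr (row E q h η) univ = fun x => (fun w => c.up h w * η w) (E.pw (E.gx.A q x)) :=
  funext fun x => prod3 _

/-- a column tuple and a row tuple with a common entry extend to all columns -/
theorem ext (fd : Fd) {E : Ex c} (k : K E) {C : ∀ j, (I3 → (E.gx.W j).X → ℂ) → Prop}
    (fu : E.gx.Full C) (q j : Bool) (g h : Bool → Uni c.X.X) {η η' : c.W.X → ℂ}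
    (hη' : Um c.AZ c.W.μ η') (hC : C (some j) (tup g η)) (e : h j = g q) (S : Set E.L2.W.X)
    (mS : MeasurableSet[E.gx.β] S) (n0 : E.L2.W.μ S ≠ 0)
    (h1 : ∀ᵐ x ∂E.L2.W.μ, x ∈ S →
      c.Bc j (E.Lw x) ∈ Th c.B2 c.W.μ fun w => c.up g w * η w)
    (h2 : ∀ᵐ x ∂E.L2.W.μ, x ∈ S →
      E.pw (E.gx.A q x) ∈ Th c.B2 c.W.μ fun w => c.up h w * η' w) :
    ∃ (E' : Set E.L2.W.X) (Φ : ∀ i, I3 → (E.gx.W i).X → ℂ), MeasurableSet[E.gx.β] E' ∧ E' ⊆ S ∧
      E.L2.W.μ E' ≠ 0 ∧ (∀ i, C i (Φ i)) ∧ Φ (some j) = tup g η ∧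
      (∀ i, E' ≤ᵐ[E.L2.W.μ] E.gx.Bc i ⁻¹' E.gx.Θ i (Φ i)) ∧
      ∀ r, E' ≤ᵐ[E.L2.W.μ] Th E.gx.β E.L2.W.μ fun x => ∏ i, Φ i r (E.gx.Bc i x) := by
  have e1 : (fun y => tup g η (some q) (c.Bc j (E.Lw y)) *
      pr (row E q h η') (univ.erase (some j)) y) =ᵐ[E.L2.W.μ] pr (row E q h η') univ := by
    filter_upwards [k.sw q j (g q)] with y hy
    rw [Fib27.pr_erase (row E q h η') (mem_univ (some j))]
    have : row E q h η' (some j) y = tup g η (some q) (c.Bc j (E.Lw y)) := by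
      show ufn (h j) _ = _
      rw [e]; exact hy
    rw [this]
  refine fu q (some j) (tup g η) S (row E q h η') hC mS ?_
    (fun i => (um_bm (row_um k q h hη' i)).mono le_sup_left) (ne_of_le n0 ?_)
  · filter_upwards [h1] with x hx hS
    have := hx hS
    rw [← pr_tup] at this
    exact this
  · rw [pr_row] at e1
    filter_upwards [condExp_congr_ae (m := E.gx.β) e1, h2,
      k.ceA q _ (um_bm (um_mul (um_up h) (um_mono hη' k.kz.1.le)))] with x a1 a2 a3 hx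
    refine ⟨hx, fun hz => ?_⟩
    have b1 : ‖(c.W.μ[fun w => c.up h w * η' w | c.B2]) (E.pw (E.gx.A q x))‖ = 1 := a2 hx
    have b2 := (congrArg norm (a3.symm.trans (a1.symm.trans hz))).symm.trans b1
    rw [norm_zero] at b2
    exact zero_ne_one b2

/-- two unimodular functions that agree up to the base -/
theorem ratio (rc : Rc) {Ω : Type} {β m0 : MeasurableSpace Ω} (μ : Measure Ω)
    [IsProbabilityMeasure μ] (hβ : β ≤ m0) {F G : Ω → ℂ} (hF : Um m0 μ F) (hG : Um m0 μ G) :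
    ∀ᵐ x ∂μ, x ∈ Th β μ F → x ∈ Th β μ G → x ∈ Th β μ fun y => F y * conj (G y) := by
  have u : Um m0 μ fun y => conj (G y) :=
    ⟨(um_bm hG).conj.1, hG.2.mono fun y h => by simpa using h⟩
  filter_upwards [rc.mul β μ _ _ hβ hF u, rc.cj β μ _ hβ hG] with x a1 a2 h1 h2
  exact a1 ⟨h1, a2.mpr h2⟩

theorem th_congr {Ω : Type} (β : MeasurableSpace Ω) {m0 : MeasurableSpace Ω} {μ : Measure Ω}
    {F F' : Ω → ℂ} (h : F =ᵐ[μ] F') : ∀ᵐ w ∂μ, w ∈ Th β μ F → w ∈ Th β μ F' := by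
  filter_upwards [condExp_congr_ae (m := β) h] with w e hw
  exact (congrArg norm e).symm.trans hw

theorem mc {a : ℂ} (h : ‖a‖ = 1) : a * conj a = 1 := by
  rw [Complex.mul_conj, Complex.normSq_eq_norm_sq, h]; simp

theorem prodj (j : Bool) (f : I3 → ℂ) : ∏ k, f k = f (some j) * (f (some (!j)) * f none) := by
  rw [prod3]
  cases j
  · simp only [Bool.not_false]; ring
  · simp only [Bool.not_true]; ring

/-- in one row the entry of the other column is the given function, up to the base -/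
theorem one_row (fd : Fd) (rc : Rc) {E : Ex c} (k : K E) (gi : E.gx.GI) (r j : Bool)
    (h : Bool → Uni c.X.X) {η : c.W.X → ℂ} (uη : Um c.AZ c.W.μ η)
    (Φ : ∀ i, I3 → (E.gx.W i).X → ℂ)
    (uΦ : ∀ i, Um (pull E.L2.W.μ (E.gx.Bc i) (E.gx.W i).ms) E.L2.W.μ
      fun x => Φ i (some r) (E.gx.Bc i x))
    (hj : Φ (some j) (some r) = fun w => ufn (h j) (c.π r w)) :
    ∀ᵐ x ∂E.L2.W.μ, x ∈ (Th E.gx.β E.L2.W.μ fun x => ∏ i, Φ i (some r) (E.gx.Bc i x)) →
      E.pw (E.gx.A r x) ∈ (Th c.B2 c.W.μ fun w => c.up h w * η w) →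
      x ∈ Th E.gx.β E.L2.W.μ fun x => Φ (some (!j)) (some r) (c.Bc (!j) (E.Lw x)) *
        conj (ufn (h (!j)) (c.π r (c.Bc (!j) (E.Lw x)))) := by
  have pl : ∀ i, pull E.L2.W.μ (E.gx.Bc i) (E.gx.W i).ms ≤ E.L2.W.ms := fun i => by
    rcases i with _ | i
    · exact fd.a.pull_le _ _ _ _ E.liftz.emb.mp le_rfl
    · exact fd.a.pull_le _ _ _ _ (k.mB i) le_rfl
  have gl : ∀ i, E.gx.G (some r) i ≤ pull E.L2.W.μ (E.gx.Bc i) (E.gx.W i).ms := fun i =>
    sup_le_sup_right (MeasurableSpace.comap_mono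
      (fd.a.pull_le _ _ _ _ ((E.gx.L i).emb (zs r)).mp le_rfl)) _
  have ua : ∀ i, Um (pull E.L2.W.μ (E.gx.Bc i) (E.gx.W i).ms) E.L2.W.μ (row E r h η i) :=
    fun i => um_mono (row_um k r h uη i) (gl i)
  have uq := fun i => um_mul_conj (uΦ i) (ua i)
  have hS : ({some (!j), none} : Finset I3) ≠ univ := by cases j <;> decide
  have hq := rc.uniq E.gx.β (fun i => pull E.L2.W.μ (E.gx.Bc i) (E.gx.W i).ms) {some (!j), none}
    E.gx.W2.μ (fun i x => Φ i (some r) (E.gx.Bc i x) * conj (row E r h η i x)) k.ble pl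
    (gi.cols _ hS) (fun i _ => um_mono (uq i) le_sup_left) (some (!j)) (mem_insert_self _ _)
  have u1 : Um E.L2.W.ms E.L2.W.μ fun x => ∏ i, Φ i (some r) (E.gx.Bc i x) := by
    simp only [prod3]
    exact um_mul (um_mul (um_mono (uΦ _) (pl _)) (um_mono (uΦ _) (pl _))) (um_mono (uΦ _) (pl _))
  have u0 := um_mul (um_up h) (um_mono uη k.kz.1.le)
  have u2 := um_comp (k.mw.comp (k.mA r)) u0
  have e1 : (fun x => (∏ i, Φ i (some r) (E.gx.Bc i x)) *
      conj ((fun w => c.up h w * η w) ((E.pw ∘ E.gx.A r) x))) =ᵐ[E.L2.W.μ]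
      pr (fun i x => Φ i (some r) (E.gx.Bc i x) * conj (row E r h η i x)) {some (!j), none} := by
    filter_upwards [k.sw r j (h j), (ua (some j)).2] with x a1 a2
    have a3 : c.up h ((E.pw ∘ E.gx.A r) x) * η ((E.pw ∘ E.gx.A r) x) = ∏ i, row E r h η i x :=
      (congrFun (pr_row E r h η) x).symm
    have a4 : Φ (some j) (some r) (E.gx.Bc (some j) x) = row E r h η (some j) x := by
      rw [hj]; exact a1.symm
    rw [a3, prodj j, prodj j, a4, pr, prod_pair (by simp), map_mul, map_mul]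
    linear_combination (Φ (some (!j)) (some r) (E.gx.Bc (some (!j)) x) *
      conj (row E r h η (some (!j)) x) * (Φ none (some r) (E.gx.Bc none x) *
        conj (row E r h η none x))) * mc a2
  have e2 : (fun x => Φ (some (!j)) (some r) (E.gx.Bc (some (!j)) x) *
      conj (row E r h η (some (!j)) x)) =ᵐ[E.L2.W.μ]
      fun x => Φ (some (!j)) (some r) (c.Bc (!j) (E.Lw x)) *
        conj (ufn (h (!j)) (c.π r (c.Bc (!j) (E.Lw x)))) := by
    filter_upwards [k.sw r (!j) (h (!j))] with x a1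
    rw [← a1]
    rfl
  filter_upwards [hq, ratio rc E.L2.W.μ k.ble u1 u2, th_congr E.gx.β e1, th_congr E.gx.β e2,
    k.ceA r _ (um_bm u0)] with x a1 a2 a3 a4 a5 h1 h2
  exact a4 (a1 (a3 (a2 h1 ((congrArg norm a5).trans h2))))

end CLF

open CLF in
theorem clR : CLR := by
  intro fd az rc tz c E ci ok gi fu q j k g h Z hq hZ hsub
  have kE := kk fd az E gi
  have le2 : c.B2 ≤ c.W.ms := kE.lez.trans kE.kz.1.le
  have tm : ∀ u : Bool → Uni c.X.X, MeasurableSet[c.B2] (c.Θ u) := fun u => tz.meas _ _ _ _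
  obtain ⟨η, uη, hη⟩ := tz.ex c.B2 c.AZ c.W.μ _ kE.lez kE.kz.1.le (um_up g)
  obtain ⟨η', uη', hη'⟩ := tz.ex c.B2 c.AZ c.W.μ _ kE.lez kE.kz.1.le (um_up h)
  have mS := ((kE.msB q _ (tm g)).inter (kE.msA j _ (tm h))).inter (kE.msA k _ hZ).compl
  suffices hz : E.L2.W.μ ((((c.Bc q ∘ E.Lw) ⁻¹' c.Θ g) ∩ E.gx.A j ⁻¹' (E.pw ⁻¹' c.Θ h)) ∩
      (E.gx.A k ⁻¹' (E.pw ⁻¹' Z))ᶜ) = 0 by
    have m1 : MeasurableSet ((c.Bc q ⁻¹' c.Θ g ∩ c.A j ⁻¹' c.Θ h) ∩ (c.A k ⁻¹' Z)ᶜ) :=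
      (((c.lift q).emb.mp.measurable (le2 _ (tm g))).inter
        ((c.L2.emb _).mp.measurable (le2 _ (tm h)))).inter
        ((c.L2.emb _).mp.measurable (le2 _ hZ)).compl
    have h0 : c.W2.μ ((c.Bc q ⁻¹' c.Θ g ∩ c.A j ⁻¹' c.Θ h) ∩ (c.A k ⁻¹' Z)ᶜ) = 0 := by
      rw [← kE.mL.measure_preimage m1.nullMeasurableSet]
      refine measure_mono_null_ae ?_ hz
      filter_upwards [kE.sA j _ (le2 _ (tm h)), kE.sA k _ (le2 _ hZ)] with x a1 a2 hx
      exact ⟨⟨hx.1.1, a1.mp hx.1.2⟩, fun h' => hx.2 (a2.mpr h')⟩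
    filter_upwards [measure_eq_zero_iff_ae_notMem.1 h0] with x hx hm
    by_contra hn
    exact hx ⟨hm, hn⟩
  by_contra n0
  obtain ⟨E1, Φ, m1, s1, n1, hΦ, hj, t1, t2⟩ := CLF.ext fd kE fu j q g h uη' (tup_U E q g uη) hq _ mS n0
    (by filter_upwards [(kE.mB q).quasiMeasurePreserving.ae hη] with x a hx using a hx.1.1)
    (by filter_upwards [(kE.mw.comp (kE.mA j)).quasiMeasurePreserving.ae hη'] with x a hx
        using a hx.1.2)
  obtain ⟨⟨uz, huz⟩, -⟩ := hΦ none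
  have hγ : ∀ r : Bool, ∃ u : Uni c.X.X, (r = q → u = g k) ∧
      Φ (some r) (some k) = fun w => ufn u (c.π k w) := fun r => by
    rcases eq_or_ne r q with rfl | hne
    · exact ⟨g k, fun _ => rfl, by rw [hj]; rfl⟩
    · obtain ⟨⟨u, hu⟩, -⟩ := hΦ (some r)
      exact ⟨u k, fun e => absurd e hne, hu k⟩
  choose γ γ1 γ2 using hγ
  have swz : ∀ᵐ x ∂E.L2.W.μ, ufn (uz k) (E.pz (E.gx.A k x)) =
      ufn (uz k) (E.gx.π none k (E.Bz x)) :=
    fd.a.keq_fun E.Z.ms E.L2.W.μ E.Z.μ (E.pz ∘ E.gx.A k) (E.gx.π none k ∘ E.Bz) (ufn (uz k))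
      (kE.mz.comp (kE.mA k)) ((E.LZ.emb _).mp.comp E.liftz.emb.mp) (gi.col k none) (um_ufn _ _).1
  have e2 : (fun x => ∏ i, Φ i (some k) (E.gx.Bc i x)) =ᵐ[E.L2.W.μ]
      fun x => (fun y => c.up γ (E.pw y) * ufn (uz k) (E.pz y)) (E.gx.A k x) := by
    filter_upwards [kE.sw k true (γ true), kE.sw k false (γ false), swz] with x a1 a2 a3
    rw [prod3, γ2 true, γ2 false, huz k]
    show ufn (γ true) (c.π k (c.Bc true (E.Lw x))) * ufn (γ false) (c.π k (c.Bc false (E.Lw x))) *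
      ufn (uz k) (E.gx.π none k (E.Bz x)) = _
    rw [← a1, ← a2, ← a3]
    rfl
  have e3 := (kE.mw.comp (kE.mA k)).quasiMeasurePreserving.ae (hsub γ (γ1 q rfl))
  have e4 := (kE.mA k).quasiMeasurePreserving.ae (down fd tz kE (um_up γ) (uz k))
  have e5 := gi.rowE k _ (um_bm (um_mul (um_comp kE.mw (um_up γ)) (um_comp kE.mz (um_ufn _ (uz k)))))
  refine n1 (measure_eq_zero_iff_ae_notMem.2 ?_)
  filter_upwards [t2 (some k), condExp_congr_ae (m := E.gx.β) e2, e3, e4, e5]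
    with x a1 a2 a3 a4 a5 hx
  have b1 : ‖(E.L2.W.μ[fun x => ∏ i, Φ i (some k) (E.gx.Bc i x) | E.gx.β]) x‖ = 1 := a1 hx
  exact (s1 hx).2 (a3 (a4 ((congrArg norm (a2.trans a5)).symm.trans b1)))

open CLF in
theorem flxR : FLXR := by
  intro fd az rc tz c E ci ok gi fu g j
  have kE := kk fd az E gi
  have le2 : c.B2 ≤ c.W.ms := kE.lez.trans kE.kz.1.le
  have tm : ∀ u : Bool → Uni c.X.X, MeasurableSet[c.B2] (c.Θ u) := fun u => tz.meas _ _ _ _
  obtain ⟨η, uη, hη⟩ := tz.ex c.B2 c.AZ c.W.μ _ kE.lez kE.kz.1.le (um_up fun q => g q j)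
  choose η' uη' hη' using fun r => tz.ex c.B2 c.AZ c.W.μ _ kE.lez kE.kz.1.le (um_up (g r))
  have mS := (((kE.msA true _ (tm (g true))).inter (kE.msA false _ (tm (g false)))).inter
    (kE.msB j _ (tm fun q => g q j))).inter (kE.msB (!j) _ (tm fun q => g q (!j))).compl
  suffices hz : E.L2.W.μ (((E.gx.A true ⁻¹' (E.pw ⁻¹' c.Θ (g true)) ∩
      E.gx.A false ⁻¹' (E.pw ⁻¹' c.Θ (g false))) ∩ (c.Bc j ∘ E.Lw) ⁻¹' c.Θ fun q => g q j) ∩
      ((c.Bc (!j) ∘ E.Lw) ⁻¹' c.Θ fun q => g q (!j))ᶜ) = 0 by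
    have m1 : MeasurableSet ((c.A true ⁻¹' c.Θ (g true) ∩ c.A false ⁻¹' c.Θ (g false) ∩
        c.Bc j ⁻¹' c.Θ fun q => g q j) ∩ (c.Bc (!j) ⁻¹' c.Θ fun q => g q (!j))ᶜ) :=
      ((((c.L2.emb _).mp.measurable (le2 _ (tm _))).inter
        ((c.L2.emb _).mp.measurable (le2 _ (tm _)))).inter
        ((c.lift j).emb.mp.measurable (le2 _ (tm _)))).inter
        ((c.lift (!j)).emb.mp.measurable (le2 _ (tm _))).compl
    have h0 : c.W2.μ ((c.A true ⁻¹' c.Θ (g true) ∩ c.A false ⁻¹' c.Θ (g false) ∩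
        c.Bc j ⁻¹' c.Θ fun q => g q j) ∩ (c.Bc (!j) ⁻¹' c.Θ fun q => g q (!j))ᶜ) = 0 := by
      rw [← kE.mL.measure_preimage m1.nullMeasurableSet]
      refine measure_mono_null_ae ?_ hz
      filter_upwards [kE.sA true _ (le2 _ (tm (g true))), kE.sA false _ (le2 _ (tm (g false)))]
        with x a1 a2 hx
      exact ⟨⟨⟨a1.mp hx.1.1.1, a2.mp hx.1.1.2⟩, hx.1.2⟩, hx.2⟩
    filter_upwards [measure_eq_zero_iff_ae_notMem.1 h0] with x hx hm
    by_contra hn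
    exact hx ⟨hm, hn⟩
  by_contra n0
  have hr := fun r => (kE.mw.comp (kE.mA r)).quasiMeasurePreserving.ae (hη' r)
  obtain ⟨E1, Φ, m1, s1, n1, hΦ, hj, t1, t2⟩ := CLF.ext fd kE fu true j (fun q => g q j) (g true)
    (uη' true) (tupU1 _ _ _ (tup_U E j _ uη)) rfl _ mS n0
    (by filter_upwards [(kE.mB j).quasiMeasurePreserving.ae hη] with x a hx using a hx.1.2)
    (by filter_upwards [hr true] with x a hx using a hx.1.1.1)
  have uW : ∀ i r, Um (E.gx.W i).ms (E.gx.W i).μ (Φ i r) := fun i r =>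
    um_mono (hΦ i r) (sup_le (az.facZ _ _ r (ok.kc i).1).le
      (fd.h.kc _ _ (E.gx.L i).nice (fd.lb.fac _ _ (ok.kc i).1)).1.le)
  have o := fun r => one_row fd rc kE gi r j (g r) (uη' r) Φ
    (fun i => um_pull fd (ok.lift i).emb.mp _ (uW i (some r))) (by rw [hj]; rfl)
  have uc : ∀ r, Um E.L2.W.ms E.L2.W.μ fun x => Φ (some (!j)) r (c.Bc (!j) (E.Lw x)) :=
    fun r => um_comp (kE.mB (!j)) (uW (some (!j)) r)
  have ug : ∀ r, Um E.L2.W.ms E.L2.W.μ fun x => ufn (g r (!j)) (c.π r (c.Bc (!j) (E.Lw x))) :=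
    fun r => um_comp ((mpP c r).comp (kE.mB (!j))) (um_ufn _ _)
  have uq := fun r => um_mul_conj (uc (some r)) (ug r)
  have uP : Um c.W.ms c.W.μ (pr (Φ (some (!j))) univ) := um_pr3 (uW (some (!j)))
  have uP' : Um E.L2.W.ms E.L2.W.μ fun x => pr (Φ (some (!j))) univ (c.Bc (!j) (E.Lw x)) :=
    um_comp (kE.mB (!j)) uP
  have uz : Um c.AZ c.W.μ (Φ (some (!j)) none) :=
    um_mono (hΦ (some (!j)) none) (sup_le le_rfl kE.lez)
  have u0 := um_mul (um_up fun q => g q (!j)) (um_mono uz kE.kz.1.le)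
  have e1 : (fun x => pr (Φ (some (!j))) univ (c.Bc (!j) (E.Lw x)) *
      conj ((Φ (some (!j)) (some true) (c.Bc (!j) (E.Lw x)) *
        conj (ufn (g true (!j)) (c.π true (c.Bc (!j) (E.Lw x))))) *
        (Φ (some (!j)) (some false) (c.Bc (!j) (E.Lw x)) *
        conj (ufn (g false (!j)) (c.π false (c.Bc (!j) (E.Lw x))))))) =ᵐ[E.L2.W.μ]
      fun x => c.up (fun q => g q (!j)) (c.Bc (!j) (E.Lw x)) *
        Φ (some (!j)) none (c.Bc (!j) (E.Lw x)) := by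
    filter_upwards [(uc (some true)).2, (uc (some false)).2] with x a1 a2
    rw [pr, prod3]
    simp only [map_mul, Complex.conj_conj, Cx.up]
    have b1 := mc a1
    have b2 := mc a2
    generalize Φ (some (!j)) (some true) (c.Bc (!j) (E.Lw x)) = p at b1 ⊢
    generalize Φ (some (!j)) (some false) (c.Bc (!j) (E.Lw x)) = p' at b2 ⊢
    generalize Φ (some (!j)) none (c.Bc (!j) (E.Lw x)) = z
    generalize ufn (g true (!j)) (c.π true (c.Bc (!j) (E.Lw x))) = s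
    generalize ufn (g false (!j)) (c.π false (c.Bc (!j) (E.Lw x))) = s'
    linear_combination (s * s' * z * (p' * conj p')) * b1 + (s * s' * z) * b2
  have e2 := (kE.mB (!j)).quasiMeasurePreserving.ae
    (tz.le c.B2 c.AZ c.W.μ _ _ kE.lez kE.kz.1.le (um_up fun q => g q (!j)) uz)
  refine n1 (measure_eq_zero_iff_ae_notMem.2 ?_)
  filter_upwards [t1 (some (!j)), t2 (some true), t2 (some false), o true, o false, hr true,
    hr false, rc.mul E.gx.β E.gx.W2.μ _ _ kE.ble (uq true) (uq false),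
    ratio rc E.L2.W.μ kE.ble uP' (um_mul (uq true) (uq false)), th_congr E.gx.β e1,
    kE.ceB (!j) _ (um_bm uP), kE.ceB (!j) _ (um_bm u0), e2]
    with x a1 a2 a3 a4 a5 a6 a7 a8 a9 a10 a11 a12 a13 hx
  have hS := s1 hx
  have b1 := a8 ⟨a4 (a2 hx) (a6 hS.1.1.1), a5 (a3 hx) (a7 hS.1.1.2)⟩
  have b2 := a10 (a9 ((congrArg norm a11).trans (a1 hx)) b1)
  exact hS.2 (a13 ((congrArg norm a12).symm.trans b2))

end T5y

end

end PkXCL
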