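import Pool.Agent.MP_154433_an.p8.P3
import Pool.Agent.MP_154433_an.p8.G2
import Pool.Agent.MP_154433_an.p5.T6

/-! Twisted line, part 10 (packed). -/

section PkXAz

/-! More facts on the third slot. -/

set_option autoImplicit false
set_option linter.unusedVariables false
set_option warn.classDefReducibility false

open MeasureTheory ProbabilityTheory Filter Topology Function Finset ComplexConjugate
open scoped BigOperators
open Fib27 (BM sup pr Oc Orow F23 LInd Mem)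

noncomputable section

namespace T5y

open T3x

theorem azX : AzXR := by
  intro F az
  have facP : ∀ {ν U} {X : Sys} (L : Ln ν U X) s, Fac L.W (L.P s) := fun L s =>
    F.t.fpull _ _ _ _ (L.emb s) (F.t.top _)
  refine ⟨az, fun L' L p Lp B B' he hL hB hB' hle q => ?_, fun L B q hB => ?_,
    fun L B k hB => ?_, fun L B q => ?_, fun β p m0 μ _ hβ hp h S hS => ?_⟩
  · unfold OB
    rw [F.a.pull_sup]
    exact sup_le_sup (Sat.pull_P F L' L p Lp _ he hL) (az.lift L' L p Lp B B' he hL hB hB' hle)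
  · exact F.t.fsup _ _ _ (facP L _) (az.kc L B hB).1
  · rcases k with _ | k
    exacts [(az.kc L B hB).1, facP L _]
  · have e : (univ : Finset I3).erase (some q) = {some (!q), none} := by cases q <;> decide
    rw [e, Fib27.sup, Finset.iSup_insert, Finset.iSup_singleton, sup_assoc]
    exact congrArg (_ ⊔ ·) (sup_eq_left.2 (az.b2 L B))
  · obtain ⟨o, ho⟩ : ∃ o, o ∉ S := by
      by_contra h
      exact hS (eq_univ_iff_forall.2 fun o => by_contra fun ho => h ⟨o, ho⟩)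
    have pr2 := fun a b (hab : a ≠ b) => T5h.GCtx.pair β p μ hab (h a b hab)
    rcases o with _ | _ | _
    · refine F.c.sub _ _ _ S _ hβ hp (fun x hx => ?_) (pr2 (some true) (some false) (by simp))
      rcases x with _ | _ | _ <;> simp_all
    · refine F.c.sub _ _ _ S _ hβ hp (fun x hx => ?_) (pr2 (some true) none (by simp))
      rcases x with _ | _ | _ <;> simp_all
    · refine F.c.sub _ _ _ S _ hβ hp (fun x hx => ?_) (pr2 (some false) none (by simp))
      rcases x with _ | _ | _ <;> simp_all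

end T5y

end

end PkXAz

section PkXTh

/-! Row XTh: the events on which a function is determined by a larger factor. -/

set_option autoImplicit false
set_option linter.unusedVariables false
set_option warn.classDefReducibility false

open MeasureTheory ProbabilityTheory Filter Topology Function Finset ComplexConjugate
open scoped BigOperators
open Fib27 (BM sup pr Oc Orow F23 LInd Mem)

noncomputable section

namespace T5y

open T3x

namespace XThL

open T5h T5h.GR2x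

variable {Ω : Type} {A : MeasurableSpace Ω} {m0 : MeasurableSpace Ω} {μ : Measure Ω}

theorem um_mul {F η : Ω → ℂ} (h : A ≤ m0) (hF : Um m0 μ F) (hη : Um A μ η) :
    Um m0 μ fun x => F x * η x := by
  refine ⟨((um_bm hF).mul ((um_bm hη).mono h)).1, ?_⟩
  filter_upwards [hF.2, hη.2] with x a1 a2
  rw [norm_mul, a1, a2, one_mul]

theorem bm_norm {F : Ω → ℂ} (hF : BM μ m0 F) : BM μ m0 fun x => ((‖F x‖ : ℝ) : ℂ) := by
  obtain ⟨h1, C, hC⟩ := hF
  exact ⟨Complex.continuous_ofReal.comp_aestronglyMeasurable h1.norm, C,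
    hC.mono fun x hx => by simpa using hx⟩

end XThL

open XThL T5h T5h.GR2x in
theorem thC : ThCR := by
  intro fd rc
  have r2 := xR2a fd rc
  refine ⟨r2.meas, fun B A _ μ F F' h => eventuallyEq_set.2 (r2.congr B A μ F F' h), ?_, ?_, ?_⟩
  · intro Ω B A m0 μ _ F η h1 h2 hF hη
    have hm := um_mul h2 hF hη
    refine r2.of B A μ F (fun x => (μ[fun x => F x * η x | B]) x * conj (η x)) _ h1 h2 hF
      ((((um_bm hm).ce B).mono h1).mul (um_bm hη).conj)
      (rc.meas B μ _) ?_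
    filter_upwards [rc.eq B μ _ (h1.trans h2) hm, hη.2] with x a1 a2 hx
    rw [← a1 hx, mul_assoc, Complex.mul_conj', a2]
    simp
  · intro Ω B A m0 μ _ F h1 h2 hF
    have hη : Um A μ fun x => GCm.ph ((μ[F | A]) x) :=
      ⟨(GCm.ph_meas.comp stronglyMeasurable_condExp.measurable).stronglyMeasurable.aestronglyMeasurable,
        Eventually.of_forall fun x => GCm.ph_norm _⟩
    refine ⟨_, hη, rc.of B μ _ (fun _ => (1 : ℂ)) _ (h1.trans h2) (um_mul h2 hF hη) (BM.const 1)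
      (r2.meas B A μ F) ?_⟩
    filter_upwards [r2.le B A μ F h1 h2 hF] with x a hx
    rw [(a hx).2, mul_comm]
    exact GCm.ph_mul (a hx).1
  · intro Ω Ω' B A B' A' m0 m0' μ μ' _ _ p F hp hF h1 h2 h3
    have hg : Integrable (fun v => ‖(μ[F | A]) v‖) μ := int_norm F
    have e2 : μ'[fun v => ‖(μ'[fun y => F (p y) | A']) v‖ | B'] =ᵐ[μ']
        μ'[fun v => ‖(μ[F | A]) (p v)‖ | B'] :=
      condExp_congr_ae (h1.mono fun x hx => by simp only [hx])
    refine eventuallyEq_set.2 ?_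
    filter_upwards [e2, h3 _ (bm_norm ((hF.ce A).mono h2)),
      ce_real (β := B') (g := fun v => ‖(μ[F | A]) (p v)‖) (hp.integrable_comp_of_integrable hg),
      hp.quasiMeasurePreserving.ae (ce_real (β := B) hg)] with x a2 a3 a4 a5
    change (μ'[fun v => ‖(μ'[fun y => F (p y) | A']) v‖ | B']) x = 1 ↔
      (μ[fun v => ‖(μ[F | A]) v‖ | B]) (p x) = 1
    rw [a2, Complex.ofReal_injective (a4.symm.trans (a3.trans a5))]

end T5y

end

end PkXTh

section PkXSat

/-! Saturated extensions at the two point slots. -/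

set_option autoImplicit false
set_option linter.unusedVariables false
set_option warn.classDefReducibility false

open MeasureTheory ProbabilityTheory Filter Topology Function Finset ComplexConjugate
open scoped BigOperators
open Fib27 (BM sup pr)

noncomputable section

namespace T5y

open T3x

namespace XSatL

open T3x.Sat (mae mcomp mint bm_comp close dense Ob)

variable {ν : Wt} {U : Ultrafilter ℕ}

/-- the energy of a function in one slot with respect to the other slots and the base -/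
def en {X : Sys} (L : Ln ν U X) (B : MeasurableSpace X.X) (q : Bool)
    (g : X.X → ℂ) : ℝ :=
  ∫ w, ‖(L.W.μ[fun v => g (L.π (zs q) v) | OB L B q]) w‖ ^ 2 ∂L.W.μ

theorem en_congr {X : Sys} (L : Ln ν U X) (B : MeasurableSpace X.X) (q : Bool)
    {g g' : X.X → ℂ} (h : g =ᵐ[X.μ] g') : en L B q g = en L B q g' := by
  have h1 : (fun v => g (L.π (zs q) v)) =ᵐ[L.W.μ] fun v => g' (L.π (zs q) v) :=
    mae (L.emb (zs q)).mp h
  refine integral_congr_ae ?_
  filter_upwards [condExp_congr_ae (m := OB L B q) h1] with w hw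
  rw [hw]

theorem en_le {X : Sys} (L : Ln ν U X) (B : MeasurableSpace X.X) (q : Bool)
    {g : X.X → ℂ} {C : ℝ} (h : ∀ᵐ x ∂X.μ, ‖g x‖ ≤ C) : en L B q g ≤ C ^ 2 := by
  have h1 : ∀ᵐ v ∂L.W.μ, ‖g (L.π (zs q) v)‖ ≤ C :=
    mae (L.emb (zs q)).mp h
  have h2 := ae_bdd_norm_condExp_of_ae_bdd_norm (m := OB L B q) h1
  have h3 : en L B q g ≤ ∫ _w, C ^ 2 ∂L.W.μ := by
    refine integral_mono_of_nonneg (Eventually.of_forall fun w => by positivity)
      (integrable_const _) ?_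
    filter_upwards [h2] with w hw
    exact pow_le_pow_left₀ (norm_nonneg _) hw 2
  simpa using h3

theorem key (F : Fd) (az : AzX) {X' X : Sys} (L' : Ln ν U X') (L : Ln ν U X) (B' : MeasurableSpace X'.X)
    (B : MeasurableSpace X.X) (p : X'.X → X.X) (Lp : L'.W.X → L.W.X) (q : Bool)
    (he : Emb X' X p) (hB : Fac X B) (hB' : Fac X' B') (hle : pull X'.μ p B ≤ B')
    (hL : IsLift L' L p Lp) (g : X.X → ℂ) (hg : BM X.μ X.ms g) :
    en L B q g ≤ en L' B' q (fun x => g (p x)) ∧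
      (en L' B' q (fun x => g (p x)) ≤ en L B q g →
        L'.W.μ[fun w => g (L.π (zs q) (Lp w)) | OB L' B' q] =ᵐ[L'.W.μ]
          L'.W.μ[fun w => g (L.π (zs q) (Lp w)) | pull L'.W.μ Lp (OB L B q)]) := by
  have b1 : BM L.W.μ L.W.ms fun v => g (L.π (zs q) v) := bm_comp F (L.emb (zs q)).mp hg
  have b2 : BM L'.W.μ L'.W.ms fun w => g (L.π (zs q) (Lp w)) := bm_comp F hL.emb.mp b1
  have e1 := F.a.ce_comp (OB L B q) L'.W.μ L.W.μ Lp (fun v => g (L.π (zs q) v)) hL.emb.mp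
    ((az.facO L B q hB).le) b1.integrable
  have e2 : (fun w => g (L.π (zs q) (Lp w))) =ᵐ[L'.W.μ] fun w => g (p (L'.π (zs q) w)) :=
    F.a.keq_fun X.ms L'.W.μ X.μ (L.π (zs q) ∘ Lp) (p ∘ L'.π (zs q)) g
      (mcomp (L.emb (zs q)).mp hL.emb.mp) (mcomp he.mp (L'.emb (zs q)).mp)
      (F.la.slot L' L p Lp (zs q) he hL) hg.1
  have e3 : en L B q g = ∫ w, ‖(L'.W.μ[fun w => g (L.π (zs q) (Lp w)) |
      pull L'.W.μ Lp (OB L B q)]) w‖ ^ 2 ∂L'.W.μ := by
    unfold en
    rw [← mint hL.emb.mp ((b1.ce (OB L B q)).mono ((az.facO L B q hB).le))]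
    refine integral_congr_ae ?_
    filter_upwards [e1] with w hw
    rw [hw]
  have e4 : en L' B' q (fun x => g (p x)) = ∫ w, ‖(L'.W.μ[fun w => g (L.π (zs q) (Lp w)) |
      OB L' B' q]) w‖ ^ 2 ∂L'.W.μ := by
    refine integral_congr_ae ?_
    filter_upwards [condExp_congr_ae (m := OB L' B' q) e2] with w hw
    rw [hw]
  rw [e3, e4]
  exact F.d.eqn _ _ L'.W.μ (az.ob L' L p Lp B B' he hL hB hB' hle q) ((az.facO L' B' q hB').le) _
    (b2.memLp 2)

theorem en_mono (F : Fd) (az : AzX) {X' X : Sys} (L' : Ln ν U X') (L : Ln ν U X) (B' : MeasurableSpace X'.X)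
    (B : MeasurableSpace X.X) (p : X'.X → X.X) (q : Bool)
    (he : Emb X' X p) (hB : Fac X B) (hB' : Fac X' B') (hle : pull X'.μ p B ≤ B')
    (g : X.X → ℂ) (hg : BM X.μ X.ms g) : en L B q g ≤ en L' B' q (fun x => g (p x)) := by
  obtain ⟨Lp, hL⟩ := F.la.ex L' L p he
  exact (key F az L' L B' B p Lp q he hB hB' hle hL g hg).1

/-- the extension `Z` maximises every energy among the admissible extensions of `X` -/
def Mx (ν : Wt) (U : Ultrafilter ℕ) (Z : Sys) (C : MeasurableSpace Z.X) (X : Sys)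
    (B : MeasurableSpace X.X) (r : Z.X → X.X) : Prop :=
  ∀ (LZ : Ln ν U Z) (Y : Sys) (D : MeasurableSpace Y.X) (p : Y.X → X.X) (LY : Ln ν U Y),
    Adm Y D X B p → ∀ (q : Bool) (f : X.X → ℂ), BM X.μ X.ms f →
    en LY D q (fun y => f (p y)) ≤ en LZ C q fun z => f (r z)

theorem near (F : Fd) (az : AzX) (A : SatA) (X : Sys) (B : MeasurableSpace X.X)
    (hX : Nice X) (hB : KC X B) (q : Bool) (f : X.X → ℂ) (hf : BM X.μ X.ms f) (ε : ℝ) (hε : 0 < ε) :
    ∃ (Y : Sys) (D : MeasurableSpace Y.X) (p : Y.X → X.X) (LY : Ln ν U Y), Adm Y D X B p ∧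
      ∀ (Y' : Sys) (D' : MeasurableSpace Y'.X) (p' : Y'.X → X.X) (LY' : Ln ν U Y'),
        Adm Y' D' X B p' →
        en LY' D' q (fun y => f (p' y)) ≤ en LY D q (fun y => f (p y)) + ε := by
  let S : Set ℝ := {e | ∃ (Y : Sys) (D : MeasurableSpace Y.X) (p : Y.X → X.X) (LY : Ln ν U Y),
    Adm Y D X B p ∧ e = en LY D q fun y => f (p y)}
  have hne : S.Nonempty := by
    obtain ⟨Z, C, r, e, h, -⟩ := A.amal X B Empty (fun k => k.elim) (fun k => k.elim)
      (fun k => k.elim) hX hB (fun k => k.elim)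
    obtain ⟨LZ⟩ := F.line ν U Z h.nice
    exact ⟨_, Z, C, r, LZ, h, rfl⟩
  obtain ⟨_, C, hC⟩ := hf
  have hbd : BddAbove S := by
    refine ⟨C ^ 2, ?_⟩
    rintro _ ⟨Y, D, p, LY, h, rfl⟩
    exact en_le LY D q (mae h.emb.mp hC)
  obtain ⟨_, ⟨Y, D, p, LY, h, rfl⟩, hlt⟩ :=
    exists_lt_of_lt_csSup hne (show sSup S - ε < sSup S by linarith)
  refine ⟨Y, D, p, LY, h, fun Y' D' p' LY' h' => ?_⟩
  have := le_csSup hbd (show _ ∈ S from ⟨Y', D', p', LY', h', rfl⟩)
  linarith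

theorem step (F : Fd) (az : AzX) (A : SatA) (ν : Wt) (U : Ultrafilter ℕ) (X : Sys)
    (B : MeasurableSpace X.X) (hX : Nice X) (hB : KC X B) :
    ∃ (Z : Sys) (C : MeasurableSpace Z.X) (r : Z.X → X.X), Adm Z C X B r ∧ Mx ν U Z C X B r := by
  have h := fun k : Bool × {f : X.X → ℂ // BM X.μ X.ms f} × {ε : ℝ // 0 < ε} =>
    near (ν := ν) (U := U) F az A X B hX hB k.1 k.2.1.1 k.2.1.2 k.2.2.1 k.2.2.2
  choose Y D p LY h1 h2 using h
  obtain ⟨Z, C, r, e, hZ, he⟩ := A.amal X B _ Y D p hX hB h1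
  refine ⟨Z, C, r, hZ, fun LZ Y' D' p' LY' h' q f hf => ?_⟩
  refine le_of_forall_pos_le_add fun ε hε => ?_
  let k : Bool × {f : X.X → ℂ // BM X.μ X.ms f} × {ε : ℝ // 0 < ε} := (q, ⟨f, hf⟩, ⟨ε, hε⟩)
  have a1 := h2 k Y' D' p' LY' h'
  have a2 := en_mono F az LZ (LY k) C (D k) (e k) q (he k).1 (h1 k).kc.1 hZ.kc.1 (he k).2.1
    (fun y => f (p k y)) (bm_comp F (h1 k).emb.mp hf)
  have a3 : (fun z => f (p k (e k z))) =ᵐ[Z.μ] fun z => f (r z) :=
    F.a.keq_fun X.ms Z.μ X.μ (p k ∘ e k) r f (mcomp (h1 k).emb.mp (he k).1.mp) hZ.emb.mp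
      (he k).2.2 hf.1
  have a4 := en_congr LZ C q a3
  simp only [k] at a1 a2 a4
  linarith

theorem fin (F : Fd) (az : AzX) (X : ℕ → Sys) (B : ∀ k, MeasurableSpace (X k).X)
    (p : ∀ k, (X (k + 1)).X → (X k).X) (hn : ∀ k, Nice (X k)) (hB : ∀ k, KC (X k) (B k))
    (hp : ∀ k, Adm (X (k + 1)) (B (k + 1)) (X k) (B k) (p k))
    (hm : ∀ k, Mx ν U (X (k + 1)) (B (k + 1)) (X k) (B k) (p k)) (Z : Sys)
    (C : MeasurableSpace Z.X) (e : ∀ k, Z.X → (X k).X) (he : ∀ k, Adm Z C (X k) (B k) (e k))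
    (hk : ∀ k, KEq Z.μ (X k).ms (p k ∘ e (k + 1)) (e k))
    (hg : Z.ms ≤ ⨆ k, pull Z.μ (e k) (X k).ms) (LZ : Ln ν U Z) : SAT LZ C := by
  intro Y D r LY Lr hr hL q f hf
  have hC : Fac Z C := (he 0).kc.1
  have mp := mcomp (LZ.emb (zs q)).mp hL.emb.mp
  have b1 : BM LZ.W.μ LZ.W.ms fun v => f (LZ.π (zs q) v) := bm_comp F (LZ.emb (zs q)).mp hf
  refine EventuallyEq.trans ?_ (F.a.ce_comp (OB LZ C q) LY.W.μ LZ.W.μ Lr
    (fun v => f (LZ.π (zs q) v)) hL.emb.mp ((az.facO LZ C q hC).le) b1.integrable)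
  refine close F _ _ LY.W.μ (az.ob LY LZ r Lr C D hr.emb hL hC hr.kc.1 hr.le q)
    ((az.facO LY D q hr.kc.1).le) _ (bm_comp F mp hf) fun ε hε => ?_
  obtain ⟨k, g, hg1, hg2⟩ := dense F X p Z e (fun k => (hp k).emb) (fun k => (he k).emb) hk hg f hf
    ε hε
  have b2 : BM Z.μ Z.ms fun z => g (e k z) := bm_comp F (he k).emb.mp hg1
  refine ⟨fun w => g (e k (LZ.π (zs q) (Lr w))), bm_comp F mp b2, ?_, le_trans (le_of_eq ?_) hg2⟩
  · refine (key F az LY LZ D C r Lr q hr.emb hC hr.kc.1 hr.le hL _ b2).2 ?_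
    obtain ⟨L1⟩ := F.line ν U (X (k + 1)) (hn (k + 1))
    have a1 := hm k L1 Y D (e k ∘ r) LY (F.h.trans Y Z (X k) D C (B k) r (e k) (hB k).1 hr (he k))
      q g hg1
    have a2 := en_mono F az LZ L1 C (B (k + 1)) (e (k + 1)) q (he (k + 1)).emb (hB (k + 1)).1 hC
      (he (k + 1)).le (fun y => g (p k y)) (bm_comp F (hp k).emb.mp hg1)
    have a3 : (fun z => g (p k (e (k + 1) z))) =ᵐ[Z.μ] fun z => g (e k z) :=
      F.a.keq_fun (X k).ms Z.μ (X k).μ (p k ∘ e (k + 1)) (e k) g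
        (mcomp (hp k).emb.mp (he (k + 1)).emb.mp) (he k).emb.mp (hk k) hg1.1
    exact (a1.trans a2).trans (le_of_eq (en_congr LZ C q a3))
  · exact mint mp (hf.sub b2)

end XSatL

theorem satR5 : SatR5 := by
  intro F A az ν U X B hX hB
  have h := fun o : T3x.Sat.Ob => XSatL.step F az A ν U o.X o.B o.nice o.kc
  choose Z C r h1 h2 using h
  let s : ℕ → T3x.Sat.Ob := fun k =>
    Nat.rec ⟨X, B, hX, hB⟩ (fun _ o => ⟨Z o, C o, (h1 o).nice, (h1 o).kc⟩) k
  obtain ⟨Y, D, e, he, hk, hg⟩ := A.lim (fun k => (s k).X) (fun k => (s k).B) (fun k => r (s k))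
    hX hB fun k => h1 (s k)
  obtain ⟨LY⟩ := F.line ν U Y (he 0).nice
  exact ⟨Y, D, e 0, LY, he 0, XSatL.fin F az (fun k => (s k).X) (fun k => (s k).B)
    (fun k => r (s k)) (fun k => (s k).nice) (fun k => (s k).kc) (fun k => h1 (s k))
    (fun k => h2 (s k)) Y D e he hk hg LY⟩

end T5y

end

end PkXSat

section PkXCore

/-! Row Core: the core theorem descends from a saturated extension. -/

set_option autoImplicit false
set_option linter.unusedVariables false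
set_option warn.classDefReducibility false

open MeasureTheory ProbabilityTheory Filter Topology Function Finset ComplexConjugate
open scoped BigOperators
open Fib27 (BM sup pr Oc Orow F23 LInd Mem)
open Pool.Agent.MP_154433_an.SG (Uni ufn)

noncomputable section

namespace T5y

open T3x

namespace XCoreL

theorem ae_comp {Ω Ω' : Type} {m : MeasurableSpace Ω} {m' : MeasurableSpace Ω'} {μ : Measure Ω}
    {μ' : Measure Ω'} {p : Ω → Ω'} (h : MeasurePreserving p μ μ') {f : Ω' → ℂ}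
    (e : f =ᵐ[μ'] 0) : (fun x => f (p x)) =ᵐ[μ] 0 :=
  h.quasiMeasurePreserving.ae_eq_comp e

theorem of_comp {Ω Ω' : Type} {m : MeasurableSpace Ω} {m' : MeasurableSpace Ω'} {μ : Measure Ω}
    {μ' : Measure Ω'} {p : Ω → Ω'} (h : MeasurePreserving p μ μ') {f : Ω' → ℂ}
    (hf : StronglyMeasurable f) (e : (fun x => f (p x)) =ᵐ[μ] 0) : f =ᵐ[μ'] 0 := by
  rw [← h.map_eq]
  exact (ae_map_iff h.measurable.aemeasurable
    (hf.measurableSet_eq_fun stronglyMeasurable_zero)).2 e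

theorem mpc {Z Y X : Sys} {p : Z.X → Y.X} {q : Y.X → X.X} (hp : Emb Z Y p) (hq : Emb Y X q) :
    MeasurePreserving (q ∘ p) Z.μ X.μ := hq.mp.comp hp.mp

theorem ms {Y X : Sys} {p : Y.X → X.X} (hp : Emb Y X p) : Measurable p := hp.mp.measurable

end XCoreL

open XCoreL in
theorem coreR : CoreR := by
  intro fd az sat step ν U hU uw X B L hX hB f f' F hf hf' h0 hF
  obtain ⟨X', B', p, L', adm, hs⟩ := sat ν U X B hX hB
  obtain ⟨Lp, hL⟩ := fd.la.ex L' L p adm.emb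
  have hp := adm.emb.mp
  have hq := hL.emb.mp
  have core : Core L' B' := not_not.1 (step (mkCx fd hU uw L' adm.nice adm.kc) hs)
  have bm : ∀ g, BM X.μ X.ms g → BM X'.μ X'.ms fun x => g (p x) := fun g hg =>
    (fd.a.bm_comp X.ms X'.μ X.μ p g hp hg).mono (fd.a.pull_le X.ms X'.μ X.μ p hp le_rfl)
  have bl : ∀ g q, BM X.μ X.ms g → BM L.W.μ L.W.ms fun w => g (L.π (zs q) w) := fun g q hg =>
    (fd.a.bm_comp X.ms L.W.μ X.μ _ g (L.emb _).mp hg).mono
      (fd.a.pull_le X.ms L.W.μ X.μ _ (L.emb _).mp le_rfl)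
  have z : X'.μ[fun x => f (p x) | B'] =ᵐ[X'.μ] 0 :=
    ((adm.cp _ (fd.a.bm_comp X.ms X'.μ X.μ p f hp hf)).trans
      (fd.a.ce_comp B X'.μ X.μ p f hp hB.1.le hf.integrable)).trans
      (ae_comp hp h0)
  have h1 := core _ _ _ (bm f hf) (bm f' hf') z
    (az.comp (m := X.ms) (m' := X'.ms) p (ms adm.emb) F hF)
  have sl : ∀ g q, BM X.μ X.ms g → (fun w => g (L.π (zs q) (Lp w))) =ᵐ[L'.W.μ]
      fun w => g (p (L'.π (zs q) w)) := fun g q hg =>
    fd.a.keq_fun X.ms L'.W.μ X.μ _ _ g (mpc hL.emb (L.emb _)) (mpc (L'.emb _) adm.emb)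
      (fd.la.slot L' L p Lp (zs q) adm.emb hL) hg.1
  have hG : BM L.W.μ L.W.ms fun w => f (L.π (zs true) w) * f' (L.π (zs false) w) * L.hat F w :=
    ((bl f true hf).mul (bl f' false hf')).mul ((az.bm L F hF).mono (az.facP L).le)
  have e : (fun w => f (L.π (zs true) (Lp w)) * f' (L.π (zs false) (Lp w)) * L.hat F (Lp w))
      =ᵐ[L'.W.μ] fun w => f (p (L'.π (zs true) w)) * f' (p (L'.π (zs false) w)) *
        L'.hat (fun z => F (z.1, p z.2)) w := by
    filter_upwards [sl f true hf, sl f' false hf', hL.hat F (az.fam (m := X.ms) F hF)] with w a b c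
    rw [a, b, c]
  have le1 := fd.la.shp L' L p Lp B B' adm.emb hL hB.1 adm.kc.1 adm.le
  have le2 := (fd.lb.fac L' B' adm.kc.1).le
  have c1 := fd.a.ce_comp (L.shp B) L'.W.μ L.W.μ Lp _ hq (fd.lb.fac L B hB.1).le hG.integrable
  have c2 : (fun w => (L.W.μ[fun w => f (L.π (zs true) w) * f' (L.π (zs false) w) * L.hat F w |
      L.shp B]) (Lp w)) =ᵐ[L'.W.μ] 0 := by
    refine c1.symm.trans ((condExp_condExp_of_le le1 le2).symm.trans ?_)
    refine (condExp_congr_ae ((condExp_congr_ae e).trans h1)).trans ?_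
    rw [condExp_zero]
  exact of_comp hq (stronglyMeasurable_condExp.mono (fd.lb.fac L B hB.1).le) c2

end T5y

end

end PkXCore

section PkXEx

/-! Row Ex: the extension of the line that carries a saturated third slot. -/

set_option autoImplicit false
set_option linter.unusedVariables false
set_option warn.classDefReducibility false

open MeasureTheory ProbabilityTheory Filter Topology Function Finset ComplexConjugate
open scoped BigOperators
open Fib27 (BM sup pr Oc Orow F23 LInd Mem)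

noncomputable section

namespace T5y

open T3x T3x.SatAx

namespace XExL

/-- a smaller outer algebra -/
theorem cp_mono {Ω : Type} {Y D C C' : MeasurableSpace Ω} {m0 : MeasurableSpace Ω}
    {μ : Measure Ω} [IsProbabilityMeasure μ] (hC : C ≤ m0) (h1 : D ≤ C') (h2 : C' ≤ C)
    (h : CP Y D C μ) : CP Y D C' μ := by
  intro f hf
  have e1 : μ[μ[f | C] | C'] =ᵐ[μ] μ[f | C'] := condExp_condExp_of_le h2 hC
  have e2 : μ[μ[f | D] | C'] = μ[f | D] :=
    condExp_of_stronglyMeasurable (h2.trans hC) (stronglyMeasurable_condExp.mono h1)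
      integrable_condExp
  exact e1.symm.trans ((condExp_congr_ae (h f hf)).trans (EventuallyEq.of_eq e2))

/-- a chain of two conditional independences -/
theorem cp_chain {Ω : Type} {Y A Z D C : MeasurableSpace Ω} {m0 : MeasurableSpace Ω}
    {μ : Measure Ω} [IsProbabilityMeasure μ] (hZ : Z ≤ m0) (hA : A ≤ m0) (h1 : C ≤ Z)
    (h2 : D ≤ A) (hY : Y ≤ m0) (h : CP Y A Z μ) (h' : CP A D C μ) : CP Y D C μ := by
  intro f hf
  have e1 : μ[μ[f | Z] | C] =ᵐ[μ] μ[f | C] := condExp_condExp_of_le h1 hZ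
  have e2 : μ[μ[f | A] | D] =ᵐ[μ] μ[f | D] := condExp_condExp_of_le h2 hA
  exact e1.symm.trans ((condExp_congr_ae (h f hf)).trans ((h' _ (hf.ce A)).trans e2))

def two (W Z : Sys) : Bool → Sys
  | false => W
  | true => Z

def twoq (W Z : Sys) (r : Z.X → W.X) : ∀ b, (two W Z b).X → W.X
  | false => id
  | true => r

def twof (W Z : Sys) (f : W.X → ℂ) (g : Z.X → ℂ) : ∀ b, (two W Z b).X → ℂ
  | false => f
  | true => g

/-- the relative product of a system and an extension over a factor -/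
theorem prod (fd : Fd) (W Z : Sys) (A : MeasurableSpace W.X) (r : Z.X → W.X) (nW : Nice W)
    (nZ : Nice Z) (hA : Fac W A) (hr : Emb Z W r) :
    ∃ (Y : Sys) (pw : Y.X → W.X) (pz : Y.X → Z.X), Nice Y ∧ Emb Y W pw ∧ Emb Y Z pz ∧
      KEq Y.μ A (r ∘ pz) pw ∧ CP (pull Y.μ pw W.ms) (pull Y.μ pw A) (pull Y.μ pz Z.ms) Y.μ := by
  obtain ⟨Y, e, rp⟩ := fd.rp Bool (two W Z) W A (twoq W Z r) false
    (fun b => by cases b; exacts [nW, nZ]) hA
    (fun b => by cases b; exacts [MeasurePreserving.id _, hr.mp])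
    (fun b => by
      cases b
      · exact fun _ _ => EventuallyEq.rfl
      · exact keq_mono (fd.t.emb_z _ _ _ 1 hr) hA.le)
  obtain ⟨pw, hpw⟩ : ∃ pw : Y.X → W.X, pw = e false := ⟨_, rfl⟩
  obtain ⟨pz, hpz⟩ : ∃ pz : Y.X → Z.X, pz = e true := ⟨_, rfl⟩
  have ew : Emb Y W pw := by rw [hpw]; exact rp.emb false
  have ez : Emb Y Z pz := by rw [hpz]; exact rp.emb true
  have k : KEq Y.μ A (r ∘ pz) pw := by rw [hpw, hpz]; exact rp.com true
  have ind : ∀ (f : W.X → ℂ) (g : Z.X → ℂ), BM W.μ W.ms f → BM Z.μ Z.ms g →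
      Y.μ[fun y => g (pz y) * f (pw y) | pull Y.μ pw A] =ᵐ[Y.μ] fun y =>
        (Y.μ[fun y => g (pz y) | pull Y.μ pw A]) y * (Y.μ[fun y => f (pw y) | pull Y.μ pw A]) y := by
    intro f g f1 g1
    have hb : ∀ b, BM (two W Z b).μ (two W Z b).ms (twof W Z f g b) := fun b => by
      cases b; exacts [f1, g1]
    have i0 := rp.ind univ (twof W Z f g) fun b _ => hb b
    have i1 := rp.ind {false} (twof W Z f g) fun b _ => hb b
    have i2 := rp.ind {true} (twof W Z f g) fun b _ => hb b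
    simp only [Fintype.univ_bool, Finset.prod_singleton,
      Finset.prod_pair (show true ≠ false by decide)] at i0 i1 i2
    subst hpw hpz
    filter_upwards [i0, i1, i2] with x h0 h1 h2
    exact h0.trans (congrArg₂ (· * ·) h2.symm h1.symm)
  refine ⟨Y, pw, pz, rp.nice, ew, ez, k, ?_⟩
  have a1 : pull Y.μ pw A ≤ pull Y.μ pz Z.ms := by
    rw [← fd.a.keq_pull A Y.μ _ _ (comap_le (mpc hr.mp ez.mp) hA.le) (comap_le ew.mp hA.le) k,
      ← fd.a.pull_comp A Y.μ Z.μ pz r ez.mp]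
    exact pull_mono _ _ (fd.a.pull_le A Z.μ W.μ r hr.mp hA.le)
  refine (fd.c.cp_iff _ _ _ Y.μ (fd.a.pull_le W.ms Y.μ W.μ _ ew.mp le_rfl)
    (fd.a.pull_le Z.ms Y.μ Z.μ _ ez.mp le_rfl) a1).2 fun f g hf hg => ?_
  obtain ⟨f', f1, f2⟩ := fact fd.a ew.mp le_rfl hf
  obtain ⟨g', g1, g2⟩ := fact fd.a ez.mp le_rfl hg
  have c0 : (fun x => f x * g x) =ᵐ[Y.μ] fun y => g' (pz y) * f' (pw y) := by
    filter_upwards [f2, g2] with x h1 h2
    rw [h1, h2, mul_comm]
  filter_upwards [(condExp_congr_ae (m := pull Y.μ pw A) c0).trans (ind f' g' f1 g1),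
    condExp_congr_ae (m := pull Y.μ pw A) f2, condExp_congr_ae (m := pull Y.μ pw A) g2]
    with x h0 h1 h2
  rw [h0, h1, h2, mul_comm]

end XExL

open XExL in
theorem exR : ExR := by
  intro fd az sat c
  have nW : Nice c.W := c.L.nice
  have kB : KC c.W c.B2 := fd.h.kc _ _ nW (fd.lb.fac c.L c.B c.kc.1)
  have kA : KC c.W c.AZ := az.kc c.L c.B c.kc.1
  have bA : c.B2 ≤ c.AZ := az.b2 c.L c.B
  obtain ⟨Z, C, r, LZ, hA, hS⟩ := sat c.ν c.U c.W c.B2 nW kB
  obtain ⟨Y, pw, pz, nY, ew, ez, k, cp⟩ := prod fd c.W Z c.AZ r nW hA.nice kA.1 hA.emb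
  have tr : ∀ D : MeasurableSpace c.W.X, D ≤ c.AZ →
      pull Y.μ pw D = pull Y.μ pz (pull Z.μ r D) := fun D hD => by
    rw [fd.a.pull_comp D Y.μ Z.μ pz r ez.mp]
    exact (fd.a.keq_pull D Y.μ _ _ (comap_le (mpc hA.emb.mp ez.mp) (hD.trans kA.1.le))
      (comap_le ew.mp (hD.trans kA.1.le)) (keq_mono k hD)).symm
  have lr : ∀ D : MeasurableSpace c.W.X, D ≤ c.W.ms → pull Z.μ r D ≤ Z.ms := fun D hD =>
    fd.a.pull_le D Z.μ c.W.μ r hA.emb.mp hD
  have fW := fd.t.fpull _ _ _ _ ew (fd.t.top c.W)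
  have fA := fd.t.fpull _ _ _ _ ew kA.1
  have fZ := fd.t.fpull _ _ _ _ ez (fd.t.top Z)
  have fC := fd.t.fpull _ _ _ _ ez hA.kc.1
  have aZ : pull Y.μ pw c.AZ ≤ pull Y.μ pz Z.ms := by
    rw [tr _ le_rfl]
    exact pull_mono _ _ (lr _ kA.1.le)
  have bC : pull Y.μ pw c.B2 ≤ pull Y.μ pz C := by
    rw [tr _ bA]
    exact pull_mono _ _ hA.le
  have cZ : pull Y.μ pz C ≤ pull Y.μ pz Z.ms := pull_mono _ _ hA.kc.1.le
  have c1 : CP (pull Y.μ pw c.AZ) (pull Y.μ pw c.B2) (pull Y.μ pz C) Y.μ := by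
    rw [tr _ le_rfl, tr _ bA]
    exact cp_pull fd.a ez.mp (lr _ kA.1.le) (lr _ kB.1.le) hA.kc.1.le
      fun f hf => hA.cp f (hf.mono (pull_mono _ _ kA.1.le))
  have c2 : CP (pull Y.μ pw c.W.ms) (pull Y.μ pw c.B2) (pull Y.μ pz C) Y.μ :=
    cp_chain fZ.le fA.le cZ (pull_mono _ _ bA) fW.le cp c1
  have c3 : CP (pull Y.μ pw c.W.ms) (pull Y.μ pw c.AZ) (hull Y (pull Y.μ pz Z.ms)) Y.μ :=
    fd.h.disj Y _ _ _ nY fW fA fZ (pull_mono _ _ kA.1.le) aZ (fd.h.rwm Y c.W pw c.AZ nY nW ew kA) cp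
  obtain ⟨L2⟩ := fd.line c.ν c.U Y nY
  obtain ⟨Lw, hw⟩ := fd.la.ex L2 c.L2 pw ew
  obtain ⟨Bz, hz⟩ := fd.la.ex L2 LZ pz ez
  exact ⟨⟨Z, C, hA.nice, hA.kc, LZ, hS, Y, hull Y (pull Y.μ pz C), pw, pz,
    fd.h.adm Y c.W pw c.B2 _ nY nW ew kB fC bC c2,
    fd.h.adm Y Z pz C _ nY hA.nice ez hA.kc fC le_rfl fun f _ => EventuallyEq.rfl, aZ,
    cp_mono (fd.h.kc Y _ nY fZ).1.le (aZ.trans le_sup_left)
      (sup_le (fd.h.le Y _) (fd.h.mono Y _ _ cZ)) c3, L2, Lw, hw, Bz, hz⟩⟩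

end T5y

end

end PkXEx

section PkXOk

/-! Row XOk: the grid of the extension is admissible. -/

set_option autoImplicit false
set_option linter.unusedVariables false

open MeasureTheory ProbabilityTheory Filter Topology Function Finset ComplexConjugate
open scoped BigOperators
open Fib27 (BM sup pr)

noncomputable section

namespace T5y

open T3x

namespace XOkL

theorem cp_pull (a : BasA) {Ω Ω' : Type} (Y D C : MeasurableSpace Ω') {m0 : MeasurableSpace Ω}
    {m0' : MeasurableSpace Ω'} (μ : Measure Ω) (μ' : Measure Ω') [IsProbabilityMeasure μ]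
    [IsProbabilityMeasure μ'] (p : Ω → Ω') (hp : MeasurePreserving p μ μ') (hY : Y ≤ m0')
    (hD : D ≤ m0') (hC : C ≤ m0') (h : CP Y D C μ') :
    CP (pull μ p Y) (pull μ p D) (pull μ p C) μ := by
  rintro f ⟨hf, K, hK⟩
  obtain ⟨f', m, b, e⟩ := a.fact Y μ p f (max K 0)
    ((MeasurableSpace.comap_mono hY).trans hp.measurable.comap_le) (le_max_right _ _) hf
    (hK.mono fun _ h => h.trans (le_max_left _ _))
  have i : Integrable f' μ' :=
    Integrable.of_bound (m.mono hY le_rfl).aestronglyMeasurable _ (ae_of_all _ b)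
  have k := hp.quasiMeasurePreserving.ae_eq_comp
    (h f' ⟨m.aestronglyMeasurable, _, ae_of_all _ b⟩)
  exact (condExp_congr_ae e).trans <| (a.ce_comp C μ μ' p f' hp hC i).trans <| k.trans <|
    (a.ce_comp D μ μ' p f' hp hD i).symm.trans (condExp_congr_ae e).symm

theorem pull_mono {Ω Ω' : Type} {m0 : MeasurableSpace Ω} (μ : Measure Ω) (p : Ω → Ω')
    {B C : MeasurableSpace Ω'} (h : B ≤ C) : pull μ p B ≤ pull μ p C :=
  sup_le_sup_right (MeasurableSpace.comap_mono h) _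

theorem cp_left {Ω : Type} {Y Y' D C : MeasurableSpace Ω} {m0 : MeasurableSpace Ω} {μ : Measure Ω}
    (h : CP Y D C μ) (hY : Y' ≤ Y) : CP Y' D C μ := fun f hf => h f ⟨hf.1.mono hY, hf.2⟩

variable {c : Cx}

theorem adm (fd : Fd) (E : Ex c) (gi : c.GI) (q : Bool) :
    Adm E.W1 E.B1 c.X c.B (c.π q ∘ E.pw) :=
  fd.h.trans _ _ _ _ _ _ _ _ c.kc.1 E.adm (gi.li.adm2 q)

theorem Ple (fd : Fd) (c : Cx) (q : Bool) : c.P q ≤ c.W.ms :=
  fd.a.pull_le _ _ _ _ (c.L.emb (zs q)).mp le_rfl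

theorem pts (fd : Fd) (a : AzX) (gi : c.GI) (q q' : Bool) (h : q' ≠ q) :
    CP (c.P q) c.B2 (c.P q' ⊔ c.B2) c.W.μ := by
  have hB : c.B2 ≤ c.W.ms := (gi.li.adm2 q).kc.1.le
  refine (fd.c.cp_iff _ _ _ _ (Ple fd c q) (sup_le (Ple fd c q') hB) le_sup_right).2
    fun f g hf hg => ?_
  have s : ∀ k : Bool, c.P k ≤ sup (Pz c.L c.B) {some k} := fun k =>
    le_iSup₂_of_le (f := fun j (_ : j ∈ ({some k} : Finset I3)) => Pz c.L c.B j) (some k)
      (mem_singleton_self _) le_rfl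
  refine fd.c.grp c.B2 (Pz c.L c.B) {some q, some q'} {some q} {some q'} c.W.μ hB
    (fun i => (a.facZ c.L c.B i c.kc.1).le) (gi.li.cline _ fun e => ?_) (by simp) (by simp)
    (by simpa using h.symm) f g ⟨hf.1.mono ((s q).trans le_sup_left), hf.2⟩
    ⟨hg.1.mono (sup_le_sup_right (s q') _), hg.2⟩
  have : (none : I3) ∈ ({some q, some q'} : Finset I3) := e ▸ mem_univ _
  simp at this

theorem cp (fd : Fd) (a : AzX) (E : Ex c) (gi : c.GI) (q : Bool) (j : I3) (h : j ≠ some q) :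
    CP (E.gx.P1 (some q)) E.B1 (E.gx.P1 j ⊔ E.B1) E.W1.μ := by
  have mp := E.adm.emb.mp
  have e : ∀ k, E.gx.P1 (some k) = pull E.W1.μ E.pw (c.P k) := fun k =>
    (fd.a.pull_comp c.X.ms _ _ _ _ mp).symm
  have le : ∀ k, pull E.W1.μ E.pw (c.P k) ≤ pull E.W1.μ E.pw c.W.ms := fun k =>
    pull_mono _ _ (Ple fd c k)
  have hB : c.B2 ≤ c.W.ms := (gi.li.adm2 q).kc.1.le
  intro f hf
  rcases j with _ | q'
  · have h0 := (adm fd E gi q).cp f hf
    rw [e] at hf
    have h1 := cp_left E.cp (le q) f hf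
    have h2 := cp_pull fd.a _ _ _ _ _ _ mp (Ple fd c q)
      (fd.a.pull_le _ _ _ _ (c.L.emb (zs q)).mp c.kc.1.le) (a.kc c.L c.B c.kc.1).1.le (gi.pz q) f hf
    rw [fd.a.pull_comp _ _ _ _ _ mp] at h2
    exact h1.trans (h2.trans h0.symm)
  · rw [e] at hf
    have h0 := cp_left E.adm.cp (le q) f hf
    have h1 := cp_left (fd.c.drop _ _ _ _ _ (fd.a.pull_le _ _ _ _ mp le_rfl) E.adm.kc.1.le E.adm.le
      (pull_mono _ _ hB) (le q') E.adm.cp) (le q) f hf
    have h2 := cp_pull fd.a _ _ _ _ _ _ mp (Ple fd c q) hB (sup_le (Ple fd c q') hB)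
      (pts fd a gi q q' fun e => h (congrArg some e)) f hf
    rw [fd.a.pull_sup] at h2
    rw [e]
    exact h1.trans (h2.trans h0.symm)

end XOkL

open XOkL in
theorem okR : OkR := by
  intro fd a c E gi hs
  have ad : ∀ j, Adm E.gx.W1 E.gx.B1 (E.gx.X j) (E.gx.B j) (E.gx.p j) := by
    rintro (_ | q)
    · exact E.admz
    · exact adm fd E gi q
  have le : ∀ j, E.gx.P1 j ≤ E.W1.ms := fun j => fd.a.pull_le _ _ _ _ (ad j).emb.mp le_rfl
  have hB : E.B1 ≤ E.W1.ms := E.adm.kc.1.le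
  have k : ∀ q j, j ≠ some q → ∀ f f' : E.W1.X → ℂ, BM E.W1.μ (E.gx.P1 (some q)) f →
      BM E.W1.μ (E.gx.P1 j) f' → E.W1.μ[fun x => f x * f' x | E.B1] =ᵐ[E.W1.μ]
        fun x => (E.W1.μ[f | E.B1]) x * (E.W1.μ[f' | E.B1]) x := fun q j h f f' hf hf' =>
    (fd.c.cp_iff _ _ _ E.W1.μ (le _) (sup_le (le j) hB) le_sup_right).1 (cp fd a E gi q j h) f f' hf
      ⟨hf'.1.mono le_sup_left, hf'.2⟩
  refine ⟨c.hU, c.uw, ?_, ?_, ?_, ad, a.cl3 E.B1 E.gx.P1 E.W1.μ hB le ?_, ?_⟩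
  · rintro (_ | q)
    · exact E.niceZ
    · exact c.nice
  · rintro (_ | q)
    · exact E.kcZ
    · exact c.kc
  · rintro (_ | q)
    · exact E.satZ
    · exact hs
  · rintro (_ | q) j h f f' hf hf'
    · rcases j with _ | q
      · exact absurd rfl h
      · simpa only [mul_comm] using k q none h f' f hf' hf
    · exact k q j h.symm f f' hf hf'
  · rintro (_ | q)
    · exact E.liftz
    · exact fd.la.comp E.L2 c.L2 c.L E.pw (c.π q) E.Lw (c.Bc q) E.adm.emb (c.L.emb (zs q)) E.lift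
        (c.lift q)

end T5y

end

end PkXOk
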