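import Pool.Agent.MP_154433_an.p4.All
import Pool.Agent.MP_154433_an.p5a.B
import Pool.Agent.MP_154433_an.p5.T2
import Pool.Agent.MP_154433_an.p5.T3
import Pool.Agent.MP_154433_an.p8.R1
import Pool.Agent.MP_154433_an.p8.R2
import Pool.Agent.MP_154433_an.p8.G1
import Pool.Agent.MP_154433_an.p8.G2
import Pool.Agent.MP_154433_an.p8.X1
import Pool.Agent.MP_154433_an.p8.X2
import Pool.Agent.MP_154433_an.p8.X3

/-! The core theorem for twists of fixed frequency: assembly. -/

section PkFdX

set_option autoImplicit false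

namespace T3x

theorem basX : Bas := bas_of basA basT basD basC

theorem fdX : Fd := fd_of basX met mix real nice0 limS rp line lfB lfA lfC lfD kfA kfB hf prodS

end T3x

end PkFdX

section PkRAll

/-! The items 0, 6, 7 and the passage to the finite level. -/

set_option autoImplicit false

namespace T5y

open T3x

theorem pairX (fd : Fd) : PairS := pairS fd (azR fd) (pair0 fd (azR fd))

theorem coreFX (fd : Fd) (h : CoreS) (ν : Wt) (hν : UW ν) : CoreF ν := coreF fd (azR fd) h ν hν

theorem rudX : Rud := rud (covT (supT (tail mgf)))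

theorem passX (fd : Fd) (rc : Rc) : Pass :=
  pass_of fd rc (pass1 fd rc (azR fd) (hz fd)) (pass2 fd rc (azR fd)) rudX

end T5y

end PkRAll

section PkSec5

/-! Section 5: all rows. -/

namespace T5h

theorem rows5 : Sec5A.Rows :=
  ⟨xR2a, xCm, xCtx, T3x.xPsc, xFf, xZv, xHt, xExh, xHatA, T3x.xHatB, xTyA, xTyB, xMixL, T3x.xDom,
    xPosB, xPsiA, xPsiB, xBunB, xRelC, xStpA, xFlat, xStpB, xAlgA, xAlgT, xAlgB, xAlgC⟩

theorem sec5 : Sec5 := Sec5A.out rows5

end T5h

end PkSec5

section PkAsm

/-! The core theorem: two points and the twists are independent over the internal base. -/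

set_option autoImplicit false

namespace T5y

open T3x

theorem s14 : Sec14 :=
  sec14_of fdX (rc basX) (sel basX (rc basX)) (apx basX (rc basX)) (satA fdX) (pairX fdX)
    (azR fdX) ggz azX thC liR colR giR5 r2pR5 f2R5 satR5 coreR exR okR gxiR f3R5 hg3R hx3R gsp1R5
    fullR5 repR5 gspUR5 f4R t5R5 clR flxR

theorem step5 : Step5 := fun c hs hf => by
  obtain ⟨g, hg⟩ := s14.t5 c hs hf
  exact T5h.sec5 fdX (rc basX) (satA fdX) ind2 (pairX fdX) (azR fdX) s14.sat s14.flx
    (passX fdX (rc basX)) Pool.Agent.MP_154433_an.T4A.T5B.algS2 c g (s14.cl c hs) hg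

theorem coreS : CoreS := s14.core step5

theorem coreAll (ν : Wt) (hν : UW ν) : CoreF ν := coreFX fdX coreS ν hν

end T5y

end PkAsm

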