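import Pool.Agent.MP_154433_an.p8.D0
import Pool.Agent.MP_154433_an.p5.T1

/-! Twisted line, part 2 (packed). -/

section PkSpecR

/-! Statements of the rows for the items 0, 6, 7 (note 154433_WW_h1). -/

set_option autoImplicit false
set_option linter.unusedVariables false
set_option warn.classDefReducibility false

open MeasureTheory ProbabilityTheory Filter Topology Function Finset ComplexConjugate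
open scoped BigOperators
open Fib27 (BM sup pr Oc Orow F23 LInd Mem)
open Pool.Agent.MP_154433_an.SG (Uni ufn)

noncomputable section

namespace T5y

open T3x

/-! ### the twist slot -/

/-- calculus of the twist families and of the third slot -/
structure AzC : Prop where
  fam : ∀ {Ω : Type} [m : MeasurableSpace Ω], ∀ F ∈ Tw Ω, F ∈ FamS m
  one : ∀ {Ω : Type} [m : MeasurableSpace Ω], (fun _ => (1 : ℂ)) ∈ Tw Ω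
  mul : ∀ {Ω : Type} [m : MeasurableSpace Ω], ∀ F ∈ Tw Ω, ∀ G ∈ Tw Ω, (fun s => F s * G s) ∈ Tw Ω
  cj : ∀ {Ω : Type} [m : MeasurableSpace Ω], ∀ F ∈ Tw Ω, (fun s => conj (F s)) ∈ Tw Ω
  comp : ∀ {Ω Ω' : Type} [m : MeasurableSpace Ω] [m' : MeasurableSpace Ω'] (p : Ω' → Ω),
    Measurable p → ∀ F ∈ Tw Ω, (fun z : Lab × Ω' => F (z.1, p z.2)) ∈ Tw Ω'
  facP : ∀ {ν U} {X : Sys} (L : Ln ν U X), Fac L.W (PZ L)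
  facS : ∀ {ν U} {X : Sys} (L : Ln ν U X) B, Fac X B → Fac L.W (AS L B)
  kc : ∀ {ν U} {X : Sys} (L : Ln ν U X) B, Fac X B → KC L.W (AZ L B)
  leS : ∀ {ν U} {X : Sys} (L : Ln ν U X) B, AS L B ≤ AZ L B
  shp : ∀ {ν U} {X : Sys} (L : Ln ν U X) B, L.shp B ≤ AZ L B
  b2 : ∀ {ν U} {X : Sys} (L : Ln ν U X) B, L.B2 B ≤ AZ L B
  mono : ∀ {ν U} {X : Sys} (L : Ln ν U X) (B B' : MeasurableSpace X.X), B ≤ B' →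
    AZ L B ≤ AZ L B'
  bm : ∀ {ν U} {X : Sys} (L : Ln ν U X), ∀ F ∈ Tw X.X, BM L.W.μ (PZ L) (L.hat F)
  liftP : ∀ {ν U} {X' X : Sys} (L' : Ln ν U X') (L : Ln ν U X) p Lp, Emb X' X p →
    IsLift L' L p Lp → pull L'.W.μ Lp (PZ L) ≤ PZ L'
  lift : ∀ {ν U} {X' X : Sys} (L' : Ln ν U X') (L : Ln ν U X) p Lp B B', Emb X' X p →
    IsLift L' L p Lp → Fac X B → Fac X' B' → pull X'.μ p B ≤ B' →
    pull L'.W.μ Lp (AZ L B) ≤ AZ L' B'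
  perp : ∀ {ν U} {X : Sys} (L : Ln ν U X) B, Fac X B → ∀ g, BM L.W.μ L.W.ms g →
    (∀ F ∈ @Tw X.X X.ms, ∀ G ∈ FamS B, ∫ w, g w * (L.hat F w * L.hat G w) ∂L.W.μ = 0) →
    L.W.μ[g | AS L B] =ᵐ[L.W.μ] 0

def AzR : Prop := Fd → AzC

/-- a point of conditional mean zero is orthogonal to the twists over the internal base -/
def Pair0 : Prop :=
  ∀ (ν : Wt) (U : Ultrafilter ℕ), (U : Filter ℕ) ≤ atTop → UW ν →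
    ∀ (X : Sys) (B : MeasurableSpace X.X) (L : Ln ν U X) (q : Bool), Nice X → KC X B →
    ∀ h ∈ @Bdd X.X X.ms, X.μ[h | B] =ᵐ[X.μ] 0 → ∀ F ∈ @Tw X.X X.ms,
      L.W.μ[fun w => h (L.π (zs q) w) * L.hat F w | L.shp B] =ᵐ[L.W.μ] 0

def Pair0R : Prop := Fd → AzC → Pair0
def PairR : Prop := Fd → AzC → Pair0 → PairS
def CoreFR : Prop := Fd → AzC → CoreS → ∀ ν, UW ν → CoreF ν

/-! ### from the hull to the internal level -/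

/-- a family that is stable under differences stays orthogonal to the hull -/
def HZ : Prop :=
  ∀ (Y : Sys) (C : MeasurableSpace Y.X) (α : Type) (G : α → Y.X → ℂ) (e : α → ℕ → ℝ),
    Nice Y → Fac Y C → (∀ a, BM Y.μ Y.ms (G a)) →
    (∀ (a : α) (n : ℕ), ∃ (a' : α) (k r : Y.X → ℂ), BM Y.μ C k ∧ BM Y.μ Y.ms r ∧
      ∫ y, ‖r y‖ ∂Y.μ ≤ e a n ∧
      (fun y => G a (Y.Tz n y) * conj (G a y)) =ᵐ[Y.μ] fun y => k y * G a' y + r y) →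
    (∀ a, Tendsto (fun N : ℕ => (N : ℝ)⁻¹ * ∑ n ∈ range N, e a n) atTop (𝓝 0)) →
    (∀ a, Y.μ[G a | C] =ᵐ[Y.μ] 0) → ∀ a, Y.μ[G a | hull Y C] =ᵐ[Y.μ] 0

def HZR : Prop := Fd → HZ

section Psi

variable {V : Type} [AddCommGroup V]

/-- decay along the integers -/
def DecZ (X : Sys) (B : MeasurableSpace X.X) (sg : AddAut V) (ψ : V → X.X → ℂ) : Prop :=
  ∀ a, Tendsto (fun N : ℕ => (N : ℝ)⁻¹ *
    ∑ n ∈ range N, X.μ.real (Th B X.μ (ψ (((n : ℤ) • sg) a - a)) \ Th B X.μ (ψ a))) atTop (𝓝 0)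

/-- the nontrivial part of `ψ c` on `I` -/
def off (X : Sys) (B : MeasurableSpace X.X) (ψ : V → X.X → ℂ) (I : Set X.X) (c : V) : X.X → ℂ :=
  (I \ Th B X.μ (ψ c)).indicator (ψ c)

/-- positive twisted averages of the shifts of `c` -/
def TwP (ν : Wt) (U : Ultrafilter ℕ) (X : Sys) (B : MeasurableSpace X.X) (sg : AddAut V)
    (ψ : V → X.X → ℂ) (I : Set X.X) (c : V) : Prop :=
  ∃ δ : ℝ, 0 < δ ∧ ∀ᶠ M in (U : Filter ℕ), ∃ (β : ℤ → X.X → ℂ) (b : X.X → ℝ),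
    (∀ d, Measurable[B] (β d)) ∧ (∀ d x, ‖β d x‖ ≤ 1) ∧ Measurable[X.ms] b ∧
    δ ≤ ∫ x, ‖ν.av M fun d => β d x * off X B ψ I ((d • sg) c) x * ee ((d : ℝ) * b x)‖ ∂X.μ

end Psi

/-- a nontrivial pair that is determined by the third slot correlates with the twists -/
def Pass1 : Prop :=
  ∀ (c : Cx) (V : Type) [AddCommGroup V] (sg : AddAut V) (ψ : V → c.X.X → ℂ) (I : Set c.X.X)
    (j : Bool) (v : Bool → V), Psi c.X c.B sg ψ → PsC c.X c.B sg ψ → DecZ c.X c.B sg ψ →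
    MeasurableSet I → c.X.T ⁻¹' I = I →
    c.W.μ (c.π j ⁻¹' I ∩ c.ThZ (fun w => ψ (v true) (c.π true w) * ψ (v false) (c.π false w)) ∩
      c.Nt j (ψ (v j))) ≠ 0 →
    ∃ a a' : V, ¬ c.W.μ[fun w => off c.X c.B ψ I a (c.π j w) * ψ a' (c.π (!j) w) | AS c.L c.B]
      =ᵐ[c.W.μ] 0

def Pass2 : Prop :=
  ∀ (c : Cx) (V : Type) [AddCommGroup V] (sg : AddAut V) (ψ : V → c.X.X → ℂ) (I : Set c.X.X)
    (j : Bool) (a a' : V), Psi c.X c.B sg ψ → PsC c.X c.B sg ψ →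
    MeasurableSet I → c.X.T ⁻¹' I = I →
    ¬ c.W.μ[fun w => off c.X c.B ψ I a (c.π j w) * ψ a' (c.π (!j) w) | AS c.L c.B]
      =ᵐ[c.W.μ] 0 → TwP c.ν c.U c.X c.B sg ψ I a

def Pass1R : Prop := Fd → Rc → AzC → HZ → Pass1
def Pass2R : Prop := Fd → Rc → AzC → Pass2

/-! ### dissociated families -/

/-- characters of the fibres of `B` -/
structure Chr {Ω V : Type} [AddCommGroup V] (B : MeasurableSpace Ω) {m0 : MeasurableSpace Ω}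
    (μ : Measure Ω) (ψ : V → Ω → ℂ) : Prop where
  le : B ≤ m0
  um : ∀ v, Um m0 μ (ψ v)
  add : ∀ v v', ψ (v + v') =ᵐ[μ] fun x => ψ v x * ψ v' x
  neg : ∀ v, ψ (-v) =ᵐ[μ] fun x => conj (ψ v x)
  zero : ψ 0 =ᵐ[μ] fun _ => 1
  onn : ∀ v, ∀ᵐ x ∂μ, ‖(μ[ψ v | B]) x‖ = 0 ∨ ‖(μ[ψ v | B]) x‖ = 1

/-- the exponential moment of a dissociated sum -/
def Mgf : Prop :=
  ∀ (Ω V : Type) [AddCommGroup V] (B : MeasurableSpace Ω) (m0 : MeasurableSpace Ω)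
    (μ : Measure Ω) [IsProbabilityMeasure μ] (ψ : V → Ω → ℂ) (v : ℤ → V) (S : Finset ℤ)
    (E : Set Ω) (a : ℤ → Ω → ℂ) (w : ℤ → ℝ), Chr B μ ψ → MeasurableSet[B] E →
    (∀ x ∈ E, Dis (fun u => x ∈ Th B μ (ψ u)) v S) → (∀ d, Measurable[B] (a d)) →
    (∀ d x, ‖a d x‖ ≤ w d) →
    ∫ x in E, Real.exp (∑ d ∈ S, a d x * ψ (v d) x).re ∂μ ≤
      μ.real E * Real.exp ((∑ d ∈ S, w d ^ 2) / 2)

/-- the tail of a dissociated sum -/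
def Tail : Prop :=
  ∀ (Ω V : Type) [AddCommGroup V] (B : MeasurableSpace Ω) (m0 : MeasurableSpace Ω)
    (μ : Measure Ω) [IsProbabilityMeasure μ] (ψ : V → Ω → ℂ) (v : ℤ → V) (S : Finset ℤ)
    (E : Set Ω) (a : ℤ → Ω → ℂ) (w : ℤ → ℝ) (s t : ℝ), Chr B μ ψ → MeasurableSet[B] E →
    (∀ x ∈ E, Dis (fun u => x ∈ Th B μ (ψ u)) v S) → (∀ d, Measurable[B] (a d)) →
    (∀ d x, ‖a d x‖ ≤ w d) → 0 < s → ∑ d ∈ S, w d ^ 2 ≤ s → 0 ≤ t →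
    μ.real (E ∩ {x | t ≤ ‖∑ d ∈ S, a d x * ψ (v d) x‖}) ≤
      4 * μ.real E * Real.exp (-(t ^ 2 / (8 * s)))

/-- the same for all frequencies and for a union of dissociated sets -/
def SupT : Prop :=
  ∀ (Ω V : Type) [AddCommGroup V] (B : MeasurableSpace Ω) (m0 : MeasurableSpace Ω)
    (μ : Measure Ω) [IsProbabilityMeasure μ] (ψ : V → Ω → ℂ) (v : ℤ → V) (K : ℕ)
    (S : Fin K → Finset ℤ) (sp : Finset ℤ) (E : Set Ω) (a : ℤ → Ω → ℂ) (w : ℤ → ℝ) (b : Ω → ℝ)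
    (a0 : ℤ) (n Q : ℕ) (s t : ℝ), Chr B μ ψ → MeasurableSet[B] E →
    (∀ x ∈ E, ∀ i, Dis (fun u => x ∈ Th B μ (ψ u)) v (S i)) → (∀ d, Measurable[B] (a d)) →
    (∀ d x, ‖a d x‖ ≤ w d) → (∀ d ∈ sp, a0 ≤ d ∧ d < a0 + n) → ∑ d ∈ sp, w d ≤ 1 →
    (∀ d ∈ sp, w d ≤ s) → 0 < s → 0 ≤ t → 0 < Q →
    μ.real (E ∩ {x | K * t + 7 * n / Q < ‖∑ d ∈ sp.filter (fun d => ∃ i, d ∈ S i),
        a d x * ψ (v d) x * ee ((d : ℝ) * b x)‖}) ≤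
      4 * K * Q * μ.real E * Real.exp (-(t ^ 2 / (8 * s)))

/-- the same on the event that the labels are covered -/
def CovT : Prop :=
  ∀ (Ω V : Type) [AddCommGroup V] (B : MeasurableSpace Ω) (m0 : MeasurableSpace Ω)
    (μ : Measure Ω) [IsProbabilityMeasure μ] (ψ : V → Ω → ℂ) (v : ℤ → V) (K : ℕ)
    (sp : Finset ℤ) (a : ℤ → Ω → ℂ) (w : ℤ → ℝ) (b : Ω → ℝ)
    (a0 : ℤ) (n Q : ℕ) (s t ε : ℝ), Chr B μ ψ → (∀ d, Measurable[B] (a d)) →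
    (∀ d x, ‖a d x‖ ≤ w d) → (∀ d x, x ∈ Th B μ (ψ (v d)) → a d x = 0) →
    (∀ d ∈ sp, a0 ≤ d ∧ d < a0 + n) → ∑ d ∈ sp, w d ≤ 1 →
    (∀ d ∈ sp, w d ≤ s) → 0 < s → 0 ≤ t → 0 < Q →
    MeasurableSet[B] {x | Cov (fun u => x ∈ Th B μ (ψ u)) v sp w K ε} ∧
    μ.real ({x | Cov (fun u => x ∈ Th B μ (ψ u)) v sp w K ε} ∩
      {x | K * t + 7 * n / Q + ε < ‖∑ d ∈ sp, a d x * ψ (v d) x * ee ((d : ℝ) * b x)‖}) ≤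
      4 * K * Q * Real.exp (-(t ^ 2 / (8 * s)))

/-- positive twisted averages force many relations -/
def Rud : Prop :=
  ∀ (ν : Wt) (U : Ultrafilter ℕ) (X : Sys) (B : MeasurableSpace X.X) (V : Type) [AddCommGroup V]
    (sg : AddAut V) (ψ : V → X.X → ℂ) (I : Set X.X) (c : V), (U : Filter ℕ) ≤ atTop → UW ν →
    Fac X B → Psi X B sg ψ → PsC X B sg ψ → MeasurableSet[B] I → TwP ν U X B sg ψ I c →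
    Rel2 ν U X sg (fun u => Th B X.μ (ψ u)) I c

def TailR : Prop := Mgf → Tail
def SupR : Prop := Tail → SupT
def CovR : Prop := SupT → CovT
def RudR : Prop := CovT → Rud

/-- the output of the items 6 and 7 -/
def Pass : Prop :=
  ∀ (c : Cx) (V : Type) [AddCommGroup V] (sg : AddAut V) (ψ : V → c.X.X → ℂ) (I : Set c.X.X)
    (j : Bool) (v : Bool → V), Psi c.X c.B sg ψ → MeasurableSet I → c.X.T ⁻¹' I = I →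
    c.W.μ (c.π j ⁻¹' I ∩ c.ThZ (fun w => ψ (v true) (c.π true w) * ψ (v false) (c.π false w)) ∩
      c.Nt j (ψ (v j))) ≠ 0 →
    ∃ a : V, Rel2 c.ν c.U c.X sg (fun u => Th c.B c.X.μ (ψ u)) I a

end T5y

end

end PkSpecR

section PkSpecG

/-! Section 5 (the bundle of groups for the line with a twist slot): definitions and rows. -/

set_option autoImplicit false
set_option linter.unusedVariables false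
set_option warn.classDefReducibility false

open MeasureTheory ProbabilityTheory Filter Topology Function Finset ComplexConjugate
open scoped BigOperators
open Fib27 (BM sup pr Oc Orow F23 LInd Mem)
open Pool.Agent.MP_154433_an.SG (Uni ufn)

noncomputable section

namespace T5y

open T3x

namespace Cx

variable (c : Cx)

/-- the three slots of the line -/
def P3 : Option Bool → MeasurableSpace c.W.X := fun o => o.elim c.AZ c.P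

/-- membership in a tuple with entries in `𝒱` -/
def ZV (𝒱 : Subgroup (Uni c.X.X)) (q : Bool) (g : Uni c.X.X) : Set c.W.X :=
  ⋃ g' ∈ {g' : Bool → Uni c.X.X | (∀ k, g' k ∈ 𝒱) ∧ g' q = g}, c.Θ g'

/-- a countable invariant group that contains enough partners; `s` is composition with `T` -/
structure Exh (𝒱 : Subgroup (Uni c.X.X)) (s : 𝒱 ≃* 𝒱) : Prop where
  cnt : Countable 𝒱
  sh : ∀ (g : 𝒱) (x : c.X.X), ufn (s g).1 x = ufn g.1 (c.X.T x)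
  exh : ∀ (q : Bool) (g' : Bool → Uni c.X.X), g' q ∈ 𝒱 → c.Θ g' ≤ᵐ[c.W.μ] c.ZV 𝒱 q (g' q)

/-- the saturated extension that carries independent samples of labels and a frozen copy -/
structure Hat where
  Xh : Sys
  e : ℕ × Bool → Xh.X → c.W.X
  i0 : Bool
  rp : IsRP (fun _ : ℕ × Bool => c.W) c.X c.X.ms (fun a => c.π a.2) (0, i0) Xh e
  X1 : Sys
  p1 : X1.X → Xh.X
  p2 : X1.X → Xh.X
  emb1 : Emb X1 Xh p1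
  emb2 : Emb X1 Xh.frz p2
  com : KEq X1.μ (T3x.Inv Xh) p1 p2
  ind : ∀ f g, BM Xh.μ Xh.ms f → BM Xh.μ Xh.ms g →
    ∫ x, f (p1 x) * g (p2 x) ∂X1.μ =
      ∫ y, (Xh.μ[f | T3x.Inv Xh]) y * (Xh.μ[g | T3x.Inv Xh]) y ∂Xh.μ
  B1 : MeasurableSpace X1.X
  adm : Adm X1 B1 c.X c.B (c.π i0 ∘ e (0, i0) ∘ p1)
  le1 : ∀ a, pull X1.μ (e a ∘ p1) c.B2 ≤ B1
  le2 : pull X1.μ p2 Xh.ms ≤ B1
  L1 : Ln c.ν c.U X1
  Lp : L1.W.X → c.W.X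
  lift : IsLift L1 c.L (c.π i0 ∘ e (0, i0) ∘ p1) Lp
  sat : T5y.SAT L1 B1

variable {c}

def Hat.p (H : c.Hat) : H.X1.X → c.X.X := c.π H.i0 ∘ H.e (0, H.i0) ∘ H.p1

def Hat.π (H : c.Hat) (k : Bool) : H.L1.W.X → H.X1.X := H.L1.π (zs k)

/-- the type of `g` at a point -/
def Hat.τ (H : c.Hat) (𝒱 : Subgroup (Uni c.X.X)) (g : Uni c.X.X) (y : H.Xh.X) (a : ℕ × Bool) :
    Prop := H.e a y ∈ c.ZV 𝒱 a.2 g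

/-- the facts on types in the line over the extension -/
structure Hat.Ty (H : c.Hat) (𝒱 : Subgroup (Uni c.X.X)) : Prop where
  ta : ∀ (g : Bool → Uni c.X.X) (j k : Bool), (∀ i, g i ∈ 𝒱) → ∀ᵐ w ∂H.L1.W.μ,
    H.Lp w ∈ c.Θ g → H.τ 𝒱 (g j) (H.p1 (H.π j w)) = H.τ 𝒱 (g k) (H.p1 (H.π k w))
  tb : ∀ (q : Bool), ∀ g ∈ 𝒱, ∀ g' ∈ 𝒱, ∀ᵐ w ∂H.L1.W.μ,
    (∀ i, H.τ 𝒱 g' (H.p1 (H.π q w)) (i, q) → H.τ 𝒱 g (H.p1 (H.π q w)) (i, q)) →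
      H.Lp w ∈ c.ZV 𝒱 q g' → H.Lp w ∈ c.ZV 𝒱 q g
  tc : ∀ (q : Bool), ∀ g ∈ 𝒱, ∀ᵐ w ∂H.L1.W.μ,
    H.Lp w ∈ c.ZV 𝒱 q g → ∃ i, H.τ 𝒱 g (H.p1 (H.π q w)) (i, q)

/-- the type of a nontrivial tuple equals the frozen type with positive probability -/
def Hat.Pos (H : c.Hat) (𝒱 : Subgroup (Uni c.X.X)) (g : Bool → Uni c.X.X) (j k : Bool) : Prop :=
  H.L1.W.μ {w | H.Lp w ∈ c.Θ g ∩ c.Nt j (ufn (g j)) ∧
    H.τ 𝒱 (g j) (H.p1 (H.π j w)) = H.τ 𝒱 (g k) (H.p2 (H.π j w))} ≠ 0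

def Hat.HH (H : c.Hat) (𝒱 : Subgroup (Uni c.X.X)) (g0 : Uni c.X.X) (g : 𝒱) : Set H.X1.X :=
  {x | (∃ a, H.τ 𝒱 g0 (H.p2 x) a) ∧ ∀ a, H.τ 𝒱 g0 (H.p2 x) a → H.τ 𝒱 g.1 (H.p1 x) a}

open Classical in
def Hat.psi (H : c.Hat) (𝒱 : Subgroup (Uni c.X.X)) (g0 : Uni c.X.X) (v : 𝒱 →₀ ℤ) (x : H.X1.X) :
    ℂ := v.prod fun g n => (if x ∈ H.HH 𝒱 g0 g then ufn g.1 (H.p x) else 1) ^ n

variable (c) {V : Type}

def FF (ψ : V → c.X.X → ℂ) (v : Bool → V) : c.W.X → ℂ := fun w => ∏ k, ψ (v k) (c.π k w)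

def ΘV (ψ : V → c.X.X → ℂ) (v : Bool → V) : Set c.W.X := c.ThZ (c.FF ψ v)

/-- the event on which every element has partners in both slots -/
def UU (ψ : V → c.X.X → ℂ) : Set c.W.X :=
  ⋂ (q : Bool) (x : V), ⋃ v ∈ {v : Bool → V | v q = x}, c.ΘV ψ v

def Bun (ψ : V → c.X.X → ℂ) : Prop :=
  ∃ (v : Bool → V) (j : Bool), c.W.μ (c.UU ψ ∩ c.ΘV ψ v ∩ c.Nt j (ψ (v j))) ≠ 0

/-- the events of the algebraic step in the line -/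
def SV (ψ : V → c.X.X → ℂ) (i1 i2 : Bool) (a a' : V) : Set c.W.X :=
  c.UU ψ ∩ ⋃ v ∈ {v : Bool → V | v i1 = a ∧ v i2 = a'}, c.ΘV ψ v

/-- properties of the steps in the line and in the grid -/
structure Stp [AddCommGroup V] (sg : AddAut V) (ψ : V → c.X.X → ℂ) (i1 i2 : Bool) : Prop where
  sub : ∀ a a' b b', (c.SV ψ i1 i2 a a' ∩ c.SV ψ i1 i2 b b' : Set c.W.X) ≤ᵐ[c.W.μ]
    c.SV ψ i1 i2 (a - b) (a' - b')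
  zero : c.SV ψ i1 i2 0 0 =ᵐ[c.W.μ] c.UU ψ
  triv : ∀ a a', ∀ᵐ w ∂c.W.μ, w ∈ c.UU ψ → w ∉ c.Nt i1 (ψ a) → w ∉ c.Nt i2 (ψ a') →
    w ∈ c.SV ψ i1 i2 a a'
  ker : ∀ (v : Bool → V) (j k : Bool), ∀ᵐ w ∂c.W.μ, w ∈ c.ΘV ψ v →
    (w ∈ c.Nt j (ψ (v j)) ↔ w ∈ c.Nt k (ψ (v k)))
  sh : ∀ a a', c.SV ψ i1 i2 (sg a) (sg a') =ᵐ[c.W.μ] c.W.T ⁻¹' c.SV ψ i1 i2 a a'
  flat : ∀ a b a' b', ∀ᵐ x ∂c.W2.μ, c.A i1 x ∈ c.SV ψ i1 i2 a b → c.A i2 x ∈ c.SV ψ i1 i2 a' b' →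
    (c.Bc i1 x ∈ c.SV ψ i1 i2 a a' ↔ c.Bc i2 x ∈ c.SV ψ i1 i2 b b')

end Cx

end T5y

namespace T5h

open T3x T5y

/-! ### events of the base on which a function is determined by a larger factor -/

def Th2 {Ω : Type} (β Z : MeasurableSpace Ω) {m0 : MeasurableSpace Ω} (μ : Measure Ω)
    (F : Ω → ℂ) : Set Ω := {w | (μ[fun v => ‖(μ[F | Z]) v‖ | β]) w = 1}

structure R2a : Prop where
  meas : ∀ {Ω : Type} (β Z : MeasurableSpace Ω) {m0 : MeasurableSpace Ω} (μ : Measure Ω)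
    (F : Ω → ℂ), MeasurableSet[β] (Th2 β Z μ F)
  congr : ∀ {Ω : Type} (β Z : MeasurableSpace Ω) {m0 : MeasurableSpace Ω} (μ : Measure Ω)
    (F F' : Ω → ℂ), F =ᵐ[μ] F' → ∀ᵐ x ∂μ, x ∈ Th2 β Z μ F ↔ x ∈ Th2 β Z μ F'
  le : ∀ {Ω : Type} (β Z : MeasurableSpace Ω) {m0 : MeasurableSpace Ω} (μ : Measure Ω)
    [IsProbabilityMeasure μ] (F : Ω → ℂ), β ≤ Z → Z ≤ m0 → Um m0 μ F →
    ∀ᵐ x ∂μ, x ∈ Th2 β Z μ F → x ∈ Th Z μ F ∧ F x = (μ[F | Z]) x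
  of : ∀ {Ω : Type} (β Z : MeasurableSpace Ω) {m0 : MeasurableSpace Ω} (μ : Measure Ω)
    [IsProbabilityMeasure μ] (F k : Ω → ℂ) (E : Set Ω), β ≤ Z → Z ≤ m0 → Um m0 μ F → BM μ Z k →
    MeasurableSet[β] E → (∀ᵐ x ∂μ, x ∈ E → F x = k x) → ∀ᵐ x ∂μ, x ∈ E → x ∈ Th2 β Z μ F
  mul : ∀ {Ω : Type} (β Z : MeasurableSpace Ω) {m0 : MeasurableSpace Ω} (μ : Measure Ω)
    [IsProbabilityMeasure μ] (F F' : Ω → ℂ), β ≤ Z → Z ≤ m0 → Um m0 μ F → Um m0 μ F' →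
    ∀ᵐ x ∂μ, x ∈ Th2 β Z μ F → x ∈ Th2 β Z μ F' → x ∈ Th2 β Z μ fun x => F x * F' x
  cj : ∀ {Ω : Type} (β Z : MeasurableSpace Ω) {m0 : MeasurableSpace Ω} (μ : Measure Ω)
    [IsProbabilityMeasure μ] (F : Ω → ℂ), β ≤ Z → Z ≤ m0 → Um m0 μ F →
    ∀ᵐ x ∂μ, x ∈ Th2 β Z μ F → x ∈ Th2 β Z μ fun x => conj (F x)
  sh : ∀ (Y : Sys) (β Z : MeasurableSpace Y.X) (F : Y.X → ℂ) (n : ℤ), Fac Y β → Fac Y Z →
    Um Y.ms Y.μ F → ∀ᵐ x ∂Y.μ, x ∈ Th2 β Z Y.μ (fun y => F (Y.Tz n y)) ↔ Y.Tz n x ∈ Th2 β Z Y.μ F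

/-- two points and the larger factor are pairwise independent -/
def CmS : Prop := ∀ {Ω : Type} (β : MeasurableSpace Ω) (p : Option Bool → MeasurableSpace Ω)
  {m0 : MeasurableSpace Ω} (μ : Measure Ω) [IsProbabilityMeasure μ] (φ : Bool → Ω → ℂ),
  β ≤ p none → (∀ i, p i ≤ m0) → CLine β p μ → (∀ k, Um (p (some k) ⊔ β) μ (φ k)) →
  ∀ q, ∀ᵐ x ∂μ, x ∈ Th2 β (p none) μ (pr φ univ) → (μ[φ q | β]) x ≠ 0 → ∀ k, x ∈ Th β μ (φ k)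

structure R2 : Prop extends R2a where
  cm : CmS

def R2aR : Prop := Fd → Rc → R2a
def CmR : Prop := Fd → Rc → R2a → CmS

/-! ### factors of a context -/

structure CtxC (c : Cx) : Prop where
  facB : Fac c.X c.B
  facS : Fac c.W (c.L.shp c.B)
  kc2 : KC c.W c.B2
  le2 : c.L.shp c.B ≤ c.B2
  kcZ : KC c.W c.AZ
  leZ : c.B2 ≤ c.AZ
  embπ : ∀ k, Emb c.W c.X (c.π k)
  embA : ∀ k, Emb c.W2 c.W (c.A k)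
  embB : ∀ k, Emb c.W2 c.W (c.Bc k)
  facP : ∀ k, Fac c.W (c.P k)
  slot : ∀ k, pull c.W.μ (c.π k) c.B ≤ c.L.shp c.B
  pre : ∀ k (A : Set c.X.X), MeasurableSet[c.B] A → MeasurableSet[c.L.shp c.B] (c.π k ⁻¹' A)
  nt : ∀ k (g : c.X.X → ℂ), MeasurableSet[c.L.shp c.B] (c.Nt k g)
  ce : ∀ k (f : c.X.X → ℂ), BM c.X.μ c.X.ms f →
    c.W.μ[fun w => f (c.π k w) | c.B2] =ᵐ[c.W.μ] fun w => (c.X.μ[f | c.B]) (c.π k w)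
  ceZ : ∀ k (f : c.X.X → ℂ), BM c.X.μ c.X.ms f →
    c.W.μ[fun w => f (c.π k w) | c.AZ] =ᵐ[c.W.μ] fun w => (c.X.μ[f | c.B]) (c.π k w)
  cline : CLine c.B2 c.P3 c.W.μ

def CtxR : Prop := Fd → Ind2R → PairS → AzC → ∀ c : Cx, CtxC c

/-- tuples of the functions `ψ` in the line -/
structure FfC (c : Cx) {V : Type} [AddCommGroup V] (sg : AddAut V) (ψ : V → c.X.X → ℂ) :
    Prop where
  um1 : ∀ k a, Um (c.P k) c.W.μ fun w => ψ a (c.π k w)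
  um2 : ∀ k a, Um (c.P k ⊔ c.B2) c.W.μ fun w => ψ a (c.π k w)
  um3 : ∀ k a, Um c.W.ms c.W.μ fun w => ψ a (c.π k w)
  um : ∀ v, Um c.W.ms c.W.μ (c.FF ψ v)
  zero : c.FF ψ 0 =ᵐ[c.W.μ] fun _ => 1
  add : ∀ v v', c.FF ψ (v + v') =ᵐ[c.W.μ] fun w => c.FF ψ v w * c.FF ψ v' w
  sub : ∀ v v', c.FF ψ (v - v') =ᵐ[c.W.μ] fun w => c.FF ψ v w * conj (c.FF ψ v' w)
  single : ∀ k a, c.FF ψ (Pi.single k a) =ᵐ[c.W.μ] fun w => ψ a (c.π k w)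
  shz : ∀ (n : ℤ) v, c.FF ψ (fun k => (n • sg) (v k)) =ᵐ[c.W.μ] fun w => c.FF ψ v (c.W.Tz n w)
  tm : ∀ v, MeasurableSet[c.B2] (c.ΘV ψ v)
  t0 : ∀ᵐ w ∂c.W.μ, w ∈ c.ΘV ψ 0
  tadd : ∀ᵐ w ∂c.W.μ, ∀ v v', w ∈ c.ΘV ψ v → w ∈ c.ΘV ψ v' → w ∈ c.ΘV ψ (v + v')
  tsub : ∀ᵐ w ∂c.W.μ, ∀ v v', w ∈ c.ΘV ψ v → w ∈ c.ΘV ψ v' → w ∈ c.ΘV ψ (v - v')
  tsh : ∀ n : ℤ, ∀ᵐ w ∂c.W.μ, ∀ v,
    w ∈ c.ΘV ψ (fun k => (n • sg) (v k)) ↔ c.W.Tz n w ∈ c.ΘV ψ v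
  um' : MeasurableSet[c.B2] (c.UU ψ)
  ush : ∀ n : ℤ, ∀ᵐ w ∂c.W.μ, w ∈ c.UU ψ ↔ c.W.Tz n w ∈ c.UU ψ
  tsingle : ∀ᵐ w ∂c.W.μ, ∀ k a, w ∉ c.Nt k (ψ a) → w ∈ c.ΘV ψ (Pi.single k a)

structure GC : Prop where
  r2 : R2
  az : AzC
  ctx : ∀ c : Cx, CtxC c
  ps : ∀ (X : Sys) B (V : Type) [AddCommGroup V] (sg : AddAut V) (ψ : V → X.X → ℂ), Fac X B →
    Psi X B sg ψ → PsC X B sg ψ
  ff : ∀ (c : Cx) (V : Type) [AddCommGroup V] [Countable V] (sg : AddAut V)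
    (ψ : V → c.X.X → ℂ), Psi c.X c.B sg ψ → FfC c sg ψ

def FfR : Prop := Fd → Rc → R2 → ∀ (c : Cx) (V : Type) [AddCommGroup V] [Countable V]
  (sg : AddAut V) (ψ : V → c.X.X → ℂ), CtxC c → PsC c.X c.B sg ψ → Psi c.X c.B sg ψ → FfC c sg ψ

/-! ### calculus for partners and types -/

structure ZvC (c : Cx) (𝒱 : Subgroup (Uni c.X.X)) (s : 𝒱 ≃* 𝒱) : Prop where
  umP : ∀ g : Bool → Uni c.X.X, Um c.W.ms c.W.μ (c.up g)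
  cnt : {g' : Bool → Uni c.X.X | ∀ k, g' k ∈ 𝒱}.Countable
  tm : ∀ g : Bool → Uni c.X.X, MeasurableSet[c.B2] (c.Θ g)
  meas : ∀ q g, MeasurableSet[c.B2] (c.ZV 𝒱 q g)
  sh : ∀ q (g : 𝒱), c.ZV 𝒱 q (s g).1 =ᵐ[c.W.μ] c.W.T ⁻¹' c.ZV 𝒱 q g.1
  one : ∀ q, ∀ᵐ w ∂c.W.μ, w ∈ c.ZV 𝒱 q 1
  mul : ∀ q g g', ∀ᵐ w ∂c.W.μ, w ∈ c.ZV 𝒱 q g → w ∈ c.ZV 𝒱 q g' → w ∈ c.ZV 𝒱 q (g * g')
  inv : ∀ q g, ∀ᵐ w ∂c.W.μ, w ∈ c.ZV 𝒱 q g → w ∈ c.ZV 𝒱 q g⁻¹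
  onn : ∀ q g, ∀ᵐ w ∂c.W.μ, w ∈ c.ZV 𝒱 q g →
    ‖(c.X.μ[ufn g | c.B]) (c.π q w)‖ = 0 ∨ ‖(c.X.μ[ufn g | c.B]) (c.π q w)‖ = 1
  nt : ∀ (g : Bool → Uni c.X.X) j k, ∀ᵐ w ∂c.W.μ, w ∈ c.Θ g →
    (w ∈ c.Nt j (ufn (g j)) ↔ w ∈ c.Nt k (ufn (g k)))

/-- the maps of the extension -/
structure HtC {c : Cx} (H : c.Hat) : Prop where
  embp : Emb H.X1 c.X H.p
  embe : ∀ a, Emb H.X1 c.W (H.e a ∘ H.p1)
  com : ∀ a, KEq H.X1.μ c.X.ms (c.π a.2 ∘ H.e a ∘ H.p1) H.p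
  embL : Emb H.L1.W c.W H.Lp
  embπ : ∀ k, Emb H.L1.W H.X1 (H.π k)
  sq : ∀ k, KEq H.L1.W.μ c.X.ms (c.π k ∘ H.Lp) (H.p ∘ H.π k)
  fac1 : Fac H.X1 H.B1
  b2 : pull H.L1.W.μ H.Lp c.B2 ≤ H.L1.B2 H.B1
  bZ : pull H.L1.W.μ H.Lp c.AZ ≤ AZ H.L1 H.B1
  ce : ∀ f : c.X.X → ℂ, BM c.X.μ c.X.ms f →
    H.X1.μ[fun x => f (H.p x) | H.B1] =ᵐ[H.X1.μ] fun x => (c.X.μ[f | c.B]) (H.p x)
  frz : ∀ j k, KEq H.L1.W.μ H.Xh.ms (H.p2 ∘ H.π j) (H.p2 ∘ H.π k)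
  frzT : KEq H.X1.μ H.Xh.ms (H.p2 ∘ H.X1.T) H.p2

structure ZC : Prop where
  zv : ∀ (c : Cx) 𝒱 s, c.Exh 𝒱 s → ZvC c 𝒱 s
  ht : ∀ (c : Cx) (H : c.Hat), HtC H

def ZvR : Prop := Fd → Rc → GC → ∀ (c : Cx) 𝒱 s, c.Exh 𝒱 s → ZvC c 𝒱 s
def HtR : Prop := Fd → SatA → GC → ∀ (c : Cx) (H : c.Hat), HtC H

def ExhR : Prop := Fd → GC → ∀ (c : Cx) (g : Bool → Uni c.X.X),
  ∃ (𝒱 : Subgroup (Uni c.X.X)) (s : 𝒱 ≃* 𝒱), c.Exh 𝒱 s ∧ ∀ k, g k ∈ 𝒱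

/-! ### the extension -/

def HatA : Prop := Fd → GC → ∀ (c : Cx) (i0 : Bool), ∃ (Xh : Sys)
  (e : ℕ × Bool → Xh.X → c.W.X) (Bh : MeasurableSpace Xh.X),
  IsRP (fun _ : ℕ × Bool => c.W) c.X c.X.ms (fun a => c.π a.2) (0, i0) Xh e ∧
  Adm Xh Bh c.X c.B (c.π i0 ∘ e (0, i0)) ∧ ∀ a, pull Xh.μ (e a) c.B2 ≤ Bh

/-- every system has a saturated admissible extension (section 1) -/
def Sat5 : Prop := ∀ (ν : Wt) (U : Ultrafilter ℕ) (X : Sys) (B : MeasurableSpace X.X),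
  Nice X → KC X B → ∃ (X' : Sys) (B' : MeasurableSpace X'.X) (p : X'.X → X.X) (L' : Ln ν U X'),
    Adm X' B' X B p ∧ T5y.SAT L' B'

/-! ### types -/

def TyA : Prop := Fd → GC → ZC → ∀ (c : Cx) (H : c.Hat) 𝒱 s, c.CL → c.Exh 𝒱 s →
  ∀ (g : Bool → Uni c.X.X) (j k : Bool), (∀ i, g i ∈ 𝒱) → ∀ᵐ w ∂H.L1.W.μ,
    H.Lp w ∈ c.Θ g → H.τ 𝒱 (g j) (H.p1 (H.π j w)) = H.τ 𝒱 (g k) (H.p1 (H.π k w))

def TyB : Prop := Fd → GC → ZC → ∀ (c : Cx) (H : c.Hat) (q : Bool) (D : Set c.W.X),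
  MeasurableSet D → ∀ᵐ w ∂H.L1.W.μ, H.Lp w ∈ D → ∃ i : ℕ, H.e (i, q) (H.p1 (H.π q w)) ∈ D

/-- the two point slots are dominated by the product over the invariant factor -/
def MixL : Prop := Fd → ∀ (ν : Wt) (U : Ultrafilter ℕ) (X : Sys) (L : Ln ν U X),
  (U : Filter ℕ) ≤ atTop → ERG ν → ∀ A A' : Set X.X, MeasurableSet A → MeasurableSet A' →
  L.W.μ.real (L.π (zs true) ⁻¹' A ∩ L.π (zs false) ⁻¹' A') ≤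
    (∫ x, (X.μ[A.indicator fun _ => (1 : ℂ) | T3x.Inv X]) x *
      (X.μ[A'.indicator fun _ => (1 : ℂ) | T3x.Inv X]) x ∂X.μ).re

def PosB : Prop := Fd → GC → ZC → MixL → DomS → ∀ (c : Cx) (H : c.Hat) 𝒱 s
  (g : Bool → Uni c.X.X), c.Exh 𝒱 s → H.Ty 𝒱 → (∀ k, g k ∈ 𝒱) → c.T5 g → H.Pos 𝒱 g true false

/-! ### the functions `ψ` -/

def PsiA : Prop := Fd → GC → ZC → ∀ (c : Cx) (H : c.Hat) 𝒱 s (g0 : Uni c.X.X), c.Exh 𝒱 s →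
  (∀ g, MeasurableSet[H.B1] (H.HH 𝒱 g0 g)) ∧ (∀ v, Um H.X1.ms H.X1.μ (H.psi 𝒱 g0 v)) ∧
  (∀ v v' x, H.psi 𝒱 g0 (v + v') x = H.psi 𝒱 g0 v x * H.psi 𝒱 g0 v' x) ∧
  ∀ v, H.psi 𝒱 g0 (Finsupp.domCongr s.toEquiv v) =ᵐ[H.X1.μ] fun x => H.psi 𝒱 g0 v (H.X1.T x)

def PsiB : Prop := Fd → Rc → GC → ZC → PsiA → ∀ (c : Cx) (H : c.Hat) 𝒱 s (g0 : Uni c.X.X),
  c.Exh 𝒱 s → ∀ v, ∀ᵐ x ∂H.X1.μ, ‖(H.X1.μ[H.psi 𝒱 g0 v | H.B1]) x‖ = 0 ∨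
    ‖(H.X1.μ[H.psi 𝒱 g0 v | H.B1]) x‖ = 1

def PsiS : Prop := ∀ (c : Cx) (H : c.Hat) 𝒱 s (g0 : Uni c.X.X), c.Exh 𝒱 s →
  ∃ (HH : 𝒱 → Set H.X1.X) (sg : AddAut (𝒱 →₀ ℤ)) (ψ : (𝒱 →₀ ℤ) → H.X1.X → ℂ),
    (∀ g x, x ∈ HH g ↔ (∃ a, H.τ 𝒱 g0 (H.p2 x) a) ∧
      ∀ a, H.τ 𝒱 g0 (H.p2 x) a → H.τ 𝒱 g.1 (H.p1 x) a) ∧
    (∀ g, MeasurableSet[H.B1] (HH g)) ∧ Psi H.X1 H.B1 sg ψ ∧
    (∀ g x, x ∈ HH g → ψ (Finsupp.single g 1) x = ufn g.1 (H.p x)) ∧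
    ∀ g x, x ∉ HH g → ψ (Finsupp.single g 1) x = 1

def BunB : Prop := Fd → Rc → GC → ZC → PsiS → ∀ (c : Cx) (H : c.Hat) 𝒱 s
  (g : Bool → Uni c.X.X) (j k : Bool), c.Exh 𝒱 s → H.Ty 𝒱 → (∀ i, g i ∈ 𝒱) →
  H.Pos 𝒱 g j k → ∃ (c1 : Cx) (V : Type) (_ : AddCommGroup V) (_ : Countable V) (sg : AddAut V)
    (ψ : V → c1.X.X → ℂ), c1.Sat ∧ Psi c1.X c1.B sg ψ ∧ c1.Bun ψ

/-! ### steps -/

def StpA : Prop := Fd → Rc → GC → ∀ (c : Cx) (V : Type) [AddCommGroup V] [Countable V]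
  (sg : AddAut V) (ψ : V → c.X.X → ℂ) (i1 i2 : Bool), i1 ≠ i2 → Psi c.X c.B sg ψ →
  (∀ a a' b b', (c.SV ψ i1 i2 a a' ∩ c.SV ψ i1 i2 b b' : Set c.W.X) ≤ᵐ[c.W.μ]
    c.SV ψ i1 i2 (a - b) (a' - b')) ∧ c.SV ψ i1 i2 0 0 =ᵐ[c.W.μ] c.UU ψ ∧
  (∀ a a', ∀ᵐ w ∂c.W.μ, w ∈ c.UU ψ → w ∉ c.Nt i1 (ψ a) → w ∉ c.Nt i2 (ψ a') →
    w ∈ c.SV ψ i1 i2 a a') ∧
  (∀ (v : Bool → V) (j k : Bool), ∀ᵐ w ∂c.W.μ, w ∈ c.ΘV ψ v →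
    (w ∈ c.Nt j (ψ (v j)) ↔ w ∈ c.Nt k (ψ (v k)))) ∧
  ∀ a a', c.SV ψ i1 i2 (sg a) (sg a') =ᵐ[c.W.μ] c.W.T ⁻¹' c.SV ψ i1 i2 a a'

/-- both rows and one column are tuples, hence both columns -/
def FlatM (c : Cx) {V : Type} (ψ : V → c.X.X → ℂ) : Prop :=
  ∀ (m : Bool → Bool → V) (j0 j : Bool), ∀ᵐ x ∂c.W2.μ, (∀ k, c.A k x ∈ c.ΘV ψ (m k)) →
    c.Bc j0 x ∈ c.ΘV ψ (fun k => m k j0) → c.Bc j x ∈ c.ΘV ψ fun k => m k j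

def FlatR : Prop := Fd → GC → ∀ (c : Cx) (V : Type) [AddCommGroup V] [Countable V]
  (sg : AddAut V) (ψ : V → c.X.X → ℂ), c.FLX → Psi c.X c.B sg ψ → FlatM c ψ

def StpB : Prop := Fd → GC → ∀ (c : Cx) (V : Type) [AddCommGroup V] [Countable V]
  (sg : AddAut V) (ψ : V → c.X.X → ℂ) (i1 i2 : Bool), i1 ≠ i2 → Psi c.X c.B sg ψ → FlatM c ψ →
  ∀ a b a' b', ∀ᵐ x ∂c.W2.μ, c.A i1 x ∈ c.SV ψ i1 i2 a b → c.A i2 x ∈ c.SV ψ i1 i2 a' b' →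
    (c.Bc i1 x ∈ c.SV ψ i1 i2 a a' ↔ c.Bc i2 x ∈ c.SV ψ i1 i2 b b')

/-! ### from the line to the finite level -/

/-- the internal sets, recentred at the first slot -/
def rec1 (c : Cx) {V : Type} (A : V → V → Lab → Set c.X.X) (i1 : Bool) (l : Lab) (a a' : V) :
    Set c.X.X := c.X.Tz (-rho (zs i1) l) ⁻¹' A a a' l

def stp (i1 i2 : Bool) (l : Lab) : ℤ := rho (zs i2) l - rho (zs i1) l

/-- the sets `A` describe the steps -/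
def Desc (c : Cx) {V : Type} (ψ : V → c.X.X → ℂ) (i1 i2 : Bool)
    (A : V → V → Lab → Set c.X.X) : Prop :=
  (∀ a a' l, MeasurableSet (A a a' l)) ∧ ∀ a a', c.SV ψ i1 i2 a a' =ᵐ[c.W.μ] c.L.hs (A a a')

def AlgA : Prop := Fd → Rc → GC → ∀ (c : Cx) (V : Type) [AddCommGroup V] [Countable V]
  (sg : AddAut V) (ψ : V → c.X.X → ℂ) (i1 i2 : Bool) (A : V → V → Lab → Set c.X.X),
  c.Stp sg ψ i1 i2 → Desc c ψ i1 i2 A →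
  (∀ a a' b b', Nl c.ν c.U c.X fun l =>
    (rec1 c A i1 l a a' ∩ rec1 c A i1 l b b') \ rec1 c A i1 l (a - b) (a' - b')) ∧
  (∀ a a', Nl c.ν c.U c.X fun l => (rec1 c A i1 l 0 0 ∩ Th c.B c.X.μ (ψ a) ∩
    c.X.Tz (stp i1 i2 l) ⁻¹' Th c.B c.X.μ (ψ a')) \ rec1 c A i1 l a a') ∧
  (∀ a a', Nl c.ν c.U c.X fun l => rec1 c A i1 l a a' ∩
    {y | ¬ (y ∈ Th c.B c.X.μ (ψ a) ↔ c.X.Tz (stp i1 i2 l) y ∈ Th c.B c.X.μ (ψ a'))}) ∧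
  ∀ a a', Nl c.ν c.U c.X fun l =>
    {y | ¬ (y ∈ rec1 c A i1 l (sg a) (sg a') ↔ c.X.T y ∈ rec1 c A i1 l a a')}

def AlgT : Prop := Fd → Rc → GC → ∀ (c : Cx) (V : Type) [AddCommGroup V] [Countable V]
  (sg : AddAut V) (ψ : V → c.X.X → ℂ) (i1 i2 : Bool) (A : V → V → Lab → Set c.X.X),
  c.Stp sg ψ i1 i2 → Desc c ψ i1 i2 A → ∀ (a : V) (ε : ℝ), 0 < ε → ∃ F : Finset V,
  ∀ᶠ M in (c.U : Filter ℕ),
    (c.ν.av2 M fun l => c.X.μ.real (rec1 c A i1 l 0 0 \ ⋃ a' ∈ F, rec1 c A i1 l a a')) ≤ ε ∧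
    (c.ν.av2 M fun l => c.X.μ.real (rec1 c A i1 l 0 0 \ ⋃ a' ∈ F, rec1 c A i1 l a' a)) ≤ ε

def AlgB : Prop := Fd → Rc → GC → ∀ (c : Cx) (V : Type) [AddCommGroup V] [Countable V]
  (sg : AddAut V) (ψ : V → c.X.X → ℂ) (i1 i2 : Bool) (A : V → V → Lab → Set c.X.X),
  c.Stp sg ψ i1 i2 → Desc c ψ i1 i2 A → ∀ a b a' b', ∃ φ : Lab → ℝ,
  Tendsto (fun M => c.ν.av2 M φ) c.U (𝓝 0) ∧ ∀ l,
    Tendsto (fun M => c.ν.av2 M fun l' => c.X.μ.real {y | y ∈ rec1 c A i1 l' a b ∧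
      y ∈ rec1 c A i1 l' ((stp i1 i2 l • sg) a') ((stp i1 i2 l • sg) b') ∧
      ¬ (y ∈ rec1 c A i1 l a a' ↔ c.X.Tz (stp i1 i2 l') y ∈ rec1 c A i1 l b b')}) c.U (𝓝 (φ l))

/-- decay at the finite level -/
def RelC : Prop := Fd → Rc → Ind2R → ∀ (c : Cx) (V : Type) [AddCommGroup V] [Countable V]
  (sg : AddAut V) (ψ : V → c.X.X → ℂ), Psi c.X c.B sg ψ → ∀ a a', Nl c.ν c.U c.X fun l =>
    Th c.B c.X.μ (ψ (((l.2.1 - l.2.2) • sg) a - a')) \ Th c.B c.X.μ (ψ a')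

def AlgC : Prop := Fd → Rc → Ind2R → GC → AlgA → AlgT → AlgB → RelC → Pass → AlgS2 →
  ∀ (c : Cx) (V : Type) [AddCommGroup V] [Countable V] (sg : AddAut V) (ψ : V → c.X.X → ℂ),
  Psi c.X c.B sg ψ → c.Stp sg ψ true false → ¬ c.Bun ψ

/-- the output of section 5 -/
def Sec5 : Prop := Fd → Rc → SatA → Ind2R → PairS → AzC → Sat5 → (∀ c : Cx, c.Sat → c.FLX) →
  Pass → AlgS2 → ∀ (c : Cx) (g : Bool → Uni c.X.X), c.CL → ¬ c.T5 g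

end T5h

end

end PkSpecG
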