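import Pool.Agent.MP_154433_an.p5.P1
import Pool.Agent.MP_154433_an.p8.P2
import Pool.Agent.MP_154433_an.p5.T5

/-! Twisted line, part 3 (packed). -/

section PkDefs

/-! Definitions for sections 1 to 4: three slots, the saturated grid, tuples. -/

set_option autoImplicit false
set_option linter.unusedVariables false
set_option warn.classDefReducibility false

open MeasureTheory ProbabilityTheory Filter Topology Function Finset ComplexConjugate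
open scoped BigOperators
open Fib27 (BM sup pr Oc Orow F23 LInd Mem)
open Pool.Agent.MP_154433_an.SG (Uni ufn)

noncomputable section

namespace T5y

export T5x (HGz DV GGzS ggz)

open T3x

/-- the three slots: two points and the twists (`none`) -/
abbrev I3 : Type := Option Bool

variable {ν : Wt} {U : Ultrafilter ℕ}

/-- the sigma-algebras of the three slots -/
def Pz {X : Sys} (L : Ln ν U X) (B : MeasurableSpace X.X) : I3 → MeasurableSpace L.W.X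
  | some q => L.P (zs q)
  | none => AZ L B

/-- independence on one line -/
structure LI {X : Sys} (L : Ln ν U X) (B : MeasurableSpace X.X) : Prop where
  line : ∀ S : Finset Bool, IndOver L B (L.B2 B) zs S
  cline : CLine (L.B2 B) (Pz L B) L.W.μ
  adm2 : ∀ q, Adm L.W (L.B2 B) X B (L.π (zs q))
  admZ : ∀ q, Adm L.W (AZ L B) X B (L.π (zs q))

/-- the conditional expectation on the rest of the line keeps the point -/
def F2L {X : Sys} (L : Ln ν U X) (B : MeasurableSpace X.X) : Prop :=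
  ∀ (q : Bool) (a : L.W.X → ℂ), BM L.W.μ (L.P (zs q)) a →
    BM L.W.μ (L.P (zs q) ⊔ L.B2 B) (L.W.μ[a | OB L B q])

namespace Cx

variable (c : Cx)

/-- independence in the two by two grid (no saturation needed) -/
structure GI : Prop where
  li : LI c.L c.B
  li2 : LI c.L2 c.B2
  col : ∀ q j, KEq c.W2.μ c.X.ms (c.π j ∘ c.A q) (c.π q ∘ c.Bc j)
  rows : CInd c.β (fun q => pull c.W2.μ (c.A q) c.W.ms) univ c.W2.μ
  cols : CInd c.β (fun j => pull c.W2.μ (c.Bc j) c.W.ms) univ c.W2.μ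
  rowB : ∀ q, pull c.W2.μ (c.A q) c.B2 ≤ c.β
  colB : ∀ j, pull c.W2.μ (c.Bc j) c.B2 ≤ c.β
  rowE : ∀ q g, BM c.W.μ c.W.ms g →
    c.W2.μ[fun x => g (c.A q x) | c.β] =ᵐ[c.W2.μ] fun x => (c.W.μ[g | c.B2]) (c.A q x)
  colE : ∀ j g, BM c.W.μ c.W.ms g →
    c.W2.μ[fun x => g (c.Bc j x) | c.β] =ᵐ[c.W2.μ] fun x => (c.W.μ[g | c.B2]) (c.Bc j x)
  pz : ∀ q, CP (c.P q) (pull c.W.μ (c.π q) c.B) c.AZ c.W.μ

/-- two columns and one row -/
def R2P : Prop := ∀ (q j k : Bool) (h Y u : c.W.X → ℂ), j ≠ k → BM c.W.μ c.W.ms h →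
  BM c.W.μ c.W.ms Y → BM c.W.μ c.W.ms u → c.W.μ[h | c.P q ⊔ c.L.shp c.B] =ᵐ[c.W.μ] 0 →
  ∫ x, h (c.Bc j x) * Y (c.Bc k x) * u (c.A q x) ∂c.W2.μ = 0

end Cx

/-! ### the saturated grid -/

/-- three columns over possibly different systems, and the line over a common extension -/
structure Gx where
  ν : Wt
  U : Ultrafilter ℕ
  X : I3 → Sys
  B : ∀ j, MeasurableSpace (X j).X
  L : ∀ j, Ln ν U (X j)
  W1 : Sys
  B1 : MeasurableSpace W1.X
  p : ∀ j, W1.X → (X j).X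
  L2 : Ln ν U W1
  Bc : ∀ j, L2.W.X → (L j).W.X

namespace Gx

variable (g : Gx)

abbrev W (j : I3) : Sys := (g.L j).W
abbrev W2 : Sys := g.L2.W
def π (j : I3) (q : Bool) : (g.W j).X → (g.X j).X := (g.L j).π (zs q)
def A (q : Bool) : g.W2.X → g.W1.X := g.L2.π (zs q)
def P1 (j : I3) : MeasurableSpace g.W1.X := pull g.W1.μ (g.p j) (g.X j).ms
def Pc (j k : I3) : MeasurableSpace (g.W j).X := Pz (g.L j) (g.B j) k
def B2 (j : I3) : MeasurableSpace (g.W j).X := (g.L j).B2 (g.B j)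
def β : MeasurableSpace g.W2.X := g.L2.B2 g.B1
/-- the cell in row `k` and column `j` -/
def G (k j : I3) : MeasurableSpace g.W2.X := pull g.W2.μ (g.Bc j) (g.Pc j k)

structure OK : Prop where
  hU : (g.U : Filter ℕ) ≤ atTop
  uw : UW g.ν
  nice : ∀ j, Nice (g.X j)
  kc : ∀ j, KC (g.X j) (g.B j)
  sat : ∀ j, SAT (g.L j) (g.B j)
  adm : ∀ j, Adm g.W1 g.B1 (g.X j) (g.B j) (g.p j)
  ind : CLine g.B1 g.P1 g.W1.μ
  lift : ∀ j, IsLift g.L2 (g.L j) (g.p j) (g.Bc j)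

structure GI : Prop where
  li : ∀ j, LI (g.L j) (g.B j)
  li2 : LI g.L2 g.B1
  col : ∀ q j, KEq g.W2.μ (g.X j).ms (g.p j ∘ g.A q) (g.π j q ∘ g.Bc j)
  grow : ∀ q j, g.G (some q) j = pull g.W2.μ (g.A q) (g.P1 j)
  gz : ∀ j, g.G none j ≤ AZ g.L2 g.B1
  cols : CLine g.β (fun j => pull g.W2.μ (g.Bc j) (g.W j).ms) g.W2.μ
  rowB : ∀ q, pull g.W2.μ (g.A q) g.B1 ≤ g.β
  colB : ∀ j, pull g.W2.μ (g.Bc j) (g.B2 j) ≤ g.β
  rowE : ∀ q f, BM g.W1.μ g.W1.ms f →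
    g.W2.μ[fun x => f (g.A q x) | g.β] =ᵐ[g.W2.μ] fun x => (g.W1.μ[f | g.B1]) (g.A q x)
  colE : ∀ j f, BM (g.W j).μ (g.W j).ms f →
    g.W2.μ[fun x => f (g.Bc j x) | g.β] =ᵐ[g.W2.μ] fun x => ((g.W j).μ[f | g.B2 j]) (g.Bc j x)

def F3 : Prop := ∀ (q : Bool) (a : I3 → g.W2.X → ℂ) (ψ : g.W2.X → ℂ),
  (∀ k, BM g.W2.μ (g.G (some q) k) (a k)) → BM g.W2.μ g.β ψ → ∀ j j',
    ∫ x, ψ x * ((g.W2.μ[a j | Oc g.G (some q) j ⊔ g.β]) x * pr a (univ.erase j) x) ∂g.W2.μ =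
      ∫ x, ψ x * ((g.W2.μ[a j' | Oc g.G (some q) j' ⊔ g.β]) x * pr a (univ.erase j') x) ∂g.W2.μ

/-- the column operator is the operator of the column line -/
def QC : Prop := ∀ (q : Bool) (j : I3) (f : (g.W j).X → ℂ), BM (g.W j).μ (g.W j).ms f →
  g.W2.μ[fun x => f (g.Bc j x) | Oc g.G (some q) j ⊔ g.β] =ᵐ[g.W2.μ]
    fun x => ((g.W j).μ[f | OB (g.L j) (g.B j) q]) (g.Bc j x)

def Tup1 (j : I3) (φ : I3 → (g.W j).X → ℂ) : Prop :=
  ∀ k, Um (g.Pc j k ⊔ g.B2 j) (g.W j).μ (φ k)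

def Θ (j : I3) (φ : I3 → (g.W j).X → ℂ) : Set (g.W j).X := Th (g.B2 j) (g.W j).μ (pr φ univ)

/-- tuples whose entries at the two points are functions of the points -/
def TupU (j : I3) (φ : I3 → (g.W j).X → ℂ) : Prop :=
  (∃ u : Bool → Uni (g.X j).X, ∀ q, φ (some q) = fun w => ufn (u q) (g.π j q w)) ∧
    Um (g.Pc j none ⊔ g.B2 j) (g.W j).μ (φ none)

/-- the members of the column tuples of the class span the dual functions -/
def GSp (C : ∀ j, (I3 → (g.W j).X → ℂ) → Prop) : Prop :=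
  ∀ (q : Bool) (j : I3) (h : g.W2.X → ℂ), DV g.β g.G (some q) j g.W2.μ h → ¬ h =ᵐ[g.W2.μ] 0 →
    ∃ φ, C j φ ∧ g.W2.μ (g.Bc j ⁻¹' g.Θ j φ ∩
      {x | (g.W2.μ[fun y => h y * φ (some q) (g.Bc j y) | g.β]) x ≠ 0}) ≠ 0

def Full (C : ∀ j, (I3 → (g.W j).X → ℂ) → Prop) : Prop :=
  ∀ (q : Bool) (j : I3) (φ : I3 → (g.W j).X → ℂ) (E : Set g.W2.X) (a : I3 → g.W2.X → ℂ), C j φ →
    MeasurableSet[g.β] E → E ≤ᵐ[g.W2.μ] g.Bc j ⁻¹' g.Θ j φ →
    (∀ i, BM g.W2.μ (g.G (some q) i ⊔ g.β) (a i)) →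
    g.W2.μ (E ∩ {x | (g.W2.μ[fun y => φ (some q) (g.Bc j y) * pr a (univ.erase j) y | g.β]) x
      ≠ 0}) ≠ 0 →
    ∃ (E' : Set g.W2.X) (Φ : ∀ i, I3 → (g.W i).X → ℂ), MeasurableSet[g.β] E' ∧ E' ⊆ E ∧
      g.W2.μ E' ≠ 0 ∧ (∀ i, C i (Φ i)) ∧ Φ j = φ ∧
      (∀ i, E' ≤ᵐ[g.W2.μ] g.Bc i ⁻¹' g.Θ i (Φ i)) ∧
      ∀ k, E' ≤ᵐ[g.W2.μ] Th g.β g.W2.μ fun x => ∏ i, Φ i k (g.Bc i x)

/-- a member of a column tuple that is also a member of a row tuple is a function of the point -/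
def Rep : Prop := ∀ (j : I3) (k : Bool) (Φ : ∀ i, I3 → (g.W i).X → ℂ) (E : Set g.W2.X),
  (∀ i, g.Tup1 i (Φ i)) → MeasurableSet[g.β] E → g.W2.μ E ≠ 0 →
  E ≤ᵐ[g.W2.μ] g.Bc j ⁻¹' g.Θ j (Φ j) →
  E ≤ᵐ[g.W2.μ] (Th g.β g.W2.μ fun x => ∏ i, Φ i (some k) (g.Bc i x)) →
  ∃ (E' : Set g.W2.X) (u : Uni (g.X j).X), MeasurableSet[g.β] E' ∧ E' ⊆ E ∧ g.W2.μ E' ≠ 0 ∧
    E' ≤ᵐ[g.W2.μ] Th g.β g.W2.μ fun x =>
      Φ j (some k) (g.Bc j x) * conj (ufn u (g.π j k (g.Bc j x)))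

end Gx

/-- the extension of the line that carries a saturated third slot -/
structure Ex (c : Cx) where
  Z : Sys
  C : MeasurableSpace Z.X
  niceZ : Nice Z
  kcZ : KC Z C
  LZ : Ln c.ν c.U Z
  satZ : SAT LZ C
  W1 : Sys
  B1 : MeasurableSpace W1.X
  pw : W1.X → c.W.X
  pz : W1.X → Z.X
  adm : Adm W1 B1 c.W c.B2 pw
  admz : Adm W1 B1 Z C pz
  az : pull W1.μ pw c.AZ ≤ pull W1.μ pz Z.ms
  cp : CP (pull W1.μ pw c.W.ms) (pull W1.μ pw c.AZ) (pull W1.μ pz Z.ms ⊔ B1) W1.μ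
  L2 : Ln c.ν c.U W1
  Lw : L2.W.X → c.W2.X
  lift : IsLift L2 c.L2 pw Lw
  Bz : L2.W.X → LZ.W.X
  liftz : IsLift L2 LZ pz Bz

namespace Ex

variable {c : Cx} (E : Ex c)

def XX : I3 → Sys
  | some _ => c.X
  | none => E.Z

def BB : ∀ j, MeasurableSpace (E.XX j).X
  | some _ => c.B
  | none => E.C

def LL : ∀ j, Ln c.ν c.U (E.XX j)
  | some _ => c.L
  | none => E.LZ

def pp : ∀ j, E.W1.X → (E.XX j).X
  | some q => c.π q ∘ E.pw
  | none => E.pz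

def BC : ∀ j, E.L2.W.X → (E.LL j).W.X
  | some q => c.Bc q ∘ E.Lw
  | none => E.Bz

/-- the grid of the extension -/
def gx : Gx := ⟨c.ν, c.U, E.XX, E.BB, E.LL, E.W1, E.B1, E.pp, E.L2, E.BC⟩

/-- a dual function of mean zero that does not vanish -/
def F4 : Prop := ∃ (j : Bool) (u : E.gx.W2.X → ℂ),
  DV E.gx.β E.gx.G (some j) (some j) E.gx.W2.μ u ∧ ¬ u =ᵐ[E.gx.W2.μ] 0 ∧
    E.gx.W2.μ[u | E.gx.β] =ᵐ[E.gx.W2.μ] 0

end Ex

end T5y

end

end PkDefs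

section PkSpec

/-! Statements of the rows of sections 1 to 4. -/

set_option autoImplicit false
set_option linter.unusedVariables false
set_option warn.classDefReducibility false

open MeasureTheory ProbabilityTheory Filter Topology Function Finset ComplexConjugate
open scoped BigOperators
open Fib27 (BM sup pr Oc Orow F23 LInd Mem)
open Pool.Agent.MP_154433_an.SG (Uni ufn)

noncomputable section

namespace T5y

open T3x

/-! ### calculus -/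

/-- more facts on the third slot -/
structure AzX : Prop extends AzC where
  ob : ∀ {ν U} {X' X : Sys} (L' : Ln ν U X') (L : Ln ν U X) p Lp B B', Emb X' X p →
    IsLift L' L p Lp → Fac X B → Fac X' B' → pull X'.μ p B ≤ B' → ∀ q,
    pull L'.W.μ Lp (OB L B q) ≤ OB L' B' q
  facO : ∀ {ν U} {X : Sys} (L : Ln ν U X) B q, Fac X B → Fac L.W (OB L B q)
  facZ : ∀ {ν U} {X : Sys} (L : Ln ν U X) B k, Fac X B → Fac L.W (Pz L B k)
  obe : ∀ {ν U} {X : Sys} (L : Ln ν U X) B q,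
    sup (Pz L B) (univ.erase (some q)) ⊔ L.B2 B = OB L B q
  /-- three members that are independent in pairs -/
  cl3 : ∀ {Ω : Type} (β : MeasurableSpace Ω) (p : I3 → MeasurableSpace Ω)
    {m0 : MeasurableSpace Ω} (μ : Measure Ω) [IsProbabilityMeasure μ], β ≤ m0 → (∀ i, p i ≤ m0) →
    (∀ i j, i ≠ j → ∀ f f' : Ω → ℂ, BM μ (p i) f → BM μ (p j) f' →
      μ[fun x => f x * f' x | β] =ᵐ[μ] fun x => (μ[f | β]) x * (μ[f' | β]) x) → CLine β p μ

/-- the events `Th2` -/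
structure ThC : Prop where
  meas : ∀ {Ω : Type} (B A : MeasurableSpace Ω) {m0 : MeasurableSpace Ω} (μ : Measure Ω)
    (F : Ω → ℂ), MeasurableSet[B] (T5h.Th2 B A μ F)
  congr : ∀ {Ω : Type} (B A : MeasurableSpace Ω) {m0 : MeasurableSpace Ω} (μ : Measure Ω)
    (F F' : Ω → ℂ), F =ᵐ[μ] F' → T5h.Th2 B A μ F =ᵐ[μ] T5h.Th2 B A μ F'
  le : ∀ {Ω : Type} (B A : MeasurableSpace Ω) {m0 : MeasurableSpace Ω} (μ : Measure Ω)
    [IsProbabilityMeasure μ] (F η : Ω → ℂ), B ≤ A → A ≤ m0 → Um m0 μ F → Um A μ η →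
    (Th B μ fun x => F x * η x) ≤ᵐ[μ] T5h.Th2 B A μ F
  ex : ∀ {Ω : Type} (B A : MeasurableSpace Ω) {m0 : MeasurableSpace Ω} (μ : Measure Ω)
    [IsProbabilityMeasure μ] (F : Ω → ℂ), B ≤ A → A ≤ m0 → Um m0 μ F →
    ∃ η : Ω → ℂ, Um A μ η ∧ T5h.Th2 B A μ F ≤ᵐ[μ] Th B μ fun x => F x * η x
  comp : ∀ {Ω Ω' : Type} (B A : MeasurableSpace Ω) (B' A' : MeasurableSpace Ω')
    {m0 : MeasurableSpace Ω} {m0' : MeasurableSpace Ω'} (μ : Measure Ω) (μ' : Measure Ω')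
    [IsProbabilityMeasure μ] [IsProbabilityMeasure μ'] (p : Ω' → Ω) (F : Ω → ℂ),
    MeasurePreserving p μ' μ → BM μ m0 F →
    μ'[fun x => F (p x) | A'] =ᵐ[μ'] (fun x => (μ[F | A]) (p x)) → A ≤ m0 →
    (∀ f, BM μ m0 f → μ'[fun x => f (p x) | B'] =ᵐ[μ'] fun x => (μ[f | B]) (p x)) →
    (T5h.Th2 B' A' μ' fun x => F (p x)) =ᵐ[μ'] p ⁻¹' T5h.Th2 B A μ F

def LIS : Prop := ∀ (ν : Wt) (U : Ultrafilter ℕ), (U : Filter ℕ) ≤ atTop → UW ν →
  ∀ (X : Sys) (B : MeasurableSpace X.X) (L : Ln ν U X), Nice X → KC X B → LI L B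

/-- lifts of independent admissible maps -/
def ColS : Prop := ∀ {ν : Wt} {U : Ultrafilter ℕ} {W1 : Sys} (L2 : Ln ν U W1)
  (B1 : MeasurableSpace W1.X) {ι : Type} (X : ι → Sys) (B : ∀ i, MeasurableSpace (X i).X)
  (L : ∀ i, Ln ν U (X i)) (p : ∀ i, W1.X → (X i).X) (Bc : ∀ i, L2.W.X → (L i).W.X)
  (S : Finset ι), KC W1 B1 → (∀ i, KC (X i) (B i)) → (∀ i, Adm W1 B1 (X i) (B i) (p i)) →
  (∀ i, IsLift L2 (L i) (p i) (Bc i)) →
  CInd B1 (fun i => pull W1.μ (p i) (X i).ms) S W1.μ →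
  CInd (L2.B2 B1) (fun i => pull L2.W.μ (Bc i) (L i).W.ms) S L2.W.μ ∧
    (∀ i, pull L2.W.μ (Bc i) ((L i).B2 (B i)) ≤ L2.B2 B1) ∧
    ∀ i ∈ S, CP (pull L2.W.μ (Bc i) (L i).W.ms) (pull L2.W.μ (Bc i) ((L i).B2 (B i)))
      (L2.B2 B1) L2.W.μ

def F2S : Prop := ∀ (ν : Wt) (U : Ultrafilter ℕ), (U : Filter ℕ) ≤ atTop → UW ν →
  ∀ (X : Sys) (B : MeasurableSpace X.X) (L : Ln ν U X), Nice X → KC X B → SAT L B → F2L L B

/-- no saturated context fails -/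
def Step5 : Prop := ∀ c : Cx, c.Sat → ¬ c.Fail

def AzXR : Prop := Fd → AzC → AzX
def ThCR : Prop := Fd → Rc → ThC
def LIR : Prop := Fd → AzX → PairS → LIS
def ColR : Prop := Fd → ColS
def GIR5 : Prop := Fd → LIS → ColS → ∀ c : Cx, c.GI
def R2PR5 : Prop := Fd → ∀ c : Cx, c.R2P
def F2R5 : Prop := Fd → AzX → ∀ c : Cx, c.GI → c.Sat → c.R2P → F2L c.L c.B
def SatR5 : Prop := Fd → SatA → AzX → T5h.Sat5
def CoreR : Prop := Fd → AzX → T5h.Sat5 → Step5 → CoreS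
def ExR : Prop := Fd → AzX → T5h.Sat5 → ∀ c : Cx, Nonempty (Ex c)
def OkR : Prop := Fd → AzX → ∀ (c : Cx) (E : Ex c), c.GI → c.Sat → E.gx.OK
def GxIR : Prop := Fd → AzX → LIS → ColS → ∀ g : Gx, g.OK → g.GI
def F3R5 : Prop := Fd → AzX → ∀ g : Gx, g.OK → g.GI → g.F3
def HG3R : Prop := Fd → AzX → F2S → ∀ g : Gx, g.OK → g.GI → g.F3 → g.QC ∧ HGz g.β g.G none g.W2.μ

/-! ### abstract grids -/

/-- functions with coefficients in the base -/
structure HX3 {Ω : Type} (β : MeasurableSpace Ω) (G : I3 → I3 → MeasurableSpace Ω)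
    {m0 : MeasurableSpace Ω} (μ : Measure Ω) : Prop where
  f23 : ∀ q : Bool, F23 μ (fun k => G (some q) k ⊔ β) (fun k => Oc G (some q) k ⊔ β)
  cen : ∀ (q : Bool) (i : I3) (h : Ω → ℂ), DV β G (some q) i μ h →
    DV β G (some q) i μ fun x => h x - (μ[h | β]) x

def HX3S : Prop := ∀ {Ω : Type} (β : MeasurableSpace Ω) (G : I3 → I3 → MeasurableSpace Ω)
  {m0 : MeasurableSpace Ω} (μ : Measure Ω) [IsProbabilityMeasure μ], HGz β G none μ → HX3 β G μ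

def HX3R : Prop := Bas → HX3S

/-! ### tuples in the saturated grid -/

def GSp1R5 : Prop := Fd → AzX → Rc → SelS → GGzS → ∀ g : Gx, g.OK → g.GI → HGz g.β g.G none g.W2.μ →
  g.GSp g.Tup1
def FullR5 : Prop := Fd → AzX → Rc → HX3S → ∀ (g : Gx)
  (C : ∀ j, (I3 → (g.W j).X → ℂ) → Prop), g.OK → g.GI → HGz g.β g.G none g.W2.μ →
  (∀ j φ, C j φ → g.Tup1 j φ) → g.GSp C → g.Full C
def RepR5 : Prop := Fd → AzX → Rc → SelS → ApxS → ∀ g : Gx, g.OK → g.GI → g.Full g.Tup1 → g.Rep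
def GSpUR5 : Prop := Fd → AzX → Rc → ∀ g : Gx, g.OK → g.GI → HGz g.β g.G none g.W2.μ →
  g.GSp g.Tup1 → g.Full g.Tup1 → g.Rep → g.GSp g.TupU

/-! ### back to the line -/

def F4R : Prop := Fd → AzX → HX3S → ∀ (c : Cx) (E : Ex c), c.GI → E.gx.OK → E.gx.GI → E.gx.QC →
  HGz E.gx.β E.gx.G none E.gx.W2.μ → c.Fail → E.F4
def T5R5 : Prop := Fd → AzX → Rc → ThC → ∀ (c : Cx) (E : Ex c), c.GI → E.gx.OK → E.gx.GI →
  E.gx.GSp E.gx.TupU → E.F4 → ∃ g, c.T5 g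
def CLR : Prop := Fd → AzX → Rc → ThC → ∀ (c : Cx) (E : Ex c), c.GI → E.gx.OK → E.gx.GI →
  E.gx.Full E.gx.TupU → c.CL
def FLXR : Prop := Fd → AzX → Rc → ThC → ∀ (c : Cx) (E : Ex c), c.GI → E.gx.OK → E.gx.GI →
  E.gx.Full E.gx.Tup1 → c.FLX

/-- the output of sections 1 to 4 -/
structure Sec14 : Prop where
  az : AzX
  tz : ThC
  li : LIS
  col : ColS
  gi : ∀ c : Cx, c.GI
  sat : T5h.Sat5
  cl : ∀ c : Cx, c.Sat → c.CL
  flx : ∀ c : Cx, c.Sat → c.FLX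
  t5 : ∀ c : Cx, c.Sat → c.Fail → ∃ g, c.T5 g
  core : Step5 → CoreS

/-! ### assembly -/

/-- every line is the line of a context -/
def mkCx (fd : Fd) {ν : Wt} {U : Ultrafilter ℕ} (hU : (U : Filter ℕ) ≤ atTop) (uw : UW ν)
    {X : Sys} {B : MeasurableSpace X.X} (L : Ln ν U X) (hX : Nice X) (hB : KC X B) : Cx where
  ν := ν
  U := U
  hU := hU
  uw := uw
  X := X
  B := B
  nice := hX
  kc := hB
  L := L
  L2 := (fd.line ν U L.W L.nice).some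
  Bc := fun j => (fd.la.ex (fd.line ν U L.W L.nice).some L _ (L.emb (zs j))).choose
  lift := fun j => (fd.la.ex (fd.line ν U L.W L.nice).some L _ (L.emb (zs j))).choose_spec

theorem tupU1 (g : Gx) (j : I3) (φ : I3 → (g.W j).X → ℂ) (h : g.TupU j φ) : g.Tup1 j φ := by
  obtain ⟨⟨u, hu⟩, h0⟩ := h
  rintro (_ | q)
  · exact h0
  rw [hu q]
  refine ⟨?_, Eventually.of_forall fun x => Circle.norm_coe _⟩
  have h1 : Measurable[MeasurableSpace.comap (g.π j q) (g.X j).ms]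
      fun w => ufn (u q) (g.π j q w) :=
    Measurable.comp (g := fun ω => ((u q).1 ω : ℂ)) (u q).2 (comap_measurable _)
  have h2 : MeasurableSpace.comap (g.π j q) (g.X j).ms ≤ g.Pc j (some q) ⊔ g.B2 j :=
    le_trans (le_sup_left (b := nul (g.W j).μ)) le_sup_left
  exact (h1.mono h2 le_rfl).stronglyMeasurable.aestronglyMeasurable

theorem sec14_of (fd : Fd) (rc : Rc) (sel : SelS) (apx : ApxS) (sa : SatA) (ps : PairS)
    (azc : AzC) (G : GGzS) (az : AzXR) (tz : ThCR) (li : LIR) (col : ColR) (gi : GIR5) (r2p : R2PR5) (f2 : F2R5)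
    (sat : SatR5) (core : CoreR) (ex : ExR) (ok : OkR) (gxi : GxIR) (f3 : F3R5) (hz : HG3R)
    (hzx' : HX3R) (gsp1 : GSp1R5) (full : FullR5) (rep : RepR5) (gspU : GSpUR5) (f4 : F4R)
    (t5 : T5R5) (cl : CLR) (flx : FLXR) : Sec14 := by
  have hzx : HX3S := hzx' ⟨fd.a, fd.t, fd.d, fd.c⟩
  have a := az fd azc
  have t := tz fd rc
  have l := li fd a ps
  have cs : ColS := col fd
  have g := gi fd l cs
  have s := sat fd sa a
  have h2 : F2S := fun ν U hU uw X B L hX hB hs =>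
    f2 fd a (mkCx fd hU uw L hX hB) (g _) hs (r2p fd _)
  have key : ∀ c : Cx, c.Sat → c.CL ∧ c.FLX ∧ (c.Fail → ∃ u, c.T5 u) := by
    intro c hs
    obtain ⟨E⟩ := ex fd a s c
    have o := ok fd a c E (g c) hs
    have i := gxi fd a l cs _ o
    obtain ⟨qc, h⟩ := hz fd a h2 _ o i (f3 fd a _ o i)
    have g1 := gsp1 fd a rc sel G _ o i h
    have fu1 := full fd a rc hzx _ _ o i h (fun _ _ e => e) g1
    have gU := gspU fd a rc _ o i h g1 fu1 (rep fd a rc sel apx _ o i fu1)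
    have fuU := full fd a rc hzx _ _ o i h (tupU1 _) gU
    exact ⟨cl fd a rc t c E (g c) o i fuU, flx fd a rc t c E (g c) o i fu1,
      fun hf => t5 fd a rc t c E (g c) o i gU (f4 fd a hzx c E (g c) o i qc h hf)⟩
  exact ⟨a, t, l, cs, g, s, fun c hs => (key c hs).1, fun c hs => (key c hs).2.1,
    fun c hs => (key c hs).2.2, core fd a s⟩

end T5y

end

end PkSpec

section PkGxU

/-! Elementary facts on the saturated grid. -/

set_option autoImplicit false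
set_option linter.unusedVariables false
set_option warn.classDefReducibility false

open MeasureTheory ProbabilityTheory Filter Topology Function Finset ComplexConjugate
open scoped BigOperators
open Fib27 (BM sup pr Oc Orow F23 LInd Mem)
open Pool.Agent.MP_154433_an.SG (Uni ufn)

noncomputable section

namespace T5y

open T3x

namespace GxU

open T3x.RepL (um_bm um_mono um_mul um_cj um_pr bm_of)

/-- the slots of the columns are measurable -/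
def Lz (g : Gx) : Prop := ∀ j k, g.Pc j k ≤ (g.W j).ms

theorem three : 3 ≤ Fintype.card (Option Bool) := le_of_eq (by rfl)

variable {g : Gx}

theorem mA (g : Gx) (q : Bool) : MeasurePreserving (g.A q) g.W2.μ g.W1.μ := (g.L2.emb _).mp

theorem mP (g : Gx) (j : Option Bool) (k : Bool) :
    MeasurePreserving (g.π j k) (g.W j).μ (g.X j).μ := ((g.L j).emb _).mp

theorem mB (o : g.OK) (j : Option Bool) : MeasurePreserving (g.Bc j) g.W2.μ (g.W j).μ :=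
  (o.lift j).emb.mp

theorem mp (o : g.OK) (j : Option Bool) : MeasurePreserving (g.p j) g.W1.μ (g.X j).μ :=
  (o.adm j).emb.mp

theorem b1_le (o : g.OK) : g.B1 ≤ g.W1.ms := (o.adm none).kc.1.le

theorem facB2 (F : Fd) (o : g.OK) (j : Option Bool) : Fac (g.W j) (g.B2 j) :=
  (F.h.kc (g.W j) _ (g.L j).nice (F.lb.fac (g.L j) (g.B j) (o.kc j).1)).1

theorem leβ (F : Fd) (o : g.OK) : g.β ≤ g.W2.ms :=
  (F.h.kc g.W2 _ g.L2.nice (F.lb.fac g.L2 g.B1 (o.adm none).kc.1)).1.le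

theorem leP1 (F : Fd) (o : g.OK) (j : Option Bool) : g.P1 j ≤ g.W1.ms :=
  F.a.pull_le _ _ _ _ (mp o j) le_rfl

theorem leG (F : Fd) (o : g.OK) (z : Lz g) (k j : Option Bool) : g.G k j ≤ g.W2.ms :=
  F.a.pull_le _ _ _ _ (mB o j) (z j k)

theorem top (F : Fd) (o : g.OK) (z : Lz g) (k j : Option Bool) : g.G k j ⊔ g.β ≤ g.W2.ms :=
  sup_le (leG F o z k j) (leβ F o)

theorem tup_um (F : Fd) (o : g.OK) (z : Lz g) {j : Option Bool}
    {φ : Option Bool → (g.W j).X → ℂ} (h : g.Tup1 j φ) (k : Option Bool) :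
    Um (g.W j).ms (g.W j).μ (φ k) :=
  um_mono (h k) (sup_le (z j k) (facB2 F o j).le)

theorem bm_col (F : Fd) (o : g.OK) (gi : g.GI) {i k : Option Bool} {φ : (g.W i).X → ℂ}
    (h : BM (g.W i).μ (g.Pc i k ⊔ g.B2 i) φ) : BM g.W2.μ (g.G k i ⊔ g.β) fun x => φ (g.Bc i x) := by
  have h1 := F.a.bm_comp _ g.W2.μ (g.W i).μ _ _ (mB o i) h
  rw [F.a.pull_sup] at h1
  exact h1.mono (sup_le_sup_left (gi.colB i) _)

theorem um_col (F : Fd) (o : g.OK) (gi : g.GI) {i : Option Bool}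
    {φ : Option Bool → (g.W i).X → ℂ} (h : g.Tup1 i φ) (k : Option Bool) :
    Um (g.G k i ⊔ g.β) g.W2.μ fun x => φ k (g.Bc i x) :=
  ⟨(bm_col F o gi (um_bm (h k))).1, (mB o i).quasiMeasurePreserving.ae (h k).2⟩

theorem um_row (F : Fd) (o : g.OK) (gi : g.GI) (k : Bool) {i : Option Bool} {φ : g.W1.X → ℂ}
    (h : Um (g.P1 i ⊔ g.B1) g.W1.μ φ) :
    Um (g.G (some k) i ⊔ g.β) g.W2.μ fun x => φ (g.A k x) := by
  refine ⟨?_, (mA g k).quasiMeasurePreserving.ae h.2⟩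
  have h1 := F.a.bm_comp _ g.W2.μ g.W1.μ _ _ (mA g k) (um_bm h)
  rw [F.a.pull_sup, ← gi.grow] at h1
  exact (h1.mono (sup_le_sup_left (gi.rowB k) _)).1

theorem G_eq (F : Fd) (o : g.OK) (gi : g.GI) (k : Bool) (j : Option Bool) :
    g.G (some k) j = pull g.W2.μ (g.p j ∘ g.A k) (g.X j).ms :=
  (gi.grow k j).trans (F.a.pull_comp _ _ _ _ _ (mA g k))

theorem clG (o : g.OK) (z : Lz g) (gi : g.GI) (k : Option Bool) : CLine g.β (g.G k) g.W2.μ := by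
  intro S hS f hf
  refine gi.cols S hS f fun i hi => (hf i hi).mono ?_
  exact sup_le_sup_right (MeasurableSpace.comap_mono (z i k)) _

theorem msA (gi : g.GI) (q : Bool) {D : Set g.W1.X} (hD : MeasurableSet[g.B1] D) :
    MeasurableSet[g.β] (g.A q ⁻¹' D) :=
  (le_sup_left.trans (gi.rowB q) : g.B1.comap (g.A q) ≤ g.β) _ ⟨D, hD, rfl⟩

theorem msB (gi : g.GI) (j : Option Bool) {D : Set (g.W j).X} (hD : MeasurableSet[g.B2 j] D) :
    MeasurableSet[g.β] (g.Bc j ⁻¹' D) :=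
  (le_sup_left.trans (gi.colB j) : (g.B2 j).comap (g.Bc j) ≤ g.β) _ ⟨D, hD, rfl⟩

theorem bm_B (o : g.OK) (j : Option Bool) {φ : (g.W j).X → ℂ} (h : BM (g.W j).μ (g.W j).ms φ) :
    BM g.W2.μ g.W2.ms fun x => φ (g.Bc j x) := GSp1P.bm_up (mB o j) h

theorem bm_A (k : Bool) {φ : g.W1.X → ℂ} (h : BM g.W1.μ g.W1.ms φ) :
    BM g.W2.μ g.W2.ms fun x => φ (g.A k x) := GSp1P.bm_up (mA g k) h

theorem th_meas (r : Rc) (gi : g.GI) (i : Option Bool) (φ : Option Bool → (g.W i).X → ℂ) :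
    MeasurableSet[g.β] (g.Bc i ⁻¹' g.Θ i φ) := msB gi i (r.meas _ _ _)

/-- on the event of a column tuple the product is a function of the base -/
theorem th_eq (F : Fd) (r : Rc) (o : g.OK) (z : Lz g) (gi : g.GI) {i : Option Bool}
    {φ : Option Bool → (g.W i).X → ℂ} (h : g.Tup1 i φ) :
    ∃ κ, BM g.W2.μ g.β κ ∧ ∀ᵐ x ∂g.W2.μ, x ∈ g.Bc i ⁻¹' g.Θ i φ → ∏ k, φ k (g.Bc i x) = κ x := by
  have hu : Um (g.W i).ms (g.W i).μ (pr φ univ) := um_pr _ (tup_um F o z h)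
  refine ⟨fun x => ((g.W i).μ[pr φ univ | g.B2 i]) (g.Bc i x),
    (F.a.bm_comp _ g.W2.μ (g.W i).μ _ _ (mB o i) ((um_bm hu).ce (g.B2 i))).mono (gi.colB i), ?_⟩
  exact (mB o i).quasiMeasurePreserving.ae (r.eq (g.B2 i) (g.W i).μ _ (facB2 F o i).le hu)

theorem swap (F : Fd) (o : g.OK) (gi : g.GI) (k : Bool) (j : Option Bool) {y : (g.X j).X → ℂ}
    (my : Measurable y) :
    (fun x => y (g.p j (g.A k x))) =ᵐ[g.W2.μ] fun x => y (g.π j k (g.Bc j x)) :=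
  F.a.keq_fun (g.X j).ms g.W2.μ (g.X j).μ _ _ y ((mp o j).comp (mA g k))
    ((mP g j k).comp (mB o j)) (gi.col k j) my.aestronglyMeasurable

/-- dual functions are bounded functions of their cell -/
theorem dv_bm {Ω ι : Type} [Fintype ι] [DecidableEq ι] {β : MeasurableSpace Ω}
    {G : ι → ι → MeasurableSpace Ω} {q j : ι} {m0 : MeasurableSpace Ω} {μ : Measure Ω}
    [IsProbabilityMeasure μ] {h : Ω → ℂ} (hle : ∀ k, G q k ⊔ β ≤ m0) (hV : DV β G q j μ h) :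
    BM μ (G q j ⊔ β) h := by
  obtain ⟨j1, b, -, hb, -, e⟩ := hV
  exact ((BM.pr fun k _ => (hb k).mono (hle k)).ce _).congr e.symm

end GxU

end T5y

end

end PkGxU
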